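import Pool.Agent.Lib.MP_a61a4c_gt.BrkA

/-!
Row pw-BrkB: brackets of related vector fields; functions on the base.
-/

set_option autoImplicit false

open Bundle Filter Function Topology
open scoped Manifold ContDiff Bundle

noncomputable section

namespace Pool.Agent.PW

variable {E : Type*} [NormedAddCommGroup E] [NormedSpace ℝ E] [CompleteSpace E]
variable {M : Type*} [TopologicalSpace M] [ChartedSpace E M] [IsManifold 𝓘(ℝ, E) ∞ M]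
variable {E' : Type*} [NormedAddCommGroup E'] [NormedSpace ℝ E'] [CompleteSpace E']
variable {B : Type*} [TopologicalSpace B] [ChartedSpace E' B] [IsManifold 𝓘(ℝ, E') ∞ B]
variable {G : Type*} [NormedAddCommGroup G] [NormedSpace ℝ G]

omit [CompleteSpace E] [CompleteSpace E'] in
private theorem brkB_chain {f : M → B} {g : B → ℝ} {p : M}
    (hf : ContMDiff 𝓘(ℝ, E) 𝓘(ℝ, E') ∞ f) (hg : SmFn E' g (f p)) (v : TangentSpace 𝓘(ℝ, E) p) :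
    mvfderiv 𝓘(ℝ, E) (fun q => g (f q)) p v =
      mvfderiv 𝓘(ℝ, E') g (f p) (mfderiv 𝓘(ℝ, E) 𝓘(ℝ, E') f p v) := by
  have h1 : MDifferentiableAt 𝓘(ℝ, E) 𝓘(ℝ, E') f p := (hf p).mdifferentiableAt (by simp)
  exact mvfderiv_comp_apply p hg.mdiff h1 v

omit [CompleteSpace E] [CompleteSpace E'] in
private theorem brkB_smfn {f : M → B} {g : B → ℝ} {p : M}
    (hf : ContMDiff 𝓘(ℝ, E) 𝓘(ℝ, E') ∞ f) (hg : SmFn E' g (f p)) :
    SmFn E (fun q => g (f q)) p := by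
  have h1 : ∀ᶠ q in 𝓝 p, ContMDiffAt 𝓘(ℝ, E') 𝓘(ℝ, ℝ) ∞ g (f q) :=
    (hf.continuous.continuousAt).eventually hg
  filter_upwards [h1] with q hq
  exact hq.comp q (hf q)

private theorem brkB_real {f : M → B} {g : B → ℝ} {p : M} {X Y : Π x : M, TangentSpace 𝓘(ℝ, E) x}
    {X' Y' : Π x : B, TangentSpace 𝓘(ℝ, E') x}
    (hf : ContMDiff 𝓘(ℝ, E) 𝓘(ℝ, E') ∞ f) (hg : SmFn E' g (f p))
    (hX : SmoothNear X p) (hY : SmoothNear Y p) (hX' : SmoothNear X' (f p))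
    (hY' : SmoothNear Y' (f p))
    (rX : ∀ᶠ q in 𝓝 p, mfderiv 𝓘(ℝ, E) 𝓘(ℝ, E') f q (X q) = X' (f q))
    (rY : ∀ᶠ q in 𝓝 p, mfderiv 𝓘(ℝ, E) 𝓘(ℝ, E') f q (Y q) = Y' (f q)) :
    mvfderiv 𝓘(ℝ, E') g (f p)
        (mfderiv 𝓘(ℝ, E) 𝓘(ℝ, E') f p (VectorField.mlieBracket 𝓘(ℝ, E) X Y p)) =
      mvfderiv 𝓘(ℝ, E') g (f p) (VectorField.mlieBracket 𝓘(ℝ, E') X' Y' (f p)) := by
  have hgf := brkB_smfn hf hg
  have hev : ∀ᶠ q in 𝓝 p, SmFn E' g (f q) := (hf.continuous.continuousAt).eventually hg.ev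
  rw [← brkB_chain hf hg, mvfderiv_bracket hgf hX hY, mvfderiv_bracket hg hX' hY']
  have eY : (fun q => mvfderiv 𝓘(ℝ, E) (fun q => g (f q)) q (Y q)) =ᶠ[𝓝 p]
      fun q => mvfderiv 𝓘(ℝ, E') g (f q) (Y' (f q)) := by
    filter_upwards [rY, hev] with q hq hq'
    rw [brkB_chain hf hq', hq]
  have eX : (fun q => mvfderiv 𝓘(ℝ, E) (fun q => g (f q)) q (X q)) =ᶠ[𝓝 p]
      fun q => mvfderiv 𝓘(ℝ, E') g (f q) (X' (f q)) := by
    filter_upwards [rX, hev] with q hq hq'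
    rw [brkB_chain hf hq', hq]
  rw [mvfderiv_congr eY, mvfderiv_congr eX]
  have h1 := brkB_chain hf (hg.deriv hY') (X p)
  have h2 := brkB_chain hf (hg.deriv hX') (Y p)
  rw [rX.self_of_nhds] at h1
  rw [rY.self_of_nhds] at h2
  rw [h1, h2]

/-- brackets of related fields are related: use `mvfderiv_bracket` for `ψ ∘ f` and for `ψ`, where
`ψ = extChartAt 𝓘(ℝ, E') (f p)` -/
theorem bracket_related {f : M → B} {p : M} {X Y : Π x : M, TangentSpace 𝓘(ℝ, E) x}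
    {X' Y' : Π x : B, TangentSpace 𝓘(ℝ, E') x}
    (hf : ContMDiff 𝓘(ℝ, E) 𝓘(ℝ, E') ∞ f)
    (hX : SmoothNear X p) (hY : SmoothNear Y p) (hX' : SmoothNear X' (f p))
    (hY' : SmoothNear Y' (f p))
    (rX : ∀ᶠ q in 𝓝 p, mfderiv 𝓘(ℝ, E) 𝓘(ℝ, E') f q (X q) = X' (f q))
    (rY : ∀ᶠ q in 𝓝 p, mfderiv 𝓘(ℝ, E) 𝓘(ℝ, E') f q (Y q) = Y' (f q)) :
    mfderiv 𝓘(ℝ, E) 𝓘(ℝ, E') f p (VectorField.mlieBracket 𝓘(ℝ, E) X Y p) =
      VectorField.mlieBracket 𝓘(ℝ, E') X' Y' (f p) := by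
  have key : ∀ (l : E' →L[ℝ] ℝ) (v : TangentSpace 𝓘(ℝ, E') (f p)),
      SmFn E' (fun b => l (extChartAt 𝓘(ℝ, E') (f p) b)) (f p) ∧
      mvfderiv 𝓘(ℝ, E') (fun b => l (extChartAt 𝓘(ℝ, E') (f p) b)) (f p) v =
        l (show E' from v) := by
    intro l v
    have : IsManifold 𝓘(ℝ, E') 1 B := IsManifold.of_le (n := ∞) (by norm_num)
    constructor
    · have h1 : ∀ᶠ b in 𝓝 (f p), b ∈ (chartAt E' (f p)).source :=
        (chartAt E' (f p)).open_source.mem_nhds (mem_chart_source E' (f p))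
      filter_upwards [h1] with b hb
      have h2 : ContMDiffAt 𝓘(ℝ, E') 𝓘(ℝ, E') ∞ (extChartAt 𝓘(ℝ, E') (f p)) b :=
        contMDiffAt_extChartAt' hb
      exact (l.contMDiff.contMDiffAt).comp b h2
    · have h3 : MDifferentiableAt 𝓘(ℝ, E') 𝓘(ℝ, E') (extChartAt 𝓘(ℝ, E') (f p)) (f p) :=
        mdifferentiableAt_extChartAt (mem_chart_source E' (f p))
      have h4 : MDifferentiableAt 𝓘(ℝ, E') 𝓘(ℝ, ℝ) l (extChartAt 𝓘(ℝ, E') (f p) (f p)) :=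
        l.mdifferentiableAt
      have h5 := mvfderiv_comp_apply (f p) h4 h3 v
      refine h5.trans ?_
      rw [mfderiv_extChartAt_self]
      change mfderiv 𝓘(ℝ, E') 𝓘(ℝ, ℝ) l (extChartAt 𝓘(ℝ, E') (f p) (f p)) v = _
      rw [mfderiv_eq_fderiv, l.fderiv]
      rfl
  have h : ∀ l : E' →L[ℝ] ℝ,
      l (show E' from mfderiv 𝓘(ℝ, E) 𝓘(ℝ, E') f p (VectorField.mlieBracket 𝓘(ℝ, E) X Y p)) =
      l (show E' from VectorField.mlieBracket 𝓘(ℝ, E') X' Y' (f p)) := by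
    intro l
    rw [← (key l _).2, ← (key l _).2]
    exact brkB_real hf (key l 0).1 hX hY hX' hY' rX rY
  exact (SeparatingDual.eq_iff_forall_dual_eq (R := ℝ) (V := E')).2 h

/-- the chain rule for a function on the base -/
theorem mvfderiv_comp_base {f : M → B} {g : B → ℝ} {p : M}
    (hf : ContMDiff 𝓘(ℝ, E) 𝓘(ℝ, E') ∞ f) (hg : SmFn E' g (f p)) (v : TangentSpace 𝓘(ℝ, E) p) :
    mvfderiv 𝓘(ℝ, E) (fun q => g (f q)) p v =
      mvfderiv 𝓘(ℝ, E') g (f p) (mfderiv 𝓘(ℝ, E) 𝓘(ℝ, E') f p v) :=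
  brkB_chain hf hg v

theorem SmFn.comp_base {f : M → B} {g : B → ℝ} {p : M}
    (hf : ContMDiff 𝓘(ℝ, E) 𝓘(ℝ, E') ∞ f) (hg : SmFn E' g (f p)) :
    SmFn E (fun q => g (f q)) p :=
  brkB_smfn hf hg

end Pool.Agent.PW
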