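import Pool.Agent.Lib.MP_a61a4c_gt.Calc

/-!
Row pw-BrkA: the Lie bracket and vector valued functions.
-/

set_option autoImplicit false

open Bundle Filter Function Topology
open scoped Manifold ContDiff Bundle

noncomputable section

namespace Pool.Agent.PW

variable {E : Type*} [NormedAddCommGroup E] [NormedSpace ℝ E] [CompleteSpace E]
variable {M : Type*} [TopologicalSpace M] [ChartedSpace E M] [IsManifold 𝓘(ℝ, E) ∞ M]
variable {E' : Type*} [NormedAddCommGroup E'] [NormedSpace ℝ E'] [CompleteSpace E']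
variable {B : Type*} [TopologicalSpace B] [ChartedSpace E' B] [IsManifold 𝓘(ℝ, E') ∞ B]
variable {G : Type*} [NormedAddCommGroup G] [NormedSpace ℝ G]

/-- the vector field in the chart at `p` -/
private def brkA_loc (p : M) (Z : Π x : M, TangentSpace 𝓘(ℝ, E) x) (e : E) : E :=
  VectorField.mpullbackWithin 𝓘(ℝ, E) 𝓘(ℝ, E) (extChartAt 𝓘(ℝ, E) p).symm Z
    (Set.range 𝓘(ℝ, E)) e

private theorem brkA_two : (2 : WithTop ℕ∞) ≤ ∞ := by
  have : (2 : WithTop ℕ∞) = ((2 : ℕ∞) : WithTop ℕ∞) := rfl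
  rw [this]
  exact_mod_cast le_top

omit [CompleteSpace E] in
set_option backward.isDefEq.respectTransparency false in
private theorem brkA_chart (p : M) {h : M → G} (Z : Π x : M, TangentSpace 𝓘(ℝ, E) x) {e : E}
    (he : e ∈ (extChartAt 𝓘(ℝ, E) p).target)
    (hh : MDifferentiableAt 𝓘(ℝ, E) 𝓘(ℝ, G) h ((extChartAt 𝓘(ℝ, E) p).symm e)) :
    mvfderiv 𝓘(ℝ, E) h ((extChartAt 𝓘(ℝ, E) p).symm e)
      (Z ((extChartAt 𝓘(ℝ, E) p).symm e)) =
      fderiv ℝ (h ∘ (extChartAt 𝓘(ℝ, E) p).symm) e (brkA_loc p Z e) := by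
  have : IsManifold 𝓘(ℝ, E) 1 M := IsManifold.of_le (n := ∞) (by norm_num)
  have h1 : MDifferentiableWithinAt 𝓘(ℝ, E) 𝓘(ℝ, E) (extChartAt 𝓘(ℝ, E) p).symm
      (Set.range 𝓘(ℝ, E)) e := mdifferentiableWithinAt_extChartAt_symm he
  have hU : UniqueMDiffWithinAt 𝓘(ℝ, E) (Set.range 𝓘(ℝ, E)) e := by
    rw [ModelWithCorners.range_eq_univ]
    exact uniqueMDiffWithinAt_univ _
  have h2 := mfderiv_comp_mfderivWithin e hh h1 hU
  have hinv := isInvertible_mfderivWithin_extChartAt_symm (I := 𝓘(ℝ, E)) (x := p) he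
  have h3 : Z ((extChartAt 𝓘(ℝ, E) p).symm e) =
      mfderivWithin 𝓘(ℝ, E) 𝓘(ℝ, E) (extChartAt 𝓘(ℝ, E) p).symm (Set.range 𝓘(ℝ, E)) e
        (brkA_loc (E := E) (M := M) p Z e) := hinv.inverse_apply_eq.1 rfl
  have h4 : mfderivWithin 𝓘(ℝ, E) 𝓘(ℝ, G) (h ∘ (extChartAt 𝓘(ℝ, E) p).symm)
      (Set.range 𝓘(ℝ, E)) e = fderiv ℝ (h ∘ (extChartAt 𝓘(ℝ, E) p).symm) e := by
    rw [ModelWithCorners.range_eq_univ, mfderivWithin_univ, mfderiv_eq_fderiv]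
  rw [← h4, h2]
  show mfderiv 𝓘(ℝ, E) 𝓘(ℝ, G) h ((extChartAt 𝓘(ℝ, E) p).symm e)
    (Z ((extChartAt 𝓘(ℝ, E) p).symm e)) = _
  rw [h3]
  rfl

private theorem brkA_diff {p : M} {Z : Π x : M, TangentSpace 𝓘(ℝ, E) x} (hZ : SmoothNear Z p) :
    DifferentiableAt ℝ (brkA_loc p Z) (extChartAt 𝓘(ℝ, E) p p) := by
  have : IsManifold 𝓘(ℝ, E) 2 M := IsManifold.of_le (n := ∞) brkA_two
  have h1 := hZ.mdiff
  rw [← mdifferentiableWithinAt_univ] at h1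
  have h2 := h1.differentiableWithinAt_mpullbackWithin_vectorField
  rw [ModelWithCorners.range_eq_univ, Set.preimage_univ, Set.inter_univ,
    differentiableWithinAt_univ] at h2
  unfold brkA_loc
  rw [ModelWithCorners.range_eq_univ]
  exact h2

omit [CompleteSpace E] in
private theorem brkA_smooth {g : M → G} {p : M}
    (hg : ∀ᶠ q in 𝓝 p, ContMDiffAt 𝓘(ℝ, E) 𝓘(ℝ, G) ∞ g q) :
    ∀ᶠ e in 𝓝 (extChartAt 𝓘(ℝ, E) p p), e ∈ (extChartAt 𝓘(ℝ, E) p).target ∧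
      ContMDiffAt 𝓘(ℝ, E) 𝓘(ℝ, G) ∞ g ((extChartAt 𝓘(ℝ, E) p).symm e) ∧
      ContDiffAt ℝ ∞ (g ∘ (extChartAt 𝓘(ℝ, E) p).symm) e := by
  have h1 : ∀ᶠ e in 𝓝 (extChartAt 𝓘(ℝ, E) p p), e ∈ (extChartAt 𝓘(ℝ, E) p).target :=
    (isOpen_extChartAt_target p).mem_nhds (mem_extChartAt_target p)
  have hc : ContinuousAt (extChartAt 𝓘(ℝ, E) p).symm (extChartAt 𝓘(ℝ, E) p p) :=
    continuousAt_extChartAt_symm p
  have h2 : ∀ᶠ e in 𝓝 (extChartAt 𝓘(ℝ, E) p p),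
      ContMDiffAt 𝓘(ℝ, E) 𝓘(ℝ, G) ∞ g ((extChartAt 𝓘(ℝ, E) p).symm e) := by
    apply hc.eventually
    rw [extChartAt_to_inv]
    exact hg
  filter_upwards [h1, h2] with e he hge
  refine ⟨he, hge, ?_⟩
  have h3 : ContMDiffAt 𝓘(ℝ, E) 𝓘(ℝ, E) ∞ (extChartAt 𝓘(ℝ, E) p).symm e :=
    (contMDiffOn_extChartAt_symm p).contMDiffAt
      ((isOpen_extChartAt_target p).mem_nhds he)
  exact (hge.comp e h3).contDiffAt

/-- the derivative of the derivative along a field, in the chart -/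
private theorem brkA_second {g : M → G} {X Y : Π x : M, TangentSpace 𝓘(ℝ, E) x} {p : M}
    (hg : ∀ᶠ q in 𝓝 p, ContMDiffAt 𝓘(ℝ, E) 𝓘(ℝ, G) ∞ g q) (hY : SmoothNear Y p) :
    mvfderiv 𝓘(ℝ, E) (fun q => mvfderiv 𝓘(ℝ, E) g q (Y q)) p (X p) =
      fderiv ℝ (fderiv ℝ (g ∘ (extChartAt 𝓘(ℝ, E) p).symm)) (extChartAt 𝓘(ℝ, E) p p)
        (brkA_loc p X (extChartAt 𝓘(ℝ, E) p p)) (brkA_loc p Y (extChartAt 𝓘(ℝ, E) p p)) +
      fderiv ℝ (g ∘ (extChartAt 𝓘(ℝ, E) p).symm) (extChartAt 𝓘(ℝ, E) p p)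
        (fderiv ℝ (brkA_loc p Y) (extChartAt 𝓘(ℝ, E) p p)
          (brkA_loc p X (extChartAt 𝓘(ℝ, E) p p))) := by
  have : IsManifold 𝓘(ℝ, E) 1 M := IsManifold.of_le (n := ∞) (by norm_num)
  have hsm := brkA_smooth hg
  set F : E → G := g ∘ (extChartAt 𝓘(ℝ, E) p).symm with hF
  set e0 : E := extChartAt 𝓘(ℝ, E) p p with he0
  have hF0 : ContDiffAt ℝ ∞ F e0 := hsm.self_of_nhds.2.2
  have hdF : DifferentiableAt ℝ (fderiv ℝ F) e0 :=
    (hF0.fderiv_right (m := 1) (by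
      have : (1 : WithTop ℕ∞) + 1 = ((2 : ℕ∞) : WithTop ℕ∞) := by norm_num
      rw [this]; exact_mod_cast le_top)).differentiableAt (by norm_num)
  have hdY := brkA_diff hY
  -- the function in the chart
  set k : E → G := fun e => fderiv ℝ F e (brkA_loc p Y e) with hk
  have hkd : HasFDerivAt k ((fderiv ℝ F e0).comp (fderiv ℝ (brkA_loc p Y) e0) +
      (fderiv ℝ (fderiv ℝ F) e0).flip (brkA_loc p Y e0)) e0 :=
    hdF.hasFDerivAt.clm_apply hdY.hasFDerivAt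
  have hloc : ∀ᶠ e in 𝓝 e0, ((fun q => mvfderiv 𝓘(ℝ, E) g q (Y q)) ∘
      (extChartAt 𝓘(ℝ, E) p).symm) e = k e := by
    filter_upwards [hsm] with e he
    exact brkA_chart p Y he.1 (he.2.1.mdifferentiableAt (by norm_num))
  -- differentiability of the function on the manifold
  have hmd : MDifferentiableAt 𝓘(ℝ, E) 𝓘(ℝ, G) (fun q => mvfderiv 𝓘(ℝ, E) g q (Y q)) p := by
    have h1 : MDifferentiableAt 𝓘(ℝ, E) 𝓘(ℝ, E) (extChartAt 𝓘(ℝ, E) p) p :=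
      mdifferentiableAt_extChartAt (mem_chart_source E p)
    have h2 : MDifferentiableAt 𝓘(ℝ, E) 𝓘(ℝ, G) k (extChartAt 𝓘(ℝ, E) p p) :=
      hkd.differentiableAt.mdifferentiableAt
    have h3 : MDifferentiableAt 𝓘(ℝ, E) 𝓘(ℝ, G) (k ∘ extChartAt 𝓘(ℝ, E) p) p := h2.comp p h1
    refine h3.congr_of_eventuallyEq ?_
    have h4 : ∀ᶠ q in 𝓝 p, q ∈ (extChartAt 𝓘(ℝ, E) p).source :=
      (isOpen_extChartAt_source p).mem_nhds (mem_extChartAt_source p)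
    have h5 : ContinuousAt (extChartAt 𝓘(ℝ, E) p) p := continuousAt_extChartAt p
    filter_upwards [h4, h5.eventually hloc] with q hq hq'
    rw [Function.comp_apply, (extChartAt 𝓘(ℝ, E) p).left_inv hq] at hq'
    exact hq'
  have hp : (extChartAt 𝓘(ℝ, E) p).symm e0 = p := extChartAt_to_inv p
  have hmd' : MDifferentiableAt 𝓘(ℝ, E) 𝓘(ℝ, G) (fun q => mvfderiv 𝓘(ℝ, E) g q (Y q))
      ((extChartAt 𝓘(ℝ, E) p).symm e0) := by rw [hp]; exact hmd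
  have hkey := brkA_chart p X (mem_extChartAt_target p) hmd'
  have hcast : mvfderiv 𝓘(ℝ, E) (fun q => mvfderiv 𝓘(ℝ, E) g q (Y q)) p (X p) =
      mvfderiv 𝓘(ℝ, E) (fun q => mvfderiv 𝓘(ℝ, E) g q (Y q))
        ((extChartAt 𝓘(ℝ, E) p).symm e0) (X ((extChartAt 𝓘(ℝ, E) p).symm e0)) := by
    rw [hp]
  rw [hcast, hkey, Filter.EventuallyEq.fderiv_eq hloc, hkd.fderiv]
  rw [add_comm]
  rfl

omit [CompleteSpace E] in
set_option backward.isDefEq.respectTransparency false in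
private theorem brkA_lie (X Y : Π x : M, TangentSpace 𝓘(ℝ, E) x) (p : M) :
    VectorField.mlieBracket 𝓘(ℝ, E) X Y p =
        VectorField.lieBracket ℝ (brkA_loc p X) (brkA_loc p Y) (extChartAt 𝓘(ℝ, E) p p) := by
  have : IsManifold 𝓘(ℝ, E) 1 M := IsManifold.of_le (n := ∞) (by norm_num)
  rw [← VectorField.mlieBracketWithin_univ, VectorField.mlieBracketWithin_apply,
    mfderiv_extChartAt_self, ContinuousLinearMap.inverse_id, ModelWithCorners.range_eq_univ,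
    Set.preimage_univ, Set.inter_univ, VectorField.lieBracketWithin_univ]
  unfold brkA_loc
  rw [ModelWithCorners.range_eq_univ]
  rfl

/-- `[X, Y] g = X (Y g) - Y (X g)` for a vector valued smooth function `g`. In the chart `φ` at `p`
(`mlieBracket` is defined by it): with `F = g ∘ φ⁻¹` and the transported fields `x`, `y`,
`DF (Dy x - Dx y) = D(DF y) x - D(DF x) y` by the symmetry of the second derivative. -/
theorem mvfderiv_bracket {g : M → G} {X Y : Π x : M, TangentSpace 𝓘(ℝ, E) x} {p : M}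
    (hg : ∀ᶠ q in 𝓝 p, ContMDiffAt 𝓘(ℝ, E) 𝓘(ℝ, G) ∞ g q)
    (hX : SmoothNear X p) (hY : SmoothNear Y p) :
    mvfderiv 𝓘(ℝ, E) g p (VectorField.mlieBracket 𝓘(ℝ, E) X Y p) =
      mvfderiv 𝓘(ℝ, E) (fun q => mvfderiv 𝓘(ℝ, E) g q (Y q)) p (X p)
      - mvfderiv 𝓘(ℝ, E) (fun q => mvfderiv 𝓘(ℝ, E) g q (X q)) p (Y p) := by
  have : IsManifold 𝓘(ℝ, E) 1 M := IsManifold.of_le (n := ∞) (by norm_num)
  rw [brkA_second hg hY, brkA_second hg hX]
  have hsm := brkA_smooth hg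
  have hF0 := hsm.self_of_nhds.2.2
  have hsymm := (hF0.isSymmSndFDerivAt (by
    rw [minSmoothness_of_isRCLikeNormedField]; exact brkA_two)) (brkA_loc p X (extChartAt 𝓘(ℝ, E) p p))
    (brkA_loc p Y (extChartAt 𝓘(ℝ, E) p p))
  rw [hsymm]
  have hL : mvfderiv 𝓘(ℝ, E) g p (VectorField.mlieBracket 𝓘(ℝ, E) X Y p) =
      fderiv ℝ (g ∘ (extChartAt 𝓘(ℝ, E) p).symm) (extChartAt 𝓘(ℝ, E) p p)
        (VectorField.lieBracket ℝ (brkA_loc p X) (brkA_loc p Y) (extChartAt 𝓘(ℝ, E) p p)) := by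
    have h1 : MDifferentiableAt 𝓘(ℝ, E) 𝓘(ℝ, G) g p :=
      hg.self_of_nhds.mdifferentiableAt (by norm_num)
    have h2 := brkA_lie X Y p
    rw [h2, h1.mvfderiv, ModelWithCorners.range_eq_univ, fderivWithin_univ]
    rfl
  rw [hL, VectorField.lieBracket, map_sub]
  abel

end Pool.Agent.PW
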