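import Pool.Agent.Lib.MP_a61a4c_gt.CalcA

/-!
Row pw-CalcB: smooth vector fields near a point.
-/

set_option autoImplicit false

open Bundle Filter Function Topology
open scoped Manifold ContDiff Bundle

noncomputable section

namespace Pool.Agent.PW

variable {E : Type*} [NormedAddCommGroup E] [NormedSpace ℝ E]
variable {M : Type*} [TopologicalSpace M] [ChartedSpace E M]
variable [IsManifold 𝓘(ℝ, E) ∞ M]

theorem SmoothNear.congr {X Y : Π x : M, TangentSpace 𝓘(ℝ, E) x} {p : M} (hX : SmoothNear X p)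
    (e : X =ᶠ[𝓝 p] Y) : SmoothNear Y p := by
  unfold SmoothNear at *
  filter_upwards [hX, e.eventuallyEq_nhds] with q h1 h2
  refine h1.congr_of_eventuallyEq ?_
  filter_upwards [h2] with x hx
  rw [hx]

theorem SmoothNear.ev {X : Π x : M, TangentSpace 𝓘(ℝ, E) x} {p : M} (hX : SmoothNear X p) :
    ∀ᶠ q in 𝓝 p, SmoothNear X q :=
  eventually_eventually_nhds.2 hX

theorem SmoothNear.mdiff {X : Π x : M, TangentSpace 𝓘(ℝ, E) x} {p : M} (hX : SmoothNear X p) :
    MDifferentiableAt 𝓘(ℝ, E) (𝓘(ℝ, E).prod 𝓘(ℝ, E))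
      (fun y => (⟨y, X y⟩ : TangentBundle 𝓘(ℝ, E) M)) p :=
  (Eventually.self_of_nhds hX).mdifferentiableAt (by simp)

theorem SmoothNear.zero (p : M) :
    SmoothNear (fun x : M => (0 : TangentSpace 𝓘(ℝ, E) x)) p := by
  refine Eventually.of_forall fun q => ?_
  exact contMDiffAt_zeroSection ℝ (TangentSpace 𝓘(ℝ, E) : M → Type _)

theorem SmoothNear.add {X Y : Π x : M, TangentSpace 𝓘(ℝ, E) x} {p : M} (hX : SmoothNear X p)
    (hY : SmoothNear Y p) : SmoothNear (fun x => X x + Y x) p := by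
  unfold SmoothNear at *
  filter_upwards [hX, hY] with q h1 h2
  exact ContMDiffAt.add_section h1 h2

theorem SmoothNear.sub {X Y : Π x : M, TangentSpace 𝓘(ℝ, E) x} {p : M} (hX : SmoothNear X p)
    (hY : SmoothNear Y p) : SmoothNear (fun x => X x - Y x) p := by
  unfold SmoothNear at *
  filter_upwards [hX, hY] with q h1 h2
  exact ContMDiffAt.sub_section h1 h2

theorem SmoothNear.smul {g : M → ℝ} {X : Π x : M, TangentSpace 𝓘(ℝ, E) x} {p : M}
    (hg : SmFn E g p) (hX : SmoothNear X p) : SmoothNear (fun x => g x • X x) p := by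
  unfold SmoothNear SmFn at *
  filter_upwards [hg, hX] with q h1 h2
  exact ContMDiffAt.smul_section h1 h2

theorem SmoothNear.sum {ι : Type*} (s : Finset ι) {X : ι → Π x : M, TangentSpace 𝓘(ℝ, E) x}
    {p : M} (hX : ∀ i ∈ s, SmoothNear (X i) p) : SmoothNear (fun x => ∑ i ∈ s, X i x) p := by
  classical
  induction s using Finset.induction_on with
  | empty =>
    simp only [Finset.sum_empty]
    exact SmoothNear.zero p
  | insert i s hi ih =>
    simp only [Finset.sum_insert hi]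
    exact (hX i (Finset.mem_insert_self i s)).add
      (ih fun j hj => hX j (Finset.mem_insert_of_mem hj))

/-- the derivative of a smooth function in the direction of a smooth field is smooth -/
theorem SmFn.deriv {g : M → ℝ} {X : Π x : M, TangentSpace 𝓘(ℝ, E) x} {p : M}
    (hg : SmFn E g p) (hX : SmoothNear X p) :
    SmFn E (fun x => mvfderiv 𝓘(ℝ, E) g x (X x)) p := by
  obtain ⟨U, hU, hUo, hpU⟩ := eventually_nhds_iff.1 hg
  have hgU : ContMDiffOn 𝓘(ℝ, E) 𝓘(ℝ, ℝ) ∞ g U := fun q hq => (hU q hq).contMDiffWithinAt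
  have ht := hgU.contMDiffOn_tangentMapWithin (m := ∞) (by simp) hUo.uniqueMDiffOn
  unfold SmoothNear SmFn at *
  filter_upwards [hX, hUo.mem_nhds hpU] with q h1 h2
  have hq : (⟨q, X q⟩ : TangentBundle 𝓘(ℝ, E) M) ∈
      (π E (TangentSpace 𝓘(ℝ, E) : M → Type _)) ⁻¹' U := h2
  have ho : IsOpen ((π E (TangentSpace 𝓘(ℝ, E) : M → Type _)) ⁻¹' U) :=
    hUo.preimage (FiberBundle.continuous_proj E (TangentSpace 𝓘(ℝ, E) : M → Type _))
  have h3 := (ht.contMDiffAt (ho.mem_nhds hq)).comp q h1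
  rw [contMDiffAt_totalSpace] at h3
  have h4 := h3.2
  refine h4.congr_of_eventuallyEq ?_
  filter_upwards [hUo.mem_nhds h2] with x hx
  simp only [comp_apply, tangentMapWithin, trivializationAt_model_space_apply]
  rw [mfderivWithin_of_isOpen hUo hx]
  rfl

theorem SmoothNear.bracket [CompleteSpace E] {X Y : Π x : M, TangentSpace 𝓘(ℝ, E) x} {p : M}
    (hX : SmoothNear X p) (hY : SmoothNear Y p) :
    SmoothNear (fun x => VectorField.mlieBracket 𝓘(ℝ, E) X Y x) p := by
  unfold SmoothNear at *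
  filter_upwards [hX, hY] with q h1 h2
  have i1 : IsManifold 𝓘(ℝ, E) ((⊤ : ℕ∞) + 1) M := by
    have e : (((⊤ : ℕ∞) : WithTop ℕ∞) + 1) = ∞ := rfl
    rw [e]
    infer_instance
  have i2 : IsManifold 𝓘(ℝ, E) (minSmoothness ℝ 2) M := by
    refine IsManifold.of_le (n := ∞) ?_
    rw [minSmoothness_of_isRCLikeNormedField]
    exact WithTop.coe_le_coe.2 (le_top (a := (2 : ℕ∞)))
  exact ContMDiffAt.mlieBracket_vectorField (m := ⊤) (n := ⊤) h1 h2 (by simp)

/-- every tangent vector is the value of a field which is smooth near the point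
(coordinate field of the trivialisation at `p`) -/
theorem exists_smoothNear (p : M) (v : TangentSpace 𝓘(ℝ, E) p) :
    ∃ X : Π x : M, TangentSpace 𝓘(ℝ, E) x, SmoothNear X p ∧ X p = v := by
  obtain ⟨s, hs, hsm⟩ := FiberBundle.exists_contMDiffOn_extend (k := ∞) 𝓘(ℝ, E) E v
  refine ⟨FiberBundle.extend E v, ?_, FiberBundle.extend_apply_self E v⟩
  unfold SmoothNear
  filter_upwards [eventually_mem_nhds_iff.2 hs] with q hq
  exact hsm.contMDiffAt hq

variable [RiemannianBundle (fun x : M => TangentSpace 𝓘(ℝ, E) x)]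
  [IsContMDiffRiemannianBundle 𝓘(ℝ, E) ∞ E (fun x : M => TangentSpace 𝓘(ℝ, E) x)]

theorem SmoothNear.inner {X Y : Π x : M, TangentSpace 𝓘(ℝ, E) x} {p : M} (hX : SmoothNear X p)
    (hY : SmoothNear Y p) : SmFn E (fun x => (inner ℝ (X x) (Y x) : ℝ)) p := by
  unfold SmoothNear SmFn at *
  filter_upwards [hX, hY] with q h1 h2
  exact ContMDiffAt.inner_bundle (b := fun x => x) h1 h2

end Pool.Agent.PW
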