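import Pool.Agent.Lib.MP_a61a4c_gt.Defs

/-!
Row pw-CalcA: smooth functions near a point.
-/

set_option autoImplicit false

open Bundle Filter Function Topology
open scoped Manifold ContDiff Bundle

noncomputable section

namespace Pool.Agent.PW

variable {E : Type*} [NormedAddCommGroup E] [NormedSpace ℝ E]
variable {M : Type*} [TopologicalSpace M] [ChartedSpace E M]

variable (E) in
/-- The function `g` on the manifold `M` is smooth near the point `p`. -/
def SmFn (g : M → ℝ) (p : M) : Prop :=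
  ∀ᶠ q in 𝓝 p, ContMDiffAt 𝓘(ℝ, E) 𝓘(ℝ, ℝ) ∞ g q

theorem SmFn.congr {g h : M → ℝ} {p : M} (hg : SmFn E g p) (e : g =ᶠ[𝓝 p] h) : SmFn E h p := by
  unfold SmFn at *
  filter_upwards [hg, e.eventuallyEq_nhds] with q h1 h2
  exact h1.congr_of_eventuallyEq h2.symm

theorem SmFn.ev {g : M → ℝ} {p : M} (hg : SmFn E g p) : ∀ᶠ q in 𝓝 p, SmFn E g q :=
  eventually_eventually_nhds.2 hg

theorem SmFn.mdiff {g : M → ℝ} {p : M} (hg : SmFn E g p) :
    MDifferentiableAt 𝓘(ℝ, E) 𝓘(ℝ, ℝ) g p :=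
  (Eventually.self_of_nhds hg).mdifferentiableAt (by simp)

theorem SmFn.continuousAt {g : M → ℝ} {p : M} (hg : SmFn E g p) : ContinuousAt g p :=
  (Eventually.self_of_nhds hg).continuousAt

theorem SmFn.const (c : ℝ) (p : M) : SmFn E (fun _ : M => c) p :=
  Eventually.of_forall fun _ => contMDiffAt_const

theorem SmFn.add {g h : M → ℝ} {p : M} (hg : SmFn E g p) (hh : SmFn E h p) :
    SmFn E (fun x => g x + h x) p := by
  unfold SmFn at *
  filter_upwards [hg, hh] with q h1 h2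
  exact h1.add h2

theorem SmFn.sub {g h : M → ℝ} {p : M} (hg : SmFn E g p) (hh : SmFn E h p) :
    SmFn E (fun x => g x - h x) p := by
  unfold SmFn at *
  filter_upwards [hg, hh] with q h1 h2
  exact h1.sub h2

theorem SmFn.mul {g h : M → ℝ} {p : M} (hg : SmFn E g p) (hh : SmFn E h p) :
    SmFn E (fun x => g x * h x) p := by
  unfold SmFn at *
  filter_upwards [hg, hh] with q h1 h2
  exact h1.mul h2

theorem SmFn.sum {ι : Type*} (s : Finset ι) {g : ι → M → ℝ} {p : M}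
    (hg : ∀ i ∈ s, SmFn E (g i) p) : SmFn E (fun x => ∑ i ∈ s, g i x) p := by
  classical
  induction s using Finset.induction_on with
  | empty =>
    simp only [Finset.sum_empty]
    exact SmFn.const 0 p
  | insert i s hi ih =>
    simp only [Finset.sum_insert hi]
    exact (hg i (Finset.mem_insert_self i s)).add (ih fun j hj => hg j (Finset.mem_insert_of_mem hj))

theorem SmFn.inv {g : M → ℝ} {p : M} (hg : SmFn E g p) (h0 : g p ≠ 0) :
    SmFn E (fun x => (g x)⁻¹) p := by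
  have h1 := hg.continuousAt.eventually_ne h0
  unfold SmFn at *
  filter_upwards [hg, h1] with q h2 h3
  exact (contDiffAt_inv ℝ h3).contMDiffAt.comp q h2

theorem SmFn.sqrt {g : M → ℝ} {p : M} (hg : SmFn E g p) (h0 : 0 < g p) :
    SmFn E (fun x => Real.sqrt (g x)) p := by
  have h1 := hg.continuousAt.eventually_ne h0.ne'
  unfold SmFn at *
  filter_upwards [hg, h1] with q h2 h3
  exact (Real.contDiffAt_sqrt h3).contMDiffAt.comp q h2

/-- the derivative vanishes at a local minimum -/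
theorem mvfderiv_eq_zero_of_min {g : M → ℝ} {p : M} (hg : MDifferentiableAt 𝓘(ℝ, E) 𝓘(ℝ, ℝ) g p)
    (h : ∀ᶠ q in 𝓝 p, g p ≤ g q) (v : TangentSpace 𝓘(ℝ, E) p) : mvfderiv 𝓘(ℝ, E) g p v = 0 := by
  have h1 : mfderiv 𝓘(ℝ, E) 𝓘(ℝ, ℝ) g p = 0 := by
    rw [hg.mfderiv, modelWithCornersSelf_coe, Set.range_id, fderivWithin_univ]
    apply IsLocalMin.fderiv_eq_zero
    have h2 : Tendsto (extChartAt 𝓘(ℝ, E) p).symm (𝓝 (extChartAt 𝓘(ℝ, E) p p)) (𝓝 p) := by
      have := continuousAt_extChartAt_symm (I := 𝓘(ℝ, E)) p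
      rw [ContinuousAt, extChartAt_to_inv] at this
      exact this
    have h3 := h2.eventually h
    filter_upwards [h3] with y hy
    simp only [writtenInExtChartAt, comp_apply, extChartAt_to_inv]
    exact hy
  rw [mvfderiv, h1]
  simp

theorem mvfderiv_congr {g h : M → ℝ} {p : M} (e : g =ᶠ[𝓝 p] h) (v : TangentSpace 𝓘(ℝ, E) p) :
    mvfderiv 𝓘(ℝ, E) g p v = mvfderiv 𝓘(ℝ, E) h p v := by
  have h1 : mfderiv 𝓘(ℝ, E) 𝓘(ℝ, ℝ) g p = mfderiv 𝓘(ℝ, E) 𝓘(ℝ, ℝ) h p := e.mfderiv_eq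
  simp only [mvfderiv, ContinuousLinearMap.comp_apply]
  have h2 := DFunLike.congr_fun h1 v
  exact h2

end Pool.Agent.PW
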