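import Pool.Agent.Lib.MP_a61a4c_gt.Calc

/-!
Row pw-Coord: local vertical fields and lifts for a submersion.
-/

set_option autoImplicit false

open Bundle Filter Function Topology
open scoped Manifold ContDiff Bundle

noncomputable section

namespace Pool.Agent.PW

variable {E : Type*} [NormedAddCommGroup E] [NormedSpace ℝ E] [FiniteDimensional ℝ E]
variable {M : Type*} [TopologicalSpace M] [ChartedSpace E M] [IsManifold 𝓘(ℝ, E) ∞ M]
variable {E' : Type*} [NormedAddCommGroup E'] [NormedSpace ℝ E'] [FiniteDimensional ℝ E']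
variable {B : Type*} [TopologicalSpace B] [ChartedSpace E' B] [IsManifold 𝓘(ℝ, E') ∞ B]

theorem coord_finrank_range {f : M → B} {q : M}
    (hf : Function.Surjective (mfderiv 𝓘(ℝ, E) 𝓘(ℝ, E') f q)) :
    Module.finrank ℝ E' + Module.finrank ℝ (LinearMap.ker (mfderiv 𝓘(ℝ, E) 𝓘(ℝ, E') f q).toLinearMap) =
      Module.finrank ℝ E := by
  let L : E →ₗ[ℝ] E' := (mfderiv 𝓘(ℝ, E) 𝓘(ℝ, E') f q).toLinearMap
  have h := LinearMap.finrank_range_add_finrank_ker L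
  have h2 : LinearMap.range L = ⊤ := LinearMap.range_eq_top.2 hf
  rw [h2, finrank_top] at h
  exact h

theorem finrank_ker {f : M → B} {q : M}
    (hf : Function.Surjective (mfderiv 𝓘(ℝ, E) 𝓘(ℝ, E') f q)) :
    Module.finrank ℝ (LinearMap.ker (mfderiv 𝓘(ℝ, E) 𝓘(ℝ, E') f q).toLinearMap) =
      Module.finrank ℝ E - Module.finrank ℝ E' := by
  have := coord_finrank_range hf
  omega

theorem finrank_le {f : M → B} {q : M}
    (hf : Function.Surjective (mfderiv 𝓘(ℝ, E) 𝓘(ℝ, E') f q)) :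
    Module.finrank ℝ E' ≤ Module.finrank ℝ E := by
  have := coord_finrank_range hf
  omega

/-- transport of a vector field in the chart at `p` -/
theorem coord_field {p : M} {V : E → E}
    (hV : ∀ᶠ z in 𝓝 (extChartAt 𝓘(ℝ, E) p p), ContDiffAt ℝ ∞ V z) :
    SmoothNear (fun q => (mfderiv 𝓘(ℝ, E) 𝓘(ℝ, E) (extChartAt 𝓘(ℝ, E) p) q).inverse
      (V (extChartAt 𝓘(ℝ, E) p q))) p := by
  have h1 : ∀ᶠ q in 𝓝 p, ContDiffAt ℝ ∞ V (extChartAt 𝓘(ℝ, E) p q) :=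
    (continuousAt_extChartAt (I := 𝓘(ℝ, E)) p).eventually hV
  have h2 : ∀ᶠ q in 𝓝 p, q ∈ (extChartAt 𝓘(ℝ, E) p).source :=
    extChartAt_source_mem_nhds (I := 𝓘(ℝ, E)) p
  filter_upwards [h1, h2] with q hq hq2
  have hV' : ContMDiffAt 𝓘(ℝ, E) (𝓘(ℝ, E).prod 𝓘(ℝ, E)) ∞
      (fun x => (⟨x, V x⟩ : TangentBundle 𝓘(ℝ, E) E)) (extChartAt 𝓘(ℝ, E) p q) :=
    contMDiffAt_vectorSpace_iff_contDiffAt.2 hq
  have hφ : ContMDiffAt 𝓘(ℝ, E) 𝓘(ℝ, E) ∞ (extChartAt 𝓘(ℝ, E) p) q :=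
    contMDiffAt_extChartAt' (by simpa using hq2)
  have : CompleteSpace E := FiniteDimensional.complete ℝ E
  exact ContMDiffAt.mpullback_vectorField_preimage hV' hφ (isInvertible_mfderiv_extChartAt hq2)
    (by simp)

/-- the representation of `f` in the charts -/
private def crep (f : M → B) (p : M) (z : E) : E' :=
  extChartAt 𝓘(ℝ, E') (f p) (f ((extChartAt 𝓘(ℝ, E) p).symm z))

private theorem crep_smooth {f : M → B} (hf : ContMDiff 𝓘(ℝ, E) 𝓘(ℝ, E') ∞ f) (p : M) :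
    ∀ᶠ z in 𝓝 (extChartAt 𝓘(ℝ, E) p p), ContDiffAt ℝ ∞ (crep (E := E) (E' := E') f p) z := by
  have h1 : ∀ᶠ z in 𝓝 (extChartAt 𝓘(ℝ, E) p p), z ∈ (extChartAt 𝓘(ℝ, E) p).target :=
    extChartAt_target_mem_nhds (I := 𝓘(ℝ, E)) p
  have hc : ContinuousAt (fun z => f ((extChartAt 𝓘(ℝ, E) p).symm z))
      (extChartAt 𝓘(ℝ, E) p p) := by
    refine ContinuousAt.comp ?_ (continuousAt_extChartAt_symm (I := 𝓘(ℝ, E)) p)
    exact hf.continuous.continuousAt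
  have h2 : ∀ᶠ z in 𝓝 (extChartAt 𝓘(ℝ, E) p p),
      f ((extChartAt 𝓘(ℝ, E) p).symm z) ∈ (extChartAt 𝓘(ℝ, E') (f p)).source := by
    refine hc.eventually ?_
    beta_reduce
    rw [extChartAt_to_inv]
    exact extChartAt_source_mem_nhds (I := 𝓘(ℝ, E')) (f p)
  filter_upwards [h1, h2] with z hz hz2
  rw [← contMDiffAt_iff_contDiffAt]
  have a1 : ContMDiffAt 𝓘(ℝ, E) 𝓘(ℝ, E) ∞ (extChartAt 𝓘(ℝ, E) p).symm z :=
    (contMDiffOn_extChartAt_symm p).contMDiffAt ((isOpen_extChartAt_target p).mem_nhds hz)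
  have a2 : ContMDiffAt 𝓘(ℝ, E') 𝓘(ℝ, E') ∞ (extChartAt 𝓘(ℝ, E') (f p))
      (f ((extChartAt 𝓘(ℝ, E) p).symm z)) :=
    contMDiffAt_extChartAt' (by simpa using hz2)
  exact a2.comp z ((hf _).comp z a1)

private theorem crep_deriv {f : M → B} (hf : ContMDiff 𝓘(ℝ, E) 𝓘(ℝ, E') ∞ f) (p : M) :
    ∀ᶠ q in 𝓝 p, ∀ v : TangentSpace 𝓘(ℝ, E) q,
      mfderiv 𝓘(ℝ, E') 𝓘(ℝ, E') (extChartAt 𝓘(ℝ, E') (f p)) (f q)
        (mfderiv 𝓘(ℝ, E) 𝓘(ℝ, E') f q v) =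
      fderiv ℝ (crep (E := E) (E' := E') f p) (extChartAt 𝓘(ℝ, E) p q)
        (mfderiv 𝓘(ℝ, E) 𝓘(ℝ, E) (extChartAt 𝓘(ℝ, E) p) q v) := by
  have h0 : ∀ᶠ q in 𝓝 p, ContDiffAt ℝ ∞ (crep (E := E) (E' := E') f p) (extChartAt 𝓘(ℝ, E) p q) :=
    (continuousAt_extChartAt (I := 𝓘(ℝ, E)) p).eventually (crep_smooth hf p)
  have h1 : ∀ᶠ q in 𝓝 p, q ∈ (extChartAt 𝓘(ℝ, E) p).source :=
    extChartAt_source_mem_nhds (I := 𝓘(ℝ, E)) p
  have h2 : ∀ᶠ q in 𝓝 p, f q ∈ (extChartAt 𝓘(ℝ, E') (f p)).source :=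
    hf.continuous.continuousAt.eventually (extChartAt_source_mem_nhds (I := 𝓘(ℝ, E')) (f p))
  filter_upwards [h0, h1.eventually_nhds, h2] with q hq0 hq1 hq2
  intro v
  have hq1' := hq1.self_of_nhds
  have e : (fun x => extChartAt 𝓘(ℝ, E') (f p) (f x)) =ᶠ[𝓝 q]
      fun x => crep (E := E) (E' := E') f p (extChartAt 𝓘(ℝ, E) p x) := by
    filter_upwards [hq1] with x hx
    simp only [crep]
    rw [(extChartAt 𝓘(ℝ, E) p).left_inv hx]
  have a1 : MDifferentiableAt 𝓘(ℝ, E) 𝓘(ℝ, E) (extChartAt 𝓘(ℝ, E) p) q :=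
    mdifferentiableAt_extChartAt (by simpa using hq1')
  have a2 : MDifferentiableAt 𝓘(ℝ, E') 𝓘(ℝ, E') (extChartAt 𝓘(ℝ, E') (f p)) (f q) :=
    mdifferentiableAt_extChartAt (by simpa using hq2)
  have a3 : MDifferentiableAt 𝓘(ℝ, E) 𝓘(ℝ, E') f q := (hf q).mdifferentiableAt (by simp)
  have a4 : MDifferentiableAt 𝓘(ℝ, E) 𝓘(ℝ, E') (crep (E := E) (E' := E') f p)
      (extChartAt 𝓘(ℝ, E) p q) := (hq0.differentiableAt (by simp)).mdifferentiableAt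
  have b1 : mfderiv 𝓘(ℝ, E) 𝓘(ℝ, E') (fun x => extChartAt 𝓘(ℝ, E') (f p) (f x)) q =
      (mfderiv 𝓘(ℝ, E') 𝓘(ℝ, E') (extChartAt 𝓘(ℝ, E') (f p)) (f q)).comp
        (mfderiv 𝓘(ℝ, E) 𝓘(ℝ, E') f q) := mfderiv_comp q a2 a3
  have b2 : mfderiv 𝓘(ℝ, E) 𝓘(ℝ, E')
      (fun x => crep (E := E) (E' := E') f p (extChartAt 𝓘(ℝ, E) p x)) q =
      (mfderiv 𝓘(ℝ, E) 𝓘(ℝ, E') (crep (E := E) (E' := E') f p) (extChartAt 𝓘(ℝ, E) p q)).comp
        (mfderiv 𝓘(ℝ, E) 𝓘(ℝ, E) (extChartAt 𝓘(ℝ, E) p) q) := mfderiv_comp q a4 a1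
  have b3 := e.mfderiv_eq (I := 𝓘(ℝ, E)) (I' := 𝓘(ℝ, E'))
  have b4 := congrArg (fun L => L v) (b1.symm.trans (b3.trans b2))
  rw [mfderiv_eq_fderiv] at b4
  exact b4

private theorem coord_main {f : M → B} {p : M} (hf : ContMDiff 𝓘(ℝ, E) 𝓘(ℝ, E') ∞ f)
    (hs : Function.Surjective (mfderiv 𝓘(ℝ, E) 𝓘(ℝ, E') f p)) :
    ∃ (K : Submodule ℝ E) (W : M → ((E' × K) →ₗ[ℝ] E)),
      Module.finrank ℝ K = Module.finrank ℝ E - Module.finrank ℝ E' ∧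
      Function.Injective (W p) ∧
      (∀ w, SmoothNear (fun q : M => (W q w : TangentSpace 𝓘(ℝ, E) q)) p) ∧
      ∀ᶠ q in 𝓝 p, ∀ w, mfderiv 𝓘(ℝ, E') 𝓘(ℝ, E') (extChartAt 𝓘(ℝ, E') (f p)) (f q)
        (mfderiv 𝓘(ℝ, E) 𝓘(ℝ, E') f q (W q w : TangentSpace 𝓘(ℝ, E) q)) = w.1 := by
  have cE : CompleteSpace E := FiniteDimensional.complete ℝ E
  have cE' : CompleteSpace E' := FiniteDimensional.complete ℝ E'
  set φ := extChartAt 𝓘(ℝ, E) p with hφ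
  set F := crep (E := E) (E' := E') f p with hFdef
  have hF := crep_smooth hf p
  have hD := crep_deriv hf p
  have hF0 : ContDiffAt ℝ ∞ F (φ p) := hF.self_of_nhds
  -- surjectivity of the derivative in the chart
  have hL : Function.Surjective (fderiv ℝ F (φ p)) := by
    intro y
    obtain ⟨eψ, heψ⟩ := isInvertible_mfderiv_extChartAt (I := 𝓘(ℝ, E'))
      (mem_extChartAt_source (I := 𝓘(ℝ, E')) (f p))
    obtain ⟨v, hv⟩ := hs (eψ.symm y)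
    have h1 := hD.self_of_nhds v
    rw [hv, ← heψ] at h1
    refine ⟨mfderiv 𝓘(ℝ, E) 𝓘(ℝ, E) φ p v, ?_⟩
    refine h1.symm.trans ?_
    exact eψ.apply_symm_apply y
  let L : E →L[ℝ] E' := fderiv ℝ F (φ p)
  let K : Submodule ℝ E := LinearMap.ker L.toLinearMap
  obtain ⟨P, hP⟩ : K.ClosedComplemented := Submodule.ClosedComplemented.of_finiteDimensional K
  let G : E → E' × K := fun z => (F z, P z)
  have hG : ∀ᶠ z in 𝓝 (φ p), ContDiffAt ℝ ∞ G z := by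
    filter_upwards [hF] with z hz
    exact hz.prodMk P.contDiff.contDiffAt
  have hGF : ∀ᶠ z in 𝓝 (φ p), fderiv ℝ G z = (fderiv ℝ F z).prod P := by
    filter_upwards [hF] with z hz
    exact ((hz.differentiableAt (by simp)).hasFDerivAt.prodMk P.hasFDerivAt).fderiv
  have hGs : ∀ᶠ z in 𝓝 (φ p), ContDiffAt ℝ ∞ (fderiv ℝ G) z := by
    filter_upwards [hG] with z hz
    exact hz.fderiv_right (m := ∞) (by simp)
  have hA0 : fderiv ℝ G (φ p) ∈ Set.range ((↑) : (E ≃L[ℝ] (E' × K)) → E →L[ℝ] (E' × K)) := by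
    have e0 := hGF.self_of_nhds
    have hbij : Function.Bijective (L.prod P : E →L[ℝ] (E' × K)) := by
      constructor
      · refine (injective_iff_map_eq_zero _).2 fun v hv => ?_
        have h1 : L v = 0 := congrArg Prod.fst hv
        have h2 : P v = 0 := congrArg Prod.snd hv
        have h3 : v ∈ K := h1
        have h4 := hP ⟨v, h3⟩
        have h5 : P v = ⟨v, h3⟩ := h4
        rw [h2] at h5
        exact (congrArg Subtype.val h5).symm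
      · rintro ⟨y, k⟩
        obtain ⟨v, hv⟩ := hL y
        refine ⟨v - (P v : E) + (k : E), ?_⟩
        have hk : ∀ k : K, L (k : E) = 0 := fun k => k.2
        have h1 : L (v - (P v : E) + (k : E)) = y := by
          rw [map_add, map_sub, hk, hk]
          simpa using hv
        have h2 : P (v - (P v : E) + (k : E)) = k := by
          rw [map_add, map_sub, hP, hP]
          simp
        exact Prod.ext h1 h2
    refine ⟨ContinuousLinearEquiv.ofBijective (L.prod P) (LinearMap.ker_eq_bot.2 hbij.1)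
      (LinearMap.range_eq_top.2 hbij.2), ?_⟩
    rw [e0]
    ext v <;> rfl
  have hAo : ∀ᶠ z in 𝓝 (φ p), fderiv ℝ G z ∈
      Set.range ((↑) : (E ≃L[ℝ] (E' × K)) → E →L[ℝ] (E' × K)) :=
    hGs.self_of_nhds.continuousAt.eventually (ContinuousLinearEquiv.isOpen.mem_nhds hA0)
  have hinv : ∀ᶠ z in 𝓝 (φ p), ContDiffAt ℝ ∞ (fun z => (fderiv ℝ G z).inverse) z := by
    filter_upwards [hGs, hAo] with z hz hz2
    obtain ⟨e, he⟩ := hz2
    have h1 : ContDiffAt ℝ ∞ ContinuousLinearMap.inverse (fderiv ℝ G z) := by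
      rw [← he]
      exact contDiffAt_map_inverse e
    exact h1.comp z hz
  have hV : ∀ w : E' × K, ∀ᶠ z in 𝓝 (φ p), ContDiffAt ℝ ∞ (fun z => (fderiv ℝ G z).inverse w) z := by
    intro w
    filter_upwards [hinv] with z hz
    exact hz.clm_apply contDiffAt_const
  have hVF : ∀ᶠ z in 𝓝 (φ p), ∀ w : E' × K, fderiv ℝ F z ((fderiv ℝ G z).inverse w) = w.1 := by
    filter_upwards [hAo, hGF] with z hz hz2
    intro w
    obtain ⟨e, he⟩ := hz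
    have h1 : fderiv ℝ G z ((fderiv ℝ G z).inverse w) = w := by
      rw [← he, ContinuousLinearMap.inverse_equiv]
      exact e.apply_symm_apply w
    have h2 : (fderiv ℝ G z ((fderiv ℝ G z).inverse w)).1 =
        fderiv ℝ F z ((fderiv ℝ G z).inverse w) :=
      congrArg (fun A : E →L[ℝ] (E' × K) => (A ((fderiv ℝ G z).inverse w)).1) hz2
    rw [← h2, h1]
  let R : M → (E →L[ℝ] E) := fun q => (mfderiv 𝓘(ℝ, E) 𝓘(ℝ, E) φ q).inverse
  refine ⟨K, fun q => (R q).toLinearMap.comp (fderiv ℝ G (φ q)).inverse.toLinearMap, ?_, ?_, ?_, ?_⟩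
  · have h := LinearMap.finrank_range_add_finrank_ker L.toLinearMap
    rw [LinearMap.range_eq_top.2 (show Function.Surjective L.toLinearMap from hL), finrank_top] at h
    have h2 : Module.finrank ℝ K = Module.finrank ℝ (LinearMap.ker L.toLinearMap) := rfl
    omega
  · obtain ⟨e, he⟩ := hA0
    obtain ⟨e2, he2⟩ := isInvertible_mfderiv_extChartAt (I := 𝓘(ℝ, E))
      (mem_extChartAt_source (I := 𝓘(ℝ, E)) p)
    have h1 : ∀ w, (R p).toLinearMap.comp (fderiv ℝ G (φ p)).inverse.toLinearMap w =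
        e2.symm (e.symm w) := by
      intro w
      show (mfderiv 𝓘(ℝ, E) 𝓘(ℝ, E) φ p).inverse ((fderiv ℝ G (φ p)).inverse w) = _
      rw [← he, ContinuousLinearMap.inverse_equiv, ← he2, ContinuousLinearMap.inverse_equiv]
      rfl
    intro w w' hww
    have h2 := (h1 w).symm.trans (hww.trans (h1 w'))
    exact e.symm.injective (e2.symm.injective h2)
  · intro w
    exact coord_field (hV w)
  · have c0 := (continuousAt_extChartAt (I := 𝓘(ℝ, E)) p).eventually hVF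
    have c1 : ∀ᶠ q in 𝓝 p, q ∈ φ.source := extChartAt_source_mem_nhds (I := 𝓘(ℝ, E)) p
    filter_upwards [hD, c0, c1] with q hq1 hq2 hq3
    intro w
    obtain ⟨e2, he2⟩ := isInvertible_mfderiv_extChartAt (I := 𝓘(ℝ, E)) hq3
    refine (hq1 _).trans ?_
    have h3 : mfderiv 𝓘(ℝ, E) 𝓘(ℝ, E) φ q (R q ((fderiv ℝ G (φ q)).inverse w)) =
        (fderiv ℝ G (φ q)).inverse w := by
      show mfderiv 𝓘(ℝ, E) 𝓘(ℝ, E) φ q ((mfderiv 𝓘(ℝ, E) 𝓘(ℝ, E) φ q).inverse _) = _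
      rw [← he2, ContinuousLinearMap.inverse_equiv]
      exact e2.apply_symm_apply _
    exact (congrArg (fderiv ℝ F (φ q)) h3).trans (hq2 w)

private theorem coord_inj {b0 : B} : ∀ᶠ b in 𝓝 b0, ∀ y : TangentSpace 𝓘(ℝ, E') b,
    mfderiv 𝓘(ℝ, E') 𝓘(ℝ, E') (extChartAt 𝓘(ℝ, E') b0) b y = 0 → y = 0 := by
  have c1 : ∀ᶠ b in 𝓝 b0, b ∈ (extChartAt 𝓘(ℝ, E') b0).source :=
    extChartAt_source_mem_nhds (I := 𝓘(ℝ, E')) b0
  filter_upwards [c1] with b hb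
  intro y hy
  obtain ⟨e2, he2⟩ := isInvertible_mfderiv_extChartAt (I := 𝓘(ℝ, E')) hb
  rw [← he2] at hy
  exact e2.injective (hy.trans (map_zero e2).symm)

/-- Let `φ`, `ψ` be the charts at `p` and `f p`, `K` the kernel of the derivative `L` of `ψ ∘ f` at `p`
(a subspace of `E`), `P` a linear projection of `E` onto the image of `K` in the chart, and
`Φ = (ψ ∘ f, P ∘ φ) : M → E' × K`. The derivative of `Φ` is invertible at `p`, hence near `p`. For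
`w ∈ E' × K` the field `q ↦ (DΦ q)⁻¹ w` (`VectorField.mpullback`, `ContMDiffAt.mpullback_vectorField_preimage`)
is smooth near `p`; it is vertical for `w = (0, v)`. -/
theorem exists_vertical {f : M → B} {p : M} (hf : ContMDiff 𝓘(ℝ, E) 𝓘(ℝ, E') ∞ f)
    (hs : Function.Surjective (mfderiv 𝓘(ℝ, E) 𝓘(ℝ, E') f p)) :
    ∃ V : Fin (Module.finrank ℝ E - Module.finrank ℝ E') → Π x : M, TangentSpace 𝓘(ℝ, E) x,
      (∀ j, SmoothNear (V j) p) ∧ LinearIndependent ℝ (fun j => V j p) ∧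
      ∀ᶠ q in 𝓝 p, ∀ j, mfderiv 𝓘(ℝ, E) 𝓘(ℝ, E') f q (V j q) = 0 := by
  obtain ⟨K, W, hK, hWi, hWs, hWd⟩ := coord_main hf hs
  let bK : Module.Basis (Fin (Module.finrank ℝ E - Module.finrank ℝ E')) ℝ K :=
    Module.finBasisOfFinrankEq ℝ K hK
  refine ⟨fun j q => W q (0, bK j), fun j => hWs _, ?_, ?_⟩
  · have h1 : LinearIndependent ℝ (fun j => (W p).comp (LinearMap.inr ℝ E' K) (bK j)) := by
      refine bK.linearIndependent.map' _ (LinearMap.ker_eq_bot.2 ?_)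
      intro k k' hkk
      have := hWi hkk
      exact congrArg Prod.snd this
    exact h1
  · have c2 : ∀ᶠ q in 𝓝 p, ∀ y : TangentSpace 𝓘(ℝ, E') (f q),
        mfderiv 𝓘(ℝ, E') 𝓘(ℝ, E') (extChartAt 𝓘(ℝ, E') (f p)) (f q) y = 0 → y = 0 :=
      hf.continuous.continuousAt.eventually (coord_inj (E' := E') (b0 := f p))
    filter_upwards [hWd, c2] with q hq hq2
    intro j
    exact hq2 _ (hq (0, bK j))

/-- With `Φ` as in `exists_vertical`: `q ↦ (DΦ q)⁻¹ (Dψ (Y (f q)), 0)`, that is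
`∑ l, ζ l (f q) • (DΦ q)⁻¹ (e l, 0)` where `e l` is a basis of `E'` and `ζ l` are the coordinates of
the smooth `E'`-valued function `b ↦ Dψ (Y b)`. -/
theorem exists_related {f : M → B} {p : M} (hf : ContMDiff 𝓘(ℝ, E) 𝓘(ℝ, E') ∞ f)
    (hs : Function.Surjective (mfderiv 𝓘(ℝ, E) 𝓘(ℝ, E') f p))
    (Y : Π x : B, TangentSpace 𝓘(ℝ, E') x) (hY : SmoothNear Y (f p)) :
    ∃ W : Π x : M, TangentSpace 𝓘(ℝ, E) x, SmoothNear W p ∧
      ∀ᶠ q in 𝓝 p, mfderiv 𝓘(ℝ, E) 𝓘(ℝ, E') f q (W q) = Y (f q) := by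
  obtain ⟨K, W, hK, hWi, hWs, hWd⟩ := coord_main hf hs
  set ψ := extChartAt 𝓘(ℝ, E') (f p) with hψ
  let bE : Module.Basis (Fin (Module.finrank ℝ E')) ℝ E' := Module.finBasis ℝ E'
  let ℓ : Fin (Module.finrank ℝ E') → (E' →L[ℝ] ℝ) := fun i => (bE.coord i).toContinuousLinearMap
  let y : Fin (Module.finrank ℝ E') → B → ℝ := fun i b => ℓ i (ψ b)
  have hy : ∀ i, SmFn E' (y i) (f p) := by
    intro i
    have c1 : ∀ᶠ b in 𝓝 (f p), b ∈ ψ.source := extChartAt_source_mem_nhds (I := 𝓘(ℝ, E')) (f p)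
    filter_upwards [c1] with b hb
    have a2 : ContMDiffAt 𝓘(ℝ, E') 𝓘(ℝ, E') ∞ ψ b :=
      contMDiffAt_extChartAt' (by simpa [hψ] using hb)
    exact ((ℓ i).contDiff.contMDiff.contMDiffAt).comp b a2
  let ζ : Fin (Module.finrank ℝ E') → B → ℝ := fun i b => mvfderiv 𝓘(ℝ, E') (y i) b (Y b)
  have hζ : ∀ i, SmFn E' (ζ i) (f p) := fun i => (hy i).deriv hY
  have hζf : ∀ i, SmFn E (fun q => ζ i (f q)) p := by
    intro i
    have c3 : ∀ᶠ q in 𝓝 p, ContMDiffAt 𝓘(ℝ, E') 𝓘(ℝ, ℝ) ∞ (ζ i) (f q) :=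
      hf.continuous.continuousAt.eventually (hζ i)
    filter_upwards [c3] with q hq
    exact hq.comp q (hf q)
  refine ⟨fun q => ∑ i, ζ i (f q) • (W q (bE i, 0) : TangentSpace 𝓘(ℝ, E) q), ?_, ?_⟩
  · exact SmoothNear.sum _ fun i _ => SmoothNear.smul (hζf i) (hWs _)
  · have c2 : ∀ᶠ q in 𝓝 p, ∀ y : TangentSpace 𝓘(ℝ, E') (f q),
        mfderiv 𝓘(ℝ, E') 𝓘(ℝ, E') ψ (f q) y = 0 → y = 0 :=
      hf.continuous.continuousAt.eventually (coord_inj (E' := E') (b0 := f p))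
    have c4 : ∀ᶠ q in 𝓝 p, f q ∈ ψ.source :=
      hf.continuous.continuousAt.eventually (extChartAt_source_mem_nhds (I := 𝓘(ℝ, E')) (f p))
    filter_upwards [hWd, c2, c4] with q hq hq2 hq4
    have hψd : MDifferentiableAt 𝓘(ℝ, E') 𝓘(ℝ, E') ψ (f q) :=
      mdifferentiableAt_extChartAt (by simpa [hψ] using hq4)
    have hz : ∀ i, ζ i (f q) = ℓ i (mfderiv 𝓘(ℝ, E') 𝓘(ℝ, E') ψ (f q) (Y (f q))) := by
      intro i
      have h1 : mfderiv 𝓘(ℝ, E') 𝓘(ℝ, ℝ) (y i) (f q) =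
          (mfderiv 𝓘(ℝ, E') 𝓘(ℝ, ℝ) (ℓ i) (ψ (f q))).comp
            (mfderiv 𝓘(ℝ, E') 𝓘(ℝ, E') ψ (f q)) :=
        mfderiv_comp (f q) (ℓ i).mdifferentiableAt hψd
      have h2 := congrArg (fun A => A (Y (f q))) h1
      rw [mfderiv_eq_fderiv, (ℓ i).fderiv] at h2
      exact h2
    let C : E →L[ℝ] E' := (mfderiv 𝓘(ℝ, E') 𝓘(ℝ, E') ψ (f q)).comp (mfderiv 𝓘(ℝ, E) 𝓘(ℝ, E') f q)
    have hC : ∀ w, C (W q w) = w.1 := hq
    have hsum : C (∑ i, ζ i (f q) • W q (bE i, 0)) =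
        (mfderiv 𝓘(ℝ, E') 𝓘(ℝ, E') ψ (f q) (Y (f q)) : E') := by
      rw [map_sum]
      simp only [map_smul, hC, hz]
      exact bE.sum_repr (mfderiv 𝓘(ℝ, E') 𝓘(ℝ, E') ψ (f q) (Y (f q)) : E')
    have h6 := hq2 (mfderiv 𝓘(ℝ, E) 𝓘(ℝ, E') f q
        (∑ i, ζ i (f q) • (W q (bE i, 0) : TangentSpace 𝓘(ℝ, E) q)) - Y (f q)) (by
      rw [map_sub]
      exact sub_eq_zero.2 hsum)
    exact sub_eq_zero.1 h6

end Pool.Agent.PW
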