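import Mathlib

/-!
Definitions for Riemannian submersions (question of Petersen and Wilhelm).
All manifolds are smooth manifolds without boundary, modelled on a finite dimensional real normed
space.
-/

set_option autoImplicit false

open Bundle Filter Function Topology
open scoped Manifold ContDiff Bundle

noncomputable section

namespace Pool.Agent.PW

variable {E : Type*} [NormedAddCommGroup E] [NormedSpace ℝ E]
variable {M : Type*} [TopologicalSpace M] [ChartedSpace E M] [IsManifold 𝓘(ℝ, E) ∞ M]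

/-- The vector field `X` on the manifold `M` is smooth near the point `p`. -/
def SmoothNear (X : Π x : M, TangentSpace 𝓘(ℝ, E) x) (p : M) : Prop :=
  ∀ᶠ q in 𝓝 p, ContMDiffAt 𝓘(ℝ, E) (𝓘(ℝ, E).prod 𝓘(ℝ, E)) ∞
    (fun x => (⟨x, X x⟩ : TangentBundle 𝓘(ℝ, E) M)) q

/-- The curvature `R(X, Y) Z = ∇_X ∇_Y Z - ∇_Y ∇_X Z - ∇_{[X, Y]} Z` at `p`. -/
def curv (cov : CovariantDerivative 𝓘(ℝ, E) E (TangentSpace 𝓘(ℝ, E) : M → Type _))
    (X Y Z : Π x : M, TangentSpace 𝓘(ℝ, E) x) (p : M) : TangentSpace 𝓘(ℝ, E) p :=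
  cov (fun x => cov Z x (Y x)) p (X p) - cov (fun x => cov Z x (X x)) p (Y p)
    - cov Z p (VectorField.mlieBracket 𝓘(ℝ, E) X Y p)

variable [RiemannianBundle (fun x : M => TangentSpace 𝓘(ℝ, E) x)]

/-- `cov` is the Levi-Civita connection of the Riemannian metric of `M`: it is compatible with the
metric and torsion free. -/
structure IsLeviCivita
    (cov : CovariantDerivative 𝓘(ℝ, E) E (TangentSpace 𝓘(ℝ, E) : M → Type _)) : Prop where
  metric : ∀ {Y Z : Π x : M, TangentSpace 𝓘(ℝ, E) x} {x : M} (v : TangentSpace 𝓘(ℝ, E) x),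
    MDifferentiableAt 𝓘(ℝ, E) (𝓘(ℝ, E).prod 𝓘(ℝ, E))
      (fun y => (⟨y, Y y⟩ : TangentBundle 𝓘(ℝ, E) M)) x →
    MDifferentiableAt 𝓘(ℝ, E) (𝓘(ℝ, E).prod 𝓘(ℝ, E))
      (fun y => (⟨y, Z y⟩ : TangentBundle 𝓘(ℝ, E) M)) x →
    mvfderiv 𝓘(ℝ, E) (fun y => inner ℝ (Y y) (Z y)) x v =
      inner ℝ (cov Y x v) (Z x) + inner ℝ (Y x) (cov Z x v)
  torsion : ∀ {X Y : Π x : M, TangentSpace 𝓘(ℝ, E) x} {x : M},
    MDifferentiableAt 𝓘(ℝ, E) (𝓘(ℝ, E).prod 𝓘(ℝ, E))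
      (fun y => (⟨y, X y⟩ : TangentBundle 𝓘(ℝ, E) M)) x →
    MDifferentiableAt 𝓘(ℝ, E) (𝓘(ℝ, E).prod 𝓘(ℝ, E))
      (fun y => (⟨y, Y y⟩ : TangentBundle 𝓘(ℝ, E) M)) x →
    cov Y x (X x) - cov X x (Y x) = VectorField.mlieBracket 𝓘(ℝ, E) X Y x

/-- All sectional curvatures are at least `δ`. -/
def SecGe (cov : CovariantDerivative 𝓘(ℝ, E) E (TangentSpace 𝓘(ℝ, E) : M → Type _))
    (δ : ℝ) : Prop :=
  ∀ (p : M) (X Y : Π x : M, TangentSpace 𝓘(ℝ, E) x), SmoothNear X p → SmoothNear Y p →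
    ‖X p‖ = 1 → ‖Y p‖ = 1 → inner ℝ (X p) (Y p) = 0 →
    δ ≤ inner ℝ (curv cov X Y Y p) (X p)

/-- The Ricci curvature of every unit vector is at most `ρ`: for every point `p`, every smooth
vector field `Y` with `|Y p| = 1` and all smooth vector fields `e 1, …, e n` which at `p` are an
orthonormal basis of the tangent space, `Ric (Y p, Y p) = ∑ i, ⟨R(e i, Y) Y, e i⟩ ≤ ρ`. -/
def RicLe (cov : CovariantDerivative 𝓘(ℝ, E) E (TangentSpace 𝓘(ℝ, E) : M → Type _))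
    (ρ : ℝ) : Prop :=
  ∀ (p : M) (Y : Π x : M, TangentSpace 𝓘(ℝ, E) x)
    (e : Fin (Module.finrank ℝ E) → Π x : M, TangentSpace 𝓘(ℝ, E) x),
    SmoothNear Y p → (∀ i, SmoothNear (e i) p) → ‖Y p‖ = 1 → Orthonormal ℝ (fun i => e i p) →
    ∑ i, inner ℝ (curv cov (e i) Y Y p) (e i p) ≤ ρ

/-- All sectional curvatures are positive. -/
def SecPos (cov : CovariantDerivative 𝓘(ℝ, E) E (TangentSpace 𝓘(ℝ, E) : M → Type _)) : Prop :=
  ∀ (p : M) (X Y : Π x : M, TangentSpace 𝓘(ℝ, E) x), SmoothNear X p → SmoothNear Y p →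
    LinearIndependent ℝ ![X p, Y p] → 0 < (inner ℝ (curv cov X Y Y p) (X p) : ℝ)

variable {E' : Type*} [NormedAddCommGroup E'] [NormedSpace ℝ E']
variable {B : Type*} [TopologicalSpace B] [ChartedSpace E' B]

/-- The tangent vector `v` at `p` is horizontal: orthogonal to the kernel of the derivative of
`f` at `p`, that is, to the tangent space of the fibre. -/
def Horiz (f : M → B) (p : M) (v : TangentSpace 𝓘(ℝ, E) p) : Prop :=
  ∀ u : TangentSpace 𝓘(ℝ, E) p, mfderiv 𝓘(ℝ, E) 𝓘(ℝ, E') f p u = 0 → inner ℝ v u = 0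

/-- All fibres of `f` are totally umbilical: at every point `p` there is a vector `η` such that
the normal part of `∇_U V` is `⟨U, V⟩ η` for all smooth fields `U`, `V` tangent to the fibres. -/
def Umbilic (cov : CovariantDerivative 𝓘(ℝ, E) E (TangentSpace 𝓘(ℝ, E) : M → Type _))
    (f : M → B) : Prop :=
  ∀ p : M, ∃ η : TangentSpace 𝓘(ℝ, E) p, ∀ U V : Π x : M, TangentSpace 𝓘(ℝ, E) x,
    SmoothNear U p → SmoothNear V p →
    (∀ᶠ q in 𝓝 p, mfderiv 𝓘(ℝ, E) 𝓘(ℝ, E') f q (U q) = 0) →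
    (∀ᶠ q in 𝓝 p, mfderiv 𝓘(ℝ, E) 𝓘(ℝ, E') f q (V q) = 0) →
    ∀ x : TangentSpace 𝓘(ℝ, E) p, Horiz (E' := E') f p x →
      (inner ℝ (cov V p (U p)) x : ℝ) = inner ℝ (U p) (V p) * inner ℝ η x

variable [RiemannianBundle (fun x : B => TangentSpace 𝓘(ℝ, E') x)]

/-- `f` is a Riemannian submersion. -/
structure IsRiemSub (f : M → B) : Prop where
  smooth : ContMDiff 𝓘(ℝ, E) 𝓘(ℝ, E') ∞ f
  surj : Function.Surjective f
  submersion : ∀ p, Function.Surjective (mfderiv 𝓘(ℝ, E) 𝓘(ℝ, E') f p)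
  isometry : ∀ (p : M) (v : TangentSpace 𝓘(ℝ, E) p), Horiz (E' := E') f p v →
    ‖mfderiv 𝓘(ℝ, E) 𝓘(ℝ, E') f p v‖ = ‖v‖

end Pool.Agent.PW
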