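import Pool.Agent.Lib.MP_a61a4c_gt.Vf

/-!
Row pw-Mx: a point where the norm of a horizontal field is maximal.
-/

set_option autoImplicit false

open Bundle Filter Function Topology
open scoped Manifold ContDiff Bundle

noncomputable section

namespace Pool.Agent.PW

variable {E : Type*} [NormedAddCommGroup E] [NormedSpace ℝ E] [FiniteDimensional ℝ E]
variable {M : Type*} [TopologicalSpace M] [ChartedSpace E M] [IsManifold 𝓘(ℝ, E) ∞ M]
variable {E' : Type*} [NormedAddCommGroup E'] [NormedSpace ℝ E'] [FiniteDimensional ℝ E']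
variable {B : Type*} [TopologicalSpace B] [ChartedSpace E' B] [IsManifold 𝓘(ℝ, E') ∞ B]
variable [RiemannianBundle (fun x : M => TangentSpace 𝓘(ℝ, E) x)]
  [IsContMDiffRiemannianBundle 𝓘(ℝ, E) ∞ E (fun x : M => TangentSpace 𝓘(ℝ, E) x)]
variable [RiemannianBundle (fun x : B => TangentSpace 𝓘(ℝ, E') x)]
  [IsContMDiffRiemannianBundle 𝓘(ℝ, E') ∞ E' (fun x : B => TangentSpace 𝓘(ℝ, E') x)]

variable {f : M → B} {p : M}
  {cov : CovariantDerivative 𝓘(ℝ, E) E (TangentSpace 𝓘(ℝ, E) : M → Type _)}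

private theorem Mx_deriv (hc : IsLeviCivita cov) {N : Π x : M, TangentSpace 𝓘(ℝ, E) x}
    (hN : SmoothNear N p) (hmax : ∀ q, (inner ℝ (N q) (N q) : ℝ) ≤ inner ℝ (N p) (N p))
    (v : TangentSpace 𝓘(ℝ, E) p) : (inner ℝ (cov N p v) (N p) : ℝ) = 0 := by
  have hZ : SmoothNear (fun x => (0 : TangentSpace 𝓘(ℝ, E) x) - N x) p :=
    (SmoothNear.zero p).sub hN
  have hcZ : cov (fun x => (0 : TangentSpace 𝓘(ℝ, E) x) - N x) p = - cov N p := by
    rw [cov_sub cov (SmoothNear.zero p) hN, cov_zero, zero_sub]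
  have h1 := hc.metric (x := p) v hN.mdiff hZ.mdiff
  have hsm : SmFn E (fun y => (inner ℝ (N y) ((0 : TangentSpace 𝓘(ℝ, E) y) - N y) : ℝ)) p :=
    hN.inner hZ
  have hloc : ∀ᶠ q in 𝓝 p, (inner ℝ (N p) ((0 : TangentSpace 𝓘(ℝ, E) p) - N p) : ℝ) ≤
      inner ℝ (N q) ((0 : TangentSpace 𝓘(ℝ, E) q) - N q) := by
    refine Eventually.of_forall fun q => ?_
    rw [zero_sub, zero_sub, inner_neg_right, inner_neg_right]
    exact neg_le_neg (hmax q)
  have h2 := mvfderiv_eq_zero_of_min hsm.mdiff hloc v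
  rw [h2, hcZ] at h1
  have h3 : (inner ℝ (cov N p v) ((0 : TangentSpace 𝓘(ℝ, E) p) - N p) : ℝ) =
      - inner ℝ (cov N p v) (N p) := by
    rw [zero_sub, inner_neg_right]
  have h4 : (inner ℝ (N p) ((- cov N p) v) : ℝ) = - inner ℝ (cov N p v) (N p) := by
    have e : (- cov N p) v = - (cov N p v) := rfl
    rw [e, inner_neg_right, real_inner_comm]
  rw [h3, h4] at h1
  linarith

/-- Let `|N|²` be maximal at `p`. Its derivative `2 ⟨∇_v N, N⟩` at `p` vanishes. If `N p ≠ 0` take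
`x = N p / |N p|`; otherwise `N = 0` everywhere and any horizontal unit vector `x` will do
(`exists_horiz_of` for a nonzero vector, as `0 < dim B`). -/
theorem exists_critical [CompactSpace M] [Nonempty M] (hf : IsRiemSub (E := E) (E' := E') f)
    (hc : IsLeviCivita cov) (hb : 0 < Module.finrank ℝ E')
    {N : Π x : M, TangentSpace 𝓘(ℝ, E) x} (hN : ∀ p, SmoothNear N p)
    (hN' : ∀ p, Horiz (E' := E') f p (N p)) :
    ∃ (p : M) (x : TangentSpace 𝓘(ℝ, E) p), Horiz (E' := E') f p x ∧ ‖x‖ = 1 ∧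
      (∃ μ : ℝ, N p = μ • x) ∧ (inner ℝ (cov N p x) x : ℝ) = 0 := by
  have hcont : Continuous (fun q => (inner ℝ (N q) (N q) : ℝ)) :=
    continuous_iff_continuousAt.2 fun q => ((hN q).inner (hN q)).continuousAt
  obtain ⟨p, -, hp⟩ := isCompact_univ.exists_isMaxOn Set.univ_nonempty hcont.continuousOn
  have hmax : ∀ q, (inner ℝ (N q) (N q) : ℝ) ≤ inner ℝ (N p) (N p) := fun q => hp (Set.mem_univ q)
  have hnorm : ∀ y : TangentSpace 𝓘(ℝ, E) p, y ≠ 0 → ‖(‖y‖⁻¹ : ℝ) • y‖ = 1 := by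
    intro y hy
    rw [norm_smul, norm_inv, norm_norm, inv_mul_cancel₀ (norm_ne_zero_iff.2 hy)]
  by_cases h0 : N p = 0
  · have hz : ∀ q, N q = 0 := by
      intro q
      have h1 := hmax q
      rw [h0, inner_zero_left, real_inner_self_eq_norm_sq] at h1
      have h2 : ‖N q‖ = 0 := by
        have := sq_nonneg ‖N q‖
        exact pow_eq_zero_iff (two_ne_zero) |>.1 (le_antisymm h1 this)
      exact norm_eq_zero.1 h2
    have hNz : N = fun x : M => (0 : TangentSpace 𝓘(ℝ, E) x) := funext hz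
    have : Nontrivial E' := Module.nontrivial_of_finrank_pos hb
    obtain ⟨y, hy⟩ := exists_ne (0 : E')
    obtain ⟨x, hx, hxy⟩ := exists_horiz_of (q := p) hf (y : TangentSpace 𝓘(ℝ, E') (f p))
    have hx0 : x ≠ 0 := by
      intro h
      rw [h, map_zero] at hxy
      exact hy hxy.symm
    refine ⟨p, (‖x‖⁻¹ : ℝ) • x, horiz_smul _ hx, hnorm x hx0, ⟨0, ?_⟩, ?_⟩
    · rw [h0, zero_smul]
    · have e : cov N p = 0 := by
        rw [hNz]
        exact cov_zero cov
      rw [e]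
      exact inner_zero_left _
  · have hne : ‖N p‖ ≠ 0 := norm_ne_zero_iff.2 h0
    refine ⟨p, (‖N p‖⁻¹ : ℝ) • N p, horiz_smul _ (hN' p), hnorm _ h0, ⟨‖N p‖, ?_⟩, ?_⟩
    · rw [smul_smul, mul_inv_cancel₀ hne, one_smul]
    · rw [inner_smul_right, Mx_deriv hc (hN p) hmax, mul_zero]

end Pool.Agent.PW
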