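import Pool.Agent.Lib.MP_a61a4c_gt.Vf

/-!
Row pw-Id: the curvature of the plane of a horizontal and a vertical field.
-/

set_option autoImplicit false

open Bundle Filter Function Topology
open scoped Manifold ContDiff Bundle

noncomputable section

namespace Pool.Agent.PW

variable {E : Type*} [NormedAddCommGroup E] [NormedSpace ℝ E] [FiniteDimensional ℝ E]
variable {M : Type*} [TopologicalSpace M] [ChartedSpace E M] [IsManifold 𝓘(ℝ, E) ∞ M]
variable {E' : Type*} [NormedAddCommGroup E'] [NormedSpace ℝ E'] [FiniteDimensional ℝ E']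
variable {B : Type*} [TopologicalSpace B] [ChartedSpace E' B] [IsManifold 𝓘(ℝ, E') ∞ B]
variable [RiemannianBundle (fun x : M => TangentSpace 𝓘(ℝ, E) x)]
  [IsContMDiffRiemannianBundle 𝓘(ℝ, E) ∞ E (fun x : M => TangentSpace 𝓘(ℝ, E) x)]
variable [RiemannianBundle (fun x : B => TangentSpace 𝓘(ℝ, E') x)]
  [IsContMDiffRiemannianBundle 𝓘(ℝ, E') ∞ E' (fun x : B => TangentSpace 𝓘(ℝ, E') x)]

variable {f : M → B} {p : M}
  {cov : CovariantDerivative 𝓘(ℝ, E) E (TangentSpace 𝓘(ℝ, E) : M → Type _)}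

/-- `⟨∇_X ∇_U U, X⟩ = X ⟨∇_U U, X⟩ - ⟨∇_U U, ∇_X X⟩`,
`⟨∇_U ∇_X U, X⟩ = U ⟨∇_X U, X⟩ - ⟨∇_X U, ∇_U X⟩` where `⟨∇_X U, X⟩ = 0` near `p` (`bundle_like`), and
`[X, U] = ∇_X U - ∇_U X`. -/
theorem curv_identity (hf : IsRiemSub (E := E) (E' := E') f) (hc : IsLeviCivita cov)
    {X U : Π x : M, TangentSpace 𝓘(ℝ, E) x} (hX : SmoothNear X p) (hU : SmoothNear U p)
    (hX' : ∀ᶠ q in 𝓝 p, Horiz (E' := E') f q (X q))
    (vU : ∀ᶠ q in 𝓝 p, mfderiv 𝓘(ℝ, E) 𝓘(ℝ, E') f q (U q) = 0) :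
    (inner ℝ (curv cov X U U p) (X p) : ℝ) =
      mvfderiv 𝓘(ℝ, E) (fun q => (inner ℝ (cov U q (U q)) (X q) : ℝ)) p (X p)
      - inner ℝ (cov U p (U p)) (cov X p (X p))
      + inner ℝ (cov U p (X p)) (cov X p (U p))
      - inner ℝ (cov U p (cov U p (X p))) (X p)
      + inner ℝ (cov U p (cov X p (U p))) (X p) := by
  have hW : SmoothNear (fun q => cov U q (U q)) p := smoothNear_cov hc hU hU
  have hZ : SmoothNear (fun q => cov U q (X q)) p := smoothNear_cov hc hX hU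
  have m1 := hc.metric (X p) hW.mdiff hX.mdiff
  have m2 := hc.metric (U p) hZ.mdiff hX.mdiff
  have hz : (fun q => (inner ℝ (cov U q (X q)) (X q) : ℝ)) =ᶠ[𝓝 p] fun _ => (0 : ℝ) := by
    filter_upwards [hU.ev, vU.eventually_nhds, hX'] with q hUq vUq hXq
    exact bundle_like hf hc hUq vUq hXq
  have h0 : mvfderiv 𝓘(ℝ, E) (fun q => (inner ℝ (cov U q (X q)) (X q) : ℝ)) p (U p) = 0 := by
    rw [mvfderiv_congr hz]
    simp [mvfderiv]
  have ht := hc.torsion hX.mdiff hU.mdiff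
  have e1 : (inner ℝ (curv cov X U U p) (X p) : ℝ) =
      inner ℝ (cov (fun x => cov U x (U x)) p (X p)) (X p)
        - inner ℝ (cov (fun x => cov U x (X x)) p (U p)) (X p)
        - inner ℝ (cov U p (VectorField.mlieBracket 𝓘(ℝ, E) X U p)) (X p) := by
    unfold curv
    rw [inner_sub_left, inner_sub_left]
  have e2 : (inner ℝ (cov U p (VectorField.mlieBracket 𝓘(ℝ, E) X U p)) (X p) : ℝ) =
      inner ℝ (cov U p (cov U p (X p))) (X p) - inner ℝ (cov U p (cov X p (U p))) (X p) := by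
    rw [← ht, map_sub, inner_sub_left]
  rw [h0] at m2
  rw [e1, e2]
  linarith

end Pool.Agent.PW
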