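import Pool.Agent.Lib.MP_a61a4c_gt.MC
import Pool.Agent.Lib.MP_a61a4c_gt.Id

/-!
Row pw-Tr: the trace formula for the vertical curvatures.
-/

set_option autoImplicit false

open Bundle Filter Function Topology
open scoped Manifold ContDiff Bundle

noncomputable section

namespace Pool.Agent.PW

variable {E : Type*} [NormedAddCommGroup E] [NormedSpace ℝ E] [FiniteDimensional ℝ E]
variable {M : Type*} [TopologicalSpace M] [ChartedSpace E M] [IsManifold 𝓘(ℝ, E) ∞ M]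
variable {E' : Type*} [NormedAddCommGroup E'] [NormedSpace ℝ E'] [FiniteDimensional ℝ E']
variable {B : Type*} [TopologicalSpace B] [ChartedSpace E' B] [IsManifold 𝓘(ℝ, E') ∞ B]
variable [RiemannianBundle (fun x : M => TangentSpace 𝓘(ℝ, E) x)]
  [IsContMDiffRiemannianBundle 𝓘(ℝ, E) ∞ E (fun x : M => TangentSpace 𝓘(ℝ, E) x)]
variable [RiemannianBundle (fun x : B => TangentSpace 𝓘(ℝ, E') x)]
  [IsContMDiffRiemannianBundle 𝓘(ℝ, E') ∞ E' (fun x : B => TangentSpace 𝓘(ℝ, E') x)]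

variable {f : M → B} {p : M}
  {cov : CovariantDerivative 𝓘(ℝ, E) E (TangentSpace 𝓘(ℝ, E) : M → Type _)}

omit [FiniteDimensional ℝ E] [IsManifold 𝓘(ℝ, E) ∞ M]
  [RiemannianBundle (fun x : M => TangentSpace 𝓘(ℝ, E) x)]
  [IsContMDiffRiemannianBundle 𝓘(ℝ, E) ∞ E (fun x : M => TangentSpace 𝓘(ℝ, E) x)] in
private theorem tr_mvfderiv_sum {ι : Type*} (s : Finset ι) {g : ι → M → ℝ}
    (hg : ∀ i ∈ s, MDifferentiableAt 𝓘(ℝ, E) 𝓘(ℝ, ℝ) (g i) p) (v : TangentSpace 𝓘(ℝ, E) p) :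
    MDifferentiableAt 𝓘(ℝ, E) 𝓘(ℝ, ℝ) (fun q => ∑ i ∈ s, g i q) p ∧
    mvfderiv 𝓘(ℝ, E) (fun q => ∑ i ∈ s, g i q) p v = ∑ i ∈ s, mvfderiv 𝓘(ℝ, E) (g i) p v := by
  classical
  induction s using Finset.induction_on with
  | empty =>
    refine ⟨?_, ?_⟩
    · simpa using mdifferentiableAt_const
    · simp only [Finset.sum_empty]
      rw [mvfderiv_const]
      rfl
  | insert a s ha ih =>
    have ih' := ih (fun i hi => hg i (Finset.mem_insert_of_mem hi))
    have h1 := hg a (Finset.mem_insert_self a s)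
    have e : (fun q => ∑ i ∈ insert a s, g i q) = (g a) + (fun q => ∑ i ∈ s, g i q) := by
      funext q
      simp [Finset.sum_insert ha]
    rw [e]
    refine ⟨h1.add ih'.1, ?_⟩
    rw [mvfderiv_add h1 ih'.1, Finset.sum_insert ha, ← ih'.2]
    rfl

/-- the symmetric and the antisymmetric part -/
private theorem tr_antisymm {n : ℕ} (A S : Fin n → Fin n → ℝ) (hA : ∀ j l, A j l = - A l j)
    (hS : ∀ j l, S j l = S l j) : ∑ j, ∑ l, A j l * S j l = 0 := by
  have h : ∑ j, ∑ l, A j l * S j l = - ∑ j, ∑ l, A j l * S j l := by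
    calc ∑ j, ∑ l, A j l * S j l = ∑ l, ∑ j, A j l * S j l := Finset.sum_comm
      _ = ∑ l, ∑ j, - (A l j * S l j) := by
        refine Finset.sum_congr rfl fun l _ => Finset.sum_congr rfl fun j _ => ?_
        rw [hA j l, hS j l]; ring
      _ = - ∑ j, ∑ l, A j l * S j l := by
        simp only [Finset.sum_neg_distrib]
  linarith

/-- Sum of `curv_identity` over `U = U j`. Let `x = X p`, `a j = ∇_x (U j)`, `b j = ∇_{U j} X`,
`d = ∇_X X` (horizontal), `B j l = ⟨∇_{U l} (U j), x⟩` (symmetric, `sff_symm`).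
* near `p`, `⟨N, X⟩ = ∑ ⟨∇_{U j} (U j), X⟩`, so the first two terms add up to `⟨∇_x N, x⟩`;
* `⟨b j, U l⟩ = - B j l`; `⟨a j, U l⟩ = - ⟨a l, U j⟩`;
* `⟨∇_v (U j), x⟩` is linear in `v`; for `v = U l p` it is `B j l`, for horizontal `v` it is
  `- ⟨a j, v⟩` (`bundle_like'`); write `a j`, `b j` in the basis `U l p`, `H i` (`sum_split`);
* the sum of the last three terms is `∑ |horizontal part of a j|² - ∑ B j l ²`. -/
theorem trace_formula (hf : IsRiemSub (E := E) (E' := E') f) (hc : IsLeviCivita cov)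
    {N : Π x : M, TangentSpace 𝓘(ℝ, E) x} (hN : IsMean (E := E) (E' := E') cov f N)
    {X : Π x : M, TangentSpace 𝓘(ℝ, E) x} (hX : SmoothNear X p)
    (hX' : ∀ᶠ q in 𝓝 p, Horiz (E' := E') f q (X q))
    {U : Fin (Module.finrank ℝ E - Module.finrank ℝ E') → Π x : M, TangentSpace 𝓘(ℝ, E) x}
    (hU : VFrame (E := E) (E' := E') f p U)
    {H : Fin (Module.finrank ℝ E') → TangentSpace 𝓘(ℝ, E) p} (hH : Orthonormal ℝ H)
    (hH' : ∀ i, Horiz (E' := E') f p (H i)) :
    ∑ j, (inner ℝ (curv cov X (U j) (U j) p) (X p) : ℝ) =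
      inner ℝ (cov N p (X p)) (X p)
      - ∑ j, ∑ l, (inner ℝ (cov (U j) p (U l p)) (X p) : ℝ) ^ 2
      + ∑ j, ∑ i, (inner ℝ (cov (U j) p (X p)) (H i) : ℝ) ^ 2 := by
  have hv : ∀ j, ∀ᶠ q in 𝓝 p, mfderiv 𝓘(ℝ, E) 𝓘(ℝ, E') f q (U j q) = 0 := fun j =>
    hU.vert.mono fun q hq => hq j
  have hv0 : ∀ j, mfderiv 𝓘(ℝ, E) 𝓘(ℝ, E') f p (U j p) = 0 := fun j => (hv j).self_of_nhds
  have ho0 : Orthonormal ℝ (fun j => U j p) := hU.orth.self_of_nhds
  have hx0 : Horiz (E' := E') f p (X p) := hX'.self_of_nhds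
  have hd : Horiz (E' := E') f p (cov X p (X p)) := horiz_cov_self hf hc hX hX'
  -- the second fundamental form
  have hBs : ∀ j l, (inner ℝ (cov (U j) p (U l p)) (X p) : ℝ)
      = inner ℝ (cov (U l) p (U j p)) (X p) := fun j l =>
    sff_symm hf hc (hU.sm l) (hU.sm j) (hv l) (hv j) hx0
  -- vertical part of `b j`
  have hb : ∀ j l, (inner ℝ (cov X p (U j p)) (U l p) : ℝ)
      = - inner ℝ (cov (U j) p (U l p)) (X p) := by
    intro j l
    have := inner_cov_vert hc (hU.sm l) hX (hv l) hX' (U j p)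
    rw [hBs j l, this, real_inner_comm, neg_neg]
  -- vertical part of `a j`
  have ha : ∀ j l, (inner ℝ (cov (U j) p (X p)) (U l p) : ℝ)
      = - inner ℝ (cov (U l) p (X p)) (U j p) := by
    intro j l
    have h1 := hc.metric (X p) (hU.sm j).mdiff (hU.sm l).mdiff
    have h2 : mvfderiv 𝓘(ℝ, E) (fun y => (inner ℝ (U j y) (U l y) : ℝ)) p (X p) = 0 := by
      have e : (fun y => (inner ℝ (U j y) (U l y) : ℝ)) =ᶠ[𝓝 p]
          (fun _ => if j = l then (1 : ℝ) else 0) := by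
        refine hU.orth.mono fun q hq => ?_
        exact orthonormal_iff_ite.mp hq j l
      rw [mvfderiv_congr e, mvfderiv_const]
      rfl
    rw [h2] at h1
    have h3 : (inner ℝ (U j p) (cov (U l) p (X p)) : ℝ) = inner ℝ (cov (U l) p (X p)) (U j p) :=
      real_inner_comm _ _
    rw [h3] at h1
    linarith
  -- the derivative of the mean curvature
  have h0 : ∑ j, mvfderiv 𝓘(ℝ, E) (fun q => (inner ℝ (cov (U j) q (U j q)) (X q) : ℝ)) p (X p)
      = inner ℝ (cov N p (X p)) (X p) + inner ℝ (N p) (cov X p (X p)) := by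
    have hm : ∀ j ∈ (Finset.univ : Finset (Fin (Module.finrank ℝ E - Module.finrank ℝ E'))),
        MDifferentiableAt 𝓘(ℝ, E) 𝓘(ℝ, ℝ)
        (fun q => (inner ℝ (cov (U j) q (U j q)) (X q) : ℝ)) p := fun j _ =>
      ((smoothNear_cov hc (hU.sm j) (hU.sm j)).inner hX).mdiff
    have e : (fun q => ∑ j, (inner ℝ (cov (U j) q (U j q)) (X q) : ℝ)) =ᶠ[𝓝 p]
        (fun q => (inner ℝ (N q) (X q) : ℝ)) := by
      filter_upwards [hU.ev, hX'] with q hq hq'
      exact (hN.eq q U hq (X q) hq').symm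
    rw [← (tr_mvfderiv_sum Finset.univ hm (X p)).2, mvfderiv_congr e]
    exact hc.metric (X p) (hN.sm p).mdiff hX.mdiff
  have h1 : ∑ j, (inner ℝ (cov (U j) p (U j p)) (cov X p (X p)) : ℝ)
      = inner ℝ (N p) (cov X p (X p)) := (hN.eq p U hU _ hd).symm
  -- the last three terms
  have h2 : ∀ j, (inner ℝ (cov (U j) p (X p)) (cov X p (U j p)) : ℝ)
      = - ∑ l, (inner ℝ (cov (U j) p (X p)) (U l p) : ℝ) * inner ℝ (cov (U j) p (U l p)) (X p)
        + ∑ i, (inner ℝ (cov (U j) p (X p)) (H i) : ℝ) * inner ℝ (cov X p (U j p)) (H i) := by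
    intro j
    rw [inner_split hf ho0 hv0 hH hH' (cov (U j) p (X p)) (cov X p (U j p)),
      ← Finset.sum_neg_distrib]
    congr 1
    refine Finset.sum_congr rfl fun l _ => ?_
    rw [hb j l]
    ring
  have h3 : ∀ (j) (v : TangentSpace 𝓘(ℝ, E) p), (inner ℝ (cov (U j) p v) (X p) : ℝ)
      = ∑ l, (inner ℝ v (U l p) : ℝ) * inner ℝ (cov (U j) p (U l p)) (X p)
        - ∑ i, (inner ℝ v (H i) : ℝ) * inner ℝ (cov (U j) p (X p)) (H i) := by
    intro j v
    conv_lhs => rw [sum_split hf ho0 hv0 hH hH' v]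
    rw [map_add, map_sum, map_sum, inner_add_left, sum_inner, sum_inner, sub_eq_add_neg,
      ← Finset.sum_neg_distrib]
    congr 1
    · refine Finset.sum_congr rfl fun l _ => ?_
      rw [map_smul, real_inner_smul_left]
    · refine Finset.sum_congr rfl fun i _ => ?_
      rw [map_smul, real_inner_smul_left, bundle_like' hf hc (hU.sm j) (hv j) (hH' i) hx0]
      ring
  have h4 : ∑ j, ∑ l, (inner ℝ (cov (U j) p (X p)) (U l p) : ℝ) *
      inner ℝ (cov (U j) p (U l p)) (X p) = 0 := tr_antisymm _ _ ha hBs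
  have h5 : ∀ j, (inner ℝ (curv cov X (U j) (U j) p) (X p) : ℝ) =
      mvfderiv 𝓘(ℝ, E) (fun q => (inner ℝ (cov (U j) q (U j q)) (X q) : ℝ)) p (X p)
      - inner ℝ (cov (U j) p (U j p)) (cov X p (X p))
      - 2 * (∑ l, (inner ℝ (cov (U j) p (X p)) (U l p) : ℝ) *
          inner ℝ (cov (U j) p (U l p)) (X p))
      - ∑ l, (inner ℝ (cov (U j) p (U l p)) (X p) : ℝ) ^ 2
      + ∑ i, (inner ℝ (cov (U j) p (X p)) (H i) : ℝ) ^ 2 := by
    intro j
    rw [curv_identity hf hc hX (hU.sm j) hX' (hv j), h2 j, h3 j (cov (U j) p (X p)),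
      h3 j (cov X p (U j p))]
    have e1 : ∑ l, (inner ℝ (cov X p (U j p)) (U l p) : ℝ) *
        inner ℝ (cov (U j) p (U l p)) (X p)
        = - ∑ l, (inner ℝ (cov (U j) p (U l p)) (X p) : ℝ) ^ 2 := by
      rw [← Finset.sum_neg_distrib]
      refine Finset.sum_congr rfl fun l _ => ?_
      rw [hb j l]; ring
    have e2 : ∑ i, (inner ℝ (cov (U j) p (X p)) (H i) : ℝ) *
        inner ℝ (cov (U j) p (X p)) (H i)
        = ∑ i, (inner ℝ (cov (U j) p (X p)) (H i) : ℝ) ^ 2 := by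
      refine Finset.sum_congr rfl fun i _ => ?_
      ring
    have e3 : ∑ i, (inner ℝ (cov X p (U j p)) (H i) : ℝ) *
        inner ℝ (cov (U j) p (X p)) (H i)
        = ∑ i, (inner ℝ (cov (U j) p (X p)) (H i) : ℝ) * inner ℝ (cov X p (U j p)) (H i) := by
      refine Finset.sum_congr rfl fun i _ => ?_
      ring
    rw [e1, e2, e3]
    ring
  calc ∑ j, (inner ℝ (curv cov X (U j) (U j) p) (X p) : ℝ)
      = ∑ j, (mvfderiv 𝓘(ℝ, E) (fun q => (inner ℝ (cov (U j) q (U j q)) (X q) : ℝ)) p (X p)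
      - inner ℝ (cov (U j) p (U j p)) (cov X p (X p))
      - 2 * (∑ l, (inner ℝ (cov (U j) p (X p)) (U l p) : ℝ) *
          inner ℝ (cov (U j) p (U l p)) (X p))
      - ∑ l, (inner ℝ (cov (U j) p (U l p)) (X p) : ℝ) ^ 2
      + ∑ i, (inner ℝ (cov (U j) p (X p)) (H i) : ℝ) ^ 2) :=
        Finset.sum_congr rfl fun j _ => h5 j
    _ = _ := by
      rw [Finset.sum_add_distrib, Finset.sum_sub_distrib, Finset.sum_sub_distrib,
        Finset.sum_sub_distrib, ← Finset.mul_sum, h0, h1, h4]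
      ring

end Pool.Agent.PW
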