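import Pool.Agent.Lib.MP_a61a4c_gt.On
import Pool.Agent.Lib.MP_a61a4c_gt.Tr
import Pool.Agent.Lib.MP_a61a4c_gt.Mx

/-!
Row pw-Fin: the Ricci bound.
-/

set_option autoImplicit false

open Bundle Filter Function Topology
open scoped Manifold ContDiff Bundle

noncomputable section

namespace Pool.Agent.PW

variable {E : Type*} [NormedAddCommGroup E] [NormedSpace ℝ E] [FiniteDimensional ℝ E]
variable {M : Type*} [TopologicalSpace M] [ChartedSpace E M] [IsManifold 𝓘(ℝ, E) ∞ M]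
variable {E' : Type*} [NormedAddCommGroup E'] [NormedSpace ℝ E'] [FiniteDimensional ℝ E']
variable {B : Type*} [TopologicalSpace B] [ChartedSpace E' B] [IsManifold 𝓘(ℝ, E') ∞ B]
variable [RiemannianBundle (fun x : M => TangentSpace 𝓘(ℝ, E) x)]
  [IsContMDiffRiemannianBundle 𝓘(ℝ, E) ∞ E (fun x : M => TangentSpace 𝓘(ℝ, E) x)]
variable [RiemannianBundle (fun x : B => TangentSpace 𝓘(ℝ, E') x)]
  [IsContMDiffRiemannianBundle 𝓘(ℝ, E') ∞ E' (fun x : B => TangentSpace 𝓘(ℝ, E') x)]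

variable {f : M → B} {p : M}
  {cov : CovariantDerivative 𝓘(ℝ, E) E (TangentSpace 𝓘(ℝ, E) : M → Type _)}

variable {cov' : CovariantDerivative 𝓘(ℝ, E') E' (TangentSpace 𝓘(ℝ, E') : B → Type _)}

/-- an orthonormal family of the right size with a given first vector -/
private theorem Fin_basis {V : Type*} [NormedAddCommGroup V] [InnerProductSpace ℝ V]
    [FiniteDimensional ℝ V] {n : ℕ} (hn : Module.finrank ℝ V = n) (i0 : Fin n) {v : V}
    (hv : ‖v‖ = 1) : ∃ y : Fin n → V, Orthonormal ℝ y ∧ y i0 = v := by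
  have h1 : Orthonormal ℝ (({i0} : Set (Fin n)).domRestrict (fun _ => v)) := by
    constructor
    · intro i
      exact hv
    · intro i j hij
      exact absurd (Subsingleton.elim i j) hij
  obtain ⟨b, hb⟩ := h1.exists_orthonormalBasis_extension_of_card_eq (by simpa using hn)
  exact ⟨b, b.orthonormal, hb i0 rfl⟩

private theorem Fin_sum {n : ℕ} (i0 : Fin n) (a : Fin n → ℝ) {δ : ℝ} (h0 : a i0 = 0)
    (h : ∀ i, i ≠ i0 → δ ≤ a i) : δ * ((n : ℝ) - 1) ≤ ∑ i, a i := by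
  have hn : 1 ≤ n := Nat.succ_le_of_lt (lt_of_le_of_lt (Nat.zero_le _) i0.2)
  have h1 : ∑ i, a i = ∑ i ∈ Finset.univ.erase i0, a i := by
    rw [← Finset.add_sum_erase _ _ (Finset.mem_univ i0), h0, zero_add]
  have h2 : ∑ i ∈ Finset.univ.erase i0, δ ≤ ∑ i ∈ Finset.univ.erase i0, a i :=
    Finset.sum_le_sum fun i hi => h i (Finset.ne_of_mem_erase hi)
  rw [h1]
  refine le_trans (le_of_eq ?_) h2
  rw [Finset.sum_const, Finset.card_erase_of_mem (Finset.mem_univ _), Finset.card_univ,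
    Fintype.card_fin, nsmul_eq_mul, Nat.cast_sub hn]
  push_cast
  ring

omit [FiniteDimensional ℝ E] [RiemannianBundle (fun x : M => TangentSpace 𝓘(ℝ, E) x)]
  [IsContMDiffRiemannianBundle 𝓘(ℝ, E) ∞ E (fun x : M => TangentSpace 𝓘(ℝ, E) x)] in
private theorem Fin_curv_self (X : Π x : M, TangentSpace 𝓘(ℝ, E) x) : curv cov X X X p = 0 := by
  unfold curv
  rw [VectorField.mlieBracket_self]
  simp

/-- `N` from `exists_mean`, `p`, `x` from `exists_critical`. Let `y` be an orthonormal basis of the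
tangent space at `f p` with `y 0 = df x`, `X i` the lifts (`exists_hframe`), so `X 0 p = x`
(`horiz_ext`), `U` from `exists_vframe`. By `trace_formula` for `X 0` and `SecGe`,
`∑ ⟨∇_x (U j), X i⟩² ≥ k δ`, and by `oneill` and `SecGe` the Ricci curvature of `y 0` is
`∑_{i ≠ 0} (K(X i, X 0) + 3 ∑ j ⟨∇_{X i} X 0, U j⟩²) ≥ (b - 1) δ + 3 k δ`, as
`⟨∇_{X i} X 0, U j⟩ = - ⟨∇_{X 0} X i, U j⟩ = ⟨X i, ∇_{X 0} (U j)⟩`. -/
theorem ricci_bound [CompactSpace M] [Nonempty M] (hf : IsRiemSub (E := E) (E' := E') f)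
    (hc : IsLeviCivita cov) (hc' : IsLeviCivita cov') (hb : 0 < Module.finrank ℝ E')
    {δ ρ : ℝ} (hδ : SecGe cov δ) (hρ : RicLe cov' ρ) :
    δ * (((Module.finrank ℝ E' : ℝ) - 1) + 3 * ((Module.finrank ℝ E : ℝ) - Module.finrank ℝ E')) ≤
      ρ := by
  obtain ⟨N, hN⟩ := exists_mean (E := E) (E' := E') hf hc
  obtain ⟨p, x, hx, hx1, -, hcrit⟩ := exists_critical (E := E) (E' := E') hf hc hb hN.sm hN.hor
  obtain ⟨U, hU⟩ := exists_vframe (E := E) (E' := E') hf p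
  have : FiniteDimensional ℝ (TangentSpace 𝓘(ℝ, E') (f p)) :=
    inferInstanceAs (FiniteDimensional ℝ E')
  set i0 : Fin (Module.finrank ℝ E') := ⟨0, hb⟩ with hi0
  obtain ⟨y, hy, hy0⟩ := Fin_basis (V := TangentSpace 𝓘(ℝ, E') (f p)) (n := Module.finrank ℝ E')
    rfl i0 (v := mfderiv 𝓘(ℝ, E) 𝓘(ℝ, E') f p x) (by rw [hf.isometry p x hx, hx1])
  obtain ⟨X, X', hXl, hXo, hXo', hXy⟩ := exists_hframe (E := E) (E' := E') hf p y hy
  have hhor : ∀ i, Horiz (E' := E') f p (X i p) := fun i => (hXl i).hor.self_of_nhds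
  have hX0 : X i0 p = x := by
    apply horiz_ext (E' := E') hf (hhor i0) hx
    rw [(hXl i0).rel.self_of_nhds, hXy, hy0]
  have hXon : Orthonormal ℝ (fun i => X i p) := hXo.self_of_nhds
  have hUon : Orthonormal ℝ (fun j => U j p) := hU.orth.self_of_nhds
  have hUv : ∀ j, mfderiv 𝓘(ℝ, E) 𝓘(ℝ, E') f p (U j p) = 0 := hU.vert.self_of_nhds
  have hUv' : ∀ j, ∀ᶠ q in 𝓝 p, mfderiv 𝓘(ℝ, E) 𝓘(ℝ, E') f q (U j q) = 0 := fun j =>
    hU.vert.mono fun q hq => hq j
  -- the trace formula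
  have htr := trace_formula (E := E) (E' := E') hf hc hN (hXl i0).sm (hXl i0).hor hU hXon hhor
  have hcrit' : (inner ℝ (cov N p (X i0 p)) (X i0 p) : ℝ) = 0 := by
    rw [hX0]
    exact hcrit
  have hk : δ * ((Module.finrank ℝ E - Module.finrank ℝ E' : ℕ) : ℝ) ≤
      ∑ j, (inner ℝ (curv cov (X i0) (U j) (U j) p) (X i0 p) : ℝ) := by
    have h1 : ∀ j, δ ≤ (inner ℝ (curv cov (X i0) (U j) (U j) p) (X i0 p) : ℝ) := fun j =>
      hδ p (X i0) (U j) (hXl i0).sm (hU.sm j) (hXon.1 i0) (hUon.1 j) (hhor i0 _ (hUv j))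
    calc δ * ((Module.finrank ℝ E - Module.finrank ℝ E' : ℕ) : ℝ)
        = ∑ j : Fin (Module.finrank ℝ E - Module.finrank ℝ E'), δ := by
          rw [Finset.sum_const, Finset.card_univ, Fintype.card_fin, nsmul_eq_mul, mul_comm]
      _ ≤ _ := Finset.sum_le_sum fun j _ => h1 j
  have hA : δ * ((Module.finrank ℝ E - Module.finrank ℝ E' : ℕ) : ℝ) ≤
      ∑ j, ∑ i, (inner ℝ (cov (U j) p (X i0 p)) (X i p) : ℝ) ^ 2 := by
    rw [hcrit'] at htr
    have h2 : 0 ≤ ∑ j, ∑ l, (inner ℝ (cov (U j) p (U l p)) (X i0 p) : ℝ) ^ 2 :=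
      Finset.sum_nonneg fun j _ => Finset.sum_nonneg fun l _ => sq_nonneg _
    linarith
  -- the terms of the formula of O'Neill
  have hterm : ∀ i j, (inner ℝ (cov (X i0) p (X i p)) (U j p) : ℝ) =
      inner ℝ (cov (U j) p (X i0 p)) (X i p) := by
    intro i j
    rw [vert_cov_antisymm (E := E) (E' := E') hf hc (hXl i).sm (hXl i0).sm (hXl i).hor (hXl i0).hor
      (hUv j), inner_cov_vert (E := E) (E' := E') hc (hU.sm j) (hXl i).sm (hUv' j) (hXl i).hor,
      real_inner_comm]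
  have hric := hρ (f p) (X' i0) X' (hXl i0).sm' (fun i => (hXl i).sm')
    (by rw [hXy]; exact hy.1 i0) hXo'.self_of_nhds
  have hsum : ∑ i, (inner ℝ (curv cov' (X' i) (X' i0) (X' i0) (f p)) (X' i (f p)) : ℝ) =
      ∑ i, (inner ℝ (curv cov (X i) (X i0) (X i0) p) (X i p) : ℝ) +
        3 * ∑ j, ∑ i, (inner ℝ (cov (U j) p (X i0 p)) (X i p) : ℝ) ^ 2 := by
    rw [Finset.sum_comm (s := Finset.univ) (t := Finset.univ), Finset.mul_sum,
      ← Finset.sum_add_distrib]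
    refine Finset.sum_congr rfl fun i _ => ?_
    rw [oneill (E := E) (E' := E') hf hc hc' (hXl i) (hXl i0) hU]
    congr 2
    exact Finset.sum_congr rfl fun j _ => by rw [hterm]
  have hsec : δ * ((Module.finrank ℝ E' : ℝ) - 1) ≤
      ∑ i, (inner ℝ (curv cov (X i) (X i0) (X i0) p) (X i p) : ℝ) := by
    apply Fin_sum i0
    · rw [Fin_curv_self]
      exact inner_zero_left _
    · intro i hi
      exact hδ p (X i) (X i0) (hXl i).sm (hXl i0).sm (hXon.1 i) (hXon.1 i0) (hXon.2 hi)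
  have hle := finrank_le (E := E) (E' := E') (hf.submersion p)
  rw [Nat.cast_sub hle] at hA
  rw [hsum] at hric
  nlinarith

end Pool.Agent.PW
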