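import Pool.Agent.Lib.MP_a61a4c_gt.FrameA

/-!
Row pw-FrameB: smooth orthonormal frames near a point.
-/

set_option autoImplicit false

open Bundle Filter Function Topology
open scoped Manifold ContDiff Bundle

noncomputable section

namespace Pool.Agent.PW

variable {E : Type*} [NormedAddCommGroup E] [NormedSpace ℝ E] [FiniteDimensional ℝ E]
variable {M : Type*} [TopologicalSpace M] [ChartedSpace E M] [IsManifold 𝓘(ℝ, E) ∞ M]
variable [RiemannianBundle (fun x : M => TangentSpace 𝓘(ℝ, E) x)]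
  [IsContMDiffRiemannianBundle 𝓘(ℝ, E) ∞ E (fun x : M => TangentSpace 𝓘(ℝ, E) x)]

private theorem FrameB_fd (q : M) : FiniteDimensional ℝ (TangentSpace 𝓘(ℝ, E) q) :=
  inferInstanceAs (FiniteDimensional ℝ E)

/-- `exists_smoothNear` for a basis of the tangent space, and `gram_schmidt_smooth` -/
theorem exists_orthonormal_frame (p : M) :
    ∃ e : Fin (Module.finrank ℝ E) → Π x : M, TangentSpace 𝓘(ℝ, E) x,
      (∀ i, SmoothNear (e i) p) ∧ ∀ᶠ q in 𝓝 p, Orthonormal ℝ (fun i => e i q) := by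
  haveI := FrameB_fd (E := E) p
  let b : Module.Basis (Fin (Module.finrank ℝ E)) ℝ (TangentSpace 𝓘(ℝ, E) p) :=
    Module.finBasis ℝ E
  choose W hW hWp using fun i => exists_smoothNear p (b i)
  have hli : LinearIndependent ℝ (fun i => W i p) := by
    have h1 : (fun i => W i p) = b := funext hWp
    rw [h1]
    exact b.linearIndependent
  obtain ⟨U, hU, ho, _⟩ := gram_schmidt_smooth W hW hli
  exact ⟨U, hU, ho⟩

private theorem FrameB_span {q : M} {e : Fin (Module.finrank ℝ E) → TangentSpace 𝓘(ℝ, E) q}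
    (he : Orthonormal ℝ e) :
    ∃ b : OrthonormalBasis (Fin (Module.finrank ℝ E)) ℝ (TangentSpace 𝓘(ℝ, E) q), ⇑b = e := by
  haveI := FrameB_fd (E := E) q
  have h1 : Submodule.span ℝ (Set.range e) = ⊤ := by
    refine he.linearIndependent.span_eq_top_of_card_eq_finrank' ?_
    rw [Fintype.card_fin]
    rfl
  exact ⟨OrthonormalBasis.mk he h1.ge, OrthonormalBasis.coe_mk he h1.ge⟩

theorem frame_sum {q : M} {e : Fin (Module.finrank ℝ E) → TangentSpace 𝓘(ℝ, E) q}
    (he : Orthonormal ℝ e) (v : TangentSpace 𝓘(ℝ, E) q) :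
    ∑ i, (inner ℝ (e i) v : ℝ) • e i = v := by
  obtain ⟨b, rfl⟩ := FrameB_span he
  exact b.sum_repr' v

theorem frame_inner {q : M} {e : Fin (Module.finrank ℝ E) → TangentSpace 𝓘(ℝ, E) q}
    (he : Orthonormal ℝ e) (v w : TangentSpace 𝓘(ℝ, E) q) :
    (inner ℝ v w : ℝ) = ∑ i, (inner ℝ v (e i) : ℝ) * inner ℝ w (e i) := by
  obtain ⟨b, rfl⟩ := FrameB_span he
  rw [← b.sum_inner_mul_inner v w]
  refine Finset.sum_congr rfl fun i _ => ?_
  rw [real_inner_comm w (b i)]

/-- every unit vector extends to a field of the frame: a smooth orthonormal frame near `p` with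
prescribed orthonormal values at `p` -/
theorem exists_orthonormal_frame_of (p : M) (v : Fin (Module.finrank ℝ E) → TangentSpace 𝓘(ℝ, E) p)
    (hv : Orthonormal ℝ v) :
    ∃ e : Fin (Module.finrank ℝ E) → Π x : M, TangentSpace 𝓘(ℝ, E) x,
      (∀ i, SmoothNear (e i) p) ∧ (∀ᶠ q in 𝓝 p, Orthonormal ℝ (fun i => e i q)) ∧
      ∀ i, e i p = v i := by
  obtain ⟨e0, he0, ho⟩ := exists_orthonormal_frame (E := E) p
  have hop : Orthonormal ℝ (fun i => e0 i p) := ho.self_of_nhds
  refine ⟨fun i q => ∑ j, (inner ℝ (e0 j p) (v i) : ℝ) • e0 j q, ?_, ?_, ?_⟩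
  · intro i
    refine SmoothNear.sum _ fun j _ => ?_
    exact SmoothNear.smul (SmFn.const _ _) (he0 j)
  · filter_upwards [ho] with q hq
    rw [orthonormal_iff_ite]
    intro i k
    have h1 : (inner ℝ (∑ j, (inner ℝ (e0 j p) (v i) : ℝ) • e0 j q)
        (∑ j, (inner ℝ (e0 j p) (v k) : ℝ) • e0 j q) : ℝ) =
        ∑ j, (inner ℝ (e0 j p) (v i) : ℝ) * inner ℝ (e0 j p) (v k) := by
      rw [hq.inner_sum (fun j => (inner ℝ (e0 j p) (v i) : ℝ))
        (fun j => (inner ℝ (e0 j p) (v k) : ℝ)) Finset.univ]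
      simp
    have h2 := frame_inner hop (v i) (v k)
    have h3 := (orthonormal_iff_ite.1 hv) i k
    rw [← h3, h2, h1]
    refine Finset.sum_congr rfl fun j _ => ?_
    rw [real_inner_comm (e0 j p) (v i), real_inner_comm (e0 j p) (v k)]
  · intro i
    exact frame_sum hop (v i)

/-- `Z = ∑ ⟨Z, e i⟩ e i` near `p` -/
theorem smoothNear_of_inner {p : M}
    {e : Fin (Module.finrank ℝ E) → Π x : M, TangentSpace 𝓘(ℝ, E) x}
    (he : ∀ i, SmoothNear (e i) p) (ho : ∀ᶠ q in 𝓝 p, Orthonormal ℝ (fun i => e i q))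
    {Z : Π x : M, TangentSpace 𝓘(ℝ, E) x}
    (h : ∀ i, SmFn E (fun q => (inner ℝ (Z q) (e i q) : ℝ)) p) : SmoothNear Z p := by
  have h1 : SmoothNear (fun q => ∑ i, (inner ℝ (Z q) (e i q) : ℝ) • e i q) p :=
    SmoothNear.sum _ fun i _ => SmoothNear.smul (h i) (he i)
  refine h1.congr ?_
  filter_upwards [ho] with q hq
  have h2 := frame_sum hq (Z q)
  rw [← h2]
  refine Finset.sum_congr rfl fun i _ => ?_
  rw [h2, real_inner_comm (Z q) (e i q)]

end Pool.Agent.PW
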