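import Pool.Agent.Lib.MP_a61a4c_gt.Calc

/-!
Row pw-FrameA: Gram-Schmidt for smooth fields.
-/

set_option autoImplicit false

open Bundle Filter Function Topology
open scoped Manifold ContDiff Bundle

noncomputable section

namespace Pool.Agent.PW

section Vec

variable {V : Type*} [NormedAddCommGroup V] [InnerProductSpace ℝ V]

private theorem frameA_gs {n : ℕ} (f : Fin n → V) (i : Fin n) :
    f i - ∑ j ∈ Finset.Iio i, (inner ℝ (InnerProductSpace.gramSchmidt ℝ f j) (f i) *
      (‖InnerProductSpace.gramSchmidt ℝ f j‖ ^ 2)⁻¹ : ℝ) • InnerProductSpace.gramSchmidt ℝ f j =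
      InnerProductSpace.gramSchmidt ℝ f i := by
  have h := InnerProductSpace.gramSchmidt_def'' ℝ f i
  rw [sub_eq_iff_eq_add]
  refine h.trans ?_
  refine congrArg (fun t => InnerProductSpace.gramSchmidt ℝ f i + t)
    (Finset.sum_congr rfl fun j _ => ?_)
  rfl

private theorem frameA_on {n : ℕ} (f : Fin n → V)
    (h0 : ∀ i, InnerProductSpace.gramSchmidt ℝ f i ≠ 0) :
    Orthonormal ℝ (fun i => ‖InnerProductSpace.gramSchmidt ℝ f i‖⁻¹ •
      InnerProductSpace.gramSchmidt ℝ f i) := by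
  refine ⟨fun i => ?_, fun i j hij => ?_⟩
  · rw [norm_smul, norm_inv, norm_norm, inv_mul_cancel₀ (norm_ne_zero_iff.2 (h0 i))]
  · have h := InnerProductSpace.gramSchmidt_orthogonal ℝ f hij
    show (inner ℝ (‖InnerProductSpace.gramSchmidt ℝ f i‖⁻¹ • InnerProductSpace.gramSchmidt ℝ f i)
      (‖InnerProductSpace.gramSchmidt ℝ f j‖⁻¹ • InnerProductSpace.gramSchmidt ℝ f j) : ℝ) = 0
    rw [real_inner_smul_left, real_inner_smul_right, h]
    ring

private theorem frameA_span {n : ℕ} (f : Fin n → V) (c : ℝ) (i : Fin n) :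
    c • InnerProductSpace.gramSchmidt ℝ f i ∈ Submodule.span ℝ (Set.range f) := by
  have h1 : InnerProductSpace.gramSchmidt ℝ f i ∈ Submodule.span ℝ
      (Set.range (InnerProductSpace.gramSchmidt ℝ f)) :=
    Submodule.subset_span ⟨i, rfl⟩
  rw [InnerProductSpace.span_gramSchmidt] at h1
  exact Submodule.smul_mem _ _ h1

private theorem frameA_ne {x : V} (h : ‖x‖ ^ 2 ≠ 0) : x ≠ 0 := by
  rintro rfl
  apply h
  rw [norm_zero]
  ring

end Vec

variable {E : Type*} [NormedAddCommGroup E] [NormedSpace ℝ E] [FiniteDimensional ℝ E]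
variable {M : Type*} [TopologicalSpace M] [ChartedSpace E M] [IsManifold 𝓘(ℝ, E) ∞ M]
variable [RiemannianBundle (fun x : M => TangentSpace 𝓘(ℝ, E) x)]
  [IsContMDiffRiemannianBundle 𝓘(ℝ, E) ∞ E (fun x : M => TangentSpace 𝓘(ℝ, E) x)]

/-- the norm of a smooth field -/
private theorem frameA_normsq {X : Π x : M, TangentSpace 𝓘(ℝ, E) x} {p : M}
    (hX : SmoothNear X p) : SmFn E (fun x => ‖X x‖ ^ 2) p := by
  refine (hX.inner hX).congr (Eventually.of_forall fun q => ?_)
  exact real_inner_self_eq_norm_sq (X q)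

private theorem frameA_invsq {X : Π x : M, TangentSpace 𝓘(ℝ, E) x} {p : M}
    (hX : SmoothNear X p) (h0 : X p ≠ 0) : SmFn E (fun x => (‖X x‖ ^ 2)⁻¹) p :=
  (frameA_normsq hX).inv (pow_ne_zero 2 (norm_ne_zero_iff.2 h0))

private theorem frameA_inv {X : Π x : M, TangentSpace 𝓘(ℝ, E) x} {p : M}
    (hX : SmoothNear X p) (h0 : X p ≠ 0) : SmFn E (fun x => ‖X x‖⁻¹) p := by
  have h1 : 0 < ‖X p‖ ^ 2 := pow_pos (norm_pos_iff.2 h0) 2
  have h2 := (frameA_normsq hX).sqrt h1
  have h3 := h2.inv (Real.sqrt_ne_zero'.2 h1)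
  refine h3.congr (Eventually.of_forall fun q => ?_)
  show (Real.sqrt (‖X q‖ ^ 2))⁻¹ = ‖X q‖⁻¹
  rw [Real.sqrt_sq (norm_nonneg _)]

/-- Gram-Schmidt: `U i q = gramSchmidtNormed ℝ (fun j => W j q) i` (Mathlib). Smoothness by strong
induction on `i` from `gramSchmidt_def`; near `p` the vectors `W i q` are linearly independent
because the orthogonalised vectors are continuous and nonzero at `p` (so no argument with
determinants is needed: `gramSchmidt` gives orthogonal vectors, nonzero at `p`, hence near `p`). -/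
theorem gram_schmidt_smooth {n : ℕ} {p : M} (W : Fin n → Π x : M, TangentSpace 𝓘(ℝ, E) x)
    (hW : ∀ i, SmoothNear (W i) p) (hli : LinearIndependent ℝ (fun i => W i p)) :
    ∃ U : Fin n → Π x : M, TangentSpace 𝓘(ℝ, E) x, (∀ i, SmoothNear (U i) p) ∧
      (∀ᶠ q in 𝓝 p, Orthonormal ℝ (fun i => U i q)) ∧
      ∀ q i, U i q ∈ Submodule.span ℝ (Set.range fun j => W j q) := by
  classical
  let G : Fin n → Π x : M, TangentSpace 𝓘(ℝ, E) x :=
    fun i q => InnerProductSpace.gramSchmidt ℝ (fun j => W j q) i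
  have hG0 : ∀ i, G i p ≠ 0 := fun i => InnerProductSpace.gramSchmidt_ne_zero i hli
  have hGs : ∀ i, SmoothNear (G i) p := by
    intro i
    induction i using WellFoundedLT.induction with
    | _ i ih =>
      have hsum : SmoothNear (fun q => ∑ j ∈ Finset.Iio i,
          (inner ℝ (G j q) (W i q) * (‖G j q‖ ^ 2)⁻¹ : ℝ) • G j q) p := by
        refine SmoothNear.sum _ fun j hj => ?_
        have hj' := ih j (Finset.mem_Iio.1 hj)
        exact SmoothNear.smul ((hj'.inner (hW i)).mul (frameA_invsq hj' (hG0 j))) hj'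
      refine ((hW i).sub hsum).congr (Eventually.of_forall fun q => ?_)
      exact frameA_gs (fun j => W j q) i
  have hinv : ∀ i, SmFn E (fun x => ‖G i x‖⁻¹) p := fun i => frameA_inv (hGs i) (hG0 i)
  refine ⟨fun i q => (‖G i q‖⁻¹ : ℝ) • G i q, fun i => SmoothNear.smul (hinv i) (hGs i), ?_, ?_⟩
  · have hne : ∀ᶠ q in 𝓝 p, ∀ i, G i q ≠ 0 := by
      rw [eventually_all]
      intro i
      have hc := (frameA_normsq (hGs i)).continuousAt
      have h1 : ‖G i p‖ ^ 2 ≠ 0 := pow_ne_zero 2 (norm_ne_zero_iff.2 (hG0 i))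
      filter_upwards [hc.eventually_ne h1] with q hq
      exact frameA_ne hq
    filter_upwards [hne] with q hq
    exact frameA_on (fun j => W j q) hq
  · intro q i
    exact frameA_span (fun j => W j q) _ i

end Pool.Agent.PW
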