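import Pool.Agent.Lib.MP_a61a4c_gt.LCA
import Pool.Agent.Lib.MP_a61a4c_gt.Frame

/-!
Row pw-LCB: smoothness of the covariant derivative.
-/

set_option autoImplicit false

open Bundle Filter Function Topology
open scoped Manifold ContDiff Bundle

noncomputable section

namespace Pool.Agent.PW

variable {E : Type*} [NormedAddCommGroup E] [NormedSpace ℝ E]
variable {M : Type*} [TopologicalSpace M] [ChartedSpace E M] [IsManifold 𝓘(ℝ, E) ∞ M]

variable [FiniteDimensional ℝ E]
variable [RiemannianBundle (fun x : M => TangentSpace 𝓘(ℝ, E) x)]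
  [IsContMDiffRiemannianBundle 𝓘(ℝ, E) ∞ E (fun x : M => TangentSpace 𝓘(ℝ, E) x)]
variable {cov : CovariantDerivative 𝓘(ℝ, E) E (TangentSpace 𝓘(ℝ, E) : M → Type _)}
  {X Y Z : Π x : M, TangentSpace 𝓘(ℝ, E) x} {p : M}

/-- by `koszul` (near `p`), `smoothNear_of_inner` and an orthonormal frame -/
theorem smoothNear_cov (h : IsLeviCivita cov) (hX : SmoothNear X p) (hY : SmoothNear Y p) :
    SmoothNear (fun q => cov Y q (X q)) p := by
  have : CompleteSpace E := FiniteDimensional.complete ℝ E
  obtain ⟨e, he, ho⟩ := exists_orthonormal_frame (E := E) (M := M) p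
  refine smoothNear_of_inner he ho fun i => ?_
  have hE := he i
  have k1 : SmFn E (fun x => (inner ℝ (Y x) (e i x) : ℝ)) p := hY.inner hE
  have k2 : SmFn E (fun x => (inner ℝ (X x) (e i x) : ℝ)) p := hX.inner hE
  have k3 : SmFn E (fun x => (inner ℝ (X x) (Y x) : ℝ)) p := hX.inner hY
  have d1 := k1.deriv hX
  have d2 := k2.deriv hY
  have d3 := k3.deriv hE
  have b1 := (hX.bracket hY).inner hE
  have b2 := (hX.bracket hE).inner hY
  have b3 := (hY.bracket hE).inner hX
  have hs := (SmFn.const (E := E) (1 / 2 : ℝ) p).mul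
    (((((d1.add d2).sub d3).add b1).sub b2).sub b3)
  refine hs.congr ?_
  filter_upwards [hX.ev, hY.ev, hE.ev] with q hXq hYq hEq
  have hk := koszul h hXq hYq hEq
  linarith

end Pool.Agent.PW
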