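import Pool.Agent.Lib.MP_a61a4c_gt.Calc

/-!
Row pw-LCA: calculus of a connection; the formula of Koszul.
-/

set_option autoImplicit false

open Bundle Filter Function Topology
open scoped Manifold ContDiff Bundle

noncomputable section

namespace Pool.Agent.PW

variable {E : Type*} [NormedAddCommGroup E] [NormedSpace ℝ E]
variable {M : Type*} [TopologicalSpace M] [ChartedSpace E M] [IsManifold 𝓘(ℝ, E) ∞ M]

section calculus

variable (cov : CovariantDerivative 𝓘(ℝ, E) E (TangentSpace 𝓘(ℝ, E) : M → Type _))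
  {X Y : Π x : M, TangentSpace 𝓘(ℝ, E) x} {p : M}

theorem cov_congr (hX : SmoothNear X p) (e : X =ᶠ[𝓝 p] Y) : cov X p = cov Y p :=
  cov.isCovariantDerivativeOnUniv.congr_of_eventuallyEq hX.mdiff (hX.congr e).mdiff
    Filter.univ_mem e

theorem cov_zero : cov (fun x : M => (0 : TangentSpace 𝓘(ℝ, E) x)) p = 0 :=
  congrFun cov.zero p

theorem cov_add (hX : SmoothNear X p) (hY : SmoothNear Y p) :
    cov (fun x => X x + Y x) p = cov X p + cov Y p :=
  cov.isCovariantDerivativeOnUniv.add hX.mdiff hY.mdiff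

theorem cov_sub (hX : SmoothNear X p) (hY : SmoothNear Y p) :
    cov (fun x => X x - Y x) p = cov X p - cov Y p := by
  have h1 := cov_add cov (hX.sub hY) hY
  have h2 : (fun x => X x - Y x + Y x) = X := by
    funext x
    exact sub_add_cancel _ _
  rw [h2] at h1
  rw [h1, add_sub_cancel_right]

theorem cov_smul {g : M → ℝ} (hg : SmFn E g p) (hX : SmoothNear X p)
    (v : TangentSpace 𝓘(ℝ, E) p) :
    cov (fun x => g x • X x) p v = g p • cov X p v + mvfderiv 𝓘(ℝ, E) g p v • X p := by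
  have h1 := cov.isCovariantDerivativeOnUniv.leibniz hX.mdiff hg.mdiff
  have h2 : (g • X : Π x : M, TangentSpace 𝓘(ℝ, E) x) = fun x => g x • X x := rfl
  rw [h2] at h1
  rw [h1]
  rfl

theorem cov_sum {ι : Type*} (s : Finset ι) {X : ι → Π x : M, TangentSpace 𝓘(ℝ, E) x}
    (hX : ∀ i ∈ s, SmoothNear (X i) p) :
    cov (fun x => ∑ i ∈ s, X i x) p = ∑ i ∈ s, cov (X i) p := by
  classical
  induction s using Finset.induction_on with
  | empty =>
    simp only [Finset.sum_empty]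
    exact cov_zero cov
  | insert a s ha ih =>
    have h1 : ∀ i ∈ s, SmoothNear (X i) p := fun i hi => hX i (Finset.mem_insert_of_mem hi)
    have h2 := cov_add cov (hX a (Finset.mem_insert_self a s)) (SmoothNear.sum s h1)
    rw [ih h1] at h2
    simp only [Finset.sum_insert ha]
    exact h2

end calculus

variable [FiniteDimensional ℝ E]
variable [RiemannianBundle (fun x : M => TangentSpace 𝓘(ℝ, E) x)]
  [IsContMDiffRiemannianBundle 𝓘(ℝ, E) ∞ E (fun x : M => TangentSpace 𝓘(ℝ, E) x)]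
variable {cov : CovariantDerivative 𝓘(ℝ, E) E (TangentSpace 𝓘(ℝ, E) : M → Type _)}
  {X Y Z : Π x : M, TangentSpace 𝓘(ℝ, E) x} {p : M}

open VectorField in
theorem koszul (h : IsLeviCivita cov) (hX : SmoothNear X p) (hY : SmoothNear Y p)
    (hZ : SmoothNear Z p) :
    2 * (inner ℝ (cov Y p (X p)) (Z p) : ℝ) =
      mvfderiv 𝓘(ℝ, E) (fun x => (inner ℝ (Y x) (Z x) : ℝ)) p (X p)
      + mvfderiv 𝓘(ℝ, E) (fun x => (inner ℝ (X x) (Z x) : ℝ)) p (Y p)
      - mvfderiv 𝓘(ℝ, E) (fun x => (inner ℝ (X x) (Y x) : ℝ)) p (Z p)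
      + inner ℝ (mlieBracket 𝓘(ℝ, E) X Y p) (Z p)
      - inner ℝ (mlieBracket 𝓘(ℝ, E) X Z p) (Y p)
      - inner ℝ (mlieBracket 𝓘(ℝ, E) Y Z p) (X p) := by
  rw [h.metric (X p) hY.mdiff hZ.mdiff, h.metric (Y p) hX.mdiff hZ.mdiff,
    h.metric (Z p) hX.mdiff hY.mdiff, ← h.torsion hX.mdiff hY.mdiff,
    ← h.torsion hX.mdiff hZ.mdiff, ← h.torsion hY.mdiff hZ.mdiff, inner_sub_left, inner_sub_left,
    inner_sub_left, real_inner_comm (X p) (cov Z p (Y p)), real_inner_comm (X p) (cov Y p (Z p)),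
    real_inner_comm (Y p) (cov Z p (X p))]
  ring

end Pool.Agent.PW
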