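import Pool.Agent.Lib.MP_a61a4c_gt.Vf

/-!
Row pw-MC: the mean curvature field of the fibres.
-/

set_option autoImplicit false

open Bundle Filter Function Topology
open scoped Manifold ContDiff Bundle

noncomputable section

namespace Pool.Agent.PW

variable {E : Type*} [NormedAddCommGroup E] [NormedSpace ℝ E] [FiniteDimensional ℝ E]
variable {M : Type*} [TopologicalSpace M] [ChartedSpace E M] [IsManifold 𝓘(ℝ, E) ∞ M]
variable {E' : Type*} [NormedAddCommGroup E'] [NormedSpace ℝ E'] [FiniteDimensional ℝ E']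
variable {B : Type*} [TopologicalSpace B] [ChartedSpace E' B] [IsManifold 𝓘(ℝ, E') ∞ B]
variable [RiemannianBundle (fun x : M => TangentSpace 𝓘(ℝ, E) x)]
  [IsContMDiffRiemannianBundle 𝓘(ℝ, E) ∞ E (fun x : M => TangentSpace 𝓘(ℝ, E) x)]
variable [RiemannianBundle (fun x : B => TangentSpace 𝓘(ℝ, E') x)]
  [IsContMDiffRiemannianBundle 𝓘(ℝ, E') ∞ E' (fun x : B => TangentSpace 𝓘(ℝ, E') x)]

variable {f : M → B} {p : M}
  {cov : CovariantDerivative 𝓘(ℝ, E) E (TangentSpace 𝓘(ℝ, E) : M → Type _)}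

/-- `N` is the mean curvature field of the fibres: it is smooth, horizontal, and
`⟨N, x⟩ = ∑ j, ⟨∇_{U j} (U j), x⟩` for orthonormal vertical frames `U` and horizontal `x`. -/
structure IsMean (cov : CovariantDerivative 𝓘(ℝ, E) E (TangentSpace 𝓘(ℝ, E) : M → Type _))
    (f : M → B) (N : Π x : M, TangentSpace 𝓘(ℝ, E) x) : Prop where
  sm : ∀ p, SmoothNear N p
  hor : ∀ p, Horiz (E' := E') f p (N p)
  eq : ∀ (p : M) (U : Fin (Module.finrank ℝ E - Module.finrank ℝ E') → Π x : M, TangentSpace 𝓘(ℝ, E) x),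
    VFrame (E := E) (E' := E') f p U → ∀ x : TangentSpace 𝓘(ℝ, E) p, Horiz (E' := E') f p x →
      (inner ℝ (N p) x : ℝ) = ∑ j, inner ℝ (cov (U j) p (U j p)) x

omit [FiniteDimensional ℝ E] [IsManifold 𝓘(ℝ, E) ∞ M]
  [RiemannianBundle fun x : M => TangentSpace 𝓘(ℝ, E) x]
  [IsContMDiffRiemannianBundle 𝓘(ℝ, E) ∞ E fun x : M => TangentSpace 𝓘(ℝ, E) x] in
private theorem MC_mvfderiv_const (c : ℝ) (v : TangentSpace 𝓘(ℝ, E) p) :
    mvfderiv 𝓘(ℝ, E) (fun _ : M => c) p v = 0 :=
  mvfderiv_eq_zero_of_min (SmFn.const c p).mdiff (Eventually.of_forall fun _ => le_rfl) v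

omit [FiniteDimensional ℝ E] [RiemannianBundle fun x : M => TangentSpace 𝓘(ℝ, E) x]
  [IsContMDiffRiemannianBundle 𝓘(ℝ, E) ∞ E fun x : M => TangentSpace 𝓘(ℝ, E) x] in
private theorem MC_cov_comb {n : ℕ} {U : Fin n → Π x : M, TangentSpace 𝓘(ℝ, E) x}
    (hU : ∀ j, SmoothNear (U j) p) (c : Fin n → ℝ) (v : TangentSpace 𝓘(ℝ, E) p) :
    cov (fun q => ∑ l, c l • U l q) p v = ∑ l, c l • cov (U l) p v := by
  rw [cov_sum cov Finset.univ (X := fun l q => c l • U l q)
    (fun l _ => SmoothNear.smul (SmFn.const (c l) p) (hU l))]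
  rw [sum_apply]
  refine Finset.sum_congr rfl fun l _ => ?_
  rw [cov_smul cov (SmFn.const (c l) p) (hU l) v, MC_mvfderiv_const, zero_smul, add_zero]

/-- the trace of the second fundamental form does not depend on the frame: `V j p = ∑ c j l • U l p`
with an orthogonal matrix `c`, and `sff_congr` for `V j` and `∑ c j l • U l` -/
theorem trace_indep (hf : IsRiemSub (E := E) (E' := E') f) (hc : IsLeviCivita cov)
    {U V : Fin (Module.finrank ℝ E - Module.finrank ℝ E') → Π x : M, TangentSpace 𝓘(ℝ, E) x}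
    (hU : VFrame (E := E) (E' := E') f p U) (hV : VFrame (E := E) (E' := E') f p V)
    {x : TangentSpace 𝓘(ℝ, E) p} (hx : Horiz (E' := E') f p x) :
    ∑ j, (inner ℝ (cov (U j) p (U j p)) x : ℝ) = ∑ j, inner ℝ (cov (V j) p (V j p)) x := by
  have hsj := hf.submersion p
  have hUo := hU.orth.self_of_nhds
  have hVo := hV.orth.self_of_nhds
  have hUv := hU.vert.self_of_nhds
  have hVv := hV.vert.self_of_nhds
  have hexp : ∀ j, ∑ l, (inner ℝ (U l p) (V j p) : ℝ) • U l p = V j p := fun j =>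
    vert_sum hsj hUo hUv (hVv j)
  have horth : ∀ l m, ∑ j, (inner ℝ (U l p) (V j p) : ℝ) * inner ℝ (U m p) (V j p) =
      inner ℝ (U l p) (U m p) := by
    intro l m
    have h1 := vert_sum hsj hVo hVv (hUv m)
    conv_rhs => rw [← h1]
    rw [inner_sum]
    refine Finset.sum_congr rfl fun j _ => ?_
    rw [inner_smul_right, real_inner_comm (V j p) (U m p), mul_comm]
  have hkey : ∀ j, (inner ℝ (cov (V j) p (V j p)) x : ℝ) =
      ∑ l, ∑ m, ((inner ℝ (U l p) (V j p) : ℝ) * inner ℝ (U m p) (V j p)) *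
        inner ℝ (cov (U l) p (U m p)) x := by
    intro j
    have hW : SmoothNear (fun q => ∑ l, (inner ℝ (U l p) (V j p) : ℝ) • U l q) p :=
      SmoothNear.sum Finset.univ (X := fun l q => (inner ℝ (U l p) (V j p) : ℝ) • U l q)
        (fun l _ => SmoothNear.smul (SmFn.const _ p) (hU.sm l))
    have hWv : ∀ᶠ q in 𝓝 p, mfderiv 𝓘(ℝ, E) 𝓘(ℝ, E') f q
        (∑ l, (inner ℝ (U l p) (V j p) : ℝ) • U l q) = 0 := by
      filter_upwards [hU.vert] with q hq
      rw [map_sum]
      refine Finset.sum_eq_zero fun l _ => ?_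
      rw [map_smul, hq l, smul_zero]
    have h1 := sff_congr hf hc (hV.sm j) hW (hV.vert.mono fun q hq => hq j) hWv (hexp j).symm
      (hVv j) hx
    rw [h1, MC_cov_comb hU.sm, sum_inner]
    refine Finset.sum_congr rfl fun l _ => ?_
    rw [real_inner_smul_left]
    conv_lhs => rw [← hexp j]
    rw [map_sum, sum_inner, Finset.mul_sum]
    refine Finset.sum_congr rfl fun m _ => ?_
    rw [map_smul, real_inner_smul_left, ← mul_assoc, hexp j]
  simp_rw [hkey]
  rw [Finset.sum_comm]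
  refine Finset.sum_congr rfl fun l _ => ?_
  rw [Finset.sum_comm]
  simp_rw [← Finset.sum_mul, horth]
  rw [Finset.sum_eq_single l]
  · rw [real_inner_self_eq_norm_sq, hUo.1 l]
    simp
  · intro m _ hm
    rw [hUo.2 (Ne.symm hm), zero_mul]
  · intro h; exact absurd (Finset.mem_univ l) h

/-- choose a frame at every point and take the horizontal part of `∑ j, ∇_{U j} (U j)`
(`exists_decomp`); near `p` it is `∑ i, ⟨∑ j, ∇_{U j} (U j), X i⟩ X i` with frames near `p`
(`exists_vframe`, `exists_hframe`, `VFrame.ev`, `sum_split`) -/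
theorem exists_mean (hf : IsRiemSub (E := E) (E' := E') f) (hc : IsLeviCivita cov) :
    ∃ N : Π x : M, TangentSpace 𝓘(ℝ, E) x, IsMean (E := E) (E' := E') cov f N := by
  choose U hU using fun q : M => exists_vframe (E := E) (E' := E') hf q
  choose N u hN hu hNu using fun q : M =>
    exists_decomp (E := E) (E' := E') (hf.submersion q) (∑ j, cov (U q j) q (U q j q))
  have heq : ∀ (p : M) (V : Fin (Module.finrank ℝ E - Module.finrank ℝ E') →
      Π x : M, TangentSpace 𝓘(ℝ, E) x), VFrame (E := E) (E' := E') f p V →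
      ∀ x : TangentSpace 𝓘(ℝ, E) p, Horiz (E' := E') f p x →
      (inner ℝ (N p) x : ℝ) = ∑ j, inner ℝ (cov (V j) p (V j p)) x := by
    intro p V hV x hx
    rw [← trace_indep hf hc (hU p) hV hx, ← sum_inner, hNu p, inner_add_left,
      real_inner_comm x (u p), hx _ (hu p), add_zero]
  refine ⟨N, ?_, hN, heq⟩
  intro p
  obtain ⟨V, hV⟩ : ∃ V, V = U p := ⟨_, rfl⟩
  have hVf : VFrame (E := E) (E' := E') f p V := hV ▸ hU p
  obtain ⟨e, -, he⟩ := exists_orthonormal_frame (E := E') (M := B) (f p)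
  obtain ⟨X, X', hX, hXo, -, -⟩ := exists_hframe (E := E) (E' := E') hf p (fun i => e i (f p))
    he.self_of_nhds
  have hsm : SmoothNear (fun q => ∑ i, (∑ j, (inner ℝ (cov (V j) q (V j q)) (X i q) : ℝ)) • X i q) p :=
    SmoothNear.sum Finset.univ
      (X := fun i q => (∑ j, (inner ℝ (cov (V j) q (V j q)) (X i q) : ℝ)) • X i q)
      (fun i _ => SmoothNear.smul
        (SmFn.sum Finset.univ (g := fun j q => (inner ℝ (cov (V j) q (V j q)) (X i q) : ℝ))
          (fun j _ => SmoothNear.inner (smoothNear_cov hc (hVf.sm j) (hVf.sm j)) (hX i).sm))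
        (hX i).sm)
  refine hsm.congr ?_
  have hh : ∀ᶠ q in 𝓝 p, ∀ i, Horiz (E' := E') f q (X i q) :=
    eventually_all.2 fun i => (hX i).hor
  filter_upwards [hVf.ev, hVf.vert, hVf.orth, hXo, hh] with q h1 h2 h3 h4 h5
  have h6 := sum_split hf h3 h2 h4 h5 (N q)
  rw [h6]
  have h7 : ∑ j, (inner ℝ (N q) (V j q) : ℝ) • V j q = 0 :=
    Finset.sum_eq_zero fun j _ => by rw [hN q _ (h2 j), zero_smul]
  rw [h7, zero_add]
  refine Finset.sum_congr rfl fun i _ => ?_
  rw [heq q V h1 (X i q) (h5 i)]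

end Pool.Agent.PW
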