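import Pool.Agent.Lib.MP_a61a4c_gt.OnA

/-!
Row pw-OnB: the formula of O'Neill.
-/

set_option autoImplicit false

open Bundle Filter Function Topology
open scoped Manifold ContDiff Bundle

noncomputable section

namespace Pool.Agent.PW

variable {E : Type*} [NormedAddCommGroup E] [NormedSpace ℝ E] [FiniteDimensional ℝ E]
variable {M : Type*} [TopologicalSpace M] [ChartedSpace E M] [IsManifold 𝓘(ℝ, E) ∞ M]
variable {E' : Type*} [NormedAddCommGroup E'] [NormedSpace ℝ E'] [FiniteDimensional ℝ E']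
variable {B : Type*} [TopologicalSpace B] [ChartedSpace E' B] [IsManifold 𝓘(ℝ, E') ∞ B]
variable [RiemannianBundle (fun x : M => TangentSpace 𝓘(ℝ, E) x)]
  [IsContMDiffRiemannianBundle 𝓘(ℝ, E) ∞ E (fun x : M => TangentSpace 𝓘(ℝ, E) x)]
variable [RiemannianBundle (fun x : B => TangentSpace 𝓘(ℝ, E') x)]
  [IsContMDiffRiemannianBundle 𝓘(ℝ, E') ∞ E' (fun x : B => TangentSpace 𝓘(ℝ, E') x)]

variable {f : M → B} {p : M}
  {cov : CovariantDerivative 𝓘(ℝ, E) E (TangentSpace 𝓘(ℝ, E) : M → Type _)}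

variable {cov' : CovariantDerivative 𝓘(ℝ, E') E' (TangentSpace 𝓘(ℝ, E') : B → Type _)}
  {X Y Z : Π x : M, TangentSpace 𝓘(ℝ, E) x} {X' Y' Z' : Π x : B, TangentSpace 𝓘(ℝ, E') x}

/-- the vertical part of `∇_X Y` near `p` -/
private theorem OnB_part (hf : IsRiemSub (E := E) (E' := E') f) (hc : IsLeviCivita cov)
    (hc' : IsLeviCivita cov') (hX : IsLift f p X X') (hY : IsLift f p Y Y') :
    ∃ C a : Π x : M, TangentSpace 𝓘(ℝ, E) x, IsLift f p C (fun b => cov' Y' b (X' b)) ∧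
      SmoothNear a p ∧ (∀ᶠ q in 𝓝 p, mfderiv 𝓘(ℝ, E) 𝓘(ℝ, E') f q (a q) = 0) ∧
      (∀ q, cov Y q (X q) = C q + a q) := by
  have hW : SmoothNear (fun q => cov Y q (X q)) p := smoothNear_cov hc hX.sm hY.sm
  obtain ⟨C, hC⟩ := exists_lift hf p (fun b => cov' Y' b (X' b)) (smoothNear_cov hc' hX.sm' hY.sm')
  refine ⟨C, fun q => cov Y q (X q) - C q, hC, hW.sub hC.sm, ?_, ?_⟩
  · filter_upwards [hX.ev hf, hY.ev hf, hC.rel] with q hXq hYq hCq
    rw [map_sub, mfderiv_cov_lift hf hc hc' hXq hYq, hCq, sub_self]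
  · intro q
    exact (add_sub_cancel _ _).symm

private theorem OnB_bracket (hf : IsRiemSub (E := E) (E' := E') f) (hc : IsLeviCivita cov)
    (hX : IsLift f p X X') (hY : IsLift f p Y Y') {L a c : TangentSpace 𝓘(ℝ, E) p}
    (hL : Horiz (E' := E') f p L)
    (hLr : mfderiv 𝓘(ℝ, E) 𝓘(ℝ, E') f p L = VectorField.mlieBracket 𝓘(ℝ, E') X' Y' (f p))
    (hc0 : Horiz (E' := E') f p c) (ha : mfderiv 𝓘(ℝ, E) 𝓘(ℝ, E') f p a = 0)
    (hsum : cov Y p (X p) = c + a) :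
    VectorField.mlieBracket 𝓘(ℝ, E) X Y p = L + (2 : ℝ) • a := by
  obtain ⟨b, hb⟩ : ∃ b : TangentSpace 𝓘(ℝ, E) p, b = VectorField.mlieBracket 𝓘(ℝ, E) X Y p :=
    ⟨_, rfl⟩
  have h1 : mfderiv 𝓘(ℝ, E) 𝓘(ℝ, E') f p b = VectorField.mlieBracket 𝓘(ℝ, E') X' Y' (f p) := by
    rw [hb]
    exact bracket_related hf.smooth hX.sm hY.sm hX.sm' hY.sm' hX.rel hY.rel
  obtain ⟨w, hw⟩ : ∃ w : TangentSpace 𝓘(ℝ, E) p, w = b - L - (2 : ℝ) • a := ⟨_, rfl⟩
  have hwv : mfderiv 𝓘(ℝ, E) 𝓘(ℝ, E') f p w = 0 := by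
    rw [hw, map_sub, map_sub, map_smul, h1, hLr, ha, sub_self, smul_zero, sub_zero]
  have hbw : (inner ℝ b w : ℝ) = 2 * inner ℝ a w := by
    have h2 : b = cov Y p (X p) - cov X p (Y p) := by
      rw [hb]
      exact (hc.torsion hX.sm.mdiff hY.sm.mdiff).symm
    have h3 := vert_cov_antisymm hf hc hX.sm hY.sm hX.hor hY.hor hwv
    have h4 : (inner ℝ (cov Y p (X p)) w : ℝ) = inner ℝ a w := by
      rw [hsum, inner_add_left, hc0 w hwv, zero_add]
    rw [h2, inner_sub_left]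
    linarith
  have h5 : (inner ℝ w w : ℝ) = 0 := by
    have h7 : (inner ℝ (b - L - (2 : ℝ) • a) w : ℝ) = 0 := by
      rw [inner_sub_left, inner_sub_left, hbw, hL w hwv, real_inner_smul_left]
      ring
    rwa [← hw] at h7
  have h6 : w = 0 := inner_self_eq_zero.1 h5
  rw [← hb, ← sub_eq_zero, ← h6, hw]
  abel

/-- the formula of O'Neill. Let `C` be the lift of `∇'_{X'} Y'` and `a = ∇_X Y - C`, a vertical field
near `p`, `⟨a, U j⟩ = ⟨∇_X Y, U j⟩`.
* `⟨∇_X ∇_Y Y, X⟩ = ⟨∇'_{X'} ∇'_{Y'} Y', X'⟩` (`isLift_cov_self`, `inner_cov_lift`);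
* `⟨∇_Y C, X⟩ = ⟨∇'_{Y'} ∇'_{X'} Y', X'⟩`, `⟨∇_Y a, X⟩ = - ⟨a, ∇_Y X⟩ = |a|²`
  (`inner_cov_vert`, `vert_cov_antisymm`);
* `[X, Y] = (lift of [X', Y']) + 2 a`, `⟨∇_a Y, X⟩ = ⟨∇_Y a, X⟩ + ⟨[a, Y], X⟩ = |a|²`
  (`bracket_vert_lift`). -/
theorem oneill (hf : IsRiemSub (E := E) (E' := E') f) (hc : IsLeviCivita cov)
    (hc' : IsLeviCivita cov') (hX : IsLift f p X X') (hY : IsLift f p Y Y')
    {U : Fin (Module.finrank ℝ E - Module.finrank ℝ E') → Π x : M, TangentSpace 𝓘(ℝ, E) x}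
    (hU : VFrame (E := E) (E' := E') f p U) :
    (inner ℝ (curv cov' X' Y' Y' (f p)) (X' (f p)) : ℝ) =
      inner ℝ (curv cov X Y Y p) (X p) + 3 * ∑ j, (inner ℝ (cov Y p (X p)) (U j p) : ℝ) ^ 2 := by
  obtain ⟨C, a, hC, ha, hav, hW⟩ := OnB_part hf hc hc' hX hY
  have havp : mfderiv 𝓘(ℝ, E) 𝓘(ℝ, E') f p (a p) = 0 := hav.self_of_nhds
  have hCp : Horiz (E' := E') f p (C p) := hC.hor.self_of_nhds
  have hXp : Horiz (E' := E') f p (X p) := hX.hor.self_of_nhds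
  obtain ⟨N, hN⟩ : ∃ N : ℝ, N = inner ℝ (a p) (a p) := ⟨_, rfl⟩
  -- the first term
  have t1 : (inner ℝ (cov (fun x => cov Y x (Y x)) p (X p)) (X p) : ℝ) =
      inner ℝ (cov' (fun b => cov' Y' b (Y' b)) (f p) (X' (f p))) (X' (f p)) :=
    inner_cov_lift hf hc hc' hX (isLift_cov_self hf hc hc' hY) hX
  -- the derivative of the vertical part
  have hva : (inner ℝ (cov a p (Y p)) (X p) : ℝ) = N := by
    rw [inner_cov_vert hc ha hX.sm hav hX.hor (Y p), real_inner_comm,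
      ← vert_cov_antisymm hf hc hX.sm hY.sm hX.hor hY.hor havp, hW p, inner_add_left,
      hCp _ havp, zero_add, hN]
  -- the second term
  have t2 : (inner ℝ (cov (fun x => cov Y x (X x)) p (Y p)) (X p) : ℝ) =
      inner ℝ (cov' (fun b => cov' Y' b (X' b)) (f p) (Y' (f p))) (X' (f p)) + N := by
    have h1 : (fun x => cov Y x (X x)) = fun x => C x + a x := funext hW
    have h2 : cov (fun x => cov Y x (X x)) p = cov C p + cov a p := by
      rw [h1]
      exact cov_add cov hC.sm ha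
    rw [h2]
    show (inner ℝ (cov C p (Y p) + cov a p (Y p)) (X p) : ℝ) = _
    rw [inner_add_left, hva, inner_cov_lift hf hc hc' hY hC hX]
  -- the third term
  have : CompleteSpace E' := FiniteDimensional.complete ℝ E'
  obtain ⟨L, hL⟩ := exists_lift hf p (fun b => VectorField.mlieBracket 𝓘(ℝ, E') X' Y' b)
    (hX.sm'.bracket hY.sm')
  have hbr : VectorField.mlieBracket 𝓘(ℝ, E) X Y p = L p + (2 : ℝ) • a p :=
    OnB_bracket hf hc hX hY hL.hor.self_of_nhds hL.rel.self_of_nhds hCp havp (hW p)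
  have hvb : (inner ℝ (cov Y p (a p)) (X p) : ℝ) = N := by
    have h1 := hc.torsion ha.mdiff hY.sm.mdiff
    have h2 := bracket_vert_lift hf ha hav hY
    have h3 : (inner ℝ (cov Y p (a p) - cov a p (Y p)) (X p) : ℝ) = 0 := by
      rw [h1, real_inner_comm]
      exact hXp _ h2
    rw [inner_sub_left, hva] at h3
    linarith
  have t3 : (inner ℝ (cov Y p (VectorField.mlieBracket 𝓘(ℝ, E) X Y p)) (X p) : ℝ) =
      inner ℝ (cov' Y' (f p) (VectorField.mlieBracket 𝓘(ℝ, E') X' Y' (f p))) (X' (f p))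
        + 2 * N := by
    rw [hbr, map_add, map_smul, inner_add_left, real_inner_smul_left, hvb,
      inner_cov_lift hf hc hc' hL hY hX]
  -- the norm of the vertical part
  have hs : ∑ j, (inner ℝ (cov Y p (X p)) (U j p) : ℝ) ^ 2 = N := by
    have hUv := hU.vert.self_of_nhds
    have h1 := vert_sum (hf.submersion p) hU.orth.self_of_nhds hUv havp
    have h2 : ∀ j, (inner ℝ (cov Y p (X p)) (U j p) : ℝ) = inner ℝ (U j p) (a p) := by
      intro j
      rw [hW p, inner_add_left, hCp _ (hUv j), zero_add, real_inner_comm]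
    simp only [h2]
    have h3 : (inner ℝ (∑ j, (inner ℝ (U j p) (a p) : ℝ) • U j p) (a p) : ℝ) = N := by
      rw [h1, hN]
    rw [← h3, sum_inner]
    refine Finset.sum_congr rfl fun j _ => ?_
    rw [real_inner_smul_left]
    ring
  rw [hs]
  unfold curv
  rw [inner_sub_left, inner_sub_left, inner_sub_left, inner_sub_left, t1, t2, t3]
  ring

end Pool.Agent.PW
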