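import Pool.Agent.Lib.MP_a61a4c_gt.Vf

/-!
Row pw-OnA: the Levi-Civita connections of the total space and of the base.
-/

set_option autoImplicit false

open Bundle Filter Function Topology
open scoped Manifold ContDiff Bundle

noncomputable section

namespace Pool.Agent.PW

variable {E : Type*} [NormedAddCommGroup E] [NormedSpace ℝ E] [FiniteDimensional ℝ E]
variable {M : Type*} [TopologicalSpace M] [ChartedSpace E M] [IsManifold 𝓘(ℝ, E) ∞ M]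
variable {E' : Type*} [NormedAddCommGroup E'] [NormedSpace ℝ E'] [FiniteDimensional ℝ E']
variable {B : Type*} [TopologicalSpace B] [ChartedSpace E' B] [IsManifold 𝓘(ℝ, E') ∞ B]
variable [RiemannianBundle (fun x : M => TangentSpace 𝓘(ℝ, E) x)]
  [IsContMDiffRiemannianBundle 𝓘(ℝ, E) ∞ E (fun x : M => TangentSpace 𝓘(ℝ, E) x)]
variable [RiemannianBundle (fun x : B => TangentSpace 𝓘(ℝ, E') x)]
  [IsContMDiffRiemannianBundle 𝓘(ℝ, E') ∞ E' (fun x : B => TangentSpace 𝓘(ℝ, E') x)]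

variable {f : M → B} {p : M}
  {cov : CovariantDerivative 𝓘(ℝ, E) E (TangentSpace 𝓘(ℝ, E) : M → Type _)}

variable {cov' : CovariantDerivative 𝓘(ℝ, E') E' (TangentSpace 𝓘(ℝ, E') : B → Type _)}
  {X Y Z : Π x : M, TangentSpace 𝓘(ℝ, E) x} {X' Y' Z' : Π x : B, TangentSpace 𝓘(ℝ, E') x}

private theorem pwOnA_deriv (hf : IsRiemSub (E := E) (E' := E') f) (hX : IsLift f p X X')
    (hY : IsLift f p Y Y') (hZ : IsLift f p Z Z') :
    mvfderiv 𝓘(ℝ, E) (fun x => (inner ℝ (Y x) (Z x) : ℝ)) p (X p) =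
      mvfderiv 𝓘(ℝ, E') (fun b => (inner ℝ (Y' b) (Z' b) : ℝ)) (f p) (X' (f p)) := by
  have h1 : mvfderiv 𝓘(ℝ, E) (fun x => (inner ℝ (Y x) (Z x) : ℝ)) p (X p) =
      mvfderiv 𝓘(ℝ, E) (fun q => (fun b => (inner ℝ (Y' b) (Z' b) : ℝ)) (f q)) p (X p) :=
    mvfderiv_congr (IsLift.inner_eq hf hY hZ) (X p)
  have h2 := mvfderiv_comp_base (E := E) hf.smooth (SmoothNear.inner hY.sm' hZ.sm') (X p)
  have h3 : mfderiv 𝓘(ℝ, E) 𝓘(ℝ, E') f p (X p) = X' (f p) := hX.rel.self_of_nhds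
  rw [h3] at h2
  exact h1.trans h2

private theorem pwOnA_brk (hf : IsRiemSub (E := E) (E' := E') f) (hX : IsLift f p X X')
    (hY : IsLift f p Y Y') (hZ : IsLift f p Z Z') :
    (inner ℝ (VectorField.mlieBracket 𝓘(ℝ, E) X Y p) (Z p) : ℝ) =
      inner ℝ (VectorField.mlieBracket 𝓘(ℝ, E') X' Y' (f p)) (Z' (f p)) := by
  have h1 := bracket_related hf.smooth hX.sm hY.sm hX.sm' hY.sm' hX.rel hY.rel
  have h2 := inner_mfderiv' hf hZ.hor.self_of_nhds (VectorField.mlieBracket 𝓘(ℝ, E) X Y p)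
  have h3 : mfderiv 𝓘(ℝ, E) 𝓘(ℝ, E') f p (Z p) = Z' (f p) := hZ.rel.self_of_nhds
  rw [h1, h3] at h2
  exact h2.symm

/-- Koszul formula on both sides: `IsLift.inner_eq`, `mvfderiv_comp_base`, `bracket_related`,
`inner_mfderiv'` -/
theorem inner_cov_lift (hf : IsRiemSub (E := E) (E' := E') f) (hc : IsLeviCivita cov)
    (hc' : IsLeviCivita cov') (hX : IsLift f p X X') (hY : IsLift f p Y Y') (hZ : IsLift f p Z Z') :
    (inner ℝ (cov Y p (X p)) (Z p) : ℝ) = inner ℝ (cov' Y' (f p) (X' (f p))) (Z' (f p)) := by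
  have k1 := koszul hc hX.sm hY.sm hZ.sm
  have k2 := koszul hc' hX.sm' hY.sm' hZ.sm'
  rw [pwOnA_deriv hf hX hY hZ, pwOnA_deriv hf hY hX hZ, pwOnA_deriv hf hZ hX hY,
    pwOnA_brk hf hX hY hZ, pwOnA_brk hf hX hZ hY, pwOnA_brk hf hY hZ hX] at k1
  linarith

theorem mfderiv_cov_lift (hf : IsRiemSub (E := E) (E' := E') f) (hc : IsLeviCivita cov)
    (hc' : IsLeviCivita cov') (hX : IsLift f p X X') (hY : IsLift f p Y Y') :
    mfderiv 𝓘(ℝ, E) 𝓘(ℝ, E') f p (cov Y p (X p)) = cov' Y' (f p) (X' (f p)) := by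
  obtain ⟨z, hz, hzw⟩ := exists_horiz_of hf (q := p)
    (mfderiv 𝓘(ℝ, E) 𝓘(ℝ, E') f p (cov Y p (X p)) - cov' Y' (f p) (X' (f p)))
  obtain ⟨Z, Z', hZ, hZp⟩ := exists_horiz_ext hf hz
  have h1 := inner_cov_lift hf hc hc' hX hY hZ
  have h2 := inner_mfderiv' hf hZ.hor.self_of_nhds (cov Y p (X p))
  have h3 : mfderiv 𝓘(ℝ, E) 𝓘(ℝ, E') f p (Z p) = Z' (f p) := hZ.rel.self_of_nhds
  have h4 : Z' (f p) =
      mfderiv 𝓘(ℝ, E) 𝓘(ℝ, E') f p (cov Y p (X p)) - cov' Y' (f p) (X' (f p)) := by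
    rw [← h3, hZp, hzw]
  rw [h3, h1] at h2
  have h5 : (inner ℝ (mfderiv 𝓘(ℝ, E) 𝓘(ℝ, E') f p (cov Y p (X p)) - cov' Y' (f p) (X' (f p)))
      (mfderiv 𝓘(ℝ, E) 𝓘(ℝ, E') f p (cov Y p (X p)) - cov' Y' (f p) (X' (f p))) : ℝ) = 0 := by
    rw [← h4, h4, inner_sub_left, ← h4, h2, sub_self]
  exact sub_eq_zero.mp (inner_self_eq_zero.mp h5)

/-- `∇_X X` is the lift of `∇'_{X'} X'` near `p` -/
theorem isLift_cov_self (hf : IsRiemSub (E := E) (E' := E') f) (hc : IsLeviCivita cov)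
    (hc' : IsLeviCivita cov') (hX : IsLift f p X X') :
    IsLift f p (fun q => cov X q (X q)) (fun b => cov' X' b (X' b)) := by
  refine ⟨smoothNear_cov hc hX.sm hX.sm, smoothNear_cov hc' hX.sm' hX.sm', ?_, ?_⟩
  · filter_upwards [hX.ev hf] with q hq
    exact horiz_cov_self hf hc hq.sm hq.hor
  · filter_upwards [hX.ev hf] with q hq
    exact mfderiv_cov_lift hf hc hc' hq hq

end Pool.Agent.PW
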