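import Pool.Agent.Lib.MP_a61a4c_gt.Defs

/-!
Mean curvature of the fibres and totally geodesic fibres: definitions without frames.
-/

set_option autoImplicit false

open Bundle Filter Function Topology
open scoped Manifold ContDiff Bundle

noncomputable section

namespace Pool.Agent.PW

variable {E : Type*} [NormedAddCommGroup E] [NormedSpace ℝ E]
variable {M : Type*} [TopologicalSpace M] [ChartedSpace E M] [IsManifold 𝓘(ℝ, E) ∞ M]
variable [RiemannianBundle (fun x : M => TangentSpace 𝓘(ℝ, E) x)]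
variable {E' : Type*} [NormedAddCommGroup E'] [NormedSpace ℝ E']
variable {B : Type*} [TopologicalSpace B] [ChartedSpace E' B]

/-- `n` is the mean curvature vector of the fibre at `p` (not divided by the dimension `k` of the
fibre): it is horizontal, and `⟨n, x⟩ = ∑ j, ⟨∇_{U j} (U j), x⟩` for all smooth vertical fields
`U 1, …, U k` which are orthonormal at `p` and all horizontal vectors `x`. -/
def IsMeanVec (cov : CovariantDerivative 𝓘(ℝ, E) E (TangentSpace 𝓘(ℝ, E) : M → Type _))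
    (f : M → B) (p : M) (n : TangentSpace 𝓘(ℝ, E) p) : Prop :=
  Horiz (E' := E') f p n ∧
  ∀ U : Fin (Module.finrank ℝ E - Module.finrank ℝ E') → Π x : M, TangentSpace 𝓘(ℝ, E) x,
    (∀ j, SmoothNear (U j) p) → (∀ j, ∀ᶠ q in 𝓝 p, mfderiv 𝓘(ℝ, E) 𝓘(ℝ, E') f q (U j q) = 0) →
    Orthonormal ℝ (fun j => U j p) → ∀ x : TangentSpace 𝓘(ℝ, E) p, Horiz (E' := E') f p x →
      (inner ℝ n x : ℝ) = ∑ j, inner ℝ (cov (U j) p (U j p)) x

/-- All fibres are totally geodesic: the horizontal part of `∇_U V` vanishes for vertical fields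
`U`, `V`. -/
def TotGeo (cov : CovariantDerivative 𝓘(ℝ, E) E (TangentSpace 𝓘(ℝ, E) : M → Type _))
    (f : M → B) : Prop :=
  ∀ (p : M) (U V : Π x : M, TangentSpace 𝓘(ℝ, E) x), SmoothNear U p → SmoothNear V p →
    (∀ᶠ q in 𝓝 p, mfderiv 𝓘(ℝ, E) 𝓘(ℝ, E') f q (U q) = 0) →
    (∀ᶠ q in 𝓝 p, mfderiv 𝓘(ℝ, E) 𝓘(ℝ, E') f q (V q) = 0) →
    ∀ x : TangentSpace 𝓘(ℝ, E) p, Horiz (E' := E') f p x → (inner ℝ (cov V p (U p)) x : ℝ) = 0

end Pool.Agent.PW
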