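import Mathlib

/-!
A limit argument for eigenvalues of symmetric matrices.
-/

set_option autoImplicit false

open Filter Topology

noncomputable section

namespace Pool.Agent.PW

theorem core_limit {k : ℕ} {S : ℝ → Fin k → Fin k → ℝ} {D : Fin k → Fin k → ℝ}
    (hD : ∀ i j, HasDerivAt (fun t => S t i j) (D i j) 0)
    (hsym : ∀ i j, S 0 i j = S 0 j i) {N l : ℝ → ℝ} {Λ : ℝ} (hN : HasDerivAt N 0 0)
    (hN0 : N 0 = 1) (hl : Tendsto l (𝓝[>] 0) (𝓝 Λ)) (hle : ∀ᶠ t in 𝓝[>] (0 : ℝ), l t ≤ Λ)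
    {P : Set (Fin k → ℝ)} (hP : IsClosed P)
    (h : ∀ᶠ t in 𝓝[>] (0 : ℝ), ∃ c ∈ P, ∑ i, c i ^ 2 = 1 ∧
      ∀ i, ∑ j, S t i j * c j = N t * l t * c i) :
    ∃ c ∈ P, ∑ i, c i ^ 2 = 1 ∧ (∀ i, ∑ j, S 0 i j * c j = Λ * c i) ∧
      ∑ i, ∑ j, c i * (D i j * c j) ≤ 0 := by
  classical
  -- the compact set
  have hK : IsCompact (P ∩ {c : Fin k → ℝ | ∑ j, c j ^ 2 = 1}) := by
    have h1 : IsCompact {c : Fin k → ℝ | ∑ j, c j ^ 2 = 1} := by
      refine Metric.isCompact_of_isClosed_isBounded ?_ ?_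
      · exact isClosed_eq (by fun_prop) continuous_const
      · refine (Metric.isBounded_closedBall (x := (0 : Fin k → ℝ)) (r := 1)).subset ?_
        intro c hc
        have hc' : ∑ j, c j ^ 2 = 1 := hc
        rw [mem_closedBall_zero_iff, pi_norm_le_iff_of_nonneg zero_le_one]
        intro j
        have h1 : c j ^ 2 ≤ ∑ j, c j ^ 2 :=
          Finset.single_le_sum (f := fun j => c j ^ 2) (fun j _ => sq_nonneg _) (Finset.mem_univ j)
        rw [hc'] at h1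
        rw [Real.norm_eq_abs]
        exact (sq_le_one_iff_abs_le_one (c j)).1 h1
    exact h1.inter_left hP
  -- the choice of the vectors
  obtain ⟨C, hC⟩ : ∃ C : ℝ → Fin k → ℝ, ∀ᶠ t in 𝓝[>] (0 : ℝ), C t ∈ P ∧
      ∑ i, C t i ^ 2 = 1 ∧ ∀ i, ∑ j, S t i j * C t j = N t * l t * C t i := by
    refine ⟨fun t => if ht : ∃ c ∈ P, ∑ i, c i ^ 2 = 1 ∧
      ∀ i, ∑ j, S t i j * c j = N t * l t * c i then ht.choose else 0, ?_⟩
    filter_upwards [h] with t ht
    rw [dif_pos ht]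
    exact ht.choose_spec
  obtain ⟨G, hG⟩ : ∃ G : Ultrafilter ℝ, (G : Filter ℝ) ≤ 𝓝[>] (0 : ℝ) :=
    ⟨Ultrafilter.of _, Ultrafilter.of_le _⟩
  have hCG := hG hC
  have hmem : C ⁻¹' (P ∩ {c : Fin k → ℝ | ∑ j, c j ^ 2 = 1}) ∈ (G : Filter ℝ) := by
    filter_upwards [hCG] with t ht
    exact ⟨ht.1, ht.2.1⟩
  obtain ⟨c, ⟨hcP, hc1⟩, hcG⟩ := hK.ultrafilter_le_nhds' (G.map C) hmem
  have hCc : Tendsto C G (𝓝 c) := hcG
  have hc1' : ∑ j, c j ^ 2 = 1 := hc1
  have hCi : ∀ i, Tendsto (fun t => C t i) G (𝓝 (c i)) := fun i =>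
    (tendsto_pi_nhds.1 hCc) i
  have hG0 : (G : Filter ℝ) ≤ 𝓝 0 := hG.trans nhdsWithin_le_nhds
  have hGne : (G : Filter ℝ) ≤ 𝓝[≠] 0 := hG.trans (nhdsWithin_mono _ fun t ht => ne_of_gt ht)
  have hS0 : ∀ i j, Tendsto (fun t => S t i j) G (𝓝 (S 0 i j)) := fun i j =>
    (hD i j).continuousAt.tendsto.mono_left hG0
  have hlG : Tendsto l G (𝓝 Λ) := hl.mono_left hG
  have hNG : Tendsto N G (𝓝 1) := by
    rw [← hN0]
    exact hN.continuousAt.tendsto.mono_left hG0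
  have heig : ∀ i, ∑ j, S 0 i j * c j = Λ * c i := by
    intro i
    have t1 : Tendsto (fun t => ∑ j, S t i j * C t j) G (𝓝 (∑ j, S 0 i j * c j)) :=
      tendsto_finsetSum _ fun j _ => (hS0 i j).mul (hCi j)
    have t2 : Tendsto (fun t => N t * l t * C t i) G (𝓝 (1 * Λ * c i)) :=
      (hNG.mul hlG).mul (hCi i)
    rw [one_mul] at t2
    refine tendsto_nhds_unique t1 (t2.congr' ?_)
    filter_upwards [hCG] with t ht
    exact (ht.2.2 i).symm
  refine ⟨c, hcP, hc1', heig, ?_⟩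
  -- the limits of the difference quotients
  have hslope : ∀ i j, Tendsto (fun t => t⁻¹ * (S t i j - S 0 i j)) G (𝓝 (D i j)) := by
    intro i j
    have h1 := (hasDerivAt_iff_tendsto_slope_zero.1 (hD i j)).mono_left hGne
    simpa only [zero_add, smul_eq_mul] using h1
  have hNs : Tendsto (fun t => t⁻¹ * (N t - 1)) G (𝓝 0) := by
    have h1 := (hasDerivAt_iff_tendsto_slope_zero.1 hN).mono_left hGne
    simpa only [zero_add, smul_eq_mul, hN0] using h1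
  have hF : Tendsto (fun t => ∑ i, ∑ j, c i * ((t⁻¹ * (S t i j - S 0 i j)) * C t j)) G
      (𝓝 (∑ i, ∑ j, c i * (D i j * c j))) :=
    tendsto_finsetSum _ fun i _ => tendsto_finsetSum _ fun j _ =>
      tendsto_const_nhds.mul ((hslope i j).mul (hCi j))
  have hcC : Tendsto (fun t => ∑ i, c i * C t i) G (𝓝 1) := by
    have h1 : Tendsto (fun t => ∑ i, c i * C t i) G (𝓝 (∑ i, c i * c i)) :=
      tendsto_finsetSum _ fun i _ => tendsto_const_nhds.mul (hCi i)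
    have h2 : ∑ i, c i * c i = 1 := by
      rw [← hc1']
      exact Finset.sum_congr rfl fun i _ => (sq (c i)).symm
    rw [h2] at h1
    exact h1
  have hR : Tendsto (fun t => (Λ * (t⁻¹ * (N t - 1))) * ∑ i, c i * C t i) G (𝓝 0) := by
    have h1 := (tendsto_const_nhds (x := Λ)).mul hNs |>.mul hcC
    simpa using h1
  refine le_of_tendsto_of_tendsto hF hR ?_
  have hpos : ∀ᶠ t in (G : Filter ℝ), (0 : ℝ) < t := hG self_mem_nhdsWithin
  have hNpos : ∀ᶠ t in (G : Filter ℝ), 0 < N t := hNG.eventually (lt_mem_nhds one_pos)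
  have hcCpos : ∀ᶠ t in (G : Filter ℝ), 0 < ∑ i, c i * C t i :=
    hcC.eventually (lt_mem_nhds one_pos)
  filter_upwards [hCG, hpos, hNpos, hcCpos, hG hle] with t ht ht0 htN htc htl
  have e1 : ∑ i, ∑ j, c i * (S t i j * C t j) = N t * l t * ∑ i, c i * C t i := by
    rw [Finset.mul_sum]
    refine Finset.sum_congr rfl fun i _ => ?_
    rw [← Finset.mul_sum, ht.2.2 i]
    ring
  have e2 : ∑ i, ∑ j, c i * (S 0 i j * C t j) = Λ * ∑ i, c i * C t i := by
    rw [Finset.sum_comm, Finset.mul_sum]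
    refine Finset.sum_congr rfl fun j _ => ?_
    have e3 : ∑ i, c i * (S 0 i j * C t j) = (∑ i, S 0 j i * c i) * C t j := by
      rw [Finset.sum_mul]
      refine Finset.sum_congr rfl fun i _ => ?_
      rw [hsym i j]
      ring
    rw [e3, heig j]
    ring
  have e4 : ∑ i, ∑ j, c i * ((t⁻¹ * (S t i j - S 0 i j)) * C t j) =
      t⁻¹ * (N t * l t - Λ) * ∑ i, c i * C t i := by
    have e5 : ∑ i, ∑ j, c i * ((t⁻¹ * (S t i j - S 0 i j)) * C t j) =
        t⁻¹ * (∑ i, ∑ j, c i * (S t i j * C t j) - ∑ i, ∑ j, c i * (S 0 i j * C t j)) := by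
      rw [← Finset.sum_sub_distrib, Finset.mul_sum]
      refine Finset.sum_congr rfl fun i _ => ?_
      rw [← Finset.sum_sub_distrib, Finset.mul_sum]
      refine Finset.sum_congr rfl fun j _ => ?_
      ring
    rw [e5, e1, e2]
    ring
  show ∑ i, ∑ j, c i * ((t⁻¹ * (S t i j - S 0 i j)) * C t j) ≤
    (Λ * (t⁻¹ * (N t - 1))) * ∑ i, c i * C t i
  rw [e4]
  refine mul_le_mul_of_nonneg_right ?_ htc.le
  have h6 : N t * l t ≤ N t * Λ := mul_le_mul_of_nonneg_left htl htN.le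
  have h7 : 0 < t⁻¹ := inv_pos.2 ht0
  calc t⁻¹ * (N t * l t - Λ) ≤ t⁻¹ * (N t * Λ - Λ) :=
        mul_le_mul_of_nonneg_left (by linarith) h7.le
    _ = Λ * (t⁻¹ * (N t - 1)) := by ring

end Pool.Agent.PW
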