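import Pool.Agent.Lib.MP_a61a4c_gt.RkF
import Pool.Agent.Lib.MP_a61a4c_gt.RkG

/-!
Eigenvectors of the shape operators in coordinates, and the derivative of the shape operator along a
horizontal curve.
-/

set_option autoImplicit false

open Bundle Filter Function Topology
open scoped Manifold ContDiff Bundle

noncomputable section

namespace Pool.Agent.PW

variable {E : Type*} [NormedAddCommGroup E] [NormedSpace ℝ E] [FiniteDimensional ℝ E]
variable {M : Type*} [TopologicalSpace M] [ChartedSpace E M] [IsManifold 𝓘(ℝ, E) ∞ M]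
variable {E' : Type*} [NormedAddCommGroup E'] [NormedSpace ℝ E'] [FiniteDimensional ℝ E']
variable {B : Type*} [TopologicalSpace B] [ChartedSpace E' B] [IsManifold 𝓘(ℝ, E') ∞ B]
variable [RiemannianBundle (fun x : M => TangentSpace 𝓘(ℝ, E) x)]
  [IsContMDiffRiemannianBundle 𝓘(ℝ, E) ∞ E (fun x : M => TangentSpace 𝓘(ℝ, E) x)]
variable [RiemannianBundle (fun x : B => TangentSpace 𝓘(ℝ, E') x)]
  [IsContMDiffRiemannianBundle 𝓘(ℝ, E') ∞ E' (fun x : B => TangentSpace 𝓘(ℝ, E') x)]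

variable {f : M → B} {p : M}
  {cov : CovariantDerivative 𝓘(ℝ, E) E (TangentSpace 𝓘(ℝ, E) : M → Type _)}

/-- the matrix of the second fundamental form in the direction `y` -/
def SS (cov : CovariantDerivative 𝓘(ℝ, E) E (TangentSpace 𝓘(ℝ, E) : M → Type _)) {k : ℕ}
    (U : Fin k → Π x : M, TangentSpace 𝓘(ℝ, E) x) (q : M) (y : TangentSpace 𝓘(ℝ, E) q)
    (i j : Fin k) : ℝ :=
  (inner ℝ (cov (U j) q (U i q)) y : ℝ)

omit [FiniteDimensional ℝ E]
  [IsContMDiffRiemannianBundle 𝓘(ℝ, E) ∞ E (fun x : M => TangentSpace 𝓘(ℝ, E) x)] in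
theorem TT_sum (η : Π x : M, TangentSpace 𝓘(ℝ, E) x) {k : ℕ}
    (U : Fin k → Π x : M, TangentSpace 𝓘(ℝ, E) x) (y : TangentSpace 𝓘(ℝ, E) p)
    (c : Fin k → ℝ) (i : Fin k) :
    ∑ j, TT cov η U p y i j * c j = ∑ j, SS cov U p y i j * c j - inner ℝ (η p) y * c i := by
  have e4 : ∀ j, TT cov η U p y i j * c j =
      SS cov U p y i j * c j - (if i = j then (inner ℝ (η p) y : ℝ) * c j else 0) := by
    intro j
    unfold TT SS
    by_cases hij : i = j
    · rw [if_pos hij, if_pos hij]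
      ring
    · rw [if_neg hij, if_neg hij]
      ring
  rw [Finset.sum_congr rfl fun j _ => e4 j, Finset.sum_sub_distrib,
    Finset.sum_ite_eq Finset.univ i, if_pos (Finset.mem_univ i)]

/-- coordinates of an eigenvector -/
theorem eig_coord (hf : IsRiemSub (E := E) (E' := E') f) (hc : IsLeviCivita cov)
    {U : Fin (Module.finrank ℝ E - Module.finrank ℝ E') → Π x : M, TangentSpace 𝓘(ℝ, E) x}
    (hU : VFrame (E := E) (E' := E') f p U) {y : TangentSpace 𝓘(ℝ, E) p}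
    (hy : Horiz (E' := E') f p y) (hy1 : ‖y‖ = 1) {μ : ℝ}
    {W : Submodule ℝ (TangentSpace 𝓘(ℝ, E) p)}
    (hW : EigSp (E := E) (E' := E') cov f p y μ W) {w : TangentSpace 𝓘(ℝ, E) p} (hw : w ∈ W) :
    (∀ i, ∑ j, SS cov U p y i j * inner ℝ (U j p) w = μ * inner ℝ (U i p) w) ∧
      ∑ i, (inner ℝ (U i p) w : ℝ) • U i p = w := by
  obtain ⟨η, -, hηp⟩ := exists_smoothNear p (μ • y)
  have h0 : (inner ℝ (η p) y : ℝ) = μ := by
    rw [hηp, real_inner_smul_left, real_inner_self_eq_norm_sq, hy1]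
    ring
  have hW' : EigSp (E := E) (E' := E') cov f p y (inner ℝ (η p) y) W := by
    rw [h0]
    exact hW
  obtain ⟨h1, h2⟩ := ker_coord (η := η) hf hc hU hy hW' hw
  refine ⟨fun i => ?_, h2⟩
  have h3 : ∑ j, TT cov η U p y i j * (fun i => (inner ℝ (U i p) w : ℝ)) j = 0 := congrFun h1 i
  rw [TT_sum, h0] at h3
  linarith

/-- an eigenvector at `q` which is in the kernel of the tensor `A` at `p` -/
theorem exists_eigc (hf : IsRiemSub (E := E) (E' := E') f) (hc : IsLeviCivita cov)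
    {U : Fin (Module.finrank ℝ E - Module.finrank ℝ E') → Π x : M, TangentSpace 𝓘(ℝ, E) x}
    (hU : VFrame (E := E) (E' := E') f p U) {x : TangentSpace 𝓘(ℝ, E) p}
    (hx : Horiz (E' := E') f p x) (hx1 : ‖x‖ = 1) {q : M}
    (hUq : VFrame (E := E) (E' := E') f q U) {y : TangentSpace 𝓘(ℝ, E) q}
    (hy : Horiz (E' := E') f q y) (hy1 : ‖y‖ = 1) {μ : ℝ}
    {W : Submodule ℝ (TangentSpace 𝓘(ℝ, E) q)}
    (hW : EigSp (E := E) (E' := E') cov f q y μ W)
    (hb : Module.finrank ℝ E' ≤ Module.finrank ℝ W) :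
    ∃ c : Fin (Module.finrank ℝ E - Module.finrank ℝ E') → ℝ,
      mfderiv 𝓘(ℝ, E) 𝓘(ℝ, E') f p (∑ j, c j • cov (U j) p x) = 0 ∧ ∑ j, c j ^ 2 = 1 ∧
      ∀ i, ∑ j, SS cov U q y i j * c j = μ * c i := by
  let φ : W →ₗ[ℝ] (Fin (Module.finrank ℝ E - Module.finrank ℝ E') → ℝ) :=
    LinearMap.pi fun i => (innerₛₗ ℝ (U i q)).comp W.subtype
  have hφ : ∀ w : W, φ w = fun i => (inner ℝ (U i q) (w : TangentSpace 𝓘(ℝ, E) q) : ℝ) :=
    fun w => rfl
  have hinj : Function.Injective φ := by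
    intro w w' hww
    apply Subtype.ext
    rw [← (eig_coord hf hc hUq hy hy1 hW w.2).2, ← (eig_coord hf hc hUq hy hy1 hW w'.2).2]
    rw [hφ, hφ] at hww
    exact Finset.sum_congr rfl fun i _ => by rw [congrFun hww i]
  have hK : Module.finrank ℝ E' ≤ Module.finrank ℝ (LinearMap.range φ) := by
    rw [LinearMap.finrank_range_of_inj hinj]
    exact hb
  obtain ⟨c, ⟨w, hw⟩, hc1, hc2⟩ := exists_c hf hc hU hx hx1 (LinearMap.range φ) hK
  refine ⟨c, hc2, hc1, fun i => ?_⟩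
  rw [← hw, hφ]
  exact (eig_coord hf hc hUq hy hy1 hW w.2).1 i

omit [FiniteDimensional ℝ E]
  [IsContMDiffRiemannianBundle 𝓘(ℝ, E) ∞ E (fun x : M => TangentSpace 𝓘(ℝ, E) x)] in
/-- the quadratic form -/
theorem SS_quad {k : ℕ} {U : Fin k → Π x : M, TangentSpace 𝓘(ℝ, E) x}
    (hU : ∀ j, SmoothNear (U j) p) (c : Fin k → ℝ) (hc1 : ∑ j, c j ^ 2 = 1)
    (y : TangentSpace 𝓘(ℝ, E) p) :
    (inner ℝ (cov (fun q => ∑ l, c l • U l q) p (∑ l, c l • U l p)) y : ℝ) =
      ∑ i, ∑ j, c i * (SS cov U p y i j * c j) := by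
  have h := TT_quad (cov := cov) (η := fun _ => 0) hU c hc1 y
  rw [inner_zero_left, add_zero] at h
  rw [h]
  refine Finset.sum_congr rfl fun i _ => Finset.sum_congr rfl fun j _ => ?_
  unfold TT SS
  rw [inner_zero_left, mul_zero, sub_zero]

/-- the curvature of the plane of an eigenvector in the kernel of `A` -/
theorem eig_identity (hf : IsRiemSub (E := E) (E' := E') f) (hc : IsLeviCivita cov)
    {X : Π x : M, TangentSpace 𝓘(ℝ, E) x} (hX : SmoothNear X p)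
    (hXh : ∀ᶠ q in 𝓝 p, Horiz (E' := E') f q (X q))
    {U : Fin (Module.finrank ℝ E - Module.finrank ℝ E') → Π x : M, TangentSpace 𝓘(ℝ, E) x}
    (hU : VFrame (E := E) (E' := E') f p U)
    {c : Fin (Module.finrank ℝ E - Module.finrank ℝ E') → ℝ} (hc1 : ∑ j, c j ^ 2 = 1) {μ : ℝ}
    (hS : ∀ i, ∑ j, SS cov U p (X p) i j * c j = μ * c i)
    (hA : mfderiv 𝓘(ℝ, E) 𝓘(ℝ, E') f p (∑ j, c j • cov (U j) p (X p)) = 0) :
    (inner ℝ (curv cov X (fun q => ∑ j, c j • U j q) (fun q => ∑ j, c j • U j q) p) (X p) : ℝ) =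
      inner ℝ (cov (fun q => cov (fun q => ∑ j, c j • U j q) q (∑ j, c j • U j q)) p (X p)) (X p)
        - μ ^ 2 := by
  obtain ⟨V, hVdef⟩ : ∃ V : Π x : M, TangentSpace 𝓘(ℝ, E) x, V = fun q => ∑ j, c j • U j q :=
    ⟨_, rfl⟩
  have hV : SmoothNear V p := by
    rw [hVdef]
    exact SmoothNear.sum Finset.univ (X := fun l q => c l • U l q)
      (fun l _ => SmoothNear.smul (SmFn.const (c l) p) (hU.sm l))
  obtain ⟨η, hηdef⟩ : ∃ η : Π x : M, TangentSpace 𝓘(ℝ, E) x, η = fun q => cov V q (V q) :=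
    ⟨_, rfl⟩
  have hη : SmoothNear η p := by
    rw [hηdef]
    exact smoothNear_cov hc hV hV
  have hη0 : ∀ᶠ q in 𝓝 p, ∀ y : TangentSpace 𝓘(ℝ, E) q,
      ∑ i, ∑ j, c i * (TT cov η U q y i j * c j) = 0 := by
    filter_upwards [hU.ev] with q hq y
    have h1 := TT_quad (cov := cov) (η := η) hq.sm c hc1 y
    have h2 : (inner ℝ (cov (fun q => ∑ l, c l • U l q) q (∑ l, c l • U l q)) y : ℝ) =
        inner ℝ (η q) y := by
      rw [hηdef, hVdef]
    rw [h2] at h1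
    linarith
  have hηx : (inner ℝ (η p) (X p) : ℝ) = μ := by
    have h1 := SS_quad (cov := cov) hU.sm c hc1 (X p)
    have h2 : ∑ i, ∑ j, c i * (SS cov U p (X p) i j * c j) = μ := by
      have h3 : ∀ i, ∑ j, c i * (SS cov U p (X p) i j * c j) = μ * c i ^ 2 := by
        intro i
        rw [← Finset.mul_sum, hS i]
        ring
      rw [Finset.sum_congr rfl fun i _ => h3 i, ← Finset.mul_sum, hc1, mul_one]
    rw [h2] at h1
    rw [hηdef, hVdef]
    exact h1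
  have h1 : ∀ i, ∑ j, TT cov η U p (X p) i j * c j = 0 := by
    intro i
    rw [TT_sum, hS i, hηx, sub_self]
  have h2 : mvfderiv 𝓘(ℝ, E) (fun q => ∑ i, ∑ j, c i * (TT cov η U q (X q) i j * c j)) p
      (X p) = 0 := by
    have e : (fun q => ∑ i, ∑ j, c i * (TT cov η U q (X q) i j * c j)) =ᶠ[𝓝 p]
        fun _ => (0 : ℝ) := by
      filter_upwards [hη0] with q hq
      exact hq (X q)
    rw [mvfderiv_congr e, Rk_mvfderiv_const]
  have h3 := kernel_identity hf hc hη hX hXh hU hc1 h1 h2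
    (hη0.self_of_nhds (cov X p (X p))) hA
  rw [h3, hηx, hηdef, hVdef]

end Pool.Agent.PW
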