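import Pool.Agent.Lib.MP_a61a4c_gt.Fin
import Pool.Agent.Lib.MP_a61a4c_gt.RkH
import Pool.Agent.Lib.MP_a61a4c_gt.RgDefs

/-!
The Ricci bound with the mean curvature term and the case of equality.
-/

set_option autoImplicit false

open Bundle Filter Function Topology
open scoped Manifold ContDiff Bundle

noncomputable section

namespace Pool.Agent.PW

variable {E : Type*} [NormedAddCommGroup E] [NormedSpace ℝ E] [FiniteDimensional ℝ E]
variable {M : Type*} [TopologicalSpace M] [ChartedSpace E M] [IsManifold 𝓘(ℝ, E) ∞ M]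
variable {E' : Type*} [NormedAddCommGroup E'] [NormedSpace ℝ E'] [FiniteDimensional ℝ E']
variable {B : Type*} [TopologicalSpace B] [ChartedSpace E' B] [IsManifold 𝓘(ℝ, E') ∞ B]
variable [RiemannianBundle (fun x : M => TangentSpace 𝓘(ℝ, E) x)]
  [IsContMDiffRiemannianBundle 𝓘(ℝ, E) ∞ E (fun x : M => TangentSpace 𝓘(ℝ, E) x)]
variable [RiemannianBundle (fun x : B => TangentSpace 𝓘(ℝ, E') x)]
  [IsContMDiffRiemannianBundle 𝓘(ℝ, E') ∞ E' (fun x : B => TangentSpace 𝓘(ℝ, E') x)]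

variable {f : M → B} {p : M}
  {cov : CovariantDerivative 𝓘(ℝ, E) E (TangentSpace 𝓘(ℝ, E) : M → Type _)}

variable {cov' : CovariantDerivative 𝓘(ℝ, E') E' (TangentSpace 𝓘(ℝ, E') : B → Type _)}

/-- an orthonormal family of the right size with a given first vector -/
theorem Rg_basis {V : Type*} [NormedAddCommGroup V] [InnerProductSpace ℝ V]
    [FiniteDimensional ℝ V] {n : ℕ} (hn : Module.finrank ℝ V = n) (i0 : Fin n) {v : V}
    (hv : ‖v‖ = 1) : ∃ y : Fin n → V, Orthonormal ℝ y ∧ y i0 = v := by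
  have h1 : Orthonormal ℝ (({i0} : Set (Fin n)).domRestrict (fun _ => v)) := by
    constructor
    · intro i
      exact hv
    · intro i j hij
      exact absurd (Subsingleton.elim i j) hij
  obtain ⟨b, hb⟩ := h1.exists_orthonormalBasis_extension_of_card_eq (by simpa using hn)
  exact ⟨b, b.orthonormal, hb i0 rfl⟩

theorem Rg_sum {n : ℕ} (i0 : Fin n) (a : Fin n → ℝ) {δ : ℝ} (h0 : a i0 = 0)
    (h : ∀ i, i ≠ i0 → δ ≤ a i) : δ * ((n : ℝ) - 1) ≤ ∑ i, a i := by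
  have hn : 1 ≤ n := Nat.succ_le_of_lt (lt_of_le_of_lt (Nat.zero_le _) i0.2)
  have h1 : ∑ i, a i = ∑ i ∈ Finset.univ.erase i0, a i := by
    rw [← Finset.add_sum_erase _ _ (Finset.mem_univ i0), h0, zero_add]
  have h2 : ∑ i ∈ Finset.univ.erase i0, δ ≤ ∑ i ∈ Finset.univ.erase i0, a i :=
    Finset.sum_le_sum fun i hi => h i (Finset.ne_of_mem_erase hi)
  rw [h1]
  refine le_trans (le_of_eq ?_) h2
  rw [Finset.sum_const, Finset.card_erase_of_mem (Finset.mem_univ _), Finset.card_univ,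
    Fintype.card_fin, nsmul_eq_mul, Nat.cast_sub hn]
  push_cast
  ring

omit [FiniteDimensional ℝ E] [RiemannianBundle (fun x : M => TangentSpace 𝓘(ℝ, E) x)]
  [IsContMDiffRiemannianBundle 𝓘(ℝ, E) ∞ E (fun x : M => TangentSpace 𝓘(ℝ, E) x)] in
theorem Rg_curv_self (X : Π x : M, TangentSpace 𝓘(ℝ, E) x) : curv cov X X X p = 0 := by
  unfold curv
  rw [VectorField.mlieBracket_self]
  simp

/-- The pointwise inequality behind the Ricci bound. -/
theorem ricci_at (hf : IsRiemSub (E := E) (E' := E') f)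
    (hc : IsLeviCivita cov) (hc' : IsLeviCivita cov') (hb : 0 < Module.finrank ℝ E')
    {δ ρ : ℝ} (hδ : SecGe cov δ) (hρ : RicLe cov' ρ) {N : Π x : M, TangentSpace 𝓘(ℝ, E) x}
    (hN : IsMean (E := E) (E' := E') cov f N) {x : TangentSpace 𝓘(ℝ, E) p}
    (hx : Horiz (E' := E') f p x) (hx1 : ‖x‖ = 1)
    {U : Fin (Module.finrank ℝ E - Module.finrank ℝ E') → Π x : M, TangentSpace 𝓘(ℝ, E) x}
    (hU : VFrame (E := E) (E' := E') f p U) :
    δ * (((Module.finrank ℝ E' : ℝ) - 1) + 3 * ((Module.finrank ℝ E : ℝ) - Module.finrank ℝ E')) +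
      3 * ∑ j, ∑ l, (inner ℝ (cov (U j) p (U l p)) x : ℝ) ^ 2 - 3 * inner ℝ (cov N p x) x ≤ ρ := by
  have : FiniteDimensional ℝ (TangentSpace 𝓘(ℝ, E') (f p)) :=
    inferInstanceAs (FiniteDimensional ℝ E')
  set i0 : Fin (Module.finrank ℝ E') := ⟨0, hb⟩ with hi0
  obtain ⟨y, hy, hy0⟩ := Rg_basis (V := TangentSpace 𝓘(ℝ, E') (f p)) (n := Module.finrank ℝ E')
    rfl i0 (v := mfderiv 𝓘(ℝ, E) 𝓘(ℝ, E') f p x) (by rw [hf.isometry p x hx, hx1])
  obtain ⟨X, X', hXl, hXo, hXo', hXy⟩ := exists_hframe (E := E) (E' := E') hf p y hy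
  have hhor : ∀ i, Horiz (E' := E') f p (X i p) := fun i => (hXl i).hor.self_of_nhds
  have hX0 : X i0 p = x := by
    apply horiz_ext (E' := E') hf (hhor i0) hx
    rw [(hXl i0).rel.self_of_nhds, hXy, hy0]
  have hXon : Orthonormal ℝ (fun i => X i p) := hXo.self_of_nhds
  have hUon : Orthonormal ℝ (fun j => U j p) := hU.orth.self_of_nhds
  have hUv : ∀ j, mfderiv 𝓘(ℝ, E) 𝓘(ℝ, E') f p (U j p) = 0 := hU.vert.self_of_nhds
  have hUv' : ∀ j, ∀ᶠ q in 𝓝 p, mfderiv 𝓘(ℝ, E) 𝓘(ℝ, E') f q (U j q) = 0 := fun j =>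
    hU.vert.mono fun q hq => hq j
  -- the trace formula
  have htr := trace_formula (E := E) (E' := E') hf hc hN (hXl i0).sm (hXl i0).hor hU hXon hhor
  have hk : δ * ((Module.finrank ℝ E - Module.finrank ℝ E' : ℕ) : ℝ) ≤
      ∑ j, (inner ℝ (curv cov (X i0) (U j) (U j) p) (X i0 p) : ℝ) := by
    have h1 : ∀ j, δ ≤ (inner ℝ (curv cov (X i0) (U j) (U j) p) (X i0 p) : ℝ) := fun j =>
      hδ p (X i0) (U j) (hXl i0).sm (hU.sm j) (hXon.1 i0) (hUon.1 j) (hhor i0 _ (hUv j))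
    calc δ * ((Module.finrank ℝ E - Module.finrank ℝ E' : ℕ) : ℝ)
        = ∑ j : Fin (Module.finrank ℝ E - Module.finrank ℝ E'), δ := by
          rw [Finset.sum_const, Finset.card_univ, Fintype.card_fin, nsmul_eq_mul, mul_comm]
      _ ≤ _ := Finset.sum_le_sum fun j _ => h1 j
  have hA : δ * ((Module.finrank ℝ E - Module.finrank ℝ E' : ℕ) : ℝ) +
      ∑ j, ∑ l, (inner ℝ (cov (U j) p (U l p)) (X i0 p) : ℝ) ^ 2 -
      inner ℝ (cov N p (X i0 p)) (X i0 p) ≤
      ∑ j, ∑ i, (inner ℝ (cov (U j) p (X i0 p)) (X i p) : ℝ) ^ 2 := by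
    linarith
  -- the terms of the formula of O'Neill
  have hterm : ∀ i j, (inner ℝ (cov (X i0) p (X i p)) (U j p) : ℝ) =
      inner ℝ (cov (U j) p (X i0 p)) (X i p) := by
    intro i j
    rw [vert_cov_antisymm (E := E) (E' := E') hf hc (hXl i).sm (hXl i0).sm (hXl i).hor (hXl i0).hor
      (hUv j), inner_cov_vert (E := E) (E' := E') hc (hU.sm j) (hXl i).sm (hUv' j) (hXl i).hor,
      real_inner_comm]
  have hric := hρ (f p) (X' i0) X' (hXl i0).sm' (fun i => (hXl i).sm')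
    (by rw [hXy]; exact hy.1 i0) hXo'.self_of_nhds
  have hsum : ∑ i, (inner ℝ (curv cov' (X' i) (X' i0) (X' i0) (f p)) (X' i (f p)) : ℝ) =
      ∑ i, (inner ℝ (curv cov (X i) (X i0) (X i0) p) (X i p) : ℝ) +
        3 * ∑ j, ∑ i, (inner ℝ (cov (U j) p (X i0 p)) (X i p) : ℝ) ^ 2 := by
    rw [Finset.sum_comm (s := Finset.univ) (t := Finset.univ), Finset.mul_sum,
      ← Finset.sum_add_distrib]
    refine Finset.sum_congr rfl fun i _ => ?_
    rw [oneill (E := E) (E' := E') hf hc hc' (hXl i) (hXl i0) hU]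
    congr 2
    exact Finset.sum_congr rfl fun j _ => by rw [hterm]
  have hsec : δ * ((Module.finrank ℝ E' : ℝ) - 1) ≤
      ∑ i, (inner ℝ (curv cov (X i) (X i0) (X i0) p) (X i p) : ℝ) := by
    apply Rg_sum i0
    · rw [Rg_curv_self]
      exact inner_zero_left _
    · intro i hi
      exact hδ p (X i) (X i0) (hXl i).sm (hXl i0).sm (hXon.1 i) (hXon.1 i0) (hXon.2 hi)
  have hle := finrank_le (E := E) (E' := E') (hf.submersion p)
  rw [Nat.cast_sub hle] at hA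
  rw [hsum] at hric
  rw [hX0] at hA hric
  nlinarith

omit [FiniteDimensional ℝ E] in
theorem Rg_deriv (hc : IsLeviCivita cov) {N : Π x : M, TangentSpace 𝓘(ℝ, E) x}
    (hN : SmoothNear N p) (hmax : ∀ q, (inner ℝ (N q) (N q) : ℝ) ≤ inner ℝ (N p) (N p))
    (v : TangentSpace 𝓘(ℝ, E) p) : (inner ℝ (cov N p v) (N p) : ℝ) = 0 := by
  have hZ : SmoothNear (fun x => (0 : TangentSpace 𝓘(ℝ, E) x) - N x) p :=
    (SmoothNear.zero p).sub hN
  have hcZ : cov (fun x => (0 : TangentSpace 𝓘(ℝ, E) x) - N x) p = - cov N p := by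
    rw [cov_sub cov (SmoothNear.zero p) hN, cov_zero, zero_sub]
  have h1 := hc.metric (x := p) v hN.mdiff hZ.mdiff
  have hsm : SmFn E (fun y => (inner ℝ (N y) ((0 : TangentSpace 𝓘(ℝ, E) y) - N y) : ℝ)) p :=
    hN.inner hZ
  have hloc : ∀ᶠ q in 𝓝 p, (inner ℝ (N p) ((0 : TangentSpace 𝓘(ℝ, E) p) - N p) : ℝ) ≤
      inner ℝ (N q) ((0 : TangentSpace 𝓘(ℝ, E) q) - N q) := by
    refine Eventually.of_forall fun q => ?_
    rw [zero_sub, zero_sub, inner_neg_right, inner_neg_right]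
    exact neg_le_neg (hmax q)
  have h2 := mvfderiv_eq_zero_of_min hsm.mdiff hloc v
  rw [h2, hcZ] at h1
  have h3 : (inner ℝ (cov N p v) ((0 : TangentSpace 𝓘(ℝ, E) p) - N p) : ℝ) =
      - inner ℝ (cov N p v) (N p) := by
    rw [zero_sub, inner_neg_right]
  have h4 : (inner ℝ (N p) ((- cov N p) v) : ℝ) = - inner ℝ (cov N p v) (N p) := by
    have e : (- cov N p) v = - (cov N p v) := rfl
    rw [e, inner_neg_right, real_inner_comm]
  rw [h3, h4] at h1
  linarith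

/-- a unit horizontal vector at a given point -/
theorem exists_unit (hf : IsRiemSub (E := E) (E' := E') f) (hb : 0 < Module.finrank ℝ E') (p : M) :
    ∃ x : TangentSpace 𝓘(ℝ, E) p, Horiz (E' := E') f p x ∧ ‖x‖ = 1 := by
  have : Nontrivial E' := Module.nontrivial_of_finrank_pos hb
  obtain ⟨y, hy⟩ := exists_ne (0 : E')
  obtain ⟨x, hx, hxy⟩ := exists_horiz_of (q := p) hf (y : TangentSpace 𝓘(ℝ, E') (f p))
  have hx0 : x ≠ 0 := by
    intro h
    rw [h, map_zero] at hxy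
    exact hy hxy.symm
  refine ⟨(‖x‖⁻¹ : ℝ) • x, horiz_smul _ hx, ?_⟩
  rw [norm_smul, norm_inv, norm_norm, inv_mul_cancel₀ (norm_ne_zero_iff.2 hx0)]

/-- the maximum of the norm of a horizontal field -/
theorem exists_critical_max [CompactSpace M] [Nonempty M] (hf : IsRiemSub (E := E) (E' := E') f)
    (hc : IsLeviCivita cov) (hb : 0 < Module.finrank ℝ E')
    {N : Π x : M, TangentSpace 𝓘(ℝ, E) x} (hN : ∀ p, SmoothNear N p)
    (hN' : ∀ p, Horiz (E' := E') f p (N p)) :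
    ∃ (p : M) (x : TangentSpace 𝓘(ℝ, E) p), Horiz (E' := E') f p x ∧ ‖x‖ = 1 ∧
      N p = ‖N p‖ • x ∧ (∀ q, ‖N q‖ ≤ ‖N p‖) ∧ (inner ℝ (cov N p x) x : ℝ) = 0 := by
  have hcont : Continuous (fun q => (inner ℝ (N q) (N q) : ℝ)) :=
    continuous_iff_continuousAt.2 fun q => ((hN q).inner (hN q)).continuousAt
  obtain ⟨p, -, hp⟩ := isCompact_univ.exists_isMaxOn Set.univ_nonempty hcont.continuousOn
  have hmax : ∀ q, (inner ℝ (N q) (N q) : ℝ) ≤ inner ℝ (N p) (N p) := fun q => hp (Set.mem_univ q)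
  have hmax' : ∀ q, ‖N q‖ ≤ ‖N p‖ := by
    intro q
    have h1 := hmax q
    rw [real_inner_self_eq_norm_sq, real_inner_self_eq_norm_sq] at h1
    exact le_of_sq_le_sq h1 (norm_nonneg _)
  by_cases h0 : N p = 0
  · have hz : ∀ q, N q = 0 := by
      intro q
      have h1 := hmax' q
      rw [h0, norm_zero] at h1
      exact norm_le_zero_iff.1 h1
    have hNz : N = fun x : M => (0 : TangentSpace 𝓘(ℝ, E) x) := funext hz
    obtain ⟨x, hx, hx1⟩ := exists_unit hf hb p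
    refine ⟨p, x, hx, hx1, ?_, hmax', ?_⟩
    · rw [h0, norm_zero, zero_smul]
    · have e : cov N p = 0 := by
        rw [hNz]
        exact cov_zero cov
      rw [e]
      exact inner_zero_left _
  · have hne : ‖N p‖ ≠ 0 := norm_ne_zero_iff.2 h0
    refine ⟨p, (‖N p‖⁻¹ : ℝ) • N p, horiz_smul _ (hN' p), ?_, ?_, hmax', ?_⟩
    · rw [norm_smul, norm_inv, norm_norm, inv_mul_cancel₀ hne]
    · rw [smul_smul, mul_inv_cancel₀ hne, one_smul]
    · rw [inner_smul_right, Rg_deriv hc (hN p) hmax, mul_zero]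

end Pool.Agent.PW
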