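import Pool.Agent.Lib.MP_a61a4c_gt.Rg

/-!
The Ricci bound: mean curvature estimate and the case of equality.
-/

set_option autoImplicit false

open Bundle Filter Function Topology
open scoped Manifold ContDiff Bundle

noncomputable section

namespace Pool.Agent.PW

variable {E : Type*} [NormedAddCommGroup E] [NormedSpace ℝ E] [FiniteDimensional ℝ E]
variable {M : Type*} [TopologicalSpace M] [ChartedSpace E M] [IsManifold 𝓘(ℝ, E) ∞ M]
variable {E' : Type*} [NormedAddCommGroup E'] [NormedSpace ℝ E'] [FiniteDimensional ℝ E']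
variable {B : Type*} [TopologicalSpace B] [ChartedSpace E' B] [IsManifold 𝓘(ℝ, E') ∞ B]
variable [RiemannianBundle (fun x : M => TangentSpace 𝓘(ℝ, E) x)]
  [IsContMDiffRiemannianBundle 𝓘(ℝ, E) ∞ E (fun x : M => TangentSpace 𝓘(ℝ, E) x)]
variable [RiemannianBundle (fun x : B => TangentSpace 𝓘(ℝ, E') x)]
  [IsContMDiffRiemannianBundle 𝓘(ℝ, E') ∞ E' (fun x : B => TangentSpace 𝓘(ℝ, E') x)]

variable {f : M → B} {p : M}
  {cov : CovariantDerivative 𝓘(ℝ, E) E (TangentSpace 𝓘(ℝ, E) : M → Type _)}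

variable {cov' : CovariantDerivative 𝓘(ℝ, E') E' (TangentSpace 𝓘(ℝ, E') : B → Type _)}

theorem mean_bound [CompactSpace M] [Nonempty M] (hf : IsRiemSub (E := E) (E' := E') f)
    (hc : IsLeviCivita cov) (hc' : IsLeviCivita cov') (hb : 0 < Module.finrank ℝ E')
    {δ ρ : ℝ} (hδ : SecGe cov δ) (hρ : RicLe cov' ρ) {N : Π x : M, TangentSpace 𝓘(ℝ, E) x}
    (hN : IsMean (E := E) (E' := E') cov f N) (q : M) :
    ((Module.finrank ℝ E : ℝ) - Module.finrank ℝ E') * (δ * (((Module.finrank ℝ E' : ℝ) - 1) +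
      3 * ((Module.finrank ℝ E : ℝ) - Module.finrank ℝ E'))) + 3 * ‖N q‖ ^ 2 ≤
      ((Module.finrank ℝ E : ℝ) - Module.finrank ℝ E') * ρ := by
  obtain ⟨p, x, hx, hx1, hNx, hmax, hcrit⟩ := exists_critical_max hf hc hb hN.sm hN.hor
  obtain ⟨U, hU⟩ := exists_vframe (E := E) (E' := E') hf p
  have h1 := ricci_at hf hc hc' hb hδ hρ hN hx hx1 hU
  rw [hcrit] at h1
  have h2 : (inner ℝ (N p) x : ℝ) = ‖N p‖ := by
    conv_lhs => rw [hNx]
    rw [real_inner_smul_left, real_inner_self_eq_norm_sq, hx1]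
    ring
  have h3 := hN.eq p U hU x hx
  rw [h2] at h3
  have hle := finrank_le (E := E) (E' := E') (hf.submersion p)
  have h4 : ‖N p‖ ^ 2 ≤ ((Module.finrank ℝ E : ℝ) - Module.finrank ℝ E') *
      ∑ j, ∑ l, (inner ℝ (cov (U j) p (U l p)) x : ℝ) ^ 2 := by
    rw [h3]
    have h5 := sq_sum_le_card_mul_sum_sq (s := Finset.univ)
      (f := fun j => (inner ℝ (cov (U j) p (U j p)) x : ℝ))
    rw [Finset.card_univ, Fintype.card_fin, Nat.cast_sub hle] at h5
    refine h5.trans ?_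
    have h6 : (0 : ℝ) ≤ (Module.finrank ℝ E : ℝ) - Module.finrank ℝ E' := by
      rw [← Nat.cast_sub hle]
      exact Nat.cast_nonneg _
    refine mul_le_mul_of_nonneg_left ?_ h6
    refine Finset.sum_le_sum fun j _ => ?_
    exact Finset.single_le_sum (f := fun l => (inner ℝ (cov (U j) p (U l p)) x : ℝ) ^ 2)
      (fun l _ => sq_nonneg _) (Finset.mem_univ j)
  have h6 : (0 : ℝ) ≤ (Module.finrank ℝ E : ℝ) - Module.finrank ℝ E' := by
    rw [← Nat.cast_sub hle]
    exact Nat.cast_nonneg _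
  have h7 := mul_le_mul_of_nonneg_left h1 h6
  have h8 : ‖N q‖ ^ 2 ≤ ‖N p‖ ^ 2 := pow_le_pow_left₀ (norm_nonneg _) (hmax q) 2
  nlinarith

/-- the mean curvature vector is unique -/
theorem meanVec_norm (hf : IsRiemSub (E := E) (E' := E') f)
    {N : Π x : M, TangentSpace 𝓘(ℝ, E) x} (hN : IsMean (E := E) (E' := E') cov f N)
    {n : TangentSpace 𝓘(ℝ, E) p} (hn : IsMeanVec (E := E) (E' := E') cov f p n) : n = N p := by
  obtain ⟨U, hU⟩ := exists_vframe (E := E) (E' := E') hf p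
  have h1 : ∀ x : TangentSpace 𝓘(ℝ, E) p, Horiz (E' := E') f p x →
      (inner ℝ n x : ℝ) = inner ℝ (N p) x := by
    intro x hx
    rw [hN.eq p U hU x hx]
    exact hn.2 U hU.sm (fun j => hU.vert.mono fun q hq => hq j) hU.orth.self_of_nhds x hx
  have h2 : Horiz (E' := E') f p (n + (-1 : ℝ) • N p) :=
    horiz_add hn.1 (horiz_smul (-1) (hN.hor p))
  have h3 : (inner ℝ (n + (-1 : ℝ) • N p) (n + (-1 : ℝ) • N p) : ℝ) = 0 := by
    rw [inner_add_left, real_inner_smul_left, h1 _ h2]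
    ring
  have h4 : n + (-1 : ℝ) • N p = 0 := by
    rw [real_inner_self_eq_norm_sq] at h3
    exact norm_eq_zero.1 (pow_eq_zero_iff two_ne_zero |>.mp h3)
  rw [neg_one_smul, ← sub_eq_add_neg] at h4
  exact sub_eq_zero.1 h4

/-- the case of equality -/
theorem totGeo_of_eq [CompactSpace M] [Nonempty M] (hf : IsRiemSub (E := E) (E' := E') f)
    (hc : IsLeviCivita cov) (hc' : IsLeviCivita cov') (hb : 0 < Module.finrank ℝ E')
    {δ ρ : ℝ} (hδ : SecGe cov δ) (hρ : RicLe cov' ρ)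
    (heq : ρ ≤ δ * (((Module.finrank ℝ E' : ℝ) - 1) +
      3 * ((Module.finrank ℝ E : ℝ) - Module.finrank ℝ E'))) :
    TotGeo (E := E) (E' := E') cov f := by
  obtain ⟨N, hN⟩ := exists_mean (E := E) (E' := E') hf hc
  have hN0 : ∀ q, N q = 0 := by
    intro q
    have h1 := mean_bound hf hc hc' hb hδ hρ hN q
    have hle := finrank_le (E := E) (E' := E') (hf.submersion q)
    have h6 : (0 : ℝ) ≤ (Module.finrank ℝ E : ℝ) - Module.finrank ℝ E' := by
      rw [← Nat.cast_sub hle]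
      exact Nat.cast_nonneg _
    have h7 := mul_le_mul_of_nonneg_left heq h6
    have h8 := sq_nonneg ‖N q‖
    have h9 : ‖N q‖ ^ 2 = 0 := by linarith
    exact norm_eq_zero.1 (pow_eq_zero_iff two_ne_zero |>.mp h9)
  have hNz : N = fun x : M => (0 : TangentSpace 𝓘(ℝ, E) x) := funext hN0
  have hcN : ∀ p, cov N p = 0 := by
    intro p
    rw [hNz]
    exact cov_zero cov
  intro p U' V' hU' hV' hvU hvV x hx
  obtain ⟨U, hU⟩ := exists_vframe (E := E) (E' := E') hf p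
  -- the second fundamental form of the frame in unit directions
  have h1 : ∀ y : TangentSpace 𝓘(ℝ, E) p, Horiz (E' := E') f p y → ‖y‖ = 1 → ∀ j l,
      (inner ℝ (cov (U j) p (U l p)) y : ℝ) = 0 := by
    intro y hy hy1 j l
    have h2 := ricci_at hf hc hc' hb hδ hρ hN hy hy1 hU
    have h3 : (inner ℝ (cov N p y) y : ℝ) = 0 := by
      rw [hcN p]
      exact inner_zero_left _
    rw [h3] at h2
    have h4 : ∑ j, ∑ l, (inner ℝ (cov (U j) p (U l p)) y : ℝ) ^ 2 ≤ 0 := by linarith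
    have h5 : (inner ℝ (cov (U j) p (U l p)) y : ℝ) ^ 2 ≤
        ∑ j, ∑ l, (inner ℝ (cov (U j) p (U l p)) y : ℝ) ^ 2 := by
      refine le_trans ?_ (Finset.single_le_sum
        (f := fun j => ∑ l, (inner ℝ (cov (U j) p (U l p)) y : ℝ) ^ 2)
        (fun j _ => Finset.sum_nonneg fun l _ => sq_nonneg _) (Finset.mem_univ j))
      exact Finset.single_le_sum (f := fun l => (inner ℝ (cov (U j) p (U l p)) y : ℝ) ^ 2)
        (fun l _ => sq_nonneg _) (Finset.mem_univ l)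
    exact pow_eq_zero_iff two_ne_zero |>.mp (le_antisymm (h5.trans h4) (sq_nonneg _))
  have h2 : ∀ j l, (inner ℝ (cov (U j) p (U l p)) x : ℝ) = 0 := by
    intro j l
    by_cases hx0 : x = 0
    · rw [hx0, inner_zero_right]
    · have h3 := h1 ((‖x‖⁻¹ : ℝ) • x) (horiz_smul _ hx)
        (by rw [norm_smul, norm_inv, norm_norm, inv_mul_cancel₀ (norm_ne_zero_iff.2 hx0)]) j l
      rw [real_inner_smul_right] at h3
      exact (mul_eq_zero.1 h3).resolve_left (inv_ne_zero (norm_ne_zero_iff.2 hx0))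
  -- expansion of the fields
  have hU'p := vert_sum (hf.submersion p) hU.orth.self_of_nhds hU.vert.self_of_nhds
    hvU.self_of_nhds
  have hV'p := vert_sum (hf.submersion p) hU.orth.self_of_nhds hU.vert.self_of_nhds
    hvV.self_of_nhds
  have hW : SmoothNear (fun q => ∑ j, (inner ℝ (U j p) (V' p) : ℝ) • U j q) p :=
    smooth_comb hU.sm _
  have hWv : ∀ᶠ q in 𝓝 p, mfderiv 𝓘(ℝ, E) 𝓘(ℝ, E') f q
      (∑ j, (inner ℝ (U j p) (V' p) : ℝ) • U j q) = 0 := by
    filter_upwards [hU.vert] with q hq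
    rw [map_sum]
    refine Finset.sum_eq_zero fun l _ => ?_
    rw [map_smul, hq l, smul_zero]
  rw [sff_congr hf hc hV' hW hvV hWv hV'p.symm hvU.self_of_nhds hx, Rk_cov_comb hU.sm, sum_inner]
  refine Finset.sum_eq_zero fun j _ => ?_
  rw [real_inner_smul_left, ← hU'p, map_sum, sum_inner]
  have h3 : ∑ l, (inner ℝ (cov (U j) p ((inner ℝ (U l p) (U' p) : ℝ) • U l p)) x : ℝ) = 0 := by
    refine Finset.sum_eq_zero fun l _ => ?_
    rw [map_smul, real_inner_smul_left, h2 j l, mul_zero]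
  rw [h3, mul_zero]

/-- totally geodesic fibres -/
theorem totGeo_lt [Nonempty M] (hf : IsRiemSub (E := E) (E' := E') f)
    (hc : IsLeviCivita cov) (hb : 0 < Module.finrank ℝ E')
    {δ : ℝ} (hδ0 : 0 < δ) (hδ : SecGe cov δ) (hT : TotGeo (E := E) (E' := E') cov f) :
    Module.finrank ℝ E - Module.finrank ℝ E' < Module.finrank ℝ E' := by
  by_contra hcon
  rw [not_lt] at hcon
  obtain ⟨p⟩ := ‹Nonempty M›
  obtain ⟨x, hx, hx1⟩ := exists_unit hf hb p
  obtain ⟨X, X', hX, hXp⟩ := exists_horiz_ext hf hx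
  obtain ⟨U, hU⟩ := exists_vframe (E := E) (E' := E') hf p
  have hXh : Horiz (E' := E') f p (X p) := hX.hor.self_of_nhds
  have hX1 : ‖X p‖ = 1 := by
    rw [hXp]
    exact hx1
  obtain ⟨c, -, hc1, hcA⟩ := exists_c hf hc hU hXh hX1 ⊤ (by
    rw [finrank_top, Module.finrank_fin_fun]
    exact hcon)
  obtain ⟨V, hVdef⟩ : ∃ V : Π x : M, TangentSpace 𝓘(ℝ, E) x, V = fun q => ∑ j, c j • U j q :=
    ⟨_, rfl⟩
  have hV : SmoothNear V p := by
    rw [hVdef]
    exact smooth_comb hU.sm c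
  have hVv : ∀ᶠ q in 𝓝 p, mfderiv 𝓘(ℝ, E) 𝓘(ℝ, E') f q (V q) = 0 := by
    filter_upwards [hU.vert] with q hq
    rw [hVdef]
    show mfderiv 𝓘(ℝ, E) 𝓘(ℝ, E') f q (∑ j, c j • U j q) = 0
    rw [map_sum]
    refine Finset.sum_eq_zero fun l _ => ?_
    rw [map_smul, hq l, smul_zero]
  have hS : ∀ i, ∑ j, SS cov U p (X p) i j * c j = 0 * c i := by
    intro i
    rw [zero_mul]
    refine Finset.sum_eq_zero fun j _ => ?_
    unfold SS
    rw [hT p (U i) (U j) (hU.sm i) (hU.sm j) (hU.vert.mono fun q hq => hq i)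
      (hU.vert.mono fun q hq => hq j) (X p) hXh, zero_mul]
  have hid := eig_identity hf hc hX.sm hX.hor hU hc1 hS hcA
  have hη : SmoothNear (fun q => cov V q (V q)) p := smoothNear_cov hc hV hV
  have h0 : (fun q => (inner ℝ (cov V q (V q)) (X q) : ℝ)) =ᶠ[𝓝 p] fun _ => (0 : ℝ) := by
    filter_upwards [hV.ev, eventually_eventually_nhds.2 hVv, hX.hor] with q h1 h2 h3
    exact hT q V V h1 h1 h2 h2 (X q) h3
  have h1 := hc.metric (X p) hη.mdiff hX.sm.mdiff
  rw [mvfderiv_congr h0, Rk_mvfderiv_const] at h1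
  have h2 : (inner ℝ (cov V p (V p)) (cov X p (X p)) : ℝ) = 0 :=
    hT p V V hV hV hVv hVv _ (horiz_cov_self hf hc hX.sm hX.hor)
  rw [h2, add_zero] at h1
  rw [← hVdef] at hid
  have h3 : (inner ℝ (cov (fun q => cov V q (∑ j, c j • U j q)) p (X p)) (X p) : ℝ) = 0 := by
    have h4 : (fun q => cov V q (∑ j, c j • U j q)) = fun q => cov V q (V q) := by
      funext q
      rw [hVdef]
    rw [h4]
    exact h1.symm
  rw [h3] at hid
  have hVp1 : ‖V p‖ = 1 := by
    have h5 := norm_comb hU.orth.self_of_nhds c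
    rw [hc1] at h5
    rw [hVdef]
    exact (pow_eq_one_iff_of_nonneg (norm_nonneg _) two_ne_zero).1 h5
  have hK := hδ p X V hX.sm hV hX1 hVp1 (hXh _ hVv.self_of_nhds)
  rw [hid] at hK
  norm_num at hK
  linarith

/-- the fibre dimension for `Ric_B ≤ (4 b - 1) δ` -/
theorem ricci_lt [CompactSpace M] [Nonempty M] (hf : IsRiemSub (E := E) (E' := E') f)
    (hc : IsLeviCivita cov) (hc' : IsLeviCivita cov') (hb : 0 < Module.finrank ℝ E')
    {δ ρ : ℝ} (hδ0 : 0 < δ) (hδ : SecGe cov δ) (hρ : RicLe cov' ρ)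
    (h : ρ ≤ (4 * (Module.finrank ℝ E' : ℝ) - 1) * δ) :
    Module.finrank ℝ E - Module.finrank ℝ E' < Module.finrank ℝ E' := by
  by_contra hcon
  rw [not_lt] at hcon
  obtain ⟨p⟩ := ‹Nonempty M›
  have hle := finrank_le (E := E) (E' := E') (hf.submersion p)
  have h1 : (Module.finrank ℝ E' : ℝ) ≤ (Module.finrank ℝ E : ℝ) - Module.finrank ℝ E' := by
    rw [← Nat.cast_sub hle]
    exact_mod_cast hcon
  have h2 := mul_le_mul_of_nonneg_left h1 hδ0.le
  have h3 : TotGeo (E := E) (E' := E') cov f := by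
    have : Nonempty M := ⟨p⟩
    refine totGeo_of_eq hf hc hc' hb hδ hρ ?_
    nlinarith
  have : Nonempty M := ⟨p⟩
  exact absurd (totGeo_lt hf hc hb hδ0 hδ h3) (not_lt.2 hcon)

end Pool.Agent.PW
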