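import Mathlib

/-!
Matrices of functions whose rank is maximal at a point: the derivative of the quadratic form vanishes
on the kernel.
-/

set_option autoImplicit false

open Filter Function Topology

namespace Pool.Agent.PW

/-- `D` is a derivation at `p` on the functions with the property `Sm`. -/
structure Der {Ω : Type*} (Sm : (Ω → ℝ) → Prop) (D : (Ω → ℝ) → ℝ) (p : Ω) (F : Filter Ω) :
    Prop where
  sc : ∀ c : ℝ, Sm (fun _ => c)
  sa : ∀ f g : Ω → ℝ, Sm f → Sm g → Sm (f + g)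
  sm : ∀ f g : Ω → ℝ, Sm f → Sm g → Sm (f * g)
  da : ∀ f g : Ω → ℝ, Sm f → Sm g → D (f + g) = D f + D g
  dm : ∀ f g : Ω → ℝ, Sm f → Sm g → D (f * g) = f p * D g + g p * D f
  dc : ∀ c : ℝ, D (fun _ => c) = 0
  dz : ∀ f : Ω → ℝ, Sm f → (∀ᶠ q in F, f q = 0) → D f = 0

section
variable {Ω : Type*} {Sm : (Ω → ℝ) → Prop} {D : (Ω → ℝ) → ℝ} {p : Ω} {F : Filter Ω}

theorem Der.sum (h : Der Sm D p F) {ι : Type*} (s : Finset ι) (G : ι → Ω → ℝ)
    (hG : ∀ i ∈ s, Sm (G i)) : Sm (∑ i ∈ s, G i) ∧ D (∑ i ∈ s, G i) = ∑ i ∈ s, D (G i) := by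
  classical
  induction s using Finset.induction_on with
  | empty =>
    rw [Finset.sum_empty, Finset.sum_empty]
    exact ⟨h.sc 0, h.dc 0⟩
  | insert a s ha ih =>
    have ih' := ih (fun i hi => hG i (Finset.mem_insert_of_mem hi))
    have h1 := hG a (Finset.mem_insert_self a s)
    rw [Finset.sum_insert ha, Finset.sum_insert ha]
    exact ⟨h.sa _ _ h1 ih'.1, by rw [h.da _ _ h1 ih'.1, ih'.2]⟩

theorem Der.prod (h : Der Sm D p F) {ι : Type*} (s : Finset ι) (G : ι → Ω → ℝ)
    (hG : ∀ i ∈ s, Sm (G i)) : Sm (∏ i ∈ s, G i) := by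
  classical
  induction s using Finset.induction_on with
  | empty =>
    rw [Finset.prod_empty]
    exact h.sc 1
  | insert a s ha ih =>
    rw [Finset.prod_insert ha]
    exact h.sm _ _ (hG a (Finset.mem_insert_self a s))
      (ih (fun i hi => hG i (Finset.mem_insert_of_mem hi)))

theorem Der.cmul (h : Der Sm D p F) (c : ℝ) {g : Ω → ℝ} (hg : Sm g) :
    Sm (fun q => c * g q) ∧ D (fun q => c * g q) = c * D g := by
  have e : (fun q => c * g q) = (fun _ => c) * g := rfl
  rw [e]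
  refine ⟨h.sm _ _ (h.sc c) hg, ?_⟩
  rw [h.dm _ _ (h.sc c) hg, h.dc]
  ring

theorem Der.det (h : Der Sm D p F) {n : ℕ} (G : Matrix (Fin n) (Fin n) (Ω → ℝ))
    (hG : ∀ i j, Sm (G i j)) : Sm G.det := by
  rw [Matrix.det_apply]
  refine (h.sum Finset.univ _ fun σ _ => ?_).1
  have h1 : Sm (∏ i, G (σ i) i) := h.prod Finset.univ _ fun i _ => hG _ _
  rcases Int.units_eq_one_or (Equiv.Perm.sign σ) with h2 | h2
  · rw [h2, one_smul]
    exact h1
  · rw [h2]
    have e : (-1 : ℤˣ) • (∏ i, G (σ i) i) = fun q => (-1 : ℝ) * (∏ i, G (σ i) i) q := by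
      funext q
      simp
    rw [e]
    exact (h.cmul _ h1).1

theorem det_eval {n : ℕ} (G : Matrix (Fin n) (Fin n) (Ω → ℝ)) (q : Ω) :
    G.det q = (Matrix.of fun i j => G i j q).det := by
  have h := RingHom.map_det (Pi.evalRingHom (fun _ : Ω => ℝ) q) G
  exact h

/-- Expansion along the first row, all of whose entries vanish at `p`. -/
theorem Der.corner (h : Der Sm D p F) {n : ℕ} (G : Matrix (Fin (n + 1)) (Fin (n + 1)) (Ω → ℝ))
    (hG : ∀ i j, Sm (G i j)) (h0 : ∀ j, G 0 j p = 0) (h1 : ∀ i, G i 0 p = 0)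
    (hdet : ∀ᶠ q in F, (Matrix.of fun i j => G i j q).det = 0)
    (hD : (Matrix.of fun i j : Fin n => G i.succ j.succ p).det ≠ 0) : D (G 0 0) = 0 := by
  have hz : D G.det = 0 := by
    refine h.dz _ (h.det G hG) ?_
    filter_upwards [hdet] with q hq
    rw [det_eval]
    exact hq
  have hsub : ∀ j : Fin (n + 1), Sm (G.submatrix Fin.succ j.succAbove).det := fun j =>
    h.det _ fun _ _ => hG _ _
  rw [Matrix.det_succ_row_zero] at hz
  have hterm : ∀ j : Fin (n + 1), (-1 : Ω → ℝ) ^ (j : ℕ) * G 0 j *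
      (G.submatrix Fin.succ j.succAbove).det =
      fun q => ((-1 : ℝ) ^ (j : ℕ)) * (G 0 j * (G.submatrix Fin.succ j.succAbove).det) q := by
    intro j
    funext q
    simp only [Pi.mul_apply, Pi.pow_apply, Pi.neg_apply, Pi.one_apply]
    ring
  have hd : ∀ j : Fin (n + 1), Sm ((-1 : Ω → ℝ) ^ (j : ℕ) * G 0 j *
      (G.submatrix Fin.succ j.succAbove).det) ∧
      D ((-1 : Ω → ℝ) ^ (j : ℕ) * G 0 j * (G.submatrix Fin.succ j.succAbove).det) =
        (-1 : ℝ) ^ (j : ℕ) * ((G.submatrix Fin.succ j.succAbove).det p * D (G 0 j)) := by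
    intro j
    rw [hterm j]
    have h2 := h.cmul ((-1 : ℝ) ^ (j : ℕ)) (h.sm _ _ (hG 0 j) (hsub j))
    refine ⟨h2.1, ?_⟩
    rw [h2.2, h.dm _ _ (hG 0 j) (hsub j), h0 j]
    ring
  rw [(h.sum Finset.univ _ fun j _ => (hd j).1).2, Finset.sum_congr rfl fun j _ => (hd j).2,
    Finset.sum_eq_single (0 : Fin (n + 1))] at hz
  · have h3 : (G.submatrix Fin.succ (0 : Fin (n + 1)).succAbove).det p ≠ 0 := by
      rw [det_eval]
      have e : (Matrix.of fun i j => G.submatrix Fin.succ (0 : Fin (n + 1)).succAbove i j p) =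
          Matrix.of fun i j : Fin n => G i.succ j.succ p := by
        ext i j
        simp [Matrix.submatrix_apply]
      rw [e]
      exact hD
    have h4 : (-1 : ℝ) ^ ((0 : Fin (n + 1)) : ℕ) = 1 := by simp
    rw [h4, one_mul] at hz
    exact (mul_eq_zero.1 hz).resolve_left h3
  · intro j _ hj
    have h5 : (G.submatrix Fin.succ j.succAbove).det p = 0 := by
      rw [det_eval]
      obtain ⟨m, hm⟩ : ∃ m : ℕ, n = m + 1 := by
        rcases n with _ | m
        · exact absurd (Fin.ext (by have := j.isLt; show (j : ℕ) = 0; omega)) hj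
        · exact ⟨m, rfl⟩
      subst hm
      refine Matrix.det_eq_zero_of_column_eq_zero (0 : Fin (m + 1)) fun i => ?_
      show G i.succ (j.succAbove 0) p = 0
      rw [Fin.succAbove_ne_zero_zero hj]
      exact h1 _
    rw [h5]
    ring
  · intro h6
    exact absurd (Finset.mem_univ _) h6

end

/-- Vectors whose images under a symmetric matrix are a basis of its range. -/
theorem exists_gram {k : ℕ} (A : Matrix (Fin k) (Fin k) ℝ) :
    ∃ e : Fin A.rank → Fin k → ℝ,
      (Matrix.of fun i j : Fin A.rank => (A.mulVec (e i)) ⬝ᵥ (A.mulVec (e j))).det ≠ 0 := by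
  obtain ⟨b⟩ : Nonempty (Module.Basis (Fin A.rank) ℝ (LinearMap.range A.mulVecLin)) :=
    ⟨Module.finBasisOfFinrankEq ℝ _ rfl⟩
  have he : ∀ i, ∃ e, A.mulVec e = (b i : Fin k → ℝ) := by
    intro i
    obtain ⟨e, he⟩ := (b i).2
    exact ⟨e, he⟩
  choose e he using he
  refine ⟨e, fun hdet => ?_⟩
  obtain ⟨v, hv, hv0⟩ := Matrix.exists_mulVec_eq_zero_iff.2 hdet
  have hli := b.linearIndependent
  have h1 : ∑ i, v i • (b i : Fin k → ℝ) = 0 := by
    have h2 : (∑ i, v i • (b i : Fin k → ℝ)) ⬝ᵥ (∑ j, v j • (b j : Fin k → ℝ)) = 0 := by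
      rw [sum_dotProduct]
      refine Finset.sum_eq_zero fun i _ => ?_
      have h3 := congrFun hv0 i
      rw [smul_dotProduct, dotProduct_sum]
      have h4 : ∑ j, (b i : Fin k → ℝ) ⬝ᵥ (v j • (b j : Fin k → ℝ)) = 0 := by
        refine Eq.trans ?_ h3
        show _ = ∑ j, ((A.mulVec (e i)) ⬝ᵥ (A.mulVec (e j))) * v j
        refine Finset.sum_congr rfl fun j _ => ?_
        rw [dotProduct_smul, he, he, smul_eq_mul, mul_comm]
      rw [h4, smul_zero]
    exact dotProduct_self_eq_zero.1 h2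
  have h5 : ∑ i, v i • b i = 0 := by
    apply Subtype.ext
    rw [Submodule.coe_sum]
    exact h1
  exact hv (funext fun i => (linearIndependent_iff'.1 hli Finset.univ v h5 i (Finset.mem_univ i)))

/-- Too many vectors for the rank. -/
theorem det_zero_of_rank {k n : ℕ} (B : Matrix (Fin k) (Fin k) ℝ) (hB : B.rank ≤ n)
    (u w : Fin (n + 1) → Fin k → ℝ) :
    (Matrix.of fun i j => u i ⬝ᵥ (B.mulVec (w j))).det = 0 := by
  rw [← Matrix.exists_mulVec_eq_zero_iff]
  have h1 : ¬ LinearIndependent ℝ (fun j => (⟨B.mulVec (w j), w j, rfl⟩ :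
      LinearMap.range B.mulVecLin)) := by
    intro hli
    have h2 := hli.fintype_card_le_finrank
    rw [Fintype.card_fin] at h2
    have h3 : Module.finrank ℝ (LinearMap.range B.mulVecLin) = B.rank := rfl
    omega
  obtain ⟨v, hv, i, hi⟩ := Fintype.not_linearIndependent_iff.1 h1
  refine ⟨v, fun h => hi (congrFun h i), ?_⟩
  have h4 : ∑ j, v j • B.mulVec (w j) = 0 := by
    have h5 := congrArg (Subtype.val) hv
    rw [Submodule.coe_sum] at h5
    exact h5
  funext i
  show ∑ j, (u i ⬝ᵥ (B.mulVec (w j))) * v j = 0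
  have h6 : ∑ j, (u i ⬝ᵥ (B.mulVec (w j))) * v j = u i ⬝ᵥ ∑ j, v j • B.mulVec (w j) := by
    rw [dotProduct_sum]
    refine Finset.sum_congr rfl fun j _ => ?_
    rw [dotProduct_smul, smul_eq_mul, mul_comm]
  rw [h6, h4, dotProduct_zero]

/-- The derivative of a quadratic form of maximal rank vanishes on the kernel. -/
theorem Der.kernel {Ω : Type*} {Sm : (Ω → ℝ) → Prop} {D : (Ω → ℝ) → ℝ} {p : Ω} {F : Filter Ω}
    (h : Der Sm D p F) {k : ℕ} (T : Fin k → Fin k → Ω → ℝ) (hT : ∀ a b, Sm (T a b))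
    (hsym : ∀ a b, T a b p = T b a p)
    (hrk : ∀ᶠ q in F, (Matrix.of fun a b => T a b q).rank ≤ (Matrix.of fun a b => T a b p).rank)
    (c : Fin k → ℝ) (hc : (Matrix.of fun a b => T a b p).mulVec c = 0) :
    D (fun q => ∑ a, ∑ b, c a * (T a b q * c b)) = 0 := by
  obtain ⟨A, hA⟩ : ∃ A : Matrix (Fin k) (Fin k) ℝ, A = Matrix.of fun a b => T a b p := ⟨_, rfl⟩
  rw [← hA] at hrk hc
  obtain ⟨e, he⟩ := exists_gram A
  have hAs : ∀ x y : Fin k → ℝ, x ⬝ᵥ (A.mulVec y) = (A.mulVec x) ⬝ᵥ y := by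
    intro x y
    rw [Matrix.dotProduct_mulVec, ← Matrix.mulVec_transpose]
    have h1 : A.transpose = A := by
      rw [hA]
      ext a b
      exact hsym b a
    rw [h1]
  let u : Fin (A.rank + 1) → Fin k → ℝ := Fin.cons c e
  let w : Fin (A.rank + 1) → Fin k → ℝ := Fin.cons c (fun j => A.mulVec (e j))
  let G : Matrix (Fin (A.rank + 1)) (Fin (A.rank + 1)) (Ω → ℝ) :=
    Matrix.of fun i j q => u i ⬝ᵥ ((Matrix.of fun a b => T a b q).mulVec (w j))
  have hexp : ∀ i j, G i j = ∑ a, ∑ b, fun q => (u i a * w j b) * T a b q := by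
    intro i j
    funext q
    simp only [Finset.sum_apply]
    show ∑ a, u i a * ∑ b, T a b q * w j b = _
    refine Finset.sum_congr rfl fun a _ => ?_
    rw [Finset.mul_sum]
    refine Finset.sum_congr rfl fun b _ => ?_
    ring
  have hG : ∀ i j, Sm (G i j) := by
    intro i j
    rw [hexp]
    exact (h.sum _ _ fun a _ => (h.sum _ _ fun b _ => (h.cmul _ (hT a b)).1).1).1
  have hGp : ∀ i j, G i j p = u i ⬝ᵥ (A.mulVec (w j)) := by
    intro i j
    rw [hA]
    rfl
  have key := h.corner G hG ?_ ?_ ?_ ?_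
  · have e1 : G 0 0 = fun q => ∑ a, ∑ b, c a * (T a b q * c b) := by
      funext q
      show ∑ a, c a * ∑ b, T a b q * c b = _
      exact Finset.sum_congr rfl fun a _ => Finset.mul_sum _ _ _
    rw [← e1]
    exact key
  · intro j
    rw [hGp, hAs]
    show (A.mulVec c) ⬝ᵥ w j = 0
    rw [hc, zero_dotProduct]
  · intro i
    rw [hGp]
    show u i ⬝ᵥ (A.mulVec c) = 0
    rw [hc, dotProduct_zero]
  · filter_upwards [hrk] with q hq
    exact det_zero_of_rank _ hq u w
  · have e2 : (Matrix.of fun i j : Fin A.rank => G i.succ j.succ p) =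
        Matrix.of fun i j : Fin A.rank => (A.mulVec (e i)) ⬝ᵥ (A.mulVec (e j)) := by
      ext i j
      show G i.succ j.succ p = (A.mulVec (e i)) ⬝ᵥ (A.mulVec (e j))
      rw [hGp, hAs]
      rfl
    rw [e2]
    exact he

/-- Polynomials in one real variable. -/
theorem der_real : Der (fun f : ℝ → ℝ => DifferentiableAt ℝ f 0) (fun f => deriv f 0) 0 (𝓝 0) where
  sc c := differentiableAt_const c
  sa _ _ hf hg := hf.add hg
  sm _ _ hf hg := hf.mul hg
  da _ _ hf hg := deriv_add hf hg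
  dm f g hf hg := by
    rw [deriv_mul hf hg]
    ring
  dc c := deriv_const 0 c
  dz f _ h := by
    have e : f =ᶠ[𝓝 0] fun _ => (0 : ℝ) := h
    rw [e.deriv_eq, deriv_const]

/-- The form `β` vanishes on the kernel of `α` if the rank of `α + t β` is not larger than that of
`α` for small `t`. -/
theorem linear_kernel {k : ℕ} (α β : Fin k → Fin k → ℝ) (hsym : ∀ a b, α a b = α b a)
    (hrk : ∀ᶠ t in 𝓝 (0 : ℝ), (Matrix.of fun a b => α a b + t * β a b).rank ≤ (Matrix.of α).rank)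
    (c : Fin k → ℝ) (hc : (Matrix.of α).mulVec c = 0) :
    ∑ a, ∑ b, c a * (β a b * c b) = 0 := by
  have hd : ∀ a b, HasDerivAt (fun t : ℝ => α a b + t * β a b) (β a b) 0 := by
    intro a b
    have h1 : HasDerivAt (fun t : ℝ => t * β a b) (1 * β a b) 0 :=
      (hasDerivAt_id (0 : ℝ)).mul_const (β a b)
    rw [one_mul] at h1
    exact h1.const_add (α a b)
  have e0 : (fun a b => α a b + 0 * β a b) = α := by
    funext a b
    ring
  have h := der_real.kernel (fun a b t => α a b + t * β a b) (fun a b => (hd a b).differentiableAt)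
    (fun a b => by show α a b + 0 * β a b = α b a + 0 * β b a; rw [hsym a b]; ring)
    (by
      show ∀ᶠ t in 𝓝 (0 : ℝ), (Matrix.of fun a b => α a b + t * β a b).rank ≤
        (Matrix.of fun a b => α a b + 0 * β a b).rank
      rw [e0]
      exact hrk) c
    (by
      show (Matrix.of fun a b => α a b + 0 * β a b).mulVec c = 0
      rw [e0]
      exact hc)
  have h2 : HasDerivAt (fun t : ℝ => ∑ a, ∑ b, c a * ((α a b + t * β a b) * c b))
      (∑ a, ∑ b, c a * (β a b * c b)) 0 := by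
    refine HasDerivAt.fun_sum fun a _ => HasDerivAt.fun_sum fun b _ => ?_
    exact ((hd a b).mul_const (c b)).const_mul (c a)
  exact h2.deriv.symm.trans h

end Pool.Agent.PW
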