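import Pool.Agent.Lib.MP_a61a4c_gt.RkA
import Pool.Agent.Lib.MP_a61a4c_gt.Id

/-!
The curvature of the plane of a horizontal and a vertical field whose vertical field is in the kernel of
the second fundamental form minus a multiple of the metric.
-/

set_option autoImplicit false

open Bundle Filter Function Topology
open scoped Manifold ContDiff Bundle

noncomputable section

namespace Pool.Agent.PW

variable {E : Type*} [NormedAddCommGroup E] [NormedSpace ℝ E] [FiniteDimensional ℝ E]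
variable {M : Type*} [TopologicalSpace M] [ChartedSpace E M] [IsManifold 𝓘(ℝ, E) ∞ M]
variable {E' : Type*} [NormedAddCommGroup E'] [NormedSpace ℝ E'] [FiniteDimensional ℝ E']
variable {B : Type*} [TopologicalSpace B] [ChartedSpace E' B] [IsManifold 𝓘(ℝ, E') ∞ B]
variable [RiemannianBundle (fun x : M => TangentSpace 𝓘(ℝ, E) x)]
  [IsContMDiffRiemannianBundle 𝓘(ℝ, E) ∞ E (fun x : M => TangentSpace 𝓘(ℝ, E) x)]
variable [RiemannianBundle (fun x : B => TangentSpace 𝓘(ℝ, E') x)]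
  [IsContMDiffRiemannianBundle 𝓘(ℝ, E') ∞ E' (fun x : B => TangentSpace 𝓘(ℝ, E') x)]

variable {f : M → B} {p : M}
  {cov : CovariantDerivative 𝓘(ℝ, E) E (TangentSpace 𝓘(ℝ, E) : M → Type _)}

/-- The matrix of the second fundamental form in direction `y` minus `⟨η, y⟩` times the metric. -/
def TT (cov : CovariantDerivative 𝓘(ℝ, E) E (TangentSpace 𝓘(ℝ, E) : M → Type _))
    (η : Π x : M, TangentSpace 𝓘(ℝ, E) x) {k : ℕ} (U : Fin k → Π x : M, TangentSpace 𝓘(ℝ, E) x)
    (q : M) (y : TangentSpace 𝓘(ℝ, E) q) (i j : Fin k) : ℝ :=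
  (inner ℝ (cov (U j) q (U i q)) y : ℝ) - (if i = j then 1 else 0) * inner ℝ (η q) y

omit [FiniteDimensional ℝ E] [IsManifold 𝓘(ℝ, E) ∞ M]
  [RiemannianBundle fun x : M => TangentSpace 𝓘(ℝ, E) x]
  [IsContMDiffRiemannianBundle 𝓘(ℝ, E) ∞ E fun x : M => TangentSpace 𝓘(ℝ, E) x] in
theorem Rk_mvfderiv_const (c : ℝ) (v : TangentSpace 𝓘(ℝ, E) p) :
    mvfderiv 𝓘(ℝ, E) (fun _ : M => c) p v = 0 :=
  mvfderiv_eq_zero_of_min (SmFn.const c p).mdiff (Eventually.of_forall fun _ => le_rfl) v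

omit [FiniteDimensional ℝ E] [RiemannianBundle fun x : M => TangentSpace 𝓘(ℝ, E) x]
  [IsContMDiffRiemannianBundle 𝓘(ℝ, E) ∞ E fun x : M => TangentSpace 𝓘(ℝ, E) x] in
theorem Rk_cov_comb {n : ℕ} {U : Fin n → Π x : M, TangentSpace 𝓘(ℝ, E) x}
    (hU : ∀ j, SmoothNear (U j) p) (c : Fin n → ℝ) (v : TangentSpace 𝓘(ℝ, E) p) :
    cov (fun q => ∑ l, c l • U l q) p v = ∑ l, c l • cov (U l) p v := by
  rw [cov_sum cov Finset.univ (X := fun l q => c l • U l q)
    (fun l _ => SmoothNear.smul (SmFn.const (c l) p) (hU l))]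
  rw [sum_apply]
  refine Finset.sum_congr rfl fun l _ => ?_
  rw [cov_smul cov (SmFn.const (c l) p) (hU l) v, Rk_mvfderiv_const, zero_smul, add_zero]

omit [FiniteDimensional ℝ E] in
theorem TT_smooth (hc : IsLeviCivita cov) {η X : Π x : M, TangentSpace 𝓘(ℝ, E) x} {k : ℕ}
    {U : Fin k → Π x : M, TangentSpace 𝓘(ℝ, E) x} [FiniteDimensional ℝ E]
    (hη : SmoothNear η p) (hX : SmoothNear X p) (hU : ∀ j, SmoothNear (U j) p) (i j : Fin k) :
    SmFn E (fun q => TT cov η U q (X q) i j) p :=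
  SmFn.sub ((smoothNear_cov hc (hU i) (hU j)).inner hX)
    (SmFn.mul (SmFn.const (if i = j then 1 else 0) p) (hη.inner hX))

omit [FiniteDimensional ℝ E]
  [IsContMDiffRiemannianBundle 𝓘(ℝ, E) ∞ E (fun x : M => TangentSpace 𝓘(ℝ, E) x)] in
/-- the quadratic form -/
theorem TT_quad {η : Π x : M, TangentSpace 𝓘(ℝ, E) x} {k : ℕ}
    {U : Fin k → Π x : M, TangentSpace 𝓘(ℝ, E) x} (hU : ∀ j, SmoothNear (U j) p)
    (c : Fin k → ℝ) (hc1 : ∑ j, c j ^ 2 = 1) (y : TangentSpace 𝓘(ℝ, E) p) :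
    (inner ℝ (cov (fun q => ∑ l, c l • U l q) p (∑ l, c l • U l p)) y : ℝ) =
      ∑ i, ∑ j, c i * (TT cov η U p y i j * c j) + inner ℝ (η p) y := by
  have h1 : (inner ℝ (cov (fun q => ∑ l, c l • U l q) p (∑ l, c l • U l p)) y : ℝ) =
      ∑ i, ∑ j, c i * (inner ℝ (cov (U j) p (U i p)) y * c j) := by
    rw [Rk_cov_comb hU, sum_inner]
    have h2 : ∀ j, (inner ℝ (c j • cov (U j) p (∑ l, c l • U l p)) y : ℝ) =
        ∑ i, c i * (inner ℝ (cov (U j) p (U i p)) y * c j) := by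
      intro j
      rw [real_inner_smul_left, map_sum, sum_inner, Finset.mul_sum]
      refine Finset.sum_congr rfl fun i _ => ?_
      rw [map_smul, real_inner_smul_left]
      ring
    rw [Finset.sum_congr rfl fun j _ => h2 j]
    exact Finset.sum_comm
  have h3 : ∑ i, ∑ j, c i * (TT cov η U p y i j * c j) =
      ∑ i, ∑ j, c i * (inner ℝ (cov (U j) p (U i p)) y * c j) - inner ℝ (η p) y := by
    have h4 : ∀ i, ∑ j, c i * (TT cov η U p y i j * c j) =
        ∑ j, c i * (inner ℝ (cov (U j) p (U i p)) y * c j) - c i ^ 2 * inner ℝ (η p) y := by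
      intro i
      have h5 : ∀ j, c i * (TT cov η U p y i j * c j) =
          c i * (inner ℝ (cov (U j) p (U i p)) y * c j) -
            (if i = j then c i * (inner ℝ (η p) y * c j) else 0) := by
        intro j
        unfold TT
        by_cases hij : i = j
        · rw [if_pos hij, if_pos hij]
          ring
        · rw [if_neg hij, if_neg hij]
          ring
      rw [Finset.sum_congr rfl fun j _ => h5 j, Finset.sum_sub_distrib,
        Finset.sum_ite_eq Finset.univ i]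
      rw [if_pos (Finset.mem_univ i)]
      ring
    rw [Finset.sum_congr rfl fun i _ => h4 i, Finset.sum_sub_distrib, ← Finset.sum_mul, hc1,
      one_mul]
  rw [h1, h3]
  ring

/-- The curvature identity for a vertical field in the kernel. -/
theorem kernel_identity (hf : IsRiemSub (E := E) (E' := E') f) (hc : IsLeviCivita cov)
    {η X : Π x : M, TangentSpace 𝓘(ℝ, E) x} (hη : SmoothNear η p) (hX : SmoothNear X p)
    (hXh : ∀ᶠ q in 𝓝 p, Horiz (E' := E') f q (X q))
    {U : Fin (Module.finrank ℝ E - Module.finrank ℝ E') → Π x : M, TangentSpace 𝓘(ℝ, E) x}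
    (hU : VFrame (E := E) (E' := E') f p U)
    {c : Fin (Module.finrank ℝ E - Module.finrank ℝ E') → ℝ} (hc1 : ∑ j, c j ^ 2 = 1)
    (h1 : ∀ i, ∑ j, TT cov η U p (X p) i j * c j = 0)
    (h2 : mvfderiv 𝓘(ℝ, E) (fun q => ∑ i, ∑ j, c i * (TT cov η U q (X q) i j * c j)) p (X p) = 0)
    (h3 : ∑ i, ∑ j, c i * (TT cov η U p (cov X p (X p)) i j * c j) = 0)
    (h4 : mfderiv 𝓘(ℝ, E) 𝓘(ℝ, E') f p (∑ j, c j • cov (U j) p (X p)) = 0) :
    (inner ℝ (curv cov X (fun q => ∑ j, c j • U j q) (fun q => ∑ j, c j • U j q) p) (X p) : ℝ) =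
        inner ℝ (cov η p (X p)) (X p) - (inner ℝ (η p) (X p)) ^ 2 := by
  -- the vertical field
  obtain ⟨V, hVdef⟩ : ∃ V : Π x : M, TangentSpace 𝓘(ℝ, E) x, V = fun q => ∑ j, c j • U j q :=
    ⟨_, rfl⟩
  have hV : SmoothNear V p := by
    rw [hVdef]
    exact SmoothNear.sum Finset.univ (X := fun l q => c l • U l q)
      (fun l _ => SmoothNear.smul (SmFn.const (c l) p) (hU.sm l))
  have hVv : ∀ᶠ q in 𝓝 p, mfderiv 𝓘(ℝ, E) 𝓘(ℝ, E') f q (V q) = 0 := by
    filter_upwards [hU.vert] with q hq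
    rw [hVdef]
    show mfderiv 𝓘(ℝ, E) 𝓘(ℝ, E') f q (∑ j, c j • U j q) = 0
    rw [map_sum]
    refine Finset.sum_eq_zero fun l _ => ?_
    rw [map_smul, hq l, smul_zero]
  have hV1 : ∀ᶠ q in 𝓝 p, (inner ℝ (V q) (V q) : ℝ) = 1 := by
    filter_upwards [hU.orth] with q hq
    rw [hVdef]
    show (inner ℝ (∑ j, c j • U j q) (∑ j, c j • U j q) : ℝ) = 1
    rw [hq.inner_sum]
    simpa [sq] using hc1
  have hw : mfderiv 𝓘(ℝ, E) 𝓘(ℝ, E') f p (cov V p (X p)) = 0 := by
    rw [hVdef, Rk_cov_comb hU.sm]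
    exact h4
  have hXp : Horiz (E' := E') f p (X p) := hXh.self_of_nhds
  have hVp : mfderiv 𝓘(ℝ, E) 𝓘(ℝ, E') f p (V p) = 0 := hVv.self_of_nhds
  have hVV : (inner ℝ (V p) (V p) : ℝ) = 1 := hV1.self_of_nhds
  obtain ⟨ν, hν⟩ : ∃ ν : ℝ, ν = inner ℝ (η p) (X p) := ⟨_, rfl⟩
  -- the second fundamental form on `V`
  have hm1 : ∀ W : Π x : M, TangentSpace 𝓘(ℝ, E) x, SmoothNear W p →
      (∀ᶠ q in 𝓝 p, mfderiv 𝓘(ℝ, E) 𝓘(ℝ, E') f q (W q) = 0) →
      (inner ℝ (cov V p (W p)) (X p) : ℝ) = inner ℝ (W p) (V p) * ν := by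
    intro W hW hWv
    have e1 := vert_sum (hf.submersion p) hU.orth.self_of_nhds hU.vert.self_of_nhds
      hWv.self_of_nhds
    have e2 : ∀ i, ∑ j, (inner ℝ (cov (U j) p (U i p)) (X p) : ℝ) * c j = ν * c i := by
      intro i
      have e3 := h1 i
      have e4 : ∀ j, TT cov η U p (X p) i j * c j =
          (inner ℝ (cov (U j) p (U i p)) (X p) : ℝ) * c j - (if i = j then ν * c j else 0) := by
        intro j
        unfold TT
        rw [← hν]
        by_cases hij : i = j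
        · rw [if_pos hij, if_pos hij]
          ring
        · rw [if_neg hij, if_neg hij]
          ring
      rw [Finset.sum_congr rfl fun j _ => e4 j, Finset.sum_sub_distrib,
        Finset.sum_ite_eq Finset.univ i, if_pos (Finset.mem_univ i)] at e3
      linarith
    have e5 : (inner ℝ (cov V p (W p)) (X p) : ℝ) =
        ∑ i, (inner ℝ (U i p) (W p) : ℝ) * ∑ j, (inner ℝ (cov (U j) p (U i p)) (X p) : ℝ) * c j := by
      rw [hVdef, Rk_cov_comb hU.sm, sum_inner]
      have e6 : ∀ j, (inner ℝ (c j • cov (U j) p (W p)) (X p) : ℝ) =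
          ∑ i, (inner ℝ (U i p) (W p) : ℝ) * ((inner ℝ (cov (U j) p (U i p)) (X p) : ℝ) * c j) := by
        intro j
        rw [real_inner_smul_left]
        conv_lhs => rw [← e1]
        rw [map_sum, sum_inner, Finset.mul_sum]
        refine Finset.sum_congr rfl fun i _ => ?_
        rw [map_smul, real_inner_smul_left]
        ring
      rw [Finset.sum_congr rfl fun j _ => e6 j, Finset.sum_comm]
      refine Finset.sum_congr rfl fun i _ => ?_
      rw [Finset.mul_sum]
    rw [e5]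
    have e7 : (inner ℝ (W p) (V p) : ℝ) = ∑ i, (inner ℝ (U i p) (W p) : ℝ) * c i := by
      rw [hVdef]
      show (inner ℝ (W p) (∑ j, c j • U j p) : ℝ) = _
      rw [inner_sum]
      refine Finset.sum_congr rfl fun i _ => ?_
      rw [real_inner_smul_right, real_inner_comm (U i p) (W p)]
      ring
    rw [e7, Finset.sum_mul]
    refine Finset.sum_congr rfl fun i _ => ?_
    rw [e2 i]
    ring
  have hm2 : ∀ W : Π x : M, TangentSpace 𝓘(ℝ, E) x, SmoothNear W p →
      (∀ᶠ q in 𝓝 p, mfderiv 𝓘(ℝ, E) 𝓘(ℝ, E') f q (W q) = 0) →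
      (inner ℝ (cov W p (V p)) (X p) : ℝ) = inner ℝ (W p) (V p) * ν := by
    intro W hW hWv
    rw [sff_symm hf hc hV hW hVv hWv hXp]
    exact hm1 W hW hWv
  have hid := curv_identity hf hc hX hV hXh hVv
  -- first term
  have hqe : (fun q => (inner ℝ (cov V q (V q)) (X q) : ℝ)) =ᶠ[𝓝 p]
      (fun q => ∑ i, ∑ j, c i * (TT cov η U q (X q) i j * c j)) +
        (fun q => (inner ℝ (η q) (X q) : ℝ)) := by
    filter_upwards [hU.ev] with q hq
    rw [hVdef]
    exact TT_quad (η := η) hq.sm c hc1 (X q)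
  have hsq : SmFn E (fun q => ∑ i, ∑ j, c i * (TT cov η U q (X q) i j * c j)) p :=
    SmFn.sum Finset.univ (g := fun i q => ∑ j, c i * (TT cov η U q (X q) i j * c j))
      (fun i _ => SmFn.sum Finset.univ (g := fun j q => c i * (TT cov η U q (X q) i j * c j))
        (fun j _ => SmFn.mul (SmFn.const (c i) p)
          (SmFn.mul (TT_smooth hc hη hX hU.sm i j) (SmFn.const (c j) p))))
  have t1 : mvfderiv 𝓘(ℝ, E) (fun q => (inner ℝ (cov V q (V q)) (X q) : ℝ)) p (X p) =
      inner ℝ (cov η p (X p)) (X p) + inner ℝ (η p) (cov X p (X p)) := by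
    rw [mvfderiv_congr hqe, mvfderiv_add hsq.mdiff (hη.inner hX).mdiff, add_apply, h2,
      hc.metric (X p) hη.mdiff hX.mdiff, zero_add]
  -- second term
  have t2 : (inner ℝ (cov V p (V p)) (cov X p (X p)) : ℝ) = inner ℝ (η p) (cov X p (X p)) := by
    have e := TT_quad (cov := cov) (η := η) hU.sm c hc1 (cov X p (X p))
    rw [h3, zero_add] at e
    rw [hVdef]
    exact e
  -- extension of vertical vectors
  obtain ⟨W, hW, hWv, hWp⟩ := exists_vert_ext hf hw
  have hVw : (inner ℝ (V p) (cov V p (X p)) : ℝ) = 0 := by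
    have h1 := hc.metric (X p) hV.mdiff hV.mdiff
    have e : (fun q => (inner ℝ (V q) (V q) : ℝ)) =ᶠ[𝓝 p] fun _ => (1 : ℝ) := hV1
    rw [mvfderiv_congr e, Rk_mvfderiv_const, real_inner_comm (V p) (cov V p (X p))] at h1
    linarith
  have hwV : (inner ℝ (W p) (V p) : ℝ) = 0 := by
    rw [hWp, real_inner_comm]
    exact hVw
  -- third term
  have t3 : (inner ℝ (cov V p (X p)) (cov X p (V p)) : ℝ) = 0 := by
    have h1 := inner_cov_vert (E' := E') (f := f) hc hW hX hWv hXh (V p)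
    have h2 := hm2 W hW hWv
    rw [h1, hwV, hWp] at h2
    linarith
  -- fourth term
  have t4 : (inner ℝ (cov V p (cov V p (X p))) (X p) : ℝ) = 0 := by
    have h2 := hm1 W hW hWv
    rw [hwV, hWp] at h2
    linarith
  -- fifth term
  have t5 : (inner ℝ (cov V p (cov X p (V p))) (X p) : ℝ) = -(ν ^ 2) := by
    obtain ⟨zh, zv, hzh, hzv, hz⟩ := exists_decomp (E := E) (E' := E') (hf.submersion p)
      (cov X p (V p))
    obtain ⟨Z, hZ, hZv, hZp⟩ := exists_vert_ext hf hzv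
    have h1 : (inner ℝ (cov V p zh) (X p) : ℝ) = 0 := by
      rw [bundle_like' hf hc hV hVv hzh hXp, real_inner_comm zh (cov V p (X p)), hzh _ hw]
      ring
    have h2 := hm1 Z hZ hZv
    have h3 : (inner ℝ (V p) (cov X p (V p)) : ℝ) = -ν := by
      have h4 := inner_cov_vert (E' := E') (f := f) hc hV hX hVv hXh (V p)
      have h5 := hm1 V hV hVv
      rw [h4, hVV] at h5
      linarith
    have h6 : (inner ℝ zv (V p) : ℝ) = -ν := by
      rw [hz, inner_add_right, real_inner_comm zh (V p), hzh _ hVp, zero_add] at h3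
      rw [real_inner_comm (V p) zv]
      exact h3
    rw [hZp, h6] at h2
    rw [hz, map_add, inner_add_left, h1, h2]
    ring
  rw [t1, t2, t3, t4, t5] at hid
  rw [← hVdef, hid, ← hν]
  ring

end Pool.Agent.PW
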