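import Pool.Agent.Lib.MP_a61a4c_gt.RkB
import Pool.Agent.Lib.MP_a61a4c_gt.Mx

/-!
The rank of the second fundamental form of the fibres: points at which the rank is locally maximal.
-/

set_option autoImplicit false

open Bundle Filter Function Topology
open scoped Manifold ContDiff Bundle

noncomputable section

namespace Pool.Agent.PW

variable {E : Type*} [NormedAddCommGroup E] [NormedSpace ℝ E] [FiniteDimensional ℝ E]
variable {M : Type*} [TopologicalSpace M] [ChartedSpace E M] [IsManifold 𝓘(ℝ, E) ∞ M]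
variable {E' : Type*} [NormedAddCommGroup E'] [NormedSpace ℝ E'] [FiniteDimensional ℝ E']
variable {B : Type*} [TopologicalSpace B] [ChartedSpace E' B] [IsManifold 𝓘(ℝ, E') ∞ B]
variable [RiemannianBundle (fun x : M => TangentSpace 𝓘(ℝ, E) x)]
  [IsContMDiffRiemannianBundle 𝓘(ℝ, E) ∞ E (fun x : M => TangentSpace 𝓘(ℝ, E) x)]
variable [RiemannianBundle (fun x : B => TangentSpace 𝓘(ℝ, E') x)]
  [IsContMDiffRiemannianBundle 𝓘(ℝ, E') ∞ E' (fun x : B => TangentSpace 𝓘(ℝ, E') x)]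

variable {f : M → B} {p : M}
  {cov : CovariantDerivative 𝓘(ℝ, E) E (TangentSpace 𝓘(ℝ, E) : M → Type _)}

theorem TT_symm (hf : IsRiemSub (E := E) (E' := E') f) (hc : IsLeviCivita cov)
    {η : Π x : M, TangentSpace 𝓘(ℝ, E) x}
    {U : Fin (Module.finrank ℝ E - Module.finrank ℝ E') → Π x : M, TangentSpace 𝓘(ℝ, E) x}
    (hU : VFrame (E := E) (E' := E') f p U) {y : TangentSpace 𝓘(ℝ, E) p}
    (hy : Horiz (E' := E') f p y) (i j : Fin (Module.finrank ℝ E - Module.finrank ℝ E')) :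
    TT cov η U p y i j = TT cov η U p y j i := by
  unfold TT
  rw [sff_symm hf hc (hU.sm i) (hU.sm j) (hU.vert.mono fun q hq => hq i)
    (hU.vert.mono fun q hq => hq j) hy]
  by_cases hij : i = j
  · rw [if_pos hij, if_pos hij.symm]
  · rw [if_neg hij, if_neg (Ne.symm hij)]

omit [FiniteDimensional ℝ E]
  [IsContMDiffRiemannianBundle 𝓘(ℝ, E) ∞ E (fun x : M => TangentSpace 𝓘(ℝ, E) x)] in
theorem TT_add {η : Π x : M, TangentSpace 𝓘(ℝ, E) x} {k : ℕ}
    {U : Fin k → Π x : M, TangentSpace 𝓘(ℝ, E) x} (y z : TangentSpace 𝓘(ℝ, E) p) (i j : Fin k) :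
    TT cov η U p (y + z) i j = TT cov η U p y i j + TT cov η U p z i j := by
  unfold TT
  rw [inner_add_right, inner_add_right]
  ring

omit [FiniteDimensional ℝ E]
  [IsContMDiffRiemannianBundle 𝓘(ℝ, E) ∞ E (fun x : M => TangentSpace 𝓘(ℝ, E) x)] in
theorem TT_smul {η : Π x : M, TangentSpace 𝓘(ℝ, E) x} {k : ℕ}
    {U : Fin k → Π x : M, TangentSpace 𝓘(ℝ, E) x} (s : ℝ) (y : TangentSpace 𝓘(ℝ, E) p)
    (i j : Fin k) : TT cov η U p (s • y) i j = s * TT cov η U p y i j := by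
  unfold TT
  rw [real_inner_smul_right, real_inner_smul_right]
  ring

/-- the choice of the vertical direction -/
theorem exists_c (hf : IsRiemSub (E := E) (E' := E') f) (hc : IsLeviCivita cov)
    {U : Fin (Module.finrank ℝ E - Module.finrank ℝ E') → Π x : M, TangentSpace 𝓘(ℝ, E) x}
    (hU : VFrame (E := E) (E' := E') f p U) {x : TangentSpace 𝓘(ℝ, E) p}
    (hx : Horiz (E' := E') f p x) (hx1 : ‖x‖ = 1)
    (K : Submodule ℝ (Fin (Module.finrank ℝ E - Module.finrank ℝ E') → ℝ))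
    (hK : Module.finrank ℝ E' ≤ Module.finrank ℝ K) :
    ∃ c ∈ K, ∑ j, c j ^ 2 = 1 ∧
      mfderiv 𝓘(ℝ, E) 𝓘(ℝ, E') f p (∑ j, c j • cov (U j) p x) = 0 := by
  have : FiniteDimensional ℝ (TangentSpace 𝓘(ℝ, E') (f p)) :=
    inferInstanceAs (FiniteDimensional ℝ E')
  let L : (Fin (Module.finrank ℝ E - Module.finrank ℝ E') → ℝ) →ₗ[ℝ]
      TangentSpace 𝓘(ℝ, E') (f p) :=
    Fintype.linearCombination ℝ (fun j => mfderiv 𝓘(ℝ, E) 𝓘(ℝ, E') f p (cov (U j) p x))
  have hL : ∀ c, L c = mfderiv 𝓘(ℝ, E) 𝓘(ℝ, E') f p (∑ j, c j • cov (U j) p x) := by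
    intro c
    rw [map_sum]
    simp only [map_smul]
    exact Fintype.linearCombination_apply ℝ _ c
  have horth : ∀ c, (inner ℝ (L c) (mfderiv 𝓘(ℝ, E) 𝓘(ℝ, E') f p x) : ℝ) = 0 := by
    intro c
    rw [hL, inner_mfderiv' hf hx, sum_inner]
    refine Finset.sum_eq_zero fun j _ => ?_
    rw [real_inner_smul_left, bundle_like hf hc (hU.sm j) (hU.vert.mono fun q hq => hq j) hx,
      mul_zero]
  have hninj : ¬ Function.Injective (L.comp K.subtype) := by
    intro hinj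
    have hfr : Module.finrank ℝ K = Module.finrank ℝ (TangentSpace 𝓘(ℝ, E') (f p)) := by
      have h1 := LinearMap.finrank_le_finrank_of_injective hinj
      have h2 : Module.finrank ℝ (TangentSpace 𝓘(ℝ, E') (f p)) = Module.finrank ℝ E' := rfl
      rw [h2] at h1 ⊢
      exact le_antisymm h1 hK
    obtain ⟨c, hcx⟩ := (LinearMap.injective_iff_surjective_of_finrank_eq_finrank hfr).mp hinj
      (mfderiv 𝓘(ℝ, E) 𝓘(ℝ, E') f p x)
    have h4 := horth c
    have h5 : L c = mfderiv 𝓘(ℝ, E) 𝓘(ℝ, E') f p x := hcx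
    rw [h5, inner_mfderiv hf hx hx, real_inner_self_eq_norm_sq, hx1] at h4
    norm_num at h4
  have hex : ∃ c : K, L c = 0 ∧ c ≠ 0 := by
    by_contra hno
    push Not at hno
    exact hninj ((injective_iff_map_eq_zero _).mpr hno)
  obtain ⟨⟨c, hcK⟩, hc0, hcne⟩ := hex
  have hc0' : L c = 0 := hc0
  have hcne' : c ≠ 0 := fun h => hcne (Subtype.ext h)
  have hs : 0 < ∑ j, c j ^ 2 := by
    have hs0 : 0 ≤ ∑ j, c j ^ 2 := Finset.sum_nonneg fun j _ => sq_nonneg _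
    refine lt_of_le_of_ne hs0 fun h => hcne' ?_
    funext j
    have := (Finset.sum_eq_zero_iff_of_nonneg fun j _ => sq_nonneg (c j)).mp h.symm j
      (Finset.mem_univ j)
    exact pow_eq_zero_iff two_ne_zero |>.mp this
  refine ⟨(Real.sqrt (∑ j, c j ^ 2))⁻¹ • c, K.smul_mem _ hcK, ?_, ?_⟩
  · simp only [Pi.smul_apply, smul_eq_mul, mul_pow]
    rw [← Finset.mul_sum, inv_pow, Real.sq_sqrt hs.le, inv_mul_cancel₀ hs.ne']
  · rw [← hL, map_smul, hc0', smul_zero]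

omit [FiniteDimensional ℝ E] [IsManifold 𝓘(ℝ, E) ∞ M]
  [RiemannianBundle fun x : M => TangentSpace 𝓘(ℝ, E) x]
  [IsContMDiffRiemannianBundle 𝓘(ℝ, E) ∞ E fun x : M => TangentSpace 𝓘(ℝ, E) x] in
theorem der_mfd (v : TangentSpace 𝓘(ℝ, E) p) :
    Der (fun g : M → ℝ => SmFn E g p) (fun g => mvfderiv 𝓘(ℝ, E) g p v) p (𝓝 p) where
  sc c := SmFn.const c p
  sa _ _ hf hg := hf.add hg
  sm _ _ hf hg := hf.mul hg
  da f g hf hg := by
    rw [mvfderiv_add hf.mdiff hg.mdiff, add_apply]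
  dm f g hf hg := by
    rw [mvfderiv_mul hf.mdiff hg.mdiff]
    simp
  dc c := Rk_mvfderiv_const c v
  dz f _ h := by
    have e : f =ᶠ[𝓝 p] fun _ => (0 : ℝ) := h
    rw [mvfderiv_congr e, Rk_mvfderiv_const]

end Pool.Agent.PW
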