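import Pool.Agent.Lib.MP_a61a4c_gt.Defs

/-!
Definitions for the theorem on the multiplicities of the principal curvatures of the fibres.
-/

set_option autoImplicit false

open Bundle Filter Function Topology
open scoped Manifold ContDiff Bundle

noncomputable section

namespace Pool.Agent.PW

variable {E : Type*} [NormedAddCommGroup E] [NormedSpace ℝ E]
variable {M : Type*} [TopologicalSpace M] [ChartedSpace E M] [IsManifold 𝓘(ℝ, E) ∞ M]
variable [RiemannianBundle (fun x : M => TangentSpace 𝓘(ℝ, E) x)]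
variable {E' : Type*} [NormedAddCommGroup E'] [NormedSpace ℝ E']
variable {B : Type*} [TopologicalSpace B] [ChartedSpace E' B]

/-- The unit horizontal bundle: all tangent vectors `x` of `M` which are orthogonal to the fibre
and have length `1`. -/
def HUnit (f : M → B) : Set (TangentBundle 𝓘(ℝ, E) M) :=
  {z | Horiz (E' := E') f z.1 z.2 ∧ ‖z.2‖ = 1}

/-- `W` is a space of vertical vectors at `p` contained in the kernel of `S_x - μ id`, where
`S_x` is the shape operator of the fibre in the direction `x`: for smooth vertical fields `U`, `V`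
near `p` with `U p ∈ W`, `⟨∇_U V, x⟩ = μ ⟨U, V⟩` at `p`. -/
def EigSp (cov : CovariantDerivative 𝓘(ℝ, E) E (TangentSpace 𝓘(ℝ, E) : M → Type _))
    (f : M → B) (p : M) (x : TangentSpace 𝓘(ℝ, E) p) (μ : ℝ)
    (W : Submodule ℝ (TangentSpace 𝓘(ℝ, E) p)) : Prop :=
  (∀ w ∈ W, mfderiv 𝓘(ℝ, E) 𝓘(ℝ, E') f p w = 0) ∧
  ∀ U V : Π x : M, TangentSpace 𝓘(ℝ, E) x, SmoothNear U p → SmoothNear V p →
    (∀ᶠ q in 𝓝 p, mfderiv 𝓘(ℝ, E) 𝓘(ℝ, E') f q (U q) = 0) →
    (∀ᶠ q in 𝓝 p, mfderiv 𝓘(ℝ, E) 𝓘(ℝ, E') f q (V q) = 0) → U p ∈ W →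
    (inner ℝ (cov V p (U p)) x : ℝ) = inner ℝ (U p) (V p) * μ

/-- For every horizontal unit vector `x` the number `lam x` is an eigenvalue of the shape operator
`S_x` of multiplicity at least `m` (no condition if `m = 0`). -/
def MultGe (cov : CovariantDerivative 𝓘(ℝ, E) E (TangentSpace 𝓘(ℝ, E) : M → Type _))
    (f : M → B) (lam : TangentBundle 𝓘(ℝ, E) M → ℝ) (m : ℕ) : Prop :=
  ∀ (p : M) (x : TangentSpace 𝓘(ℝ, E) p), Horiz (E' := E') f p x → ‖x‖ = 1 →
    ∃ W : Submodule ℝ (TangentSpace 𝓘(ℝ, E) p),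
      EigSp (E := E) (E' := E') cov f p x (lam ⟨p, x⟩) W ∧ m ≤ Module.finrank ℝ W

/-- The kernel of `S_x - μ id` has dimension less than `dim B` and contains no vertical vector
`v ≠ 0` with `A_x v = 0`, where `A_x v` is the horizontal part of `∇_x V` for vertical fields `V`
with `V p = v`. -/
def Generic (cov : CovariantDerivative 𝓘(ℝ, E) E (TangentSpace 𝓘(ℝ, E) : M → Type _))
    (f : M → B) (p : M) (x : TangentSpace 𝓘(ℝ, E) p) (μ : ℝ) : Prop :=
  (∀ W : Submodule ℝ (TangentSpace 𝓘(ℝ, E) p), EigSp (E := E) (E' := E') cov f p x μ W →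
    Module.finrank ℝ W < Module.finrank ℝ E') ∧
  ∀ V : Π x : M, TangentSpace 𝓘(ℝ, E) x, SmoothNear V p →
    (∀ᶠ q in 𝓝 p, mfderiv 𝓘(ℝ, E) 𝓘(ℝ, E') f q (V q) = 0) →
    (∀ y : TangentSpace 𝓘(ℝ, E) p, Horiz (E' := E') f p y → (inner ℝ (cov V p x) y : ℝ) = 0) →
    EigSp (E := E) (E' := E') cov f p x μ (Submodule.span ℝ {V p}) → V p = 0

end Pool.Agent.PW
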