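import Pool.Agent.Lib.MP_a61a4c_gt.RkB

/-!
The curvature of the plane of two combinations of fields, as a function of the coefficients.
-/

set_option autoImplicit false

open Bundle Filter Function Topology
open scoped Manifold ContDiff Bundle

noncomputable section

namespace Pool.Agent.PW

variable {E : Type*} [NormedAddCommGroup E] [NormedSpace ℝ E] [FiniteDimensional ℝ E]
variable {M : Type*} [TopologicalSpace M] [ChartedSpace E M] [IsManifold 𝓘(ℝ, E) ∞ M]
variable [RiemannianBundle (fun x : M => TangentSpace 𝓘(ℝ, E) x)]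
  [IsContMDiffRiemannianBundle 𝓘(ℝ, E) ∞ E (fun x : M => TangentSpace 𝓘(ℝ, E) x)]

variable {p : M} {cov : CovariantDerivative 𝓘(ℝ, E) E (TangentSpace 𝓘(ℝ, E) : M → Type _)}

omit [FiniteDimensional ℝ E] [RiemannianBundle fun x : M => TangentSpace 𝓘(ℝ, E) x]
  [IsContMDiffRiemannianBundle 𝓘(ℝ, E) ∞ E fun x : M => TangentSpace 𝓘(ℝ, E) x] in
theorem smooth_comb {n : ℕ} {U : Fin n → Π x : M, TangentSpace 𝓘(ℝ, E) x}
    (hU : ∀ j, SmoothNear (U j) p) (c : Fin n → ℝ) : SmoothNear (fun q => ∑ l, c l • U l q) p :=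
  SmoothNear.sum Finset.univ (X := fun l q => c l • U l q)
    (fun l _ => SmoothNear.smul (SmFn.const (c l) p) (hU l))

theorem curv_third (hc : IsLeviCivita cov) {X Y : Π x : M, TangentSpace 𝓘(ℝ, E) x} {n : ℕ}
    {U : Fin n → Π x : M, TangentSpace 𝓘(ℝ, E) x} (hX : SmoothNear X p) (hY : SmoothNear Y p)
    (hU : ∀ j, SmoothNear (U j) p) (c : Fin n → ℝ) :
    curv cov X Y (fun q => ∑ l, c l • U l q) p = ∑ l, c l • curv cov X Y (U l) p := by
  have hZ := smooth_comb hU c
  have hev : ∀ᶠ q in 𝓝 p, ∀ l, SmoothNear (U l) q := eventually_all.2 fun l => (hU l).ev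
  have h1 : ∀ (Y : Π x : M, TangentSpace 𝓘(ℝ, E) x), SmoothNear Y p →
      ∀ v, cov (fun x => cov (fun q => ∑ l, c l • U l q) x (Y x)) p v =
        ∑ l, c l • cov (fun x => cov (U l) x (Y x)) p v := by
    intro Y hY v
    have e : (fun x => cov (fun q => ∑ l, c l • U l q) x (Y x)) =ᶠ[𝓝 p]
        fun x => ∑ l, c l • cov (U l) x (Y x) := by
      filter_upwards [hev] with q hq
      exact Rk_cov_comb hq c (Y q)
    rw [cov_congr cov (smoothNear_cov hc hY hZ) e]
    exact Rk_cov_comb (fun l => smoothNear_cov hc hY (hU l)) c v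
  unfold curv
  rw [h1 Y hY, h1 X hX, Rk_cov_comb hU, ← Finset.sum_sub_distrib, ← Finset.sum_sub_distrib]
  refine Finset.sum_congr rfl fun l _ => ?_
  rw [smul_sub, smul_sub]

theorem curv_second (hc : IsLeviCivita cov) {X Z : Π x : M, TangentSpace 𝓘(ℝ, E) x} {n : ℕ}
    {U : Fin n → Π x : M, TangentSpace 𝓘(ℝ, E) x} (hX : SmoothNear X p) (hZ : SmoothNear Z p)
    (hU : ∀ j, SmoothNear (U j) p) (c : Fin n → ℝ) :
    curv cov X (fun q => ∑ l, c l • U l q) Z p = ∑ l, c l • curv cov X (U l) Z p := by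
  have hY := smooth_comb hU c
  have h1 : (fun x => cov Z x (∑ l, c l • U l x)) = fun x => ∑ l, c l • cov Z x (U l x) := by
    funext x
    rw [map_sum]
    exact Finset.sum_congr rfl fun l _ => map_smul _ _ _
  have h2 : VectorField.mlieBracket 𝓘(ℝ, E) X (fun q => ∑ l, c l • U l q) p =
      ∑ l, c l • VectorField.mlieBracket 𝓘(ℝ, E) X (U l) p := by
    rw [← hc.torsion hX.mdiff hY.mdiff, Rk_cov_comb hU, map_sum, ← Finset.sum_sub_distrib]
    refine Finset.sum_congr rfl fun l _ => ?_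
    rw [map_smul, ← smul_sub, hc.torsion hX.mdiff (hU l).mdiff]
  unfold curv
  rw [h1, Rk_cov_comb (fun l => smoothNear_cov hc (hU l) hZ), map_sum, h2, map_sum,
    ← Finset.sum_sub_distrib, ← Finset.sum_sub_distrib]
  refine Finset.sum_congr rfl fun l _ => ?_
  rw [map_smul, map_smul, smul_sub, smul_sub]

theorem curv_first (hc : IsLeviCivita cov) {Y Z : Π x : M, TangentSpace 𝓘(ℝ, E) x} {n : ℕ}
    {U : Fin n → Π x : M, TangentSpace 𝓘(ℝ, E) x} (hY : SmoothNear Y p) (hZ : SmoothNear Z p)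
    (hU : ∀ j, SmoothNear (U j) p) (c : Fin n → ℝ) :
    curv cov (fun q => ∑ l, c l • U l q) Y Z p = ∑ l, c l • curv cov (U l) Y Z p := by
  have hX := smooth_comb hU c
  have h1 : (fun x => cov Z x (∑ l, c l • U l x)) = fun x => ∑ l, c l • cov Z x (U l x) := by
    funext x
    rw [map_sum]
    exact Finset.sum_congr rfl fun l _ => map_smul _ _ _
  have h2 : VectorField.mlieBracket 𝓘(ℝ, E) (fun q => ∑ l, c l • U l q) Y p =
      ∑ l, c l • VectorField.mlieBracket 𝓘(ℝ, E) (U l) Y p := by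
    rw [← hc.torsion hX.mdiff hY.mdiff, Rk_cov_comb hU, map_sum, ← Finset.sum_sub_distrib]
    refine Finset.sum_congr rfl fun l _ => ?_
    rw [map_smul, ← smul_sub, hc.torsion (hU l).mdiff hY.mdiff]
  unfold curv
  rw [h1, Rk_cov_comb (fun l => smoothNear_cov hc (hU l) hZ), map_sum, h2, map_sum,
    ← Finset.sum_sub_distrib, ← Finset.sum_sub_distrib]
  refine Finset.sum_congr rfl fun l _ => ?_
  rw [map_smul, map_smul, smul_sub, smul_sub]

/-- the curvature as a polynomial in the coefficients -/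
theorem curv_expand (hc : IsLeviCivita cov) {n k : ℕ}
    {Y : Fin n → Π x : M, TangentSpace 𝓘(ℝ, E) x} {U : Fin k → Π x : M, TangentSpace 𝓘(ℝ, E) x}
    (hY : ∀ l, SmoothNear (Y l) p) (hU : ∀ j, SmoothNear (U j) p) (a : Fin n → ℝ)
    (c : Fin k → ℝ) :
    (inner ℝ (curv cov (fun q => ∑ l, a l • Y l q) (fun q => ∑ j, c j • U j q)
      (fun q => ∑ j, c j • U j q) p) (∑ l, a l • Y l p) : ℝ) =
      ∑ l, ∑ l', ∑ j, ∑ j', (a l * a l') * (c j * c j') *
        inner ℝ (curv cov (Y l) (U j) (U j') p) (Y l' p) := by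
  rw [curv_first hc (smooth_comb hU c) (smooth_comb hU c) hY a, sum_inner]
  refine Finset.sum_congr rfl fun l _ => ?_
  rw [real_inner_smul_left, inner_sum, Finset.mul_sum]
  refine Finset.sum_congr rfl fun l' _ => ?_
  rw [real_inner_smul_right, curv_second hc (hY l) (smooth_comb hU c) hU c, sum_inner,
    Finset.mul_sum, Finset.mul_sum]
  refine Finset.sum_congr rfl fun j _ => ?_
  rw [real_inner_smul_left, curv_third hc (hY l) (hU j) hU c, sum_inner, Finset.mul_sum,
    Finset.mul_sum, Finset.mul_sum]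
  refine Finset.sum_congr rfl fun j' _ => ?_
  rw [real_inner_smul_left]
  ring

theorem smooth_curv (hc : IsLeviCivita cov) {X Y Z : Π x : M, TangentSpace 𝓘(ℝ, E) x}
    (hX : SmoothNear X p) (hY : SmoothNear Y p) (hZ : SmoothNear Z p) :
    SmoothNear (fun q => curv cov X Y Z q) p := by
  have : CompleteSpace E := FiniteDimensional.complete ℝ E
  exact ((smoothNear_cov hc hX (smoothNear_cov hc hY hZ)).sub
    (smoothNear_cov hc hY (smoothNear_cov hc hX hZ))).sub
    (smoothNear_cov hc (SmoothNear.bracket hX hY) hZ)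

theorem compact_sphere (k : ℕ) : IsCompact {c : Fin k → ℝ | ∑ j, c j ^ 2 = 1} := by
  refine Metric.isCompact_of_isClosed_isBounded ?_ ?_
  · exact isClosed_eq (by fun_prop) continuous_const
  · refine (Metric.isBounded_closedBall (x := (0 : Fin k → ℝ)) (r := 1)).subset ?_
    intro c hc
    have hc' : ∑ j, c j ^ 2 = 1 := hc
    rw [mem_closedBall_zero_iff, pi_norm_le_iff_of_nonneg zero_le_one]
    intro j
    have h1 : c j ^ 2 ≤ ∑ j, c j ^ 2 :=
      Finset.single_le_sum (f := fun j => c j ^ 2) (fun j _ => sq_nonneg _) (Finset.mem_univ j)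
    rw [hc'] at h1
    rw [Real.norm_eq_abs]
    exact (sq_le_one_iff_abs_le_one (c j)).1 h1

end Pool.Agent.PW
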