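import Pool.Agent.Lib.MP_a61a4c_gt.RkC
import Pool.Agent.Lib.MP_a61a4c_gt.RkE
import Pool.Agent.Lib.MP_a61a4c_gt.RkDefs

/-!
The bound for the dimension of the fibres in terms of the rank of their second fundamental form.
-/

set_option autoImplicit false

open Bundle Filter Function Topology
open scoped Manifold ContDiff Bundle

noncomputable section

namespace Pool.Agent.PW

variable {E : Type*} [NormedAddCommGroup E] [NormedSpace ℝ E] [FiniteDimensional ℝ E]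
variable {M : Type*} [TopologicalSpace M] [ChartedSpace E M] [IsManifold 𝓘(ℝ, E) ∞ M]
variable {E' : Type*} [NormedAddCommGroup E'] [NormedSpace ℝ E'] [FiniteDimensional ℝ E']
variable {B : Type*} [TopologicalSpace B] [ChartedSpace E' B] [IsManifold 𝓘(ℝ, E') ∞ B]
variable [RiemannianBundle (fun x : M => TangentSpace 𝓘(ℝ, E) x)]
  [IsContMDiffRiemannianBundle 𝓘(ℝ, E) ∞ E (fun x : M => TangentSpace 𝓘(ℝ, E) x)]
variable [RiemannianBundle (fun x : B => TangentSpace 𝓘(ℝ, E') x)]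
  [IsContMDiffRiemannianBundle 𝓘(ℝ, E') ∞ E' (fun x : B => TangentSpace 𝓘(ℝ, E') x)]

variable {f : M → B} {p : M}
  {cov : CovariantDerivative 𝓘(ℝ, E) E (TangentSpace 𝓘(ℝ, E) : M → Type _)}

omit [FiniteDimensional ℝ E] [IsManifold 𝓘(ℝ, E) ∞ M] [FiniteDimensional ℝ E']
  [IsManifold 𝓘(ℝ, E') ∞ B]
  [IsContMDiffRiemannianBundle 𝓘(ℝ, E) ∞ E (fun x : M => TangentSpace 𝓘(ℝ, E) x)]
  [RiemannianBundle (fun x : B => TangentSpace 𝓘(ℝ, E') x)]
  [IsContMDiffRiemannianBundle 𝓘(ℝ, E') ∞ E' (fun x : B => TangentSpace 𝓘(ℝ, E') x)] in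
theorem horiz_sum {n : ℕ} {x : Fin n → TangentSpace 𝓘(ℝ, E) p}
    (hx : ∀ i, Horiz (E' := E') f p (x i)) (a : Fin n → ℝ) :
    Horiz (E' := E') f p (∑ l, a l • x l) := by
  intro u hu
  rw [sum_inner]
  refine Finset.sum_eq_zero fun i _ => ?_
  rw [real_inner_smul_left, hx i u hu, mul_zero]

/-- At a horizontal unit vector where the rank is locally maximal. -/
theorem star (hf : IsRiemSub (E := E) (E' := E') f) (hc : IsLeviCivita cov)
    {η : Π x : M, TangentSpace 𝓘(ℝ, E) x} (hη : SmoothNear η p)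
    {U : Fin (Module.finrank ℝ E - Module.finrank ℝ E') → Π x : M, TangentSpace 𝓘(ℝ, E) x}
    (hU : VFrame (E := E) (E' := E') f p U)
    {Y : Fin (Module.finrank ℝ E') → Π x : M, TangentSpace 𝓘(ℝ, E) x}
    (hY : ∀ l, SmoothNear (Y l) p) (hYh : ∀ᶠ q in 𝓝 p, ∀ l, Horiz (E' := E') f q (Y l q))
    (hYo : Orthonormal ℝ (fun l => Y l p)) {a : Fin (Module.finrank ℝ E') → ℝ}
    (hmax : ∀ᶠ z : M × (Fin (Module.finrank ℝ E') → ℝ) in 𝓝 (p, a),
      (Matrix.of (TT cov η U z.1 (∑ l, z.2 l • Y l z.1))).rank ≤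
        (Matrix.of (TT cov η U p (∑ l, a l • Y l p))).rank)
    {c : Fin (Module.finrank ℝ E - Module.finrank ℝ E') → ℝ} (hc1 : ∑ j, c j ^ 2 = 1)
    (hcK : (Matrix.of (TT cov η U p (∑ l, a l • Y l p))).mulVec c = 0)
    (hcA : mfderiv 𝓘(ℝ, E) 𝓘(ℝ, E') f p (∑ j, c j • cov (U j) p (∑ l, a l • Y l p)) = 0) :
    (inner ℝ (curv cov (fun q => ∑ l, a l • Y l q) (fun q => ∑ j, c j • U j q)
      (fun q => ∑ j, c j • U j q) p) (∑ l, a l • Y l p) : ℝ) =
        inner ℝ (cov η p (∑ l, a l • Y l p)) (∑ l, a l • Y l p) -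
          (inner ℝ (η p) (∑ l, a l • Y l p)) ^ 2 := by
  obtain ⟨X, hXdef⟩ : ∃ X : Π x : M, TangentSpace 𝓘(ℝ, E) x, X = fun q => ∑ l, a l • Y l q :=
    ⟨_, rfl⟩
  have hXp : X p = ∑ l, a l • Y l p := by rw [hXdef]
  have hX : SmoothNear X p := by
    rw [hXdef]
    exact SmoothNear.sum Finset.univ (X := fun l q => a l • Y l q)
      (fun l _ => SmoothNear.smul (SmFn.const (a l) p) (hY l))
  have hXh : ∀ᶠ q in 𝓝 p, Horiz (E' := E') f q (X q) := by
    filter_upwards [hYh] with q hq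
    rw [hXdef]
    exact horiz_sum hq a
  have hker : (Matrix.of (TT cov η U p (X p))).mulVec c = 0 := by
    rw [hXp]
    exact hcK
  have hc4 : mfderiv 𝓘(ℝ, E) 𝓘(ℝ, E') f p (∑ j, c j • cov (U j) p (X p)) = 0 := by
    rw [hXp]
    exact hcA
  -- the derivative in direction `X`
  have h2 : mvfderiv 𝓘(ℝ, E) (fun q => ∑ i, ∑ j, c i * (TT cov η U q (X q) i j * c j)) p (X p) = 0 := by
    refine (der_mfd (X p)).kernel (fun i j q => TT cov η U q (X q) i j)
      (fun i j => TT_smooth hc hη hX hU.sm i j) (fun i j => TT_symm hf hc hU hXh.self_of_nhds i j)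
      ?_ c hker
    have hcont : ContinuousAt (fun q : M => (q, a)) p := by fun_prop
    have h3 := hcont.eventually hmax
    filter_upwards [h3] with q hq
    rw [hXdef]
    exact hq
  -- the derivative in the direction of `∇_X X`
  have hy := horiz_cov_self hf hc hX hXh
  obtain ⟨b, hb⟩ : ∃ b : Fin (Module.finrank ℝ E') → ℝ, cov X p (X p) = ∑ l, b l • Y l p := by
    refine ⟨fun l => inner ℝ (cov X p (X p)) (Y l p), ?_⟩
    have h5 := sum_split hf hU.orth.self_of_nhds hU.vert.self_of_nhds hYo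
      hYh.self_of_nhds (cov X p (X p))
    have h6 : ∑ j, (inner ℝ (cov X p (X p)) (U j p) : ℝ) • U j p = 0 :=
      Finset.sum_eq_zero fun j _ => by rw [hy _ (hU.vert.self_of_nhds j), zero_smul]
    rw [h6, zero_add] at h5
    exact h5
  have h3 : ∑ i, ∑ j, c i * (TT cov η U p (cov X p (X p)) i j * c j) = 0 := by
    refine linear_kernel (TT cov η U p (X p)) (TT cov η U p (cov X p (X p)))
      (fun i j => TT_symm hf hc hU hXh.self_of_nhds i j) ?_ c hker
    have hcont : ContinuousAt (fun t : ℝ => (p, a + t • b)) 0 := by fun_prop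
    have h0 : (p, a + (0 : ℝ) • b) = (p, a) := by rw [zero_smul, add_zero]
    have h3' : ∀ᶠ z : M × (Fin (Module.finrank ℝ E') → ℝ) in 𝓝 (p, a + (0 : ℝ) • b),
        (Matrix.of (TT cov η U z.1 (∑ l, z.2 l • Y l z.1))).rank ≤
          (Matrix.of (TT cov η U p (∑ l, a l • Y l p))).rank := by
      rw [h0]
      exact hmax
    have h3 : ∀ᶠ t in 𝓝 (0 : ℝ), (Matrix.of (TT cov η U p (∑ l, (a + t • b) l • Y l p))).rank ≤
        (Matrix.of (TT cov η U p (∑ l, a l • Y l p))).rank := hcont.eventually h3'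
    filter_upwards [h3] with t ht
    have e : (Matrix.of fun i j => TT cov η U p (X p) i j + t * TT cov η U p (cov X p (X p)) i j) =
        Matrix.of (TT cov η U p (∑ l, (a + t • b) l • Y l p)) := by
      ext i j
      show TT cov η U p (X p) i j + t * TT cov η U p (cov X p (X p)) i j =
        TT cov η U p (∑ l, (a + t • b) l • Y l p) i j
      have e1 : ∑ l, (a + t • b) l • Y l p = X p + t • cov X p (X p) := by
        rw [hb, hXp, Finset.smul_sum, ← Finset.sum_add_distrib]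
        refine Finset.sum_congr rfl fun l _ => ?_
        rw [Pi.add_apply, Pi.smul_apply, add_smul, smul_eq_mul, mul_smul]
      rw [e1, TT_add, TT_smul]
    rw [e, hXp]
    exact ht
  have hcurv := kernel_identity hf hc hη hX hXh hU hc1 (fun i => congrFun hker i) h2 h3 hc4
  rw [hXp] at hcurv
  rw [hXdef] at hcurv
  exact hcurv

theorem exists_max_nat {α : Type*} (S : Set α) (hS : S.Nonempty) (g : α → ℕ) (k : ℕ)
    (hk : ∀ z ∈ S, g z ≤ k) : ∃ z ∈ S, ∀ z' ∈ S, g z' ≤ g z := by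
  have h : (g '' S).Nonempty := hS.image g
  have hb : BddAbove (g '' S) := ⟨k, by
    rintro _ ⟨z, hz, rfl⟩
    exact hk z hz⟩
  obtain ⟨z, hz, hzs⟩ := Nat.sSup_mem h hb
  refine ⟨z, hz, fun z' hz' => ?_⟩
  rw [hzs]
  exact le_csSup hb ⟨z', hz', rfl⟩

theorem rank_smul {k : ℕ} (A : Matrix (Fin k) (Fin k) ℝ) {s : ℝ} (hs : s ≠ 0) :
    (s • A).rank = A.rank := by
  have h : (s • A).mulVecLin = s • A.mulVecLin := by
    refine LinearMap.ext fun v => ?_
    exact Matrix.smul_mulVec s A v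
  show Module.finrank ℝ (LinearMap.range (s • A).mulVecLin) = _
  rw [h, LinearMap.range_smul _ _ hs]
  rfl

/-- Near every horizontal unit vector `x` with `⟨∇_x η, x⟩ < K(x, v) + ⟨η, x⟩²` for all vertical unit
vectors `v` there is a horizontal unit vector `y` such that no vertical vector is in both kernels. -/
theorem exists_star (hf : IsRiemSub (E := E) (E' := E') f) (hc : IsLeviCivita cov)
    (hpos : SecPos cov) {η : Π x : M, TangentSpace 𝓘(ℝ, E) x} (hη : ∀ p, SmoothNear η p)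
    {Z : Π x : M, TangentSpace 𝓘(ℝ, E) x} (hZ : SmoothNear Z p)
    (hx : Horiz (E' := E') f p (Z p)) (hx1 : ‖Z p‖ = 1)
    (hε : (inner ℝ (cov η p (Z p)) (Z p) : ℝ) ≤ (inner ℝ (η p) (Z p)) ^ 2)
    {N : Set M} (hN : N ∈ 𝓝 p) {ε : ℝ} (hε0 : 0 < ε) :
    ∃ q ∈ N, ∃ (y : TangentSpace 𝓘(ℝ, E) q)
      (U : Fin (Module.finrank ℝ E - Module.finrank ℝ E') → Π x : M, TangentSpace 𝓘(ℝ, E) x),
      Horiz (E' := E') f q y ∧ ‖y‖ = 1 ∧ ‖y - Z q‖ < ε ∧ VFrame (E := E) (E' := E') f q U ∧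
      ∀ c : Fin (Module.finrank ℝ E - Module.finrank ℝ E') → ℝ, ∑ j, c j ^ 2 = 1 →
        (Matrix.of (TT cov η U q y)).mulVec c = 0 →
        mfderiv 𝓘(ℝ, E) 𝓘(ℝ, E') f q (∑ j, c j • cov (U j) q y) = 0 → False := by
  obtain ⟨x, hxZ⟩ : ∃ x, x = Z p := ⟨_, rfl⟩
  rw [← hxZ] at hx hx1 hε
  obtain ⟨U, hU⟩ := exists_vframe (E := E) (E' := E') hf p
  obtain ⟨e, -, he⟩ := exists_orthonormal_frame (E := E') (M := B) (f p)
  obtain ⟨Y, Y', hY, hYo, -, -⟩ := exists_hframe (E := E) (E' := E') hf p (fun i => e i (f p))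
    he.self_of_nhds
  obtain ⟨a, hadef⟩ : ∃ a : Fin (Module.finrank ℝ E') → ℝ, a = fun l => inner ℝ x (Y l p) :=
    ⟨_, rfl⟩
  have hYh : ∀ᶠ q in 𝓝 p, ∀ l, Horiz (E' := E') f q (Y l q) :=
    eventually_all.2 fun i => (hY i).hor
  have hax : x = ∑ l, a l • Y l p := by
    have h5 := sum_split hf hU.orth.self_of_nhds hU.vert.self_of_nhds hYo.self_of_nhds
      hYh.self_of_nhds x
    have h6 : ∑ j, (inner ℝ x (U j p) : ℝ) • U j p = 0 :=
      Finset.sum_eq_zero fun j _ => by rw [hx _ (hU.vert.self_of_nhds j), zero_smul]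
    rw [h6, zero_add] at h5
    rw [hadef]
    exact h5
  have hxx : (inner ℝ x x : ℝ) = 1 := by rw [real_inner_self_eq_norm_sq, hx1, one_pow]
  have ha1 : ∑ l, a l ^ 2 = 1 := by
    have h7 := hxx
    rw [hax, hYo.self_of_nhds.inner_sum] at h7
    simpa [sq] using h7
  -- the function `Φ`
  obtain ⟨Φ, hΦdef⟩ : ∃ Φ : M × (Fin (Module.finrank ℝ E') → ℝ) → ℝ,
      Φ = fun z => ∑ l, ∑ m, z.2 l * z.2 m * inner ℝ (cov η z.1 (Y l z.1)) (Y m z.1) := ⟨_, rfl⟩
  have hΦ : ∀ q (b : Fin (Module.finrank ℝ E') → ℝ), Φ (q, b) =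
      inner ℝ (cov η q (∑ l, b l • Y l q)) (∑ l, b l • Y l q) := by
    intro q b
    rw [hΦdef, map_sum, sum_inner]
    refine Finset.sum_congr rfl fun l _ => ?_
    rw [map_smul, real_inner_smul_left, inner_sum, Finset.mul_sum]
    refine Finset.sum_congr rfl fun m _ => ?_
    rw [real_inner_smul_right]
    ring
  have hcont : ContinuousAt Φ (p, a) := by
    rw [hΦdef]
    refine tendsto_finsetSum _ fun l _ => tendsto_finsetSum _ fun m _ => ?_
    have h1 : ContinuousAt (fun q : M => (inner ℝ (cov η q (Y l q)) (Y m q) : ℝ)) p :=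
      ((smoothNear_cov hc (hY l).sm (hη p)).inner (hY m).sm).continuousAt
    have h2 : ContinuousAt (fun z : M × (Fin (Module.finrank ℝ E') → ℝ) =>
        (inner ℝ (cov η z.1 (Y l z.1)) (Y m z.1) : ℝ)) (p, a) :=
      ContinuousAt.comp (f := Prod.fst) (x := (p, a)) h1 continuousAt_fst
    have h3 : ContinuousAt (fun z : M × (Fin (Module.finrank ℝ E') → ℝ) => z.2 l * z.2 m)
        (p, a) := by fun_prop
    exact h3.mul h2
  -- the function `ν`
  obtain ⟨ν, hνdef⟩ : ∃ ν : M × (Fin (Module.finrank ℝ E') → ℝ) → ℝ,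
      ν = fun z => ∑ l, z.2 l * inner ℝ (η z.1) (Y l z.1) := ⟨_, rfl⟩
  have hν : ∀ q (b : Fin (Module.finrank ℝ E') → ℝ), ν (q, b) =
      inner ℝ (η q) (∑ l, b l • Y l q) := by
    intro q b
    rw [hνdef, inner_sum]
    refine Finset.sum_congr rfl fun l _ => ?_
    rw [real_inner_smul_right]
  have hcontν : ContinuousAt ν (p, a) := by
    rw [hνdef]
    refine tendsto_finsetSum _ fun l _ => ?_
    have h1 : ContinuousAt (fun q : M => (inner ℝ (η q) (Y l q) : ℝ)) p :=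
      ((hη p).inner (hY l).sm).continuousAt
    have h2 : ContinuousAt (fun z : M × (Fin (Module.finrank ℝ E') → ℝ) =>
        (inner ℝ (η z.1) (Y l z.1) : ℝ)) (p, a) :=
      ContinuousAt.comp (f := Prod.fst) (x := (p, a)) h1 continuousAt_fst
    have h3 : ContinuousAt (fun z : M × (Fin (Module.finrank ℝ E') → ℝ) => z.2 l)
        (p, a) := by fun_prop
    exact h3.mul h2
  -- the curvature
  obtain ⟨κ, hκdef⟩ : ∃ κ : M × (Fin (Module.finrank ℝ E') → ℝ) →
      (Fin (Module.finrank ℝ E - Module.finrank ℝ E') → ℝ) → ℝ,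
      κ = fun z c => ∑ l, ∑ l', ∑ j, ∑ j', (z.2 l * z.2 l') * (c j * c j') *
        inner ℝ (curv cov (Y l) (U j) (U j') z.1) (Y l' z.1) := ⟨_, rfl⟩
  have hκ : ∀ q (b : Fin (Module.finrank ℝ E') → ℝ)
      (c : Fin (Module.finrank ℝ E - Module.finrank ℝ E') → ℝ),
      (∀ l, SmoothNear (Y l) q) → (∀ j, SmoothNear (U j) q) →
      κ (q, b) c = inner ℝ (curv cov (fun q => ∑ l, b l • Y l q) (fun q => ∑ j, c j • U j q)
        (fun q => ∑ j, c j • U j q) q) (∑ l, b l • Y l q) := by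
    intro q b c h1 h2
    rw [curv_expand hc h1 h2, hκdef]
  have hcontκ : ∀ c : Fin (Module.finrank ℝ E - Module.finrank ℝ E') → ℝ,
      ContinuousAt (fun w : (M × (Fin (Module.finrank ℝ E') → ℝ)) ×
        (Fin (Module.finrank ℝ E - Module.finrank ℝ E') → ℝ) => κ w.1 w.2) ((p, a), c) := by
    intro c
    rw [hκdef]
    refine tendsto_finsetSum _ fun l _ => tendsto_finsetSum _ fun l' _ =>
      tendsto_finsetSum _ fun j _ => tendsto_finsetSum _ fun j' _ => ?_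
    have h1 : ContinuousAt (fun q : M => (inner ℝ (curv cov (Y l) (U j) (U j') q) (Y l' q) : ℝ)) p :=
      ((smooth_curv hc (hY l).sm (hU.sm j) (hU.sm j')).inner (hY l').sm).continuousAt
    have h0 : ContinuousAt (fun w : (M × (Fin (Module.finrank ℝ E') → ℝ)) ×
        (Fin (Module.finrank ℝ E - Module.finrank ℝ E') → ℝ) => w.1.1) ((p, a), c) := by
      fun_prop
    have h2 : ContinuousAt (fun w : (M × (Fin (Module.finrank ℝ E') → ℝ)) ×
        (Fin (Module.finrank ℝ E - Module.finrank ℝ E') → ℝ) =>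
        (inner ℝ (curv cov (Y l) (U j) (U j') w.1.1) (Y l' w.1.1) : ℝ)) ((p, a), c) :=
      ContinuousAt.comp (f := fun w : (M × (Fin (Module.finrank ℝ E') → ℝ)) ×
        (Fin (Module.finrank ℝ E - Module.finrank ℝ E') → ℝ) => w.1.1) (x := ((p, a), c)) h1 h0
    have h3 : ContinuousAt (fun w : (M × (Fin (Module.finrank ℝ E') → ℝ)) ×
        (Fin (Module.finrank ℝ E - Module.finrank ℝ E') → ℝ) =>
        (w.1.2 l * w.1.2 l') * (w.2 j * w.2 j')) ((p, a), c) := by fun_prop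
    exact h3.mul h2
  have hev1 : ∀ᶠ z : M × (Fin (Module.finrank ℝ E') → ℝ) in 𝓝 (p, a),
      ∀ c ∈ {c : Fin (Module.finrank ℝ E - Module.finrank ℝ E') → ℝ | ∑ j, c j ^ 2 = 1},
        Φ z - ν z ^ 2 < κ z c := by
    refine (compact_sphere _).eventually_forall_of_forall_eventually fun c hc1 => ?_
    have hc1' : ∑ j, c j ^ 2 = 1 := hc1
    have h1 : ContinuousAt (fun w : (M × (Fin (Module.finrank ℝ E') → ℝ)) ×
        (Fin (Module.finrank ℝ E - Module.finrank ℝ E') → ℝ) =>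
        κ w.1 w.2 - (Φ w.1 - ν w.1 ^ 2)) ((p, a), c) := by
      have g0 : ContinuousAt (fun w : (M × (Fin (Module.finrank ℝ E') → ℝ)) ×
        (Fin (Module.finrank ℝ E - Module.finrank ℝ E') → ℝ) => w.1) ((p, a), c) := by
        fun_prop
      have g1 := ContinuousAt.comp (f := fun w : (M × (Fin (Module.finrank ℝ E') → ℝ)) ×
        (Fin (Module.finrank ℝ E - Module.finrank ℝ E') → ℝ) => w.1) (x := ((p, a), c)) hcont g0
      have g2 := ContinuousAt.comp (f := fun w : (M × (Fin (Module.finrank ℝ E') → ℝ)) ×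
        (Fin (Module.finrank ℝ E - Module.finrank ℝ E') → ℝ) => w.1) (x := ((p, a), c)) hcontν g0
      exact (hcontκ c).sub (g1.sub (g2.pow 2))
    have h2 : 0 < κ (p, a) c - (Φ (p, a) - ν (p, a) ^ 2) := by
      rw [hΦ, hν, ← hax]
      have h3 : 0 < κ (p, a) c := by
        rw [hκ p a c (fun l => (hY l).sm) hU.sm]
        refine hpos p _ _ (smooth_comb (fun l => (hY l).sm) a) (smooth_comb hU.sm c) ?_
        have hXX : (inner ℝ (∑ l, a l • Y l p) (∑ l, a l • Y l p) : ℝ) = 1 := by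
          rw [← hax]
          exact hxx
        have hVV : (inner ℝ (∑ j, c j • U j p) (∑ j, c j • U j p) : ℝ) = 1 := by
          rw [hU.orth.self_of_nhds.inner_sum]
          simpa [sq] using hc1'
        have hXV : (inner ℝ (∑ l, a l • Y l p) (∑ j, c j • U j p) : ℝ) = 0 := by
          rw [← hax, inner_sum]
          refine Finset.sum_eq_zero fun j _ => ?_
          rw [real_inner_smul_right, hx _ (hU.vert.self_of_nhds j), mul_zero]
        rw [LinearIndependent.pair_iff]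
        intro s t hst
        constructor
        · have h7 : (inner ℝ (∑ l, a l • Y l p)
              (s • (∑ l, a l • Y l p) + t • (∑ j, c j • U j p)) : ℝ) = 0 := by
            rw [hst, inner_zero_right]
          rw [inner_add_right, real_inner_smul_right, real_inner_smul_right, hXX, hXV] at h7
          linarith
        · have h7 : (inner ℝ (∑ j, c j • U j p)
              (s • (∑ l, a l • Y l p) + t • (∑ j, c j • U j p)) : ℝ) = 0 := by
            rw [hst, inner_zero_right]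
          rw [inner_add_right, real_inner_smul_right, real_inner_smul_right, hVV,
            real_inner_comm (∑ l, a l • Y l p) (∑ j, c j • U j p), hXV] at h7
          linarith
      linarith
    filter_upwards [h1.eventually (lt_mem_nhds h2)] with w hw
    have hw' : 0 < κ w.1 w.2 - (Φ w.1 - ν w.1 ^ 2) := hw
    linarith
  have hsc : ContinuousAt (fun z : M × (Fin (Module.finrank ℝ E') → ℝ) => ∑ l, z.2 l ^ 2)
      (p, a) := by fun_prop
  have hs0 : ∀ᶠ z : M × (Fin (Module.finrank ℝ E') → ℝ) in 𝓝 (p, a), 0 < ∑ l, z.2 l ^ 2 :=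
    hsc.eventually (lt_mem_nhds (by show 0 < ∑ l, a l ^ 2; rw [ha1]; exact one_pos))
  -- the distance to `Z`
  have hΨ : ∀ᶠ z : M × (Fin (Module.finrank ℝ E') → ℝ) in 𝓝 (p, a),
      1 - 2 * ((Real.sqrt (∑ l, z.2 l ^ 2))⁻¹ * ∑ l, z.2 l * inner ℝ (Y l z.1) (Z z.1)) +
        inner ℝ (Z z.1) (Z z.1) < ε ^ 2 := by
    have g1 : ContinuousAt (fun z : M × (Fin (Module.finrank ℝ E') → ℝ) =>
        (Real.sqrt (∑ l, z.2 l ^ 2))⁻¹) (p, a) := by
      refine ContinuousAt.inv₀ (Real.continuous_sqrt.continuousAt.comp hsc) ?_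
      show Real.sqrt (∑ l, a l ^ 2) ≠ 0
      rw [ha1, Real.sqrt_one]
      exact one_ne_zero
    have g2 : ContinuousAt (fun z : M × (Fin (Module.finrank ℝ E') → ℝ) =>
        ∑ l, z.2 l * (inner ℝ (Y l z.1) (Z z.1) : ℝ)) (p, a) := by
      refine tendsto_finsetSum _ fun l _ => ?_
      have h1 : ContinuousAt (fun q : M => (inner ℝ (Y l q) (Z q) : ℝ)) p :=
        ((hY l).sm.inner hZ).continuousAt
      have h2 : ContinuousAt (fun z : M × (Fin (Module.finrank ℝ E') → ℝ) =>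
          (inner ℝ (Y l z.1) (Z z.1) : ℝ)) (p, a) :=
        ContinuousAt.comp (f := Prod.fst) (x := (p, a)) h1 continuousAt_fst
      have h3 : ContinuousAt (fun z : M × (Fin (Module.finrank ℝ E') → ℝ) => z.2 l)
          (p, a) := by fun_prop
      exact h3.mul h2
    have g3 : ContinuousAt (fun z : M × (Fin (Module.finrank ℝ E') → ℝ) =>
        (inner ℝ (Z z.1) (Z z.1) : ℝ)) (p, a) := by
      have h1 : ContinuousAt (fun q : M => (inner ℝ (Z q) (Z q) : ℝ)) p :=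
        (hZ.inner hZ).continuousAt
      exact ContinuousAt.comp (f := Prod.fst) (x := (p, a)) h1 continuousAt_fst
    have g4 : ContinuousAt (fun z : M × (Fin (Module.finrank ℝ E') → ℝ) =>
        1 - 2 * ((Real.sqrt (∑ l, z.2 l ^ 2))⁻¹ * ∑ l, z.2 l * inner ℝ (Y l z.1) (Z z.1)) +
        (inner ℝ (Z z.1) (Z z.1) : ℝ)) (p, a) :=
      (continuousAt_const.sub (continuousAt_const.mul (g1.mul g2))).add g3
    refine g4.eventually (gt_mem_nhds ?_)
    show 1 - 2 * ((Real.sqrt (∑ l, a l ^ 2))⁻¹ * ∑ l, a l * inner ℝ (Y l p) (Z p)) +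
        inner ℝ (Z p) (Z p) < ε ^ 2
    have g5 : ∑ l, a l * (inner ℝ (Y l p) (Z p) : ℝ) = 1 := by
      rw [← hxx]
      nth_rewrite 2 [hax]
      rw [inner_sum]
      refine Finset.sum_congr rfl fun l _ => ?_
      rw [real_inner_smul_right, ← hxZ, real_inner_comm]
    rw [ha1, Real.sqrt_one, g5, ← hxZ, hxx]
    have := pow_pos hε0 2
    linarith
  have hgood : ∀ᶠ q in 𝓝 p, VFrame (E := E) (E' := E') f q U ∧ (∀ l, SmoothNear (Y l) q) ∧
      (∀ᶠ q' in 𝓝 q, ∀ l, Horiz (E' := E') f q' (Y l q')) ∧ Orthonormal ℝ (fun l => Y l q) := by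
    have h4 : ∀ᶠ q in 𝓝 p, ∀ l, SmoothNear (Y l) q := eventually_all.2 fun l => (hY l).sm.ev
    filter_upwards [hU.ev, h4, hYh.eventually_nhds, hYo] with q g1 g2 g3 g4
    exact ⟨g1, g2, g3, g4⟩
  have hgood' : ∀ᶠ z : M × (Fin (Module.finrank ℝ E') → ℝ) in 𝓝 (p, a),
      VFrame (E := E) (E' := E') f z.1 U ∧ (∀ l, SmoothNear (Y l) z.1) ∧
      (∀ᶠ q' in 𝓝 z.1, ∀ l, Horiz (E' := E') f q' (Y l q')) ∧
        Orthonormal ℝ (fun l => Y l z.1) :=
    (continuousAt_fst : ContinuousAt Prod.fst (p, a)).eventually hgood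
  have hN' : ∀ᶠ z : M × (Fin (Module.finrank ℝ E') → ℝ) in 𝓝 (p, a), z.1 ∈ N :=
    (continuousAt_fst : ContinuousAt Prod.fst (p, a)).eventually hN
  obtain ⟨O, hO, hOo, hpO⟩ := mem_nhds_iff.1 (hev1.and (hs0.and (hΨ.and (hN'.and hgood'))))
  obtain ⟨⟨q, b⟩, hz, hzmax⟩ := exists_max_nat O ⟨_, hpO⟩
    (fun z => (Matrix.of (TT cov η U z.1 (∑ l, z.2 l • Y l z.1))).rank)
    (Module.finrank ℝ E - Module.finrank ℝ E') (fun z _ => by
      have := Matrix.rank_le_card_width (Matrix.of (TT cov η U z.1 (∑ l, z.2 l • Y l z.1)))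
      rwa [Fintype.card_fin] at this)
  obtain ⟨hz1, hz2, hzΨ, hzN, hz3, hz4, hz5, hz6⟩ := hO hz
  obtain ⟨s, hs⟩ : ∃ s : ℝ, s = Real.sqrt (∑ l, b l ^ 2) := ⟨_, rfl⟩
  have hz2' : 0 < ∑ l, b l ^ 2 := hz2
  have hspos : 0 < s := by
    rw [hs]
    exact Real.sqrt_pos.2 hz2'
  have hssq : s ^ 2 = ∑ l, b l ^ 2 := by
    rw [hs, Real.sq_sqrt hz2'.le]
  have hb1 : ∑ l, (s⁻¹ • b) l ^ 2 = 1 := by
    simp only [Pi.smul_apply, smul_eq_mul, mul_pow]
    rw [← Finset.mul_sum, ← hssq, inv_pow, inv_mul_cancel₀ (pow_ne_zero 2 hspos.ne')]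
  have hback : s • (s⁻¹ • b) = b := by rw [smul_smul, mul_inv_cancel₀ hspos.ne', one_smul]
  have hscale : ∀ (q : M) (b : Fin (Module.finrank ℝ E') → ℝ),
      (Matrix.of (TT cov η U q (∑ l, (s • b) l • Y l q))).rank =
        (Matrix.of (TT cov η U q (∑ l, b l • Y l q))).rank := by
    intro q b
    rw [← rank_smul (Matrix.of (TT cov η U q (∑ l, b l • Y l q))) hspos.ne']
    congr 1
    ext i j
    show TT cov η U q (∑ l, (s • b) l • Y l q) i j = s * TT cov η U q (∑ l, b l • Y l q) i j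
    rw [← TT_smul, Finset.smul_sum]
    congr 1
    refine Finset.sum_congr rfl fun l _ => ?_
    rw [Pi.smul_apply, smul_eq_mul, mul_smul]
  have hmax : ∀ᶠ z : M × (Fin (Module.finrank ℝ E') → ℝ) in 𝓝 (q, s⁻¹ • b),
      (Matrix.of (TT cov η U z.1 (∑ l, z.2 l • Y l z.1))).rank ≤
        (Matrix.of (TT cov η U q (∑ l, (s⁻¹ • b) l • Y l q))).rank := by
    have hc3 : ContinuousAt (fun z : M × (Fin (Module.finrank ℝ E') → ℝ) => (z.1, s • z.2))
        (q, s⁻¹ • b) := by fun_prop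
    have hO' : O ∈ 𝓝 ((q, s • (s⁻¹ • b)) : M × (Fin (Module.finrank ℝ E') → ℝ)) := by
      rw [hback]
      exact hOo.mem_nhds hz
    filter_upwards [hc3.eventually hO'] with z hzO
    have h8 := hzmax _ hzO
    have h9 : (Matrix.of (TT cov η U z.1 (∑ l, (s • z.2) l • Y l z.1))).rank ≤
      (Matrix.of (TT cov η U q (∑ l, b l • Y l q))).rank := h8
    rw [hscale] at h9
    rw [← hscale q (s⁻¹ • b), hback]
    exact h9
  have hyh : Horiz (E' := E') f q (∑ l, (s⁻¹ • b) l • Y l q) := horiz_sum hz5.self_of_nhds _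
  have hyy' : (inner ℝ (∑ l, (s⁻¹ • b) l • Y l q) (∑ l, (s⁻¹ • b) l • Y l q) : ℝ) = 1 := by
    rw [hz6.inner_sum]
    simpa [sq] using hb1
  have hyy : ‖∑ l, (s⁻¹ • b) l • Y l q‖ = 1 := by
    have hXX := hyy'
    rw [real_inner_self_eq_norm_sq] at hXX
    have h7 : 0 ≤ ‖∑ l, (s⁻¹ • b) l • Y l q‖ := norm_nonneg _
    nlinarith
  have hdist : ‖∑ l, (s⁻¹ • b) l • Y l q - Z q‖ < ε := by
    have h1 : ‖∑ l, (s⁻¹ • b) l • Y l q - Z q‖ ^ 2 < ε ^ 2 := by
      rw [← real_inner_self_eq_norm_sq, inner_sub_left, inner_sub_right, inner_sub_right, hyy',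
        real_inner_comm (∑ l, (s⁻¹ • b) l • Y l q) (Z q)]
      have h2 : (inner ℝ (∑ l, (s⁻¹ • b) l • Y l q) (Z q) : ℝ) =
          s⁻¹ * ∑ l, b l * inner ℝ (Y l q) (Z q) := by
        rw [sum_inner, Finset.mul_sum]
        refine Finset.sum_congr rfl fun l _ => ?_
        rw [real_inner_smul_left, Pi.smul_apply, smul_eq_mul, mul_assoc]
      rw [h2, hs]
      have h3 : 1 - 2 * ((Real.sqrt (∑ l, b l ^ 2))⁻¹ * ∑ l, b l * inner ℝ (Y l q) (Z q)) +
        inner ℝ (Z q) (Z q) < ε ^ 2 := hzΨ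
      linarith
    exact lt_of_pow_lt_pow_left₀ 2 hε0.le h1
  refine ⟨q, hzN, ∑ l, (s⁻¹ • b) l • Y l q, U, hyh, hyy, hdist, hz3, fun c hc1 hcK hcA => ?_⟩
  have hcurv := star hf hc (hη q) hz3 hz4 hz5 hz6 hmax hc1 hcK hcA
  rw [← hκ q (s⁻¹ • b) c hz4 hz3.sm, ← hΦ, ← hν] at hcurv
  have hlt : Φ (q, b) - ν (q, b) ^ 2 < κ (q, b) c := hz1 c hc1
  have k1 : Φ (q, s⁻¹ • b) = (s⁻¹) ^ 2 * Φ (q, b) := by
    rw [hΦdef]
    show ∑ l, ∑ m, (s⁻¹ • b) l * (s⁻¹ • b) m * inner ℝ (cov η q (Y l q)) (Y m q) =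
      (s⁻¹) ^ 2 * ∑ l, ∑ m, b l * b m * inner ℝ (cov η q (Y l q)) (Y m q)
    rw [Finset.mul_sum]
    refine Finset.sum_congr rfl fun l _ => ?_
    rw [Finset.mul_sum]
    refine Finset.sum_congr rfl fun m _ => ?_
    rw [Pi.smul_apply, Pi.smul_apply, smul_eq_mul, smul_eq_mul]
    ring
  have k2 : ν (q, s⁻¹ • b) = s⁻¹ * ν (q, b) := by
    rw [hνdef]
    show ∑ l, (s⁻¹ • b) l * inner ℝ (η q) (Y l q) = s⁻¹ * ∑ l, b l * inner ℝ (η q) (Y l q)
    rw [Finset.mul_sum]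
    refine Finset.sum_congr rfl fun l _ => ?_
    rw [Pi.smul_apply, smul_eq_mul]
    ring
  have k3 : κ (q, s⁻¹ • b) c = (s⁻¹) ^ 2 * κ (q, b) c := by
    rw [hκdef]
    show ∑ l, ∑ l', ∑ j, ∑ j', ((s⁻¹ • b) l * (s⁻¹ • b) l') * (c j * c j') *
        inner ℝ (curv cov (Y l) (U j) (U j') q) (Y l' q) = (s⁻¹) ^ 2 *
        ∑ l, ∑ l', ∑ j, ∑ j', (b l * b l') * (c j * c j') *
        inner ℝ (curv cov (Y l) (U j) (U j') q) (Y l' q)
    rw [Finset.mul_sum]
    refine Finset.sum_congr rfl fun l _ => ?_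
    rw [Finset.mul_sum]
    refine Finset.sum_congr rfl fun l' _ => ?_
    rw [Finset.mul_sum]
    refine Finset.sum_congr rfl fun j _ => ?_
    rw [Finset.mul_sum]
    refine Finset.sum_congr rfl fun j' _ => ?_
    rw [Pi.smul_apply, Pi.smul_apply, smul_eq_mul, smul_eq_mul]
    ring
  rw [k1, k2, k3] at hcurv
  have hsp : 0 < (s⁻¹) ^ 2 := by positivity
  have h9 := mul_lt_mul_of_pos_left hlt hsp
  rw [mul_sub, hcurv, mul_pow] at h9
  exact lt_irrefl _ h9

/-- coordinates of a vector of the kernel -/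
theorem ker_coord (hf : IsRiemSub (E := E) (E' := E') f) (hc : IsLeviCivita cov)
    {η : Π x : M, TangentSpace 𝓘(ℝ, E) x}
    {U : Fin (Module.finrank ℝ E - Module.finrank ℝ E') → Π x : M, TangentSpace 𝓘(ℝ, E) x}
    (hU : VFrame (E := E) (E' := E') f p U) {y : TangentSpace 𝓘(ℝ, E) p}
    (hy : Horiz (E' := E') f p y) {W : Submodule ℝ (TangentSpace 𝓘(ℝ, E) p)}
    (hW : EigSp (E := E) (E' := E') cov f p y (inner ℝ (η p) y) W) {w : TangentSpace 𝓘(ℝ, E) p} (hw : w ∈ W) :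
    (Matrix.of (TT cov η U p y)).mulVec (fun i => (inner ℝ (U i p) w : ℝ)) = 0 ∧
      ∑ i, (inner ℝ (U i p) w : ℝ) • U i p = w := by
  obtain ⟨c, hcdef⟩ : ∃ c : Fin (Module.finrank ℝ E - Module.finrank ℝ E') → ℝ,
    c = fun i => (inner ℝ (U i p) w : ℝ) := ⟨_, rfl⟩
  have hsum : ∑ i, c i • U i p = w := by
    rw [hcdef]
    exact vert_sum (hf.submersion p) hU.orth.self_of_nhds hU.vert.self_of_nhds (hW.1 w hw)
  refine ⟨?_, by rw [hcdef] at hsum; exact hsum⟩
  rw [← hcdef]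
  funext i
  show ∑ j, TT cov η U p y i j * c j = 0
  obtain ⟨V, hVdef⟩ : ∃ V : Π x : M, TangentSpace 𝓘(ℝ, E) x,
    V = fun q => ∑ j, c j • U j q := ⟨_, rfl⟩
  have hV : SmoothNear V p := by
    rw [hVdef]
    exact SmoothNear.sum Finset.univ (X := fun l q => c l • U l q)
      (fun l _ => SmoothNear.smul (SmFn.const (c l) p) (hU.sm l))
  have hVv : ∀ᶠ q in 𝓝 p, mfderiv 𝓘(ℝ, E) 𝓘(ℝ, E') f q (V q) = 0 := by
    filter_upwards [hU.vert] with q hq
    rw [hVdef]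
    show mfderiv 𝓘(ℝ, E) 𝓘(ℝ, E') f q (∑ j, c j • U j q) = 0
    rw [map_sum]
    refine Finset.sum_eq_zero fun l _ => ?_
    rw [map_smul, hq l, smul_zero]
  have hVp : V p = w := by
    rw [hVdef]
    exact hsum
  have h1 := hW.2 V (U i) hV (hU.sm i) hVv (hU.vert.mono fun q hq => hq i) (by rw [hVp]; exact hw)
  have h2 : (inner ℝ (cov (U i) p (V p)) y : ℝ) =
      ∑ j, (inner ℝ (cov (U i) p (U j p)) y : ℝ) * c j := by
    rw [hVdef]
    show (inner ℝ (cov (U i) p (∑ j, c j • U j p)) y : ℝ) = _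
    rw [map_sum, sum_inner]
    refine Finset.sum_congr rfl fun j _ => ?_
    rw [map_smul, real_inner_smul_left, mul_comm]
  have h3 : (inner ℝ (V p) (U i p) : ℝ) = c i := by
    rw [hVp, real_inner_comm, hcdef]
  have h4 : ∀ j, TT cov η U p y i j * c j =
      (inner ℝ (cov (U i) p (U j p)) y : ℝ) * c j -
        (if i = j then (c j * inner ℝ (η p) y) else 0) := by
    intro j
    rw [TT_symm hf hc hU hy i j]
    unfold TT
    by_cases hij : i = j
    · rw [if_pos hij.symm, if_pos hij]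
      ring
    · rw [if_neg (Ne.symm hij), if_neg hij]
      ring
  rw [Finset.sum_congr rfl fun j _ => h4 j, Finset.sum_sub_distrib,
    Finset.sum_ite_eq Finset.univ i, if_pos (Finset.mem_univ i), ← h2, h1, h3]
  ring

/-- no unit vector in the joint kernel -/
theorem generic_of (hf : IsRiemSub (E := E) (E' := E') f) (hc : IsLeviCivita cov)
    {η : Π x : M, TangentSpace 𝓘(ℝ, E) x}
    {U : Fin (Module.finrank ℝ E - Module.finrank ℝ E') → Π x : M, TangentSpace 𝓘(ℝ, E) x}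
    (hU : VFrame (E := E) (E' := E') f p U) {y : TangentSpace 𝓘(ℝ, E) p}
    (hy : Horiz (E' := E') f p y) (hy1 : ‖y‖ = 1)
    (h : ∀ c : Fin (Module.finrank ℝ E - Module.finrank ℝ E') → ℝ, ∑ j, c j ^ 2 = 1 →
        (Matrix.of (TT cov η U p y)).mulVec c = 0 →
        mfderiv 𝓘(ℝ, E) 𝓘(ℝ, E') f p (∑ j, c j • cov (U j) p y) = 0 → False) :
    Generic (E := E) (E' := E') cov f p y (inner ℝ (η p) y) := by
  constructor
  · intro W hW
    by_contra hcon
    rw [not_lt] at hcon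
    let φ : W →ₗ[ℝ] (Fin (Module.finrank ℝ E - Module.finrank ℝ E') → ℝ) :=
      LinearMap.pi fun i => (innerₛₗ ℝ (U i p)).comp W.subtype
    have hφ : ∀ w : W, φ w = fun i => (inner ℝ (U i p) (w : TangentSpace 𝓘(ℝ, E) p) : ℝ) :=
      fun w => rfl
    have hinj : Function.Injective φ := by
      intro w w' hww
      apply Subtype.ext
      rw [← (ker_coord hf hc hU hy hW w.2).2, ← (ker_coord hf hc hU hy hW w'.2).2]
      rw [hφ, hφ] at hww
      exact Finset.sum_congr rfl fun i _ => by rw [congrFun hww i]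
    have hK : Module.finrank ℝ E' ≤ Module.finrank ℝ (LinearMap.range φ) := by
      rw [LinearMap.finrank_range_of_inj hinj]
      exact hcon
    obtain ⟨c, ⟨w, hw⟩, hc1, hc2⟩ := exists_c hf hc hU hy hy1 (LinearMap.range φ) hK
    refine h c hc1 ?_ hc2
    rw [← hw, hφ]
    exact (ker_coord hf hc hU hy hW w.2).1
  · intro V hV hVv hA hS
    by_contra hne
    have hVp : mfderiv 𝓘(ℝ, E) 𝓘(ℝ, E') f p (V p) = 0 := hVv.self_of_nhds
    obtain ⟨c, hcdef⟩ : ∃ c : Fin (Module.finrank ℝ E - Module.finrank ℝ E') → ℝ,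
      c = fun i => (inner ℝ (U i p) (V p) : ℝ) := ⟨_, rfl⟩
    obtain ⟨hk1, hk2⟩ := ker_coord hf hc hU hy hS (Submodule.mem_span_singleton_self (V p))
    rw [← hcdef] at hk1
    have hk3 : ∑ i, c i • U i p = V p := by
      rw [hcdef]
      exact hk2
    have hs : 0 < ∑ j, c j ^ 2 := by
      have hs0 : 0 ≤ ∑ j, c j ^ 2 := Finset.sum_nonneg fun j _ => sq_nonneg _
      refine lt_of_le_of_ne hs0 fun h => hne ?_
      rw [← hk3]
      refine Finset.sum_eq_zero fun j _ => ?_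
      have := (Finset.sum_eq_zero_iff_of_nonneg fun j _ => sq_nonneg (c j)).mp h.symm j
        (Finset.mem_univ j)
      rw [pow_eq_zero_iff two_ne_zero |>.mp this, zero_smul]
    -- `∇_y V` and `∑ c j ∇_y (U j)` have the same horizontal part
    have hcov : mfderiv 𝓘(ℝ, E) 𝓘(ℝ, E') f p (∑ j, c j • cov (U j) p y) = 0 := by
      obtain ⟨zh, zv, hzh, hzv, hz⟩ := exists_decomp (E := E) (E' := E') (hf.submersion p)
        (∑ j, c j • cov (U j) p y)
      have hzz : (inner ℝ zh zh : ℝ) = 0 := by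
        have e1 : (inner ℝ (∑ j, c j • cov (U j) p y) zh : ℝ) = inner ℝ zh zh := by
          rw [hz, inner_add_left, real_inner_comm zh zv, hzh _ hzv, add_zero]
        rw [← e1]
        obtain ⟨Z, Z', hZ, hZp⟩ := exists_horiz_ext hf hzh
        have e2 : (inner ℝ (∑ j, c j • cov (U j) p y) zh : ℝ) = - inner ℝ (V p) (cov Z p y) := by
          rw [← hk3, sum_inner, sum_inner, ← Finset.sum_neg_distrib]
          refine Finset.sum_congr rfl fun j _ => ?_
          rw [real_inner_smul_left, real_inner_smul_left, ← hZp,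
            inner_cov_vert (E' := E') (f := f) hc (hU.sm j) hZ.sm
              (hU.vert.mono fun q hq => hq j) hZ.hor y]
          ring
        have e3 := inner_cov_vert (E' := E') (f := f) hc hV hZ.sm hVv hZ.hor y
        rw [e2, ← e3, hZp]
        exact hA zh hzh
      have hzh0 : zh = 0 := by
        rw [real_inner_self_eq_norm_sq] at hzz
        exact norm_eq_zero.1 (pow_eq_zero_iff two_ne_zero |>.mp hzz)
      rw [hz, hzh0, zero_add]
      exact hzv
    refine h ((Real.sqrt (∑ j, c j ^ 2))⁻¹ • c) ?_ ?_ ?_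
    · simp only [Pi.smul_apply, smul_eq_mul, mul_pow]
      rw [← Finset.mul_sum, inv_pow, Real.sq_sqrt hs.le, inv_mul_cancel₀ hs.ne']
    · rw [Matrix.mulVec_smul, hk1, smul_zero]
    · have e4 : ∑ j, ((Real.sqrt (∑ j, c j ^ 2))⁻¹ • c) j • cov (U j) p y =
          (Real.sqrt (∑ j, c j ^ 2))⁻¹ • ∑ j, c j • cov (U j) p y := by
        rw [Finset.smul_sum]
        exact Finset.sum_congr rfl fun j _ => mul_smul _ _ _
      rw [e4, map_smul, hcov, smul_zero]

/-- Near every horizontal unit vector `x` with `⟨∇_x η, x⟩ ≤ ⟨η, x⟩²` there is a generic one. -/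
theorem generic_near (hf : IsRiemSub (E := E) (E' := E') f) (hc : IsLeviCivita cov)
    (hpos : SecPos cov) {η : Π x : M, TangentSpace 𝓘(ℝ, E) x} (hη : ∀ p, SmoothNear η p)
    {Z : Π x : M, TangentSpace 𝓘(ℝ, E) x} (hZ : SmoothNear Z p)
    (hx : Horiz (E' := E') f p (Z p)) (hx1 : ‖Z p‖ = 1)
    (hε : (inner ℝ (cov η p (Z p)) (Z p) : ℝ) ≤ (inner ℝ (η p) (Z p)) ^ 2)
    {N : Set M} (hN : N ∈ 𝓝 p) {ε : ℝ} (hε0 : 0 < ε) :
    ∃ q ∈ N, ∃ y : TangentSpace 𝓘(ℝ, E) q, Horiz (E' := E') f q y ∧ ‖y‖ = 1 ∧ ‖y - Z q‖ < ε ∧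
      Generic (E := E) (E' := E') cov f q y (inner ℝ (η q) y) := by
  obtain ⟨q, hq, y, U, hy, hy1, hyZ, hU, h⟩ := exists_star hf hc hpos hη hZ hx hx1 hε hN hε0
  exact ⟨q, hq, y, hy, hy1, hyZ, generic_of hf hc hU hy hy1 h⟩

/-- the case of a compact manifold -/
theorem generic_compact [CompactSpace M] [Nonempty M] (hf : IsRiemSub (E := E) (E' := E') f)
    (hc : IsLeviCivita cov) (hb : 0 < Module.finrank ℝ E') (hpos : SecPos cov)
    {η : Π x : M, TangentSpace 𝓘(ℝ, E) x} (hη : ∀ p, SmoothNear η p)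
    (hηh : ∀ p, Horiz (E' := E') f p (η p)) :
    ∃ (q : M) (y : TangentSpace 𝓘(ℝ, E) q), Horiz (E' := E') f q y ∧ ‖y‖ = 1 ∧
      Generic (E := E) (E' := E') cov f q y (inner ℝ (η q) y) := by
  obtain ⟨p, x, hx, hx1, -, h0⟩ := exists_critical hf hc hb hη hηh
  obtain ⟨Z, hZ, hZp⟩ := exists_smoothNear p x
  obtain ⟨q, -, y, hy, hy1, -, hg⟩ := generic_near hf hc hpos hη hZ (by rw [hZp]; exact hx)
    (by rw [hZp]; exact hx1) (by rw [hZp, h0]; exact sq_nonneg _) univ_mem one_pos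
  exact ⟨q, y, hy, hy1, hg⟩

theorem generic_zero (hf : IsRiemSub (E := E) (E' := E') f)
    (hc : IsLeviCivita cov) (hpos : SecPos cov) {Z : Π x : M, TangentSpace 𝓘(ℝ, E) x}
    (hZ : SmoothNear Z p) (hx : Horiz (E' := E') f p (Z p)) (hx1 : ‖Z p‖ = 1)
    {N : Set M} (hN : N ∈ 𝓝 p) {ε : ℝ} (hε0 : 0 < ε) :
    ∃ q ∈ N, ∃ y : TangentSpace 𝓘(ℝ, E) q, Horiz (E' := E') f q y ∧ ‖y‖ = 1 ∧ ‖y - Z q‖ < ε ∧
      Generic (E := E) (E' := E') cov f q y 0 := by
  have h0 : (inner ℝ (cov (fun x : M => (0 : TangentSpace 𝓘(ℝ, E) x)) p (Z p)) (Z p) : ℝ) ≤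
      (inner ℝ (0 : TangentSpace 𝓘(ℝ, E) p) (Z p)) ^ 2 := by
    have h1 : cov (fun x : M => (0 : TangentSpace 𝓘(ℝ, E) x)) p (Z p) = 0 := by
      rw [cov_zero cov]
      rfl
    rw [h1, inner_zero_left]
    exact sq_nonneg _
  obtain ⟨q, hq, y, hy, hy1, hyZ, hg⟩ :=
    generic_near hf hc hpos (fun p => SmoothNear.zero p) hZ hx hx1 h0 hN hε0
  rw [inner_zero_left] at hg
  exact ⟨q, hq, y, hy, hy1, hyZ, hg⟩

/-- the multiplicity of the eigenvalue `0` -/
theorem mult_zero [Nonempty M] (hf : IsRiemSub (E := E) (E' := E') f)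
    (hc : IsLeviCivita cov) (hb : 0 < Module.finrank ℝ E') (hpos : SecPos cov) {m : ℕ}
    (hm : MultGe (E := E) (E' := E') cov f (fun _ => 0) m) : m < Module.finrank ℝ E' := by
  obtain ⟨p⟩ := ‹Nonempty M›
  have : Nontrivial E' := Module.nontrivial_of_finrank_pos hb
  obtain ⟨y, hy⟩ := exists_ne (0 : E')
  obtain ⟨x, hx, hxy⟩ := exists_horiz_of (q := p) hf (y : TangentSpace 𝓘(ℝ, E') (f p))
  have hx0 : x ≠ 0 := by
    intro h
    rw [h, map_zero] at hxy
    exact hy hxy.symm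
  have hx1 : ‖(‖x‖⁻¹ : ℝ) • x‖ = 1 := by
    rw [norm_smul, norm_inv, norm_norm, inv_mul_cancel₀ (norm_ne_zero_iff.2 hx0)]
  obtain ⟨Z, hZ, hZp⟩ := exists_smoothNear p ((‖x‖⁻¹ : ℝ) • x)
  obtain ⟨q, -, y, hy, hy1, -, hg⟩ := generic_zero (f := f) hf hc hpos hZ
    (by rw [hZp]; exact horiz_smul _ hx) (by rw [hZp]; exact hx1) univ_mem one_pos
  obtain ⟨W, hW, hWr⟩ := hm q y hy hy1
  exact lt_of_le_of_lt hWr (hg.1 W hW)

end Pool.Agent.PW
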