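import Pool.Agent.Lib.MP_a61a4c_gt.RkD

/-!
The unit horizontal bundle: compactness, curves.
-/

set_option autoImplicit false

open Bundle Filter Function Topology
open scoped Manifold ContDiff Bundle

noncomputable section

namespace Pool.Agent.PW

variable {E : Type*} [NormedAddCommGroup E] [NormedSpace ℝ E] [FiniteDimensional ℝ E]
variable {M : Type*} [TopologicalSpace M] [ChartedSpace E M] [IsManifold 𝓘(ℝ, E) ∞ M]
variable {p : M}

/-- a curve through `p` with velocity `Z p` -/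
theorem exists_curve {Z : Π x : M, TangentSpace 𝓘(ℝ, E) x} (hZ : SmoothNear Z p) :
    ∃ γ : ℝ → M, γ 0 = p ∧ ContinuousAt γ 0 ∧ ∀ g : M → ℝ, SmFn E g p →
      HasDerivAt (fun t => g (γ t)) (mvfderiv 𝓘(ℝ, E) g p (Z p)) 0 := by
  have : CompleteSpace E := FiniteDimensional.complete ℝ E
  have hZ1 : ContMDiffAt 𝓘(ℝ, E) (𝓘(ℝ, E).prod 𝓘(ℝ, E)) 1
      (fun x => (⟨x, Z x⟩ : TangentBundle 𝓘(ℝ, E) M)) p :=
    (Eventually.self_of_nhds hZ).of_le (by norm_cast)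
  have : IsManifold 𝓘(ℝ, E) 1 M := IsManifold.of_le (n := ∞) (by norm_cast)
  obtain ⟨γ, h0, hγ⟩ := exists_isMIntegralCurveAt_of_contMDiffAt (I := 𝓘(ℝ, E)) (t₀ := 0) hZ1
    (BoundarylessManifold.isInteriorPoint)
  have h1 := hγ.hasMFDerivAt
  refine ⟨γ, h0, h1.continuousAt, fun g hg => ?_⟩
  subst h0
  have h2 := hg.mdiff.hasMFDerivAt.comp (0 : ℝ) h1
  rw [hasMFDerivAt_iff_hasFDerivAt] at h2
  obtain ⟨L, hL⟩ : ∃ L : E →L[ℝ] ℝ, L = mfderiv 𝓘(ℝ, E) 𝓘(ℝ, ℝ) g (γ 0) := ⟨_, rfl⟩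
  obtain ⟨z, hz⟩ : ∃ z : E, z = Z (γ 0) := ⟨_, rfl⟩
  have h3 : HasFDerivAt (fun t => g (γ t)) (L.comp ((1 : ℝ →L[ℝ] ℝ).smulRight z)) 0 := by
    rw [hL, hz]
    exact h2
  have h4 : (L.comp ((1 : ℝ →L[ℝ] ℝ).smulRight z)) 1 = mvfderiv 𝓘(ℝ, E) g (γ 0) (Z (γ 0)) := by
    have h5 : (L.comp ((1 : ℝ →L[ℝ] ℝ).smulRight z)) 1 = L z := by simp
    rw [h5, hL, hz]
    rfl
  rw [← h4]
  exact h3.hasDerivAt

omit [FiniteDimensional ℝ E] in
/-- joint continuity of linear combinations of vector fields -/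
theorem cont_comb {n : ℕ} {X : Fin n → Π x : M, TangentSpace 𝓘(ℝ, E) x}
    (hX : ∀ i, SmoothNear (X i) p) (a : Fin n → ℝ) :
    ContinuousAt (fun z : M × (Fin n → ℝ) =>
      (⟨z.1, ∑ i, z.2 i • X i z.1⟩ : TangentBundle 𝓘(ℝ, E) M)) (p, a) := by
  rw [FiberBundle.continuousAt_totalSpace]
  refine ⟨continuousAt_fst, ?_⟩
  have h1 : ∀ i, ContinuousAt (fun z : M × (Fin n → ℝ) =>
      ((trivializationAt E (TangentSpace 𝓘(ℝ, E)) p) ⟨z.1, X i z.1⟩).2) (p, a) := by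
    intro i
    have h2 := (Eventually.self_of_nhds (hX i)).continuousAt
    rw [FiberBundle.continuousAt_totalSpace] at h2
    exact ContinuousAt.comp (g := fun q : M =>
      ((trivializationAt E (TangentSpace 𝓘(ℝ, E)) p) ⟨q, X i q⟩).2) (f := Prod.fst)
      (x := (p, a)) h2.2 continuousAt_fst
  have h3 : ContinuousAt (fun z : M × (Fin n → ℝ) =>
      ∑ i, z.2 i • ((trivializationAt E (TangentSpace 𝓘(ℝ, E)) p) ⟨z.1, X i z.1⟩).2) (p, a) := by
    refine tendsto_finsetSum _ fun i _ => ?_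
    refine ContinuousAt.smul ?_ (h1 i)
    exact ((continuous_apply i).comp continuous_snd).continuousAt
  refine h3.congr ?_
  have h4 : ∀ᶠ z : M × (Fin n → ℝ) in 𝓝 (p, a),
      z.1 ∈ (trivializationAt E (TangentSpace 𝓘(ℝ, E)) p).baseSet :=
    (continuousAt_fst (p := (p, a))).eventually
      ((trivializationAt E (TangentSpace 𝓘(ℝ, E)) p).open_baseSet.mem_nhds
        (FiberBundle.mem_baseSet_trivializationAt' p))
  filter_upwards [h4] with z hz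
  have h5 := (trivializationAt E (TangentSpace 𝓘(ℝ, E)) p).linear ℝ hz
  have h6 := map_sum h5.mk' (fun i => z.2 i • X i z.1) Finset.univ
  simp only [map_smul, IsLinearMap.mk'_apply] at h6
  exact h6.symm

variable {E' : Type*} [NormedAddCommGroup E'] [NormedSpace ℝ E'] [FiniteDimensional ℝ E']
variable {B : Type*} [TopologicalSpace B] [ChartedSpace E' B] [IsManifold 𝓘(ℝ, E') ∞ B]
variable [RiemannianBundle (fun x : M => TangentSpace 𝓘(ℝ, E) x)]
  [IsContMDiffRiemannianBundle 𝓘(ℝ, E) ∞ E (fun x : M => TangentSpace 𝓘(ℝ, E) x)]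
variable [RiemannianBundle (fun x : B => TangentSpace 𝓘(ℝ, E') x)]
  [IsContMDiffRiemannianBundle 𝓘(ℝ, E') ∞ E' (fun x : B => TangentSpace 𝓘(ℝ, E') x)]

variable {f : M → B}

omit [FiniteDimensional ℝ E] [IsManifold 𝓘(ℝ, E) ∞ M]
  [IsContMDiffRiemannianBundle 𝓘(ℝ, E) ∞ E (fun x : M => TangentSpace 𝓘(ℝ, E) x)] in
theorem norm_comb {n : ℕ} {v : Fin n → TangentSpace 𝓘(ℝ, E) p} (hv : Orthonormal ℝ v)
    (a : Fin n → ℝ) : ‖∑ i, a i • v i‖ ^ 2 = ∑ i, a i ^ 2 := by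
  rw [← real_inner_self_eq_norm_sq, hv.inner_sum]
  simp [sq]

/-- a horizontal orthonormal frame whose first vector is given -/
theorem exists_hframe_of (hf : IsRiemSub (E := E) (E' := E') f) {x : TangentSpace 𝓘(ℝ, E) p}
    (hx : Horiz (E' := E') f p x) (hx1 : ‖x‖ = 1) :
    ∃ (X : Fin (Module.finrank ℝ E') → Π x : M, TangentSpace 𝓘(ℝ, E) x)
      (a : Fin (Module.finrank ℝ E') → ℝ),
      (∀ i, SmoothNear (X i) p) ∧ (∀ᶠ q in 𝓝 p, ∀ i, Horiz (E' := E') f q (X i q)) ∧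
      (∀ᶠ q in 𝓝 p, Orthonormal ℝ (fun i => X i q)) ∧ ∑ i, a i • X i p = x ∧
      ∑ i, a i ^ 2 = 1 := by
  have : FiniteDimensional ℝ (TangentSpace 𝓘(ℝ, E') (f p)) :=
    inferInstanceAs (FiniteDimensional ℝ E')
  obtain ⟨X, X', hXl, hXo, -, -⟩ := exists_hframe (E := E) (E' := E') hf p
    (stdOrthonormalBasis ℝ (TangentSpace 𝓘(ℝ, E') (f p)))
    (stdOrthonormalBasis ℝ (TangentSpace 𝓘(ℝ, E') (f p))).orthonormal
  obtain ⟨U, hU⟩ := exists_vframe (E := E) (E' := E') hf p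
  have hhor : ∀ i, Horiz (E' := E') f p (X i p) := fun i => (hXl i).hor.self_of_nhds
  have hs := sum_split hf hU.orth.self_of_nhds hU.vert.self_of_nhds hXo.self_of_nhds hhor x
  have h0 : ∑ j, (inner ℝ x (U j p) : ℝ) • U j p = 0 :=
    Finset.sum_eq_zero fun j _ => by rw [hx _ (hU.vert.self_of_nhds j), zero_smul]
  rw [h0, zero_add] at hs
  refine ⟨X, fun i => inner ℝ x (X i p), fun i => (hXl i).sm,
    eventually_all.2 fun i => (hXl i).hor, hXo, hs.symm, ?_⟩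
  rw [← norm_comb hXo.self_of_nhds, ← hs, hx1]
  norm_num

theorem isCompact_hunit_local (hf : IsRiemSub (E := E) (E' := E') f) (p : M) :
    ∃ K ∈ 𝓝 p, IsCompact {z : TangentBundle 𝓘(ℝ, E) M | z.1 ∈ K ∧
      z ∈ HUnit (E := E) (E' := E') f} := by
  have : FiniteDimensional ℝ (TangentSpace 𝓘(ℝ, E') (f p)) :=
    inferInstanceAs (FiniteDimensional ℝ E')
  have : LocallyCompactSpace M := ChartedSpace.locallyCompactSpace E M
  obtain ⟨X, X', hXl, hXo, -, -⟩ := exists_hframe (E := E) (E' := E') hf p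
    (stdOrthonormalBasis ℝ (TangentSpace 𝓘(ℝ, E') (f p)))
    (stdOrthonormalBasis ℝ (TangentSpace 𝓘(ℝ, E') (f p))).orthonormal
  have hgood : {q : M | (∀ i, SmoothNear (X i) q) ∧ (∀ i, Horiz (E' := E') f q (X i q)) ∧
      Orthonormal ℝ (fun i => X i q)} ∈ 𝓝 p := by
    have h1 : ∀ᶠ q in 𝓝 p, ∀ i, SmoothNear (X i) q := eventually_all.2 fun i => (hXl i).sm.ev
    have h2 : ∀ᶠ q in 𝓝 p, ∀ i, Horiz (E' := E') f q (X i q) :=
      eventually_all.2 fun i => (hXl i).hor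
    filter_upwards [h1, h2, hXo] with q a b c
    exact ⟨a, b, c⟩
  obtain ⟨K, ⟨hK, hKc⟩, hKs⟩ := (compact_basis_nhds p).mem_iff.1 hgood
  refine ⟨K, hK, ?_⟩
  have himg := (hKc.prod (compact_sphere (Module.finrank ℝ E'))).image_of_continuousOn
    (f := fun z : M × (Fin (Module.finrank ℝ E') → ℝ) =>
      (⟨z.1, ∑ i, z.2 i • X i z.1⟩ : TangentBundle 𝓘(ℝ, E) M))
    (fun z hz => (cont_comb (hKs hz.1).1 z.2).continuousWithinAt)
  convert himg using 1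
  ext ⟨q, y⟩
  constructor
  · rintro ⟨hq, hy, hy1⟩
    obtain ⟨-, hb, hc⟩ := hKs hq
    obtain ⟨U, hU⟩ := exists_vframe (E := E) (E' := E') hf q
    have hs := sum_split hf hU.orth.self_of_nhds hU.vert.self_of_nhds hc hb y
    have h0 : ∑ j, (inner ℝ y (U j q) : ℝ) • U j q = 0 :=
      Finset.sum_eq_zero fun j _ => by rw [hy _ (hU.vert.self_of_nhds j), zero_smul]
    rw [h0, zero_add] at hs
    refine ⟨(q, fun i => inner ℝ y (X i q)), ⟨hq, ?_⟩, ?_⟩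
    · show ∑ i, (inner ℝ y (X i q) : ℝ) ^ 2 = 1
      rw [← norm_comb hc, ← hs]
      have h1 : ‖y‖ = 1 := hy1
      rw [h1]
      norm_num
    · show (⟨q, ∑ i, (inner ℝ y (X i q) : ℝ) • X i q⟩ : TangentBundle 𝓘(ℝ, E) M) = ⟨q, y⟩
      rw [← hs]
  · rintro ⟨⟨q', a⟩, ⟨hq, ha⟩, hqa⟩
    obtain ⟨-, hb, hc⟩ := hKs hq
    have ha' : ∑ j, a j ^ 2 = 1 := ha
    rw [← hqa]
    refine ⟨hq, horiz_sum hb a, ?_⟩
    show ‖∑ i, a i • X i q'‖ = 1
    have h1 := norm_comb hc a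
    rw [ha'] at h1
    exact (pow_eq_one_iff_of_nonneg (norm_nonneg _) two_ne_zero).1 h1

theorem isCompact_hunit [CompactSpace M] (hf : IsRiemSub (E := E) (E' := E') f) :
    IsCompact (HUnit (E := E) (E' := E') f) := by
  choose K hK hKc using isCompact_hunit_local (E := E) (E' := E') hf
  obtain ⟨s, hs⟩ := CompactSpace.elim_nhds_subcover K hK
  have h1 : HUnit (E := E) (E' := E') f = ⋃ p ∈ s, {z : TangentBundle 𝓘(ℝ, E) M | z.1 ∈ K p ∧
      z ∈ HUnit (E := E) (E' := E') f} := by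
    ext z
    simp only [Set.mem_iUnion, Set.mem_ofPred_eq, exists_prop]
    constructor
    · intro hz
      have : z.1 ∈ (⋃ p ∈ s, K p) := by
        rw [hs]
        exact Set.mem_univ _
      simp only [Set.mem_iUnion, exists_prop] at this
      obtain ⟨p, hp, hzp⟩ := this
      exact ⟨p, hp, hzp, hz⟩
    · rintro ⟨p, -, -, hz⟩
      exact hz
  rw [h1]
  exact s.isCompact_biUnion fun p _ => hKc p

end Pool.Agent.PW
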