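import Pool.Agent.Lib.MP_a61a4c_gt.RkH

/-!
The derivative of the shape operator along a horizontal curve.
-/

set_option autoImplicit false

open Bundle Filter Function Topology
open scoped Manifold ContDiff Bundle

noncomputable section

namespace Pool.Agent.PW

variable {E : Type*} [NormedAddCommGroup E] [NormedSpace ℝ E] [FiniteDimensional ℝ E]
variable {M : Type*} [TopologicalSpace M] [ChartedSpace E M] [IsManifold 𝓘(ℝ, E) ∞ M]
variable {E' : Type*} [NormedAddCommGroup E'] [NormedSpace ℝ E'] [FiniteDimensional ℝ E']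
variable {B : Type*} [TopologicalSpace B] [ChartedSpace E' B] [IsManifold 𝓘(ℝ, E') ∞ B]
variable [RiemannianBundle (fun x : M => TangentSpace 𝓘(ℝ, E) x)]
  [IsContMDiffRiemannianBundle 𝓘(ℝ, E) ∞ E (fun x : M => TangentSpace 𝓘(ℝ, E) x)]
variable [RiemannianBundle (fun x : B => TangentSpace 𝓘(ℝ, E') x)]
  [IsContMDiffRiemannianBundle 𝓘(ℝ, E') ∞ E' (fun x : B => TangentSpace 𝓘(ℝ, E') x)]

variable {f : M → B} {p : M}
  {cov : CovariantDerivative 𝓘(ℝ, E) E (TangentSpace 𝓘(ℝ, E) : M → Type _)}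

omit [FiniteDimensional ℝ E] in
theorem deriv_inner (hc : IsLeviCivita cov) {n : ℕ} {X : Fin n → Π x : M, TangentSpace 𝓘(ℝ, E) x}
    (hX : ∀ l, SmoothNear (X l) p) (a b : Fin n → ℝ) {γ : ℝ → M} (h0 : γ 0 = p)
    (hγ : ∀ g : M → ℝ, SmFn E g p → HasDerivAt (fun t => g (γ t))
      (mvfderiv 𝓘(ℝ, E) g p (∑ l, a l • X l p)) 0)
    (hb : ∑ l, b l • X l p = cov (fun q => ∑ l, a l • X l q) p (∑ l, a l • X l p))
    {ξ : Π x : M, TangentSpace 𝓘(ℝ, E) x} (hξ : SmoothNear ξ p) :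
    HasDerivAt (fun t => (inner ℝ (ξ (γ t)) (∑ l, (a l - t * b l) • X l (γ t)) : ℝ))
      (inner ℝ (cov ξ p (∑ l, a l • X l p)) (∑ l, a l • X l p)) 0 := by
  obtain ⟨x, hxdef⟩ : ∃ x : TangentSpace 𝓘(ℝ, E) p, x = ∑ l, a l • X l p := ⟨_, rfl⟩
  rw [← hxdef] at hγ hb ⊢
  have h1 : ∀ l, HasDerivAt (fun t => (inner ℝ (ξ (γ t)) (X l (γ t)) : ℝ))
      (inner ℝ (cov ξ p x) (X l p) + inner ℝ (ξ p) (cov (X l) p x)) 0 := by
    intro l
    have h2 := hγ _ (hξ.inner (hX l))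
    rw [hc.metric x hξ.mdiff (hX l).mdiff] at h2
    exact h2
  have h3 : ∀ l, HasDerivAt (fun t => (a l - t * b l) * (inner ℝ (ξ (γ t)) (X l (γ t)) : ℝ))
      (-(b l) * inner ℝ (ξ p) (X l p) +
        a l * (inner ℝ (cov ξ p x) (X l p) + inner ℝ (ξ p) (cov (X l) p x))) 0 := by
    intro l
    have h4 : HasDerivAt (fun t : ℝ => a l - t * b l) (-(b l)) 0 := by
      have h5 := (hasDerivAt_const (0 : ℝ) (a l)).sub ((hasDerivAt_id (0 : ℝ)).mul_const (b l))
      rw [zero_sub, one_mul] at h5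
      exact h5
    have h6 := h4.mul (h1 l)
    have h7 : (inner ℝ (ξ (γ 0)) (X l (γ 0)) : ℝ) = inner ℝ (ξ p) (X l p) := by
      rw [h0]
    rw [h7, zero_mul, sub_zero] at h6
    exact h6
  have h8 : HasDerivAt (fun t => ∑ l, (a l - t * b l) * (inner ℝ (ξ (γ t)) (X l (γ t)) : ℝ))
      (∑ l, (-(b l) * inner ℝ (ξ p) (X l p) +
        a l * (inner ℝ (cov ξ p x) (X l p) + inner ℝ (ξ p) (cov (X l) p x)))) 0 :=
    HasDerivAt.fun_sum fun l _ => h3 l
  have h9 : (fun t => (inner ℝ (ξ (γ t)) (∑ l, (a l - t * b l) • X l (γ t)) : ℝ)) =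
      fun t => ∑ l, (a l - t * b l) * (inner ℝ (ξ (γ t)) (X l (γ t)) : ℝ) := by
    funext t
    rw [inner_sum]
    exact Finset.sum_congr rfl fun l _ => real_inner_smul_right _ _ _
  have h10 : (inner ℝ (cov ξ p x) x : ℝ) = ∑ l, (-(b l) * inner ℝ (ξ p) (X l p) +
        a l * (inner ℝ (cov ξ p x) (X l p) + inner ℝ (ξ p) (cov (X l) p x))) := by
    have e1 : (inner ℝ (cov ξ p x) x : ℝ) = ∑ l, a l * inner ℝ (cov ξ p x) (X l p) := by
      conv_lhs => rw [hxdef]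
      rw [inner_sum]
      refine Finset.sum_congr rfl fun l _ => ?_
      rw [real_inner_smul_right, ← hxdef]
    have e2 : ∑ l, b l * (inner ℝ (ξ p) (X l p) : ℝ) =
        ∑ l, a l * (inner ℝ (ξ p) (cov (X l) p x) : ℝ) := by
      have e3 : (inner ℝ (ξ p) (∑ l, b l • X l p) : ℝ) =
          inner ℝ (ξ p) (∑ l, a l • cov (X l) p x) := by
        rw [hb, Rk_cov_comb hX]
      rw [inner_sum, inner_sum] at e3
      rw [← Finset.sum_congr rfl fun l _ => real_inner_smul_right (ξ p) (X l p) (b l), e3]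
      exact Finset.sum_congr rfl fun l _ => real_inner_smul_right _ _ _
    rw [e1]
    have e4 : ∀ l, (-(b l) * inner ℝ (ξ p) (X l p) +
        a l * (inner ℝ (cov ξ p x) (X l p) + inner ℝ (ξ p) (cov (X l) p x)) : ℝ) =
        a l * inner ℝ (cov ξ p x) (X l p) + (a l * (inner ℝ (ξ p) (cov (X l) p x) : ℝ) -
          b l * (inner ℝ (ξ p) (X l p) : ℝ)) := fun l => by ring
    rw [Finset.sum_congr rfl fun l _ => e4 l, Finset.sum_add_distrib, Finset.sum_sub_distrib, e2,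
      sub_self, add_zero]
  rw [h9, h10]
  exact h8

/-- the derivative of the shape operator -/
theorem deriv_SS (hc : IsLeviCivita cov) {n : ℕ} {X : Fin n → Π x : M, TangentSpace 𝓘(ℝ, E) x}
    (hX : ∀ l, SmoothNear (X l) p) (a b : Fin n → ℝ) {γ : ℝ → M} (h0 : γ 0 = p)
    (hγc : ContinuousAt γ 0)
    (hγ : ∀ g : M → ℝ, SmFn E g p → HasDerivAt (fun t => g (γ t))
      (mvfderiv 𝓘(ℝ, E) g p (∑ l, a l • X l p)) 0)
    (hb : ∑ l, b l • X l p = cov (fun q => ∑ l, a l • X l q) p (∑ l, a l • X l p))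
    {k : ℕ} {U : Fin k → Π x : M, TangentSpace 𝓘(ℝ, E) x} (hU : ∀ j, SmoothNear (U j) p) :
    ∃ D : Fin k → Fin k → ℝ,
      (∀ i j, HasDerivAt (fun t => SS cov U (γ t) (∑ l, (a l - t * b l) • X l (γ t)) i j)
        (D i j) 0) ∧
      ∀ c : Fin k → ℝ, ∑ j, c j ^ 2 = 1 → ∑ i, ∑ j, c i * (D i j * c j) =
        inner ℝ (cov (fun q => cov (fun q => ∑ j, c j • U j q) q (∑ j, c j • U j q)) p
          (∑ l, a l • X l p)) (∑ l, a l • X l p) := by
  refine ⟨fun i j => inner ℝ (cov (fun q => cov (U j) q (U i q)) p (∑ l, a l • X l p))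
    (∑ l, a l • X l p), fun i j => deriv_inner hc hX a b h0 hγ hb (smoothNear_cov hc (hU i) (hU j)),
    fun c hc1 => ?_⟩
  have hV : SmoothNear (fun q => ∑ j, c j • U j q) p := smooth_comb hU c
  have h1 := deriv_inner hc hX a b h0 hγ hb (smoothNear_cov hc hV hV)
  have h2 : HasDerivAt (fun t => ∑ i, ∑ j, c i *
      (SS cov U (γ t) (∑ l, (a l - t * b l) • X l (γ t)) i j * c j))
      (∑ i, ∑ j, c i * (inner ℝ (cov (fun q => cov (U j) q (U i q)) p (∑ l, a l • X l p))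
        (∑ l, a l • X l p) * c j)) 0 :=
    HasDerivAt.fun_sum fun i _ => HasDerivAt.fun_sum fun j _ =>
      ((deriv_inner hc hX a b h0 hγ hb (smoothNear_cov hc (hU i) (hU j))).mul_const
        (c j)).const_mul (c i)
  have h3 : ∀ᶠ q in 𝓝 p, ∀ j, SmoothNear (U j) q := eventually_all.2 fun j => (hU j).ev
  have h4 : ∀ᶠ t in 𝓝 (0 : ℝ), ∀ j, SmoothNear (U j) (γ t) := by
    have h5 : Tendsto γ (𝓝 0) (𝓝 p) := by
      have h6 := hγc.tendsto
      rw [h0] at h6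
      exact h6
    exact h5.eventually h3
  have h7 : (fun t => (inner ℝ (cov (fun q => ∑ j, c j • U j q) (γ t) (∑ j, c j • U j (γ t)))
      (∑ l, (a l - t * b l) • X l (γ t)) : ℝ)) =ᶠ[𝓝 0]
      fun t => ∑ i, ∑ j, c i *
        (SS cov U (γ t) (∑ l, (a l - t * b l) • X l (γ t)) i j * c j) := by
    filter_upwards [h4] with t ht
    exact SS_quad ht c hc1 _
  exact h2.unique (h1.congr_of_eventuallyEq h7.symm)

end Pool.Agent.PW
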