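import Pool.Agent.Lib.MP_a61a4c_gt.RkI

/-!
An eigenvalue of the shape operators of multiplicity at least `dim B` has no maximum on the unit
horizontal bundle.
-/

set_option autoImplicit false

open Bundle Filter Function Topology
open scoped Manifold ContDiff Bundle

noncomputable section

namespace Pool.Agent.PW

variable {E : Type*} [NormedAddCommGroup E] [NormedSpace ℝ E] [FiniteDimensional ℝ E]
variable {M : Type*} [TopologicalSpace M] [ChartedSpace E M] [IsManifold 𝓘(ℝ, E) ∞ M]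
variable {E' : Type*} [NormedAddCommGroup E'] [NormedSpace ℝ E'] [FiniteDimensional ℝ E']
variable {B : Type*} [TopologicalSpace B] [ChartedSpace E' B] [IsManifold 𝓘(ℝ, E') ∞ B]
variable [RiemannianBundle (fun x : M => TangentSpace 𝓘(ℝ, E) x)]
  [IsContMDiffRiemannianBundle 𝓘(ℝ, E) ∞ E (fun x : M => TangentSpace 𝓘(ℝ, E) x)]
variable [RiemannianBundle (fun x : B => TangentSpace 𝓘(ℝ, E') x)]
  [IsContMDiffRiemannianBundle 𝓘(ℝ, E') ∞ E' (fun x : B => TangentSpace 𝓘(ℝ, E') x)]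

variable {f : M → B} {p : M}
  {cov : CovariantDerivative 𝓘(ℝ, E) E (TangentSpace 𝓘(ℝ, E) : M → Type _)}

/-- the covariant derivative of a horizontal unit field in its own direction is horizontal and
orthogonal to the field -/
theorem cov_self (hf : IsRiemSub (E := E) (E' := E') f) (hc : IsLeviCivita cov)
    {X : Fin (Module.finrank ℝ E') → Π x : M, TangentSpace 𝓘(ℝ, E) x}
    (hX : ∀ l, SmoothNear (X l) p) (hXh : ∀ᶠ q in 𝓝 p, ∀ l, Horiz (E' := E') f q (X l q))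
    (hXo : ∀ᶠ q in 𝓝 p, Orthonormal ℝ (fun l => X l q))
    {a : Fin (Module.finrank ℝ E') → ℝ} (ha : ∑ l, a l ^ 2 = 1) :
    ∃ b : Fin (Module.finrank ℝ E') → ℝ, ∑ l, a l * b l = 0 ∧
      ∑ l, b l • X l p = cov (fun q => ∑ l, a l • X l q) p (∑ l, a l • X l p) := by
  obtain ⟨U, hU⟩ := exists_vframe (E := E) (E' := E') hf p
  have hZ : SmoothNear (fun q => ∑ l, a l • X l q) p := smooth_comb hX a
  have hZh : ∀ᶠ q in 𝓝 p, Horiz (E' := E') f q (∑ l, a l • X l q) :=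
    hXh.mono fun q hq => horiz_sum hq a
  obtain ⟨x, hx⟩ : ∃ x : TangentSpace 𝓘(ℝ, E) p, x = ∑ l, a l • X l p := ⟨_, rfl⟩
  have hxh : Horiz (E' := E') f p x := by
    rw [hx]
    exact hZh.self_of_nhds
  obtain ⟨w, hw⟩ : ∃ w : TangentSpace 𝓘(ℝ, E) p, w = cov (fun q => ∑ l, a l • X l q) p x :=
    ⟨_, rfl⟩
  have hs := sum_split hf hU.orth.self_of_nhds hU.vert.self_of_nhds hXo.self_of_nhds
    hXh.self_of_nhds w
  have h0 : ∀ j, (inner ℝ w (U j p) : ℝ) = 0 := by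
    intro j
    have h1 := inner_cov_vert (E' := E') (f := f) hc (hU.sm j) hZ (hU.vert.mono fun q hq => hq j)
      hZh x
    have h2 := bundle_like hf hc (hU.sm j) (hU.vert.mono fun q hq => hq j) hxh
    rw [← hx, h2] at h1
    rw [hw, real_inner_comm]
    linarith
  have h3 : ∑ j, (inner ℝ w (U j p) : ℝ) • U j p = 0 :=
    Finset.sum_eq_zero fun j _ => by rw [h0 j, zero_smul]
  rw [h3, zero_add] at hs
  refine ⟨fun l => inner ℝ w (X l p), ?_, ?_⟩
  · have h4 : (inner ℝ w x : ℝ) = ∑ l, a l * inner ℝ w (X l p) := by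
      rw [hx, inner_sum]
      exact Finset.sum_congr rfl fun l _ => real_inner_smul_right _ _ _
    have h5 := hc.metric x hZ.mdiff hZ.mdiff
    have h6 : (fun q => (inner ℝ (∑ l, a l • X l q) (∑ l, a l • X l q) : ℝ)) =ᶠ[𝓝 p]
        fun _ => (1 : ℝ) := by
      filter_upwards [hXo] with q hq
      rw [real_inner_self_eq_norm_sq, norm_comb hq, ha]
    rw [mvfderiv_congr h6, Rk_mvfderiv_const, ← hw, ← hx, real_inner_comm w x] at h5
    rw [← h4]
    linarith
  · rw [← hx, ← hw]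
    exact hs.symm

theorem no_max (hf : IsRiemSub (E := E) (E' := E') f) (hc : IsLeviCivita cov)
    (hpos : SecPos cov) {lam : TangentBundle 𝓘(ℝ, E) M → ℝ} {m : ℕ}
    (hm : MultGe (E := E) (E' := E') cov f lam m) (hbm : Module.finrank ℝ E' ≤ m)
    {x : TangentSpace 𝓘(ℝ, E) p} (hx : Horiz (E' := E') f p x) (hx1 : ‖x‖ = 1)
    (hmax : ∀ z ∈ HUnit (E := E) (E' := E') f, lam z ≤ lam ⟨p, x⟩)
    (hcont : ContinuousWithinAt lam (HUnit (E := E) (E' := E') f) ⟨p, x⟩) : False := by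
  obtain ⟨X, a, hX, hXh, hXo, hax, ha1⟩ := exists_hframe_of hf hx hx1
  obtain ⟨U, hU⟩ := exists_vframe (E := E) (E' := E') hf p
  obtain ⟨b, hab, hbw⟩ := cov_self hf hc hX hXh hXo ha1
  have hZ : SmoothNear (fun q => ∑ l, a l • X l q) p := smooth_comb hX a
  have hZh : ∀ᶠ q in 𝓝 p, Horiz (E' := E') f q (∑ l, a l • X l q) :=
    hXh.mono fun q hq => horiz_sum hq a
  obtain ⟨γ, hγ0, hγc, hγ⟩ := exists_curve hZ
  have hγt : Tendsto γ (𝓝 0) (𝓝 p) := by
    have h := hγc.tendsto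
    rw [hγ0] at h
    exact h
  -- the norm
  obtain ⟨β, hβ⟩ : ∃ β : ℝ, β = ∑ l, b l ^ 2 := ⟨_, rfl⟩
  have hβ0 : 0 ≤ β := by
    rw [hβ]
    exact Finset.sum_nonneg fun l _ => sq_nonneg _
  obtain ⟨N, hNdef⟩ : ∃ N : ℝ → ℝ, N = fun t => Real.sqrt (1 + t ^ 2 * β) := ⟨_, rfl⟩
  have hNsq : ∀ t, N t ^ 2 = 1 + t ^ 2 * β := by
    intro t
    rw [hNdef]
    exact Real.sq_sqrt (by positivity)
  have hNpos : ∀ t, 0 < N t := by
    intro t
    rw [hNdef]
    exact Real.sqrt_pos.2 (by positivity)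
  have hN0 : N 0 = 1 := by
    rw [hNdef]
    simp
  have hN : HasDerivAt N 0 0 := by
    have h1 : HasDerivAt (fun t : ℝ => 1 + t ^ 2 * β) 0 0 := by
      have h2 := (((hasDerivAt_pow 2 (0 : ℝ)).mul_const β).const_add 1)
      simpa using h2
    have h3 := h1.sqrt (by norm_num)
    rw [zero_div] at h3
    rw [hNdef]
    exact h3
  have hnorm : ∀ t, ∑ l, (a l - t * b l) ^ 2 = N t ^ 2 := by
    intro t
    have h1 : ∀ l, (a l - t * b l) ^ 2 = a l ^ 2 - 2 * t * (a l * b l) + t ^ 2 * b l ^ 2 :=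
      fun l => by ring
    rw [Finset.sum_congr rfl fun l _ => h1 l, Finset.sum_add_distrib, Finset.sum_sub_distrib,
      ← Finset.mul_sum, ← Finset.mul_sum, hab, ha1, ← hβ, hNsq]
    ring
  -- the unit horizontal curve
  obtain ⟨z, hzdef⟩ : ∃ z : ℝ → TangentBundle 𝓘(ℝ, E) M,
    z = fun t => ⟨γ t, ∑ l, ((a l - t * b l) / N t) • X l (γ t)⟩ := ⟨_, rfl⟩
  have hzc : Tendsto z (𝓝 0) (𝓝 ⟨p, x⟩) := by
    have h1 : ContinuousAt (fun t : ℝ => (fun l => (a l - t * b l) / N t :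
        Fin (Module.finrank ℝ E') → ℝ)) 0 := by
      refine continuousAt_pi.2 fun l => ?_
      exact ContinuousAt.div (by fun_prop) hN.continuousAt (by rw [hN0]; exact one_ne_zero)
    have h2 : ContinuousAt (fun t : ℝ => ((γ t, fun l => (a l - t * b l) / N t) :
        M × (Fin (Module.finrank ℝ E') → ℝ))) 0 := hγc.prodMk h1
    have h3 : ((γ 0, fun l => (a l - 0 * b l) / N 0) : M × (Fin (Module.finrank ℝ E') → ℝ)) =
        (p, a) := by
      rw [hγ0, hN0]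
      simp
    have h4 := (ContinuousAt.comp_of_eq (cont_comb hX a) h2 h3).tendsto
    rw [hzdef]
    have h6 : ∀ w : M × (Fin (Module.finrank ℝ E') → ℝ), w = (p, a) →
        (⟨w.1, ∑ i, w.2 i • X i w.1⟩ : TangentBundle 𝓘(ℝ, E) M) = ⟨p, x⟩ := by
      rintro _ rfl
      show (⟨p, ∑ i, a i • X i p⟩ : TangentBundle 𝓘(ℝ, E) M) = ⟨p, x⟩
      rw [hax]
    have h5 : ((fun z : M × (Fin (Module.finrank ℝ E') → ℝ) =>
        (⟨z.1, ∑ i, z.2 i • X i z.1⟩ : TangentBundle 𝓘(ℝ, E) M)) ∘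
        fun t : ℝ => (γ t, fun l => (a l - t * b l) / N t)) 0 = ⟨p, x⟩ := h6 _ h3
    rw [h5] at h4
    exact h4
  have hzH : ∀ᶠ t in 𝓝 (0 : ℝ), z t ∈ HUnit (E := E) (E' := E') f := by
    filter_upwards [hγt.eventually hXh, hγt.eventually hXo] with t ht1 ht2
    rw [hzdef]
    refine ⟨horiz_sum ht1 _, ?_⟩
    have h1 := norm_comb ht2 (fun l => (a l - t * b l) / N t)
    have h2 : ∑ l, ((a l - t * b l) / N t) ^ 2 = 1 := by
      simp only [div_pow]
      rw [← Finset.sum_div, hnorm, div_self (pow_ne_zero 2 (hNpos t).ne')]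
    rw [h2] at h1
    exact (pow_eq_one_iff_of_nonneg (norm_nonneg _) two_ne_zero).1 h1
  have hl : Tendsto (fun t => lam (z t)) (𝓝[>] 0) (𝓝 (lam ⟨p, x⟩)) := by
    have h1 : Tendsto z (𝓝[>] 0) (𝓝[HUnit (E := E) (E' := E') f] ⟨p, x⟩) :=
      tendsto_nhdsWithin_iff.2 ⟨hzc.mono_left nhdsWithin_le_nhds, nhdsWithin_le_nhds hzH⟩
    exact hcont.tendsto.comp h1
  have hle : ∀ᶠ t in 𝓝[>] (0 : ℝ), lam (z t) ≤ lam ⟨p, x⟩ := by
    refine nhdsWithin_le_nhds ?_
    filter_upwards [hzH] with t ht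
    exact hmax _ ht
  obtain ⟨D, hD, hDc⟩ := deriv_SS hc hX a b hγ0 hγc hγ hbw hU.sm
  -- the kernel of `A`
  have hP : IsClosed {c : Fin (Module.finrank ℝ E - Module.finrank ℝ E') → ℝ |
      mfderiv 𝓘(ℝ, E) 𝓘(ℝ, E') f p (∑ j, c j • cov (U j) p x) = 0} := by
    let L : (Fin (Module.finrank ℝ E - Module.finrank ℝ E') → ℝ) →ₗ[ℝ]
        TangentSpace 𝓘(ℝ, E') (f p) :=
      Fintype.linearCombination ℝ (fun j => mfderiv 𝓘(ℝ, E) 𝓘(ℝ, E') f p (cov (U j) p x))
    have hL : ∀ c, L c = mfderiv 𝓘(ℝ, E) 𝓘(ℝ, E') f p (∑ j, c j • cov (U j) p x) := by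
      intro c
      rw [map_sum]
      simp only [map_smul]
      exact Fintype.linearCombination_apply ℝ _ c
    have h1 : {c : Fin (Module.finrank ℝ E - Module.finrank ℝ E') → ℝ |
        mfderiv 𝓘(ℝ, E) 𝓘(ℝ, E') f p (∑ j, c j • cov (U j) p x) = 0} =
        (LinearMap.ker L : Set (Fin (Module.finrank ℝ E - Module.finrank ℝ E') → ℝ)) := by
      ext c
      rw [SetLike.mem_coe, LinearMap.mem_ker, hL]
      exact Iff.rfl
    rw [h1]
    exact Submodule.closed_of_finiteDimensional _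
  have hsym : ∀ q : M, q = p → ∀ i j, SS cov U q (∑ l, (a l - 0 * b l) • X l q) i j =
      SS cov U q (∑ l, (a l - 0 * b l) • X l q) j i := by
    rintro q rfl i j
    exact sff_symm hf hc (hU.sm i) (hU.sm j) (hU.vert.mono fun q hq => hq i)
      (hU.vert.mono fun q hq => hq j) (horiz_sum hXh.self_of_nhds _)
  have hev : ∀ᶠ t in 𝓝[>] (0 : ℝ), ∃ c ∈ {c : Fin (Module.finrank ℝ E - Module.finrank ℝ E') → ℝ |
      mfderiv 𝓘(ℝ, E) 𝓘(ℝ, E') f p (∑ j, c j • cov (U j) p x) = 0}, ∑ i, c i ^ 2 = 1 ∧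
      ∀ i, ∑ j, SS cov U (γ t) (∑ l, (a l - t * b l) • X l (γ t)) i j * c j =
        N t * lam (z t) * c i := by
    refine nhdsWithin_le_nhds ?_
    filter_upwards [hzH, hγt.eventually hU.ev] with t ht htU
    rw [hzdef] at ht
    obtain ⟨ht1, ht2⟩ := ht
    obtain ⟨W, hW, hmW⟩ := hm _ _ ht1 ht2
    obtain ⟨c, hcA, hc1, hcS⟩ := exists_eigc hf hc hU hx hx1 htU ht1 ht2 hW (hbm.trans hmW)
    refine ⟨c, hcA, hc1, fun i => ?_⟩
    have h1 : ∀ j, SS cov U (γ t) (∑ l, (a l - t * b l) • X l (γ t)) i j =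
        N t * SS cov U (γ t) (∑ l, ((a l - t * b l) / N t) • X l (γ t)) i j := by
      intro j
      unfold SS
      rw [← real_inner_smul_right, Finset.smul_sum]
      congr 1
      refine Finset.sum_congr rfl fun l _ => ?_
      rw [smul_smul, mul_div_cancel₀ _ (hNpos t).ne']
    have h2 : ∑ j, SS cov U (γ t) (∑ l, (a l - t * b l) • X l (γ t)) i j * c j =
        N t * ∑ j, SS cov U (γ t) (∑ l, ((a l - t * b l) / N t) • X l (γ t)) i j * c j := by
      rw [Finset.mul_sum]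
      refine Finset.sum_congr rfl fun j _ => ?_
      rw [h1 j]
      ring
    rw [h2, mul_assoc]
    have h3 := hcS i
    rw [hzdef]
    exact congrArg (fun s => N t * s) h3
  obtain ⟨c, hcA, hc1, hcS, hcD⟩ := core_limit hD (hsym (γ 0) hγ0) hN hN0 hl hle hP hev
  have hS : ∀ q : M, q = p → ∀ i, ∑ j, SS cov U q (∑ l, (a l - 0 * b l) • X l q) i j * c j =
      ∑ j, SS cov U p (∑ l, a l • X l p) i j * c j := by
    rintro q rfl i
    simp only [zero_mul, sub_zero]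
  have hS' : ∀ i, ∑ j, SS cov U p (∑ l, a l • X l p) i j * c j = lam ⟨p, x⟩ * c i := by
    intro i
    rw [← hS (γ 0) hγ0 i]
    exact hcS i
  have hA' : mfderiv 𝓘(ℝ, E) 𝓘(ℝ, E') f p (∑ j, c j • cov (U j) p (∑ l, a l • X l p)) = 0 := by
    rw [hax]
    exact hcA
  have hid := eig_identity hf hc hZ hZh hU hc1 hS' hA'
  have h1 := hDc c hc1
  rw [← h1] at hid
  have hK : 0 < (inner ℝ (curv cov (fun q => ∑ l, a l • X l q) (fun q => ∑ j, c j • U j q)
      (fun q => ∑ j, c j • U j q) p) (∑ l, a l • X l p) : ℝ) := by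
    refine hpos p _ _ hZ (smooth_comb hU.sm c) ?_
    have hXX : (inner ℝ (∑ l, a l • X l p) (∑ l, a l • X l p) : ℝ) = 1 := by
      rw [real_inner_self_eq_norm_sq, norm_comb hXo.self_of_nhds, ha1]
    have hVV : (inner ℝ (∑ j, c j • U j p) (∑ j, c j • U j p) : ℝ) = 1 := by
      rw [hU.orth.self_of_nhds.inner_sum]
      simpa [sq] using hc1
    have hXV : (inner ℝ (∑ l, a l • X l p) (∑ j, c j • U j p) : ℝ) = 0 := by
      rw [hax, inner_sum]
      refine Finset.sum_eq_zero fun j _ => ?_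
      rw [real_inner_smul_right, hx _ (hU.vert.self_of_nhds j), mul_zero]
    rw [LinearIndependent.pair_iff]
    intro s t hst
    constructor
    · have h7 : (inner ℝ (∑ l, a l • X l p)
          (s • (∑ l, a l • X l p) + t • (∑ j, c j • U j p)) : ℝ) = 0 := by
        rw [hst, inner_zero_right]
      rw [inner_add_right, real_inner_smul_right, real_inner_smul_right, hXX, hXV] at h7
      linarith
    · have h7 : (inner ℝ (∑ j, c j • U j p)
          (s • (∑ l, a l • X l p) + t • (∑ j, c j • U j p)) : ℝ) = 0 := by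
        rw [hst, inner_zero_right]
      rw [inner_add_right, real_inner_smul_right, real_inner_smul_right, hVV,
        real_inner_comm (∑ l, a l • X l p) (∑ j, c j • U j p), hXV] at h7
      linarith
  have h9 := sq_nonneg (lam ⟨p, x⟩)
  rw [hid] at hK
  linarith

/-- a continuous eigenvalue -/
theorem mult_cont [CompactSpace M] [Nonempty M] (hf : IsRiemSub (E := E) (E' := E') f)
    (hc : IsLeviCivita cov) (hb : 0 < Module.finrank ℝ E') (hpos : SecPos cov)
    {lam : TangentBundle 𝓘(ℝ, E) M → ℝ} (hlam : ContinuousOn lam (HUnit (E := E) (E' := E') f))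
    {m : ℕ} (hm : MultGe (E := E) (E' := E') cov f lam m) : m < Module.finrank ℝ E' := by
  by_contra hcon
  rw [not_lt] at hcon
  have hne : (HUnit (E := E) (E' := E') f).Nonempty := by
    obtain ⟨p⟩ := ‹Nonempty M›
    have : Nontrivial E' := Module.nontrivial_of_finrank_pos hb
    obtain ⟨y, hy⟩ := exists_ne (0 : E')
    obtain ⟨x, hx, hxy⟩ := exists_horiz_of (q := p) hf (y : TangentSpace 𝓘(ℝ, E') (f p))
    have hx0 : x ≠ 0 := by
      intro h
      rw [h, map_zero] at hxy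
      exact hy hxy.symm
    refine ⟨⟨p, (‖x‖⁻¹ : ℝ) • x⟩, horiz_smul _ hx, ?_⟩
    show ‖(‖x‖⁻¹ : ℝ) • x‖ = 1
    rw [norm_smul, norm_inv, norm_norm, inv_mul_cancel₀ (norm_ne_zero_iff.2 hx0)]
  obtain ⟨⟨p, x⟩, ⟨hx, hx1⟩, hmax⟩ := (isCompact_hunit hf).exists_isMaxOn hne hlam
  exact no_max hf hc hpos hm hcon hx hx1 (fun z hz => hmax hz) (hlam ⟨p, x⟩ ⟨hx, hx1⟩)

end Pool.Agent.PW
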