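import Pool.Agent.Lib.MP_a61a4c_gt.RkJ

/-!
An eigenvalue of the shape operators of multiplicity greater than half of the dimension of the fibres is
continuous.
-/

set_option autoImplicit false

open Bundle Filter Function Topology Matrix
open scoped Manifold ContDiff Bundle

noncomputable section

namespace Pool.Agent.PW

/-- the rank is lower semicontinuous -/
theorem rank_limit {α : Type*} {G : Filter α} [NeBot G] {k r : ℕ}
    {A : α → Matrix (Fin k) (Fin k) ℝ} {A₀ : Matrix (Fin k) (Fin k) ℝ}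
    (h : ∀ i j, Tendsto (fun t => A t i j) G (𝓝 (A₀ i j))) (hr : ∀ᶠ t in G, (A t).rank ≤ r) :
    A₀.rank ≤ r := by
  by_contra hcon
  rw [not_le] at hcon
  obtain ⟨n, hn⟩ : ∃ n, A₀.rank = n + 1 := ⟨A₀.rank - 1, by omega⟩
  have hgram : ∀ R, A₀.rank = R → ∃ e : Fin R → Fin k → ℝ,
      (Matrix.of fun i j : Fin R => (A₀.mulVec (e i)) ⬝ᵥ (A₀.mulVec (e j))).det ≠ 0 := by
    rintro _ rfl
    exact exists_gram A₀
  obtain ⟨e, he⟩ := hgram (n + 1) hn
  have h1 : ∀ i j : Fin (n + 1), Tendsto (fun t => (A₀.mulVec (e i)) ⬝ᵥ ((A t).mulVec (e j))) G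
      (𝓝 ((A₀.mulVec (e i)) ⬝ᵥ (A₀.mulVec (e j)))) := by
    intro i j
    have h2 : ∀ l, Tendsto (fun t => ∑ l', A t l l' * e j l') G (𝓝 (∑ l', A₀ l l' * e j l')) :=
      fun l => tendsto_finsetSum _ fun l' _ => (h l l').mul tendsto_const_nhds
    have h5 : Tendsto (fun t => ∑ l, A₀.mulVec (e i) l * ∑ l', A t l l' * e j l') G
        (𝓝 (∑ l, A₀.mulVec (e i) l * ∑ l', A₀ l l' * e j l')) :=
      tendsto_finsetSum _ fun l _ => tendsto_const_nhds.mul (h2 l)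
    exact h5
  have h3 : Tendsto (fun t => (Matrix.of fun i j : Fin (n + 1) =>
      (A₀.mulVec (e i)) ⬝ᵥ ((A t).mulVec (e j))).det) G
      (𝓝 (Matrix.of fun i j : Fin (n + 1) => (A₀.mulVec (e i)) ⬝ᵥ (A₀.mulVec (e j))).det) := by
    simp only [Matrix.det_apply]
    refine tendsto_finsetSum _ fun σ _ => Tendsto.const_smul ?_ _
    exact tendsto_finsetProd _ fun i _ => h1 _ _
  have h4 : ∀ᶠ t in G, (Matrix.of fun i j : Fin (n + 1) =>
      (A₀.mulVec (e i)) ⬝ᵥ ((A t).mulVec (e j))).det = 0 := by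
    filter_upwards [hr] with t ht
    exact det_zero_of_rank (A t) (by omega) _ _
  obtain ⟨t, ht1, ht2⟩ := ((h3.eventually_ne he).and h4).exists
  exact ht1 ht2

/-- two different eigenvalues -/
theorem eig_unique {k m : ℕ} (hk : k < 2 * m) (A : Matrix (Fin k) (Fin k) ℝ) {μ ν : ℝ}
    (h1 : (A - μ • (1 : Matrix (Fin k) (Fin k) ℝ)).rank + m ≤ k)
    (h2 : (A - ν • (1 : Matrix (Fin k) (Fin k) ℝ)).rank + m ≤ k) : μ = ν := by
  by_contra hne
  have hker : ∀ τ : ℝ, (A - τ • (1 : Matrix (Fin k) (Fin k) ℝ)).rank + m ≤ k →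
      m ≤ Module.finrank ℝ (LinearMap.ker (A - τ • (1 : Matrix (Fin k) (Fin k) ℝ)).mulVecLin) := by
    intro τ hτ
    have h3 := LinearMap.finrank_range_add_finrank_ker
      (A - τ • (1 : Matrix (Fin k) (Fin k) ℝ)).mulVecLin
    rw [Module.finrank_fin_fun] at h3
    have h4 : (A - τ • (1 : Matrix (Fin k) (Fin k) ℝ)).rank =
      Module.finrank ℝ (LinearMap.range (A - τ • (1 : Matrix (Fin k) (Fin k) ℝ)).mulVecLin) := rfl
    omega
  have hdis : Disjoint (LinearMap.ker (A - μ • (1 : Matrix (Fin k) (Fin k) ℝ)).mulVecLin)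
      (LinearMap.ker (A - ν • (1 : Matrix (Fin k) (Fin k) ℝ)).mulVecLin) := by
    rw [Submodule.disjoint_def]
    intro v hv1 hv2
    rw [LinearMap.mem_ker, Matrix.mulVecLin_apply, Matrix.sub_mulVec, Matrix.smul_mulVec,
      Matrix.one_mulVec, sub_eq_zero] at hv1 hv2
    rw [hv1] at hv2
    have h5 : (μ - ν) • v = 0 := by
      rw [sub_smul, hv2, sub_self]
    exact (smul_eq_zero.1 h5).resolve_left (sub_ne_zero.2 hne)
  have h6 := Submodule.finrank_add_finrank_le_of_disjoint hdis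
  rw [Module.finrank_fin_fun] at h6
  have := hker μ h1
  have := hker ν h2
  omega

/-- an eigenvalue is bounded by the entries of the matrix -/
theorem eig_bound {k m : ℕ} (hm : 0 < m) (A : Matrix (Fin k) (Fin k) ℝ) {μ : ℝ}
    (h1 : (A - μ • (1 : Matrix (Fin k) (Fin k) ℝ)).rank + m ≤ k) : |μ| ≤ ∑ i, ∑ j, |A i j| := by
  have h3 := LinearMap.finrank_range_add_finrank_ker
    (A - μ • (1 : Matrix (Fin k) (Fin k) ℝ)).mulVecLin
  rw [Module.finrank_fin_fun] at h3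
  have h4 : (A - μ • (1 : Matrix (Fin k) (Fin k) ℝ)).rank =
    Module.finrank ℝ (LinearMap.range (A - μ • (1 : Matrix (Fin k) (Fin k) ℝ)).mulVecLin) := rfl
  have h5 : 0 < Module.finrank ℝ
      (LinearMap.ker (A - μ • (1 : Matrix (Fin k) (Fin k) ℝ)).mulVecLin) := by omega
  obtain ⟨⟨v, hv⟩, hv0⟩ := Module.finrank_pos_iff_exists_ne_zero.1 h5
  have hv0' : v ≠ 0 := fun h => hv0 (Subtype.ext h)
  rw [LinearMap.mem_ker, Matrix.mulVecLin_apply, Matrix.sub_mulVec, Matrix.smul_mulVec,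
    Matrix.one_mulVec, sub_eq_zero] at hv
  have hvn : 0 < ‖v‖ := norm_pos_iff.2 hv0'
  have h6 : ‖μ • v‖ ≤ (∑ i, ∑ j, |A i j|) * ‖v‖ := by
    rw [← hv, pi_norm_le_iff_of_nonneg (by positivity)]
    intro i
    show ‖∑ j, A i j * v j‖ ≤ _
    refine (norm_sum_le _ _).trans ?_
    have h7 : ∑ j, ‖A i j * v j‖ ≤ ∑ j, |A i j| * ‖v‖ := by
      refine Finset.sum_le_sum fun j _ => ?_
      rw [norm_mul, Real.norm_eq_abs (A i j)]
      exact mul_le_mul_of_nonneg_left (norm_le_pi_norm v j) (abs_nonneg _)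
    refine h7.trans ?_
    rw [← Finset.sum_mul]
    refine mul_le_mul_of_nonneg_right ?_ hvn.le
    exact Finset.single_le_sum (f := fun i => ∑ j, |A i j|)
      (fun i _ => Finset.sum_nonneg fun j _ => abs_nonneg _) (Finset.mem_univ i)
  rw [norm_smul, Real.norm_eq_abs] at h6
  exact le_of_mul_le_mul_right h6 hvn

variable {E : Type*} [NormedAddCommGroup E] [NormedSpace ℝ E] [FiniteDimensional ℝ E]
variable {M : Type*} [TopologicalSpace M] [ChartedSpace E M] [IsManifold 𝓘(ℝ, E) ∞ M]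
variable {E' : Type*} [NormedAddCommGroup E'] [NormedSpace ℝ E'] [FiniteDimensional ℝ E']
variable {B : Type*} [TopologicalSpace B] [ChartedSpace E' B] [IsManifold 𝓘(ℝ, E') ∞ B]
variable [RiemannianBundle (fun x : M => TangentSpace 𝓘(ℝ, E) x)]
  [IsContMDiffRiemannianBundle 𝓘(ℝ, E) ∞ E (fun x : M => TangentSpace 𝓘(ℝ, E) x)]
variable [RiemannianBundle (fun x : B => TangentSpace 𝓘(ℝ, E') x)]
  [IsContMDiffRiemannianBundle 𝓘(ℝ, E') ∞ E' (fun x : B => TangentSpace 𝓘(ℝ, E') x)]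

variable {f : M → B} {p : M}
  {cov : CovariantDerivative 𝓘(ℝ, E) E (TangentSpace 𝓘(ℝ, E) : M → Type _)}

/-- the rank in coordinates -/
theorem eig_rank (hf : IsRiemSub (E := E) (E' := E') f) (hc : IsLeviCivita cov)
    {U : Fin (Module.finrank ℝ E - Module.finrank ℝ E') → Π x : M, TangentSpace 𝓘(ℝ, E) x}
    (hU : VFrame (E := E) (E' := E') f p U) {y : TangentSpace 𝓘(ℝ, E) p}
    (hy : Horiz (E' := E') f p y) (hy1 : ‖y‖ = 1) {μ : ℝ}
    {W : Submodule ℝ (TangentSpace 𝓘(ℝ, E) p)}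
    (hW : EigSp (E := E) (E' := E') cov f p y μ W) {m : ℕ} (hm : m ≤ Module.finrank ℝ W) :
    (Matrix.of (SS cov U p y) - μ • (1 : Matrix _ _ ℝ)).rank + m ≤
      Module.finrank ℝ E - Module.finrank ℝ E' := by
  let φ : W →ₗ[ℝ] (Fin (Module.finrank ℝ E - Module.finrank ℝ E') → ℝ) :=
    LinearMap.pi fun i => (innerₛₗ ℝ (U i p)).comp W.subtype
  have hφ : ∀ w : W, φ w = fun i => (inner ℝ (U i p) (w : TangentSpace 𝓘(ℝ, E) p) : ℝ) :=
    fun w => rfl
  have hinj : Function.Injective φ := by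
    intro w w' hww
    apply Subtype.ext
    rw [← (eig_coord hf hc hU hy hy1 hW w.2).2, ← (eig_coord hf hc hU hy hy1 hW w'.2).2]
    rw [hφ, hφ] at hww
    exact Finset.sum_congr rfl fun i _ => by rw [congrFun hww i]
  have hK : m ≤ Module.finrank ℝ (LinearMap.range φ) := by
    rw [LinearMap.finrank_range_of_inj hinj]
    exact hm
  have hle : LinearMap.range φ ≤
      LinearMap.ker (Matrix.of (SS cov U p y) - μ • (1 : Matrix _ _ ℝ)).mulVecLin := by
    rintro _ ⟨w, rfl⟩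
    rw [LinearMap.mem_ker, Matrix.mulVecLin_apply, Matrix.sub_mulVec, Matrix.smul_mulVec,
      Matrix.one_mulVec, sub_eq_zero, hφ]
    funext i
    exact (eig_coord hf hc hU hy hy1 hW w.2).1 i
  have h2 := Submodule.finrank_mono hle
  have h3 := LinearMap.finrank_range_add_finrank_ker
    (Matrix.of (SS cov U p y) - μ • (1 : Matrix _ _ ℝ)).mulVecLin
  rw [Module.finrank_fin_fun] at h3
  have h4 : (Matrix.of (SS cov U p y) - μ • (1 : Matrix _ _ ℝ)).rank =
    Module.finrank ℝ (LinearMap.range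
      (Matrix.of (SS cov U p y) - μ • (1 : Matrix _ _ ℝ)).mulVecLin) := rfl
  omega

/-- the matrix of the shape operator is continuous on the tangent bundle -/
theorem SS_cont (hc : IsLeviCivita cov) {k : ℕ} {U : Fin k → Π x : M, TangentSpace 𝓘(ℝ, E) x}
    (hU : ∀ j, SmoothNear (U j) p) (x : TangentSpace 𝓘(ℝ, E) p) (i j : Fin k) :
    ContinuousAt (fun z : TangentBundle 𝓘(ℝ, E) M => SS cov U z.1 z.2 i j) ⟨p, x⟩ := by
  have h1 : ContinuousAt (fun q : M =>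
      (⟨q, cov (U j) q (U i q)⟩ : TangentBundle 𝓘(ℝ, E) M)) p :=
    (Eventually.self_of_nhds (smoothNear_cov hc (hU i) (hU j))).continuousAt
  have h2 : ContinuousAt (fun z : TangentBundle 𝓘(ℝ, E) M => z.1)
      (⟨p, x⟩ : TangentBundle 𝓘(ℝ, E) M) :=
    (FiberBundle.continuous_proj E (TangentSpace 𝓘(ℝ, E) : M → Type _)).continuousAt
  have h3 : ContinuousAt (fun z : TangentBundle 𝓘(ℝ, E) M =>
      (⟨z.1, cov (U j) z.1 (U i z.1)⟩ : TangentBundle 𝓘(ℝ, E) M)) ⟨p, x⟩ :=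
    ContinuousAt.comp_of_eq h1 h2 rfl
  have h4 : ContinuousAt (fun z : TangentBundle 𝓘(ℝ, E) M =>
      (⟨z.1, z.2⟩ : TangentBundle 𝓘(ℝ, E) M)) ⟨p, x⟩ := continuousAt_id
  have : IsContinuousRiemannianBundle E (fun x : M => TangentSpace 𝓘(ℝ, E) x) := by
    obtain ⟨g, hg, hg'⟩ := IsContMDiffRiemannianBundle.exists_contMDiff (IB := 𝓘(ℝ, E)) (n := ∞)
      (F := E) (E := fun x : M => TangentSpace 𝓘(ℝ, E) x)
    exact ⟨g, hg.continuous, hg'⟩
  exact ContinuousAt.inner_bundle (F := E) (E := fun x : M => TangentSpace 𝓘(ℝ, E) x)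
    (b := fun z : TangentBundle 𝓘(ℝ, E) M => z.1)
    (v := fun z => cov (U j) z.1 (U i z.1)) (w := fun z => z.2) h3 h4

theorem lam_cont (hf : IsRiemSub (E := E) (E' := E') f) (hc : IsLeviCivita cov)
    {lam : TangentBundle 𝓘(ℝ, E) M → ℝ} {m : ℕ}
    (hm : MultGe (E := E) (E' := E') cov f lam m)
    (hk : Module.finrank ℝ E - Module.finrank ℝ E' < 2 * m) :
    ContinuousOn lam (HUnit (E := E) (E' := E') f) := by
  rintro ⟨p, x⟩ ⟨hx, hx1⟩
  obtain ⟨U, hU⟩ := exists_vframe (E := E) (E' := E') hf p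
  show Tendsto lam (𝓝[HUnit (E := E) (E' := E') f] ⟨p, x⟩) (𝓝 (lam ⟨p, x⟩))
  rw [tendsto_iff_ultrafilter]
  intro G hG
  have hG' : (G : Filter (TangentBundle 𝓘(ℝ, E) M)) ≤ 𝓝 ⟨p, x⟩ := hG.trans nhdsWithin_le_nhds
  have hS : ∀ i j, Tendsto (fun z : TangentBundle 𝓘(ℝ, E) M => SS cov U z.1 z.2 i j) G
      (𝓝 (SS cov U p x i j)) := fun i j => (SS_cont hc hU.sm x i j).tendsto.mono_left hG'
  have hpr : Tendsto (fun z : TangentBundle 𝓘(ℝ, E) M => z.1) (𝓝 ⟨p, x⟩) (𝓝 p) :=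
    (FiberBundle.continuous_proj E (TangentSpace 𝓘(ℝ, E) : M → Type _)).continuousAt
  have hgood : ∀ᶠ z : TangentBundle 𝓘(ℝ, E) M in (G : Filter (TangentBundle 𝓘(ℝ, E) M)),
      (Matrix.of (SS cov U z.1 z.2) - lam z • (1 : Matrix _ _ ℝ)).rank + m ≤
        Module.finrank ℝ E - Module.finrank ℝ E' := by
    have h1 := hG' (hpr.eventually hU.ev)
    have h2 : ∀ᶠ z in (G : Filter (TangentBundle 𝓘(ℝ, E) M)),
        z ∈ HUnit (E := E) (E' := E') f := hG self_mem_nhdsWithin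
    filter_upwards [h1, h2] with z hz1 hz2
    obtain ⟨W, hW, hmW⟩ := hm z.1 z.2 hz2.1 hz2.2
    exact eig_rank hf hc hz1 hz2.1 hz2.2 hW hmW
  have hbd : ∀ᶠ z in (G : Filter (TangentBundle 𝓘(ℝ, E) M)),
      lam z ∈ Set.Icc (-(∑ i, ∑ j, |SS cov U p x i j| + 1)) (∑ i, ∑ j, |SS cov U p x i j| + 1) := by
    have h1 : Tendsto (fun z : TangentBundle 𝓘(ℝ, E) M => ∑ i, ∑ j, |SS cov U z.1 z.2 i j|) G
        (𝓝 (∑ i, ∑ j, |SS cov U p x i j|)) :=
      tendsto_finsetSum _ fun i _ => tendsto_finsetSum _ fun j _ => (hS i j).abs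
    filter_upwards [hgood, h1.eventually (gt_mem_nhds (lt_add_one _))] with z hz1 hz2
    have h2 := eig_bound (by omega) _ hz1
    rw [Set.mem_Icc, ← abs_le]
    exact h2.trans hz2.le
  obtain ⟨μ, -, hμ⟩ := isCompact_Icc.ultrafilter_le_nhds' (G.map lam) hbd
  have hμt : Tendsto lam G (𝓝 μ) := hμ
  have hlim : (Matrix.of (SS cov U p x) - μ • (1 : Matrix _ _ ℝ)).rank ≤
      Module.finrank ℝ E - Module.finrank ℝ E' - m := by
    refine rank_limit (G := (G : Filter (TangentBundle 𝓘(ℝ, E) M)))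
      (A := fun z => Matrix.of (SS cov U z.1 z.2) - lam z • (1 : Matrix _ _ ℝ)) ?_ ?_
    · intro i j
      exact (hS i j).sub (hμt.mul tendsto_const_nhds)
    · filter_upwards [hgood] with z hz
      omega
  obtain ⟨W, hW, hmW⟩ := hm p x hx hx1
  have h0 := eig_rank hf hc hU hx hx1 hW hmW
  have h0' : (Matrix.of (SS cov U p x) - lam ⟨p, x⟩ • (1 : Matrix _ _ ℝ)).rank + m ≤
      Module.finrank ℝ E - Module.finrank ℝ E' := h0
  have heq : μ = lam ⟨p, x⟩ := eig_unique hk (Matrix.of (SS cov U p x)) (by omega) h0'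
  rw [← heq]
  exact hμt

/-- an eigenvalue of multiplicity greater than `k / 2` -/
theorem mult_half [CompactSpace M] [Nonempty M] (hf : IsRiemSub (E := E) (E' := E') f)
    (hc : IsLeviCivita cov) (hb : 0 < Module.finrank ℝ E') (hpos : SecPos cov)
    {lam : TangentBundle 𝓘(ℝ, E) M → ℝ} {m : ℕ}
    (hm : MultGe (E := E) (E' := E') cov f lam m)
    (hk : Module.finrank ℝ E - Module.finrank ℝ E' < 2 * m) : m < Module.finrank ℝ E' :=
  mult_cont hf hc hb hpos (lam_cont hf hc hm hk) hm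

end Pool.Agent.PW
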