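import Pool.Agent.Lib.MP_a61a4c_gt.SubA
import Pool.Agent.Lib.MP_a61a4c_gt.Frame
import Pool.Agent.Lib.MP_a61a4c_gt.Brk

/-!
Row pw-SubB: vertical frames, lifts, extensions.
-/

set_option autoImplicit false

open Bundle Filter Function Topology
open scoped Manifold ContDiff Bundle

noncomputable section

namespace Pool.Agent.PW

variable {E : Type*} [NormedAddCommGroup E] [NormedSpace ℝ E] [FiniteDimensional ℝ E]
variable {M : Type*} [TopologicalSpace M] [ChartedSpace E M] [IsManifold 𝓘(ℝ, E) ∞ M]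
variable {E' : Type*} [NormedAddCommGroup E'] [NormedSpace ℝ E'] [FiniteDimensional ℝ E']
variable {B : Type*} [TopologicalSpace B] [ChartedSpace E' B] [IsManifold 𝓘(ℝ, E') ∞ B]
variable [RiemannianBundle (fun x : M => TangentSpace 𝓘(ℝ, E) x)]
  [IsContMDiffRiemannianBundle 𝓘(ℝ, E) ∞ E (fun x : M => TangentSpace 𝓘(ℝ, E) x)]
variable [RiemannianBundle (fun x : B => TangentSpace 𝓘(ℝ, E') x)]
  [IsContMDiffRiemannianBundle 𝓘(ℝ, E') ∞ E' (fun x : B => TangentSpace 𝓘(ℝ, E') x)]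


variable {f : M → B} {p : M}

/-- `exists_vertical` and `gram_schmidt_smooth` -/
theorem exists_vframe (hf : IsRiemSub (E := E) (E' := E') f) (p : M) :
    ∃ U : Fin (Module.finrank ℝ E - Module.finrank ℝ E') → Π x : M, TangentSpace 𝓘(ℝ, E) x,
      VFrame (E := E) (E' := E') f p U := by
  obtain ⟨V, hV, hli, hvert⟩ := exists_vertical (E := E) (E' := E') (p := p) hf.smooth (hf.submersion p)
  obtain ⟨U, hU, hO, hS⟩ := gram_schmidt_smooth V hV hli
  refine ⟨U, hU, ?_, hO⟩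
  filter_upwards [hvert] with q hq j
  have h1 : Submodule.span ℝ (Set.range fun j => V j q) ≤
      LinearMap.ker (mfderiv 𝓘(ℝ, E) 𝓘(ℝ, E') f q).toLinearMap := by
    rw [Submodule.span_le]
    rintro _ ⟨i, rfl⟩
    exact hq i
  exact h1 (hS q j)

/-- `exists_related`, minus the vertical part `∑ ⟨W, U j⟩ U j` -/
theorem exists_lift (hf : IsRiemSub (E := E) (E' := E') f) (p : M)
    (X' : Π x : B, TangentSpace 𝓘(ℝ, E') x) (hX' : SmoothNear X' (f p)) :
    ∃ X : Π x : M, TangentSpace 𝓘(ℝ, E) x, IsLift f p X X' := by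
  obtain ⟨W, hW, hrel⟩ := exists_related (E := E) (E' := E') (p := p) hf.smooth (hf.submersion p) X' hX'
  obtain ⟨U, hU⟩ := exists_vframe (E := E) (E' := E') hf p
  refine ⟨fun q => W q - ∑ j, (inner ℝ (W q) (U j q) : ℝ) • U j q, ?_, hX', ?_, ?_⟩
  · exact hW.sub (SmoothNear.sum Finset.univ fun j _ => SmoothNear.smul (hW.inner (hU.sm j)) (hU.sm j))
  · filter_upwards [hU.vert, hU.orth] with q hv ho
    refine horiz_of_orth (hf.submersion q) ho hv fun j => ?_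
    rw [inner_sub_left, ho.inner_left_fintype]
    simp
  · filter_upwards [hU.vert, hrel] with q hv hr
    rw [map_sub, hr, map_sum]
    have h1 : ∀ j, mfderiv 𝓘(ℝ, E) 𝓘(ℝ, E') f q ((inner ℝ (W q) (U j q) : ℝ) • U j q) = 0 := by
      intro j
      rw [map_smul, hv j, smul_zero]
    rw [Finset.sum_eq_zero fun j _ => h1 j, sub_zero]

theorem exists_horiz_ext (hf : IsRiemSub (E := E) (E' := E') f) {x : TangentSpace 𝓘(ℝ, E) p}
    (hx : Horiz (E' := E') f p x) :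
    ∃ (X : Π x : M, TangentSpace 𝓘(ℝ, E) x) (X' : Π x : B, TangentSpace 𝓘(ℝ, E') x),
      IsLift f p X X' ∧ X p = x := by
  obtain ⟨X', hX', h1⟩ := exists_smoothNear (E := E') (f p) (mfderiv 𝓘(ℝ, E) 𝓘(ℝ, E') f p x)
  obtain ⟨X, hX⟩ := exists_lift hf p X' hX'
  refine ⟨X, X', hX, ?_⟩
  refine horiz_ext hf hX.hor.self_of_nhds hx ?_
  rw [hX.rel.self_of_nhds, h1]

theorem exists_vert_ext (hf : IsRiemSub (E := E) (E' := E') f) {u : TangentSpace 𝓘(ℝ, E) p}
    (hu : mfderiv 𝓘(ℝ, E) 𝓘(ℝ, E') f p u = 0) :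
    ∃ U : Π x : M, TangentSpace 𝓘(ℝ, E) x, SmoothNear U p ∧
      (∀ᶠ q in 𝓝 p, mfderiv 𝓘(ℝ, E) 𝓘(ℝ, E') f q (U q) = 0) ∧ U p = u := by
  obtain ⟨U, hU⟩ := exists_vframe (E := E) (E' := E') hf p
  refine ⟨fun q => ∑ j, (inner ℝ (U j p) u : ℝ) • U j q, ?_, ?_, ?_⟩
  · exact SmoothNear.sum Finset.univ fun j _ => SmoothNear.smul (SmFn.const _ p) (hU.sm j)
  · filter_upwards [hU.vert] with q hv
    rw [map_sum]
    refine Finset.sum_eq_zero fun j _ => ?_
    rw [map_smul, hv j, smul_zero]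
  · exact vert_sum (hf.submersion p) hU.orth.self_of_nhds hU.vert.self_of_nhds hu

theorem IsLift.ev {X : Π x : M, TangentSpace 𝓘(ℝ, E) x} {X' : Π x : B, TangentSpace 𝓘(ℝ, E') x}
    (hf : IsRiemSub (E := E) (E' := E') f) (h : IsLift f p X X') : ∀ᶠ q in 𝓝 p, IsLift f q X X' := by
  have h1 : ∀ᶠ q in 𝓝 p, SmoothNear X' (f q) :=
    (hf.smooth.continuous.continuousAt (x := p)).eventually h.sm'.ev
  filter_upwards [h.sm.ev, h1, eventually_eventually_nhds.2 h.hor, eventually_eventually_nhds.2 h.rel]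
    with q a b c d
  exact ⟨a, b, c, d⟩

theorem VFrame.ev
    {U : Fin (Module.finrank ℝ E - Module.finrank ℝ E') → Π x : M, TangentSpace 𝓘(ℝ, E) x}
    (h : VFrame (E := E) (E' := E') f p U) :
    ∀ᶠ q in 𝓝 p, VFrame (E := E) (E' := E') f q U := by
  have h1 : ∀ᶠ q in 𝓝 p, ∀ j, SmoothNear (U j) q := eventually_all.2 fun j => (h.sm j).ev
  filter_upwards [h1, eventually_eventually_nhds.2 h.vert, eventually_eventually_nhds.2 h.orth]
    with q a b c
  exact ⟨a, b, c⟩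

/-- inner products of lifts -/
theorem IsLift.inner_eq {X Y : Π x : M, TangentSpace 𝓘(ℝ, E) x}
    {X' Y' : Π x : B, TangentSpace 𝓘(ℝ, E') x} (hf : IsRiemSub (E := E) (E' := E') f)
    (hX : IsLift f p X X') (hY : IsLift f p Y Y') :
    ∀ᶠ q in 𝓝 p, (inner ℝ (X q) (Y q) : ℝ) = inner ℝ (X' (f q)) (Y' (f q)) := by
  filter_upwards [hX.hor, hX.rel, hY.hor, hY.rel] with q a b c d
  rw [← b, ← d]
  exact (inner_mfderiv hf a c).symm

/-- an orthonormal frame of lifts, with prescribed images at `f p` (`exists_orthonormal_frame_of`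
on `B`, `exists_lift`, `IsLift.inner_eq`) -/
theorem exists_hframe (hf : IsRiemSub (E := E) (E' := E') f) (p : M)
    (y : Fin (Module.finrank ℝ E') → TangentSpace 𝓘(ℝ, E') (f p)) (hy : Orthonormal ℝ y) :
    ∃ (X : Fin (Module.finrank ℝ E') → Π x : M, TangentSpace 𝓘(ℝ, E) x)
      (X' : Fin (Module.finrank ℝ E') → Π x : B, TangentSpace 𝓘(ℝ, E') x),
      (∀ i, IsLift f p (X i) (X' i)) ∧ (∀ᶠ q in 𝓝 p, Orthonormal ℝ (fun i => X i q)) ∧
      (∀ᶠ b in 𝓝 (f p), Orthonormal ℝ (fun i => X' i b)) ∧ ∀ i, X' i (f p) = y i := by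
  obtain ⟨X', hX', ho, hy'⟩ := exists_orthonormal_frame_of (f p) y hy
  choose X hX using fun i => exists_lift hf p (X' i) (hX' i)
  refine ⟨X, X', hX, ?_, ho, hy'⟩
  have h1 : ∀ᶠ q in 𝓝 p, ∀ i j, (inner ℝ (X i q) (X j q) : ℝ) = inner ℝ (X' i (f q)) (X' j (f q)) :=
    eventually_all.2 fun i => eventually_all.2 fun j => (hX i).inner_eq hf (hX j)
  have h2 : ∀ᶠ q in 𝓝 p, Orthonormal ℝ (fun i => X' i (f q)) :=
    (hf.smooth.continuous.continuousAt (x := p)).eventually ho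
  filter_upwards [h1, h2] with q a b
  rw [orthonormal_iff_ite] at b ⊢
  intro i j
  rw [a i j]
  exact b i j

end Pool.Agent.PW
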