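import Pool.Agent.Lib.MP_a61a4c_gt.SubDefs
import Pool.Agent.Lib.MP_a61a4c_gt.Coord

/-!
Row pw-SubA: linear algebra at a point.
-/

set_option autoImplicit false

open Bundle Filter Function Topology
open scoped Manifold ContDiff Bundle

noncomputable section

namespace Pool.Agent.PW

private theorem SubA_onb {F : Type*} [NormedAddCommGroup F] [InnerProductSpace ℝ F]
    [FiniteDimensional ℝ F] {ι : Type} [Fintype ι] {b : ι → F} (hb : Orthonormal ℝ b)
    (hc : Fintype.card ι = Module.finrank ℝ F) (v : F) :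
    ∑ i, (inner ℝ (b i) v : ℝ) • b i = v := by
  rcases isEmpty_or_nonempty ι with he | hne
  · have h0 : Module.finrank ℝ F = 0 := by
      rw [← hc, Fintype.card_eq_zero]
    have hs : Subsingleton F := Module.finrank_zero_iff.1 h0
    exact Subsingleton.elim _ _
  · let B := (basisOfOrthonormalOfCardEqFinrank hb hc).toOrthonormalBasis (by
      rw [coe_basisOfOrthonormalOfCardEqFinrank]
      exact hb)
    have hB : ∀ j, B j = b j := by
      intro j
      simp [B]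
    have h1 := B.sum_repr' v
    simp only [hB] at h1
    exact h1

section SubA_abstract

variable {V W : Type*} [NormedAddCommGroup V] [InnerProductSpace ℝ V] [FiniteDimensional ℝ V]
  [NormedAddCommGroup W] [InnerProductSpace ℝ W] [FiniteDimensional ℝ W] (L : V →ₗ[ℝ] W)

private theorem SubA_vert_sum {k : ℕ} (hk : Module.finrank ℝ (LinearMap.ker L) = k)
    {u : Fin k → V} (hu : Orthonormal ℝ u) (hv : ∀ j, L (u j) = 0) {v : V} (h : L v = 0) :
    ∑ j, (inner ℝ (u j) v : ℝ) • u j = v := by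
  let u' : Fin k → LinearMap.ker L := fun j => ⟨u j, LinearMap.mem_ker.2 (hv j)⟩
  have hu' : Orthonormal ℝ u' := by
    constructor
    · intro j
      exact hu.1 j
    · intro i j hij
      exact hu.2 hij
  have hc : Fintype.card (Fin k) = Module.finrank ℝ (LinearMap.ker L) := by
    rw [Fintype.card_fin, hk]
  have h1 := SubA_onb hu' hc ⟨v, LinearMap.mem_ker.2 h⟩
  have h2 := congrArg (fun z : LinearMap.ker L => (z : V)) h1
  simp only [Submodule.coe_sum, Submodule.coe_smul] at h2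
  exact h2

private theorem SubA_decomp (v : V) : ∃ x u : V, (∀ w, L w = 0 → (inner ℝ x w : ℝ) = 0) ∧
    L u = 0 ∧ v = x + u := by
  obtain ⟨u, hu, x, hx, hvx⟩ := (LinearMap.ker L).exists_add_mem_mem_orthogonal v
  refine ⟨x, u, ?_, LinearMap.mem_ker.1 hu, by rw [hvx, add_comm]⟩
  intro w hw
  have := (Submodule.mem_orthogonal _ _).1 hx w (LinearMap.mem_ker.2 hw)
  rw [real_inner_comm]
  exact this

private theorem SubA_inner {x y : V} (h : ∀ z : V, (∀ w, L w = 0 → (inner ℝ z w : ℝ) = 0) →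
    ‖L z‖ = ‖z‖) (hx : ∀ w, L w = 0 → (inner ℝ x w : ℝ) = 0)
    (hy : ∀ w, L w = 0 → (inner ℝ y w : ℝ) = 0) :
    (inner ℝ (L x) (L y) : ℝ) = inner ℝ x y := by
  have hxy : ∀ w, L w = 0 → (inner ℝ (x + y) w : ℝ) = 0 := by
    intro w hw
    rw [inner_add_left, hx w hw, hy w hw, add_zero]
  have e1 := real_inner_eq_norm_add_mul_self_sub_norm_mul_self_sub_norm_mul_self_div_two (L x) (L y)
  have e2 := real_inner_eq_norm_add_mul_self_sub_norm_mul_self_sub_norm_mul_self_div_two x y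
  rw [← map_add, h x hx, h y hy, h (x + y) hxy] at e1
  rw [e1, e2]

private theorem SubA_orthonormal {k l : ℕ} {u : Fin k → V} (hu : Orthonormal ℝ u)
    (hv : ∀ j, L (u j) = 0) {x : Fin l → V} (hx : Orthonormal ℝ x)
    (hx' : ∀ i w, L w = 0 → (inner ℝ (x i) w : ℝ) = 0) :
    Orthonormal ℝ (Sum.elim u x) := by
  constructor
  · rintro (j | i)
    · exact hu.1 j
    · exact hx.1 i
  · rintro (j | i) (j' | i') hne
    · exact hu.2 (fun e => hne (congrArg Sum.inl e))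
    · show (inner ℝ (u j) (x i') : ℝ) = 0
      rw [real_inner_comm]
      exact hx' i' _ (hv j)
    · exact hx' i _ (hv j')
    · exact hx.2 (fun e => hne (congrArg Sum.inr e))

private theorem SubA_split {k l : ℕ} (hkl : k + l = Module.finrank ℝ V) {u : Fin k → V}
    (hu : Orthonormal ℝ u) (hv : ∀ j, L (u j) = 0) {x : Fin l → V} (hx : Orthonormal ℝ x)
    (hx' : ∀ i w, L w = 0 → (inner ℝ (x i) w : ℝ) = 0) (v : V) :
    v = ∑ j, (inner ℝ v (u j) : ℝ) • u j + ∑ i, (inner ℝ v (x i) : ℝ) • x i := by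
  have ho := SubA_orthonormal L hu hv hx hx'
  have hc : Fintype.card (Fin k ⊕ Fin l) = Module.finrank ℝ V := by
    rw [Fintype.card_sum, Fintype.card_fin, Fintype.card_fin, hkl]
  have h1 := SubA_onb ho hc v
  rw [Fintype.sum_sum_type] at h1
  simp only [Sum.elim_inl, Sum.elim_inr] at h1
  simp only [real_inner_comm v] at h1
  exact h1.symm

private theorem SubA_inner_split {k l : ℕ} (hkl : k + l = Module.finrank ℝ V) {u : Fin k → V}
    (hu : Orthonormal ℝ u) (hv : ∀ j, L (u j) = 0) {x : Fin l → V} (hx : Orthonormal ℝ x)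
    (hx' : ∀ i w, L w = 0 → (inner ℝ (x i) w : ℝ) = 0) (v w : V) :
    (inner ℝ v w : ℝ) = ∑ j, (inner ℝ v (u j) : ℝ) * inner ℝ w (u j) +
      ∑ i, (inner ℝ v (x i) : ℝ) * inner ℝ w (x i) := by
  have h1 := SubA_split L hkl hu hv hx hx' v
  conv_lhs => rw [h1]
  rw [inner_add_left, sum_inner, sum_inner]
  congr 1
  · refine Finset.sum_congr rfl fun j _ => ?_
    rw [real_inner_smul_left, real_inner_comm w]
  · refine Finset.sum_congr rfl fun j _ => ?_
    rw [real_inner_smul_left, real_inner_comm w]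

end SubA_abstract

variable {E : Type*} [NormedAddCommGroup E] [NormedSpace ℝ E] [FiniteDimensional ℝ E]
variable {M : Type*} [TopologicalSpace M] [ChartedSpace E M] [IsManifold 𝓘(ℝ, E) ∞ M]
variable {E' : Type*} [NormedAddCommGroup E'] [NormedSpace ℝ E'] [FiniteDimensional ℝ E']
variable {B : Type*} [TopologicalSpace B] [ChartedSpace E' B] [IsManifold 𝓘(ℝ, E') ∞ B]
variable [RiemannianBundle (fun x : M => TangentSpace 𝓘(ℝ, E) x)]
  [IsContMDiffRiemannianBundle 𝓘(ℝ, E) ∞ E (fun x : M => TangentSpace 𝓘(ℝ, E) x)]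
variable [RiemannianBundle (fun x : B => TangentSpace 𝓘(ℝ, E') x)]
  [IsContMDiffRiemannianBundle 𝓘(ℝ, E') ∞ E' (fun x : B => TangentSpace 𝓘(ℝ, E') x)]

section pointwise

variable {f : M → B} {q : M}

theorem vert_sum (hf : Function.Surjective (mfderiv 𝓘(ℝ, E) 𝓘(ℝ, E') f q))
    {u : Fin (Module.finrank ℝ E - Module.finrank ℝ E') → TangentSpace 𝓘(ℝ, E) q}
    (hu : Orthonormal ℝ u) (hv : ∀ j, mfderiv 𝓘(ℝ, E) 𝓘(ℝ, E') f q (u j) = 0)
    {v : TangentSpace 𝓘(ℝ, E) q} (h : mfderiv 𝓘(ℝ, E) 𝓘(ℝ, E') f q v = 0) :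
    ∑ j, (inner ℝ (u j) v : ℝ) • u j = v := by
  have i1 : FiniteDimensional ℝ (TangentSpace 𝓘(ℝ, E) q) :=
    inferInstanceAs (FiniteDimensional ℝ E)
  have i2 : FiniteDimensional ℝ (TangentSpace 𝓘(ℝ, E') (f q)) :=
    inferInstanceAs (FiniteDimensional ℝ E')
  exact SubA_vert_sum (V := TangentSpace 𝓘(ℝ, E) q) (W := TangentSpace 𝓘(ℝ, E') (f q))
    (mfderiv 𝓘(ℝ, E) 𝓘(ℝ, E') f q).toLinearMap (finrank_ker hf) hu hv h

theorem horiz_of_orth (hf : Function.Surjective (mfderiv 𝓘(ℝ, E) 𝓘(ℝ, E') f q))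
    {u : Fin (Module.finrank ℝ E - Module.finrank ℝ E') → TangentSpace 𝓘(ℝ, E) q}
    (hu : Orthonormal ℝ u) (hv : ∀ j, mfderiv 𝓘(ℝ, E) 𝓘(ℝ, E') f q (u j) = 0)
    {x : TangentSpace 𝓘(ℝ, E) q} (h : ∀ j, (inner ℝ x (u j) : ℝ) = 0) :
    Horiz (E' := E') f q x := by
  intro v hv'
  rw [← vert_sum hf hu hv hv', inner_sum]
  refine Finset.sum_eq_zero fun j _ => ?_
  rw [real_inner_smul_right, h j, mul_zero]

/-- every vector is the sum of a horizontal and a vertical one -/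
theorem exists_decomp (hf : Function.Surjective (mfderiv 𝓘(ℝ, E) 𝓘(ℝ, E') f q))
    (v : TangentSpace 𝓘(ℝ, E) q) : ∃ x u : TangentSpace 𝓘(ℝ, E) q, Horiz (E' := E') f q x ∧
      mfderiv 𝓘(ℝ, E) 𝓘(ℝ, E') f q u = 0 ∧ v = x + u := by
  have i1 : FiniteDimensional ℝ (TangentSpace 𝓘(ℝ, E) q) :=
    inferInstanceAs (FiniteDimensional ℝ E)
  have i2 : FiniteDimensional ℝ (TangentSpace 𝓘(ℝ, E') (f q)) :=
    inferInstanceAs (FiniteDimensional ℝ E')
  exact SubA_decomp (V := TangentSpace 𝓘(ℝ, E) q) (W := TangentSpace 𝓘(ℝ, E') (f q))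
    (mfderiv 𝓘(ℝ, E) 𝓘(ℝ, E') f q).toLinearMap v

theorem horiz_add {x y : TangentSpace 𝓘(ℝ, E) q} (hx : Horiz (E' := E') f q x)
    (hy : Horiz (E' := E') f q y) : Horiz (E' := E') f q (x + y) := by
  intro u hu
  have e1 := hx u hu
  have e2 := hy u hu
  have e3 : (inner ℝ (x + y) u : ℝ) = inner ℝ x u + inner ℝ y u := inner_add_left _ _ _
  rw [e3, e1, e2, add_zero]

theorem horiz_smul (c : ℝ) {x : TangentSpace 𝓘(ℝ, E) q} (hx : Horiz (E' := E') f q x) :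
    Horiz (E' := E') f q (c • x) := by
  intro u hu
  have e1 := hx u hu
  have e3 : (inner ℝ (c • x) u : ℝ) = c * inner ℝ x u := real_inner_smul_left _ _ _
  rw [e3, e1, mul_zero]

/-- polarisation of `IsRiemSub.isometry` -/
theorem inner_mfderiv (hf : IsRiemSub (E := E) (E' := E') f) {x y : TangentSpace 𝓘(ℝ, E) q}
    (hx : Horiz (E' := E') f q x) (hy : Horiz (E' := E') f q y) :
    (inner ℝ (mfderiv 𝓘(ℝ, E) 𝓘(ℝ, E') f q x) (mfderiv 𝓘(ℝ, E) 𝓘(ℝ, E') f q y) : ℝ) =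
      inner ℝ x y := by
  have i1 : FiniteDimensional ℝ (TangentSpace 𝓘(ℝ, E) q) :=
    inferInstanceAs (FiniteDimensional ℝ E)
  have i2 : FiniteDimensional ℝ (TangentSpace 𝓘(ℝ, E') (f q)) :=
    inferInstanceAs (FiniteDimensional ℝ E')
  exact SubA_inner (V := TangentSpace 𝓘(ℝ, E) q) (W := TangentSpace 𝓘(ℝ, E') (f q))
    (mfderiv 𝓘(ℝ, E) 𝓘(ℝ, E') f q).toLinearMap (fun z hz => hf.isometry q z hz) hx hy

/-- the same if only one vector is horizontal -/
theorem inner_mfderiv' (hf : IsRiemSub (E := E) (E' := E') f) {x : TangentSpace 𝓘(ℝ, E) q}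
    (hx : Horiz (E' := E') f q x) (v : TangentSpace 𝓘(ℝ, E) q) :
    (inner ℝ (mfderiv 𝓘(ℝ, E) 𝓘(ℝ, E') f q v) (mfderiv 𝓘(ℝ, E) 𝓘(ℝ, E') f q x) : ℝ) =
      inner ℝ v x := by
  obtain ⟨y, u, hy, hu, rfl⟩ := exists_decomp (hf.submersion q) v
  have e1 : mfderiv 𝓘(ℝ, E) 𝓘(ℝ, E') f q (y + u) = mfderiv 𝓘(ℝ, E) 𝓘(ℝ, E') f q y := by
    rw [map_add, hu, add_zero]
  have e2 := hx u hu
  have e3 : (inner ℝ (y + u) x : ℝ) = inner ℝ y x + inner ℝ u x := inner_add_left _ _ _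
  have e4 : (inner ℝ u x : ℝ) = inner ℝ x u := real_inner_comm _ _
  rw [e1, inner_mfderiv hf hy hx, e3, e4, e2, add_zero]

/-- a horizontal vector with a given image -/
theorem exists_horiz_of (hf : IsRiemSub (E := E) (E' := E') f)
    (y : TangentSpace 𝓘(ℝ, E') (f q)) : ∃ x : TangentSpace 𝓘(ℝ, E) q, Horiz (E' := E') f q x ∧
      mfderiv 𝓘(ℝ, E) 𝓘(ℝ, E') f q x = y := by
  obtain ⟨v, hv⟩ := hf.submersion q y
  obtain ⟨x, u, hx, hu, rfl⟩ := exists_decomp (hf.submersion q) v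
  refine ⟨x, hx, ?_⟩
  rw [map_add, hu, add_zero] at hv
  exact hv

theorem horiz_ext (hf : IsRiemSub (E := E) (E' := E') f) {x y : TangentSpace 𝓘(ℝ, E) q}
    (hx : Horiz (E' := E') f q x) (hy : Horiz (E' := E') f q y)
    (h : mfderiv 𝓘(ℝ, E) 𝓘(ℝ, E') f q x = mfderiv 𝓘(ℝ, E) 𝓘(ℝ, E') f q y) : x = y := by
  have hz : Horiz (E' := E') f q (x + (-1 : ℝ) • y) := horiz_add hx (horiz_smul (-1) hy)
  have h0 : mfderiv 𝓘(ℝ, E) 𝓘(ℝ, E') f q (x + (-1 : ℝ) • y) = 0 := by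
    rw [map_add, map_smul, h]
    rw [neg_smul, one_smul, add_neg_cancel]
  have h1 := hf.isometry q _ hz
  rw [h0, norm_zero] at h1
  have h2 : x + (-1 : ℝ) • y = 0 := norm_eq_zero.1 h1.symm
  rw [neg_smul, one_smul, ← sub_eq_add_neg, sub_eq_zero] at h2
  exact h2

/-- Parseval in an adapted orthonormal basis -/
theorem inner_split (hf : IsRiemSub (E := E) (E' := E') f)
    {u : Fin (Module.finrank ℝ E - Module.finrank ℝ E') → TangentSpace 𝓘(ℝ, E) q}
    (hu : Orthonormal ℝ u) (hv : ∀ j, mfderiv 𝓘(ℝ, E) 𝓘(ℝ, E') f q (u j) = 0)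
    {x : Fin (Module.finrank ℝ E') → TangentSpace 𝓘(ℝ, E) q}
    (hx : Orthonormal ℝ x) (hx' : ∀ i, Horiz (E' := E') f q (x i)) (v w : TangentSpace 𝓘(ℝ, E) q) :
    (inner ℝ v w : ℝ) = ∑ j, (inner ℝ v (u j) : ℝ) * inner ℝ w (u j) +
      ∑ i, (inner ℝ v (x i) : ℝ) * inner ℝ w (x i) := by
  have i1 : FiniteDimensional ℝ (TangentSpace 𝓘(ℝ, E) q) :=
    inferInstanceAs (FiniteDimensional ℝ E)
  have i2 : FiniteDimensional ℝ (TangentSpace 𝓘(ℝ, E') (f q)) :=
    inferInstanceAs (FiniteDimensional ℝ E')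
  have i3 : Module.finrank ℝ E' ≤ Module.finrank ℝ E :=
    finrank_le (E := E) (E' := E') (hf.submersion q)
  exact SubA_inner_split (V := TangentSpace 𝓘(ℝ, E) q) (W := TangentSpace 𝓘(ℝ, E') (f q))
    (mfderiv 𝓘(ℝ, E) 𝓘(ℝ, E') f q).toLinearMap
    (Nat.sub_add_cancel i3) hu hv hx hx' v w

/-- every vector is the sum of its components -/
theorem sum_split (hf : IsRiemSub (E := E) (E' := E') f)
    {u : Fin (Module.finrank ℝ E - Module.finrank ℝ E') → TangentSpace 𝓘(ℝ, E) q}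
    (hu : Orthonormal ℝ u) (hv : ∀ j, mfderiv 𝓘(ℝ, E) 𝓘(ℝ, E') f q (u j) = 0)
    {x : Fin (Module.finrank ℝ E') → TangentSpace 𝓘(ℝ, E) q}
    (hx : Orthonormal ℝ x) (hx' : ∀ i, Horiz (E' := E') f q (x i)) (v : TangentSpace 𝓘(ℝ, E) q) :
    v = ∑ j, (inner ℝ v (u j) : ℝ) • u j + ∑ i, (inner ℝ v (x i) : ℝ) • x i := by
  have i1 : FiniteDimensional ℝ (TangentSpace 𝓘(ℝ, E) q) :=
    inferInstanceAs (FiniteDimensional ℝ E)
  have i2 : FiniteDimensional ℝ (TangentSpace 𝓘(ℝ, E') (f q)) :=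
    inferInstanceAs (FiniteDimensional ℝ E')
  have i3 : Module.finrank ℝ E' ≤ Module.finrank ℝ E :=
    finrank_le (E := E) (E' := E') (hf.submersion q)
  exact SubA_split (V := TangentSpace 𝓘(ℝ, E) q) (W := TangentSpace 𝓘(ℝ, E') (f q))
    (mfderiv 𝓘(ℝ, E) 𝓘(ℝ, E') f q).toLinearMap
    (Nat.sub_add_cancel i3) hu hv hx hx' v

end pointwise

end Pool.Agent.PW
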