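import Pool.Agent.Lib.MP_a61a4c_gt.Calc

/-!
Vertical frames and lifts: definitions.
-/

set_option autoImplicit false

open Bundle Filter Function Topology
open scoped Manifold ContDiff Bundle

noncomputable section

namespace Pool.Agent.PW

variable {E : Type*} [NormedAddCommGroup E] [NormedSpace ℝ E] [FiniteDimensional ℝ E]
variable {M : Type*} [TopologicalSpace M] [ChartedSpace E M] [IsManifold 𝓘(ℝ, E) ∞ M]
variable {E' : Type*} [NormedAddCommGroup E'] [NormedSpace ℝ E'] [FiniteDimensional ℝ E']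
variable {B : Type*} [TopologicalSpace B] [ChartedSpace E' B] [IsManifold 𝓘(ℝ, E') ∞ B]
variable [RiemannianBundle (fun x : M => TangentSpace 𝓘(ℝ, E) x)]
  [IsContMDiffRiemannianBundle 𝓘(ℝ, E) ∞ E (fun x : M => TangentSpace 𝓘(ℝ, E) x)]
variable [RiemannianBundle (fun x : B => TangentSpace 𝓘(ℝ, E') x)]
  [IsContMDiffRiemannianBundle 𝓘(ℝ, E') ∞ E' (fun x : B => TangentSpace 𝓘(ℝ, E') x)]

/-- `U` is a smooth orthonormal frame of the vertical spaces near `p`. -/
structure VFrame (f : M → B) (p : M)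
    (U : Fin (Module.finrank ℝ E - Module.finrank ℝ E') → Π x : M, TangentSpace 𝓘(ℝ, E) x) :
    Prop where
  sm : ∀ j, SmoothNear (U j) p
  vert : ∀ᶠ q in 𝓝 p, ∀ j, mfderiv 𝓘(ℝ, E) 𝓘(ℝ, E') f q (U j q) = 0
  orth : ∀ᶠ q in 𝓝 p, Orthonormal ℝ (fun j => U j q)

/-- `X` is a smooth horizontal field near `p` which is the lift of the smooth field `X'`. -/
structure IsLift (f : M → B) (p : M) (X : Π x : M, TangentSpace 𝓘(ℝ, E) x)
    (X' : Π x : B, TangentSpace 𝓘(ℝ, E') x) : Prop where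
  sm : SmoothNear X p
  sm' : SmoothNear X' (f p)
  hor : ∀ᶠ q in 𝓝 p, Horiz (E' := E') f q (X q)
  rel : ∀ᶠ q in 𝓝 p, mfderiv 𝓘(ℝ, E) 𝓘(ℝ, E') f q (X q) = X' (f q)

end Pool.Agent.PW
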