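import Pool.Agent.Lib.MP_a61a4c_gt.MC
import Pool.Agent.Lib.MP_a61a4c_gt.Id
import Pool.Agent.Lib.MP_a61a4c_gt.Mx

/-!
Row pw-Umb: umbilical fibres.
-/

set_option autoImplicit false

open Bundle Filter Function Topology
open scoped Manifold ContDiff Bundle

noncomputable section

namespace Pool.Agent.PW

variable {E : Type*} [NormedAddCommGroup E] [NormedSpace ℝ E] [FiniteDimensional ℝ E]
variable {M : Type*} [TopologicalSpace M] [ChartedSpace E M] [IsManifold 𝓘(ℝ, E) ∞ M]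
variable {E' : Type*} [NormedAddCommGroup E'] [NormedSpace ℝ E'] [FiniteDimensional ℝ E']
variable {B : Type*} [TopologicalSpace B] [ChartedSpace E' B] [IsManifold 𝓘(ℝ, E') ∞ B]
variable [RiemannianBundle (fun x : M => TangentSpace 𝓘(ℝ, E) x)]
  [IsContMDiffRiemannianBundle 𝓘(ℝ, E) ∞ E (fun x : M => TangentSpace 𝓘(ℝ, E) x)]
variable [RiemannianBundle (fun x : B => TangentSpace 𝓘(ℝ, E') x)]
  [IsContMDiffRiemannianBundle 𝓘(ℝ, E') ∞ E' (fun x : B => TangentSpace 𝓘(ℝ, E') x)]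

variable {f : M → B} {p : M}
  {cov : CovariantDerivative 𝓘(ℝ, E) E (TangentSpace 𝓘(ℝ, E) : M → Type _)}

omit [FiniteDimensional ℝ E] [IsManifold 𝓘(ℝ, E) ∞ M]
  [RiemannianBundle fun x : M => TangentSpace 𝓘(ℝ, E) x]
  [IsContMDiffRiemannianBundle 𝓘(ℝ, E) ∞ E fun x : M => TangentSpace 𝓘(ℝ, E) x] in
private theorem Umb_mvfderiv_const (c : ℝ) (v : TangentSpace 𝓘(ℝ, E) p) :
    mvfderiv 𝓘(ℝ, E) (fun _ : M => c) p v = 0 :=
  mvfderiv_eq_zero_of_min (SmFn.const c p).mdiff (Eventually.of_forall fun _ => le_rfl) v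

omit [FiniteDimensional ℝ E] [RiemannianBundle fun x : M => TangentSpace 𝓘(ℝ, E) x]
  [IsContMDiffRiemannianBundle 𝓘(ℝ, E) ∞ E fun x : M => TangentSpace 𝓘(ℝ, E) x] in
private theorem Umb_cov_comb {n : ℕ} {U : Fin n → Π x : M, TangentSpace 𝓘(ℝ, E) x}
    (hU : ∀ j, SmoothNear (U j) p) (c : Fin n → ℝ) (v : TangentSpace 𝓘(ℝ, E) p) :
    cov (fun q => ∑ l, c l • U l q) p v = ∑ l, c l • cov (U l) p v := by
  rw [cov_sum cov Finset.univ (X := fun l q => c l • U l q)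
    (fun l _ => SmoothNear.smul (SmFn.const (c l) p) (hU l))]
  rw [sum_apply]
  refine Finset.sum_congr rfl fun l _ => ?_
  rw [cov_smul cov (SmFn.const (c l) p) (hU l) v, Umb_mvfderiv_const, zero_smul, add_zero]

/-- the choice of the vertical direction -/
private theorem Umb_exists_c (hf : IsRiemSub (E := E) (E' := E') f) (hc : IsLeviCivita cov)
    (hle : Module.finrank ℝ E' ≤ Module.finrank ℝ E - Module.finrank ℝ E')
    {U : Fin (Module.finrank ℝ E - Module.finrank ℝ E') → Π x : M, TangentSpace 𝓘(ℝ, E) x}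
    (hU : VFrame (E := E) (E' := E') f p U) {x : TangentSpace 𝓘(ℝ, E) p}
    (hx : Horiz (E' := E') f p x) (hx1 : ‖x‖ = 1) :
    ∃ c : Fin (Module.finrank ℝ E - Module.finrank ℝ E') → ℝ, ∑ j, c j ^ 2 = 1 ∧
      mfderiv 𝓘(ℝ, E) 𝓘(ℝ, E') f p (∑ j, c j • cov (U j) p x) = 0 := by
  haveI : FiniteDimensional ℝ (TangentSpace 𝓘(ℝ, E') (f p)) :=
    inferInstanceAs (FiniteDimensional ℝ E')
  let L : (Fin (Module.finrank ℝ E - Module.finrank ℝ E') → ℝ) →ₗ[ℝ]
      TangentSpace 𝓘(ℝ, E') (f p) :=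
    Fintype.linearCombination ℝ (fun j => mfderiv 𝓘(ℝ, E) 𝓘(ℝ, E') f p (cov (U j) p x))
  have hL : ∀ c, L c = mfderiv 𝓘(ℝ, E) 𝓘(ℝ, E') f p (∑ j, c j • cov (U j) p x) := by
    intro c
    rw [map_sum]
    simp only [map_smul]
    exact Fintype.linearCombination_apply ℝ _ c
  have horth : ∀ c, (inner ℝ (L c) (mfderiv 𝓘(ℝ, E) 𝓘(ℝ, E') f p x) : ℝ) = 0 := by
    intro c
    rw [hL, inner_mfderiv' hf hx, sum_inner]
    refine Finset.sum_eq_zero fun j _ => ?_
    rw [real_inner_smul_left, bundle_like hf hc (hU.sm j) (hU.vert.mono fun q hq => hq j) hx,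
      mul_zero]
  have hninj : ¬ Function.Injective L := by
    intro hinj
    have hfr : Module.finrank ℝ (Fin (Module.finrank ℝ E - Module.finrank ℝ E') → ℝ) =
        Module.finrank ℝ (TangentSpace 𝓘(ℝ, E') (f p)) := by
      have h1 := LinearMap.finrank_le_finrank_of_injective hinj
      have h2 : Module.finrank ℝ (TangentSpace 𝓘(ℝ, E') (f p)) = Module.finrank ℝ E' := rfl
      have h3 : Module.finrank ℝ (Fin (Module.finrank ℝ E - Module.finrank ℝ E') → ℝ) =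
          Module.finrank ℝ E - Module.finrank ℝ E' := Module.finrank_fin_fun ℝ
      rw [h2] at h1 ⊢
      rw [h3] at h1 ⊢
      exact le_antisymm h1 hle
    obtain ⟨c, hcx⟩ := (LinearMap.injective_iff_surjective_of_finrank_eq_finrank hfr).mp hinj
      (mfderiv 𝓘(ℝ, E) 𝓘(ℝ, E') f p x)
    have h4 := horth c
    rw [hcx, inner_mfderiv hf hx hx, real_inner_self_eq_norm_sq, hx1] at h4
    norm_num at h4
  have hex : ∃ c, L c = 0 ∧ c ≠ 0 := by
    by_contra hno
    push Not at hno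
    exact hninj ((injective_iff_map_eq_zero L).mpr hno)
  obtain ⟨c, hc0, hcne⟩ := hex
  have hs : 0 < ∑ j, c j ^ 2 := by
    have hs0 : 0 ≤ ∑ j, c j ^ 2 := Finset.sum_nonneg fun j _ => sq_nonneg _
    refine lt_of_le_of_ne hs0 fun h => hcne ?_
    funext j
    have := (Finset.sum_eq_zero_iff_of_nonneg fun j _ => sq_nonneg (c j)).mp h.symm j
      (Finset.mem_univ j)
    exact pow_eq_zero_iff two_ne_zero |>.mp this
  refine ⟨fun j => (Real.sqrt (∑ j, c j ^ 2))⁻¹ * c j, ?_, ?_⟩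
  · simp only [mul_pow]
    rw [← Finset.mul_sum, inv_pow, Real.sq_sqrt hs.le, inv_mul_cancel₀ hs.ne']
  · rw [hL] at hc0
    have : ∑ j, ((Real.sqrt (∑ j, c j ^ 2))⁻¹ * c j) • cov (U j) p x =
        (Real.sqrt (∑ j, c j ^ 2))⁻¹ • ∑ j, c j • cov (U j) p x := by
      rw [Finset.smul_sum]
      exact Finset.sum_congr rfl fun j _ => mul_smul _ _ _
    rw [this, map_smul, hc0, smul_zero]

/-- Suppose `dim B ≤ k` (the number of vertical directions), `0 < k`. `N` from `exists_mean`, `p`, `x`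
from `exists_critical`, `X` a lift through `x`, `U` a vertical frame at `p` (`exists_vframe`). Near `p`,
`⟨∇_V W, X⟩ = ⟨V, W⟩ ⟨N, X⟩ / k` for vertical `V`, `W` (from `Umbilic` at `q` and `IsMean.eq`).
The horizontal part of `∇_x (∑ c j U j)` is linear in `c` with values in the horizontal vectors
orthogonal to `x` (`bundle_like`), a space of dimension `dim B - 1 < k`; so there is `c`, `∑ c j ² = 1`,
such that for `V = ∑ c j U j` the vector `∇_x V` is vertical. By `curv_identity` for `X` and `V`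
(`⟨V, V⟩ = 1` near `p`, so `⟨∇_x V, V⟩ = 0`), `K = ⟨∇_x N, x⟩ / k - (⟨N, x⟩ / k)² ≤ 0`. -/
theorem umbilic_bound [CompactSpace M] [Nonempty M] (hf : IsRiemSub (E := E) (E' := E') f)
    (hc : IsLeviCivita cov) (hb : 0 < Module.finrank ℝ E') (hpos : SecPos cov)
    (hu : Umbilic (E := E) (E' := E') cov f) :
    Module.finrank ℝ E - Module.finrank ℝ E' < Module.finrank ℝ E' := by
  by_contra hcon
  rw [not_lt] at hcon
  have hk : (0 : ℝ) < ((Module.finrank ℝ E - Module.finrank ℝ E' : ℕ) : ℝ) := by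
    exact_mod_cast lt_of_lt_of_le hb hcon
  obtain ⟨N, hN⟩ := exists_mean (E := E) (E' := E') hf hc
  obtain ⟨p, x, hx, hx1, -, hNx⟩ := exists_critical hf hc hb hN.sm hN.hor
  obtain ⟨X, X', hX, hXp⟩ := exists_horiz_ext hf hx
  obtain ⟨U, hU⟩ := exists_vframe (E := E) (E' := E') hf p
  obtain ⟨c, hc1, hc0⟩ := Umb_exists_c hf hc hcon hU hx hx1
  -- the vertical field
  obtain ⟨V, hVdef⟩ : ∃ V : Π x : M, TangentSpace 𝓘(ℝ, E) x, V = fun q => ∑ j, c j • U j q :=
    ⟨_, rfl⟩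
  have hV : SmoothNear V p := by
    rw [hVdef]
    exact SmoothNear.sum Finset.univ (X := fun l q => c l • U l q)
      (fun l _ => SmoothNear.smul (SmFn.const (c l) p) (hU.sm l))
  have hVv : ∀ᶠ q in 𝓝 p, mfderiv 𝓘(ℝ, E) 𝓘(ℝ, E') f q (V q) = 0 := by
    filter_upwards [hU.vert] with q hq
    rw [hVdef]
    show mfderiv 𝓘(ℝ, E) 𝓘(ℝ, E') f q (∑ j, c j • U j q) = 0
    rw [map_sum]
    refine Finset.sum_eq_zero fun l _ => ?_
    rw [map_smul, hq l, smul_zero]
  have hV1 : ∀ᶠ q in 𝓝 p, (inner ℝ (V q) (V q) : ℝ) = 1 := by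
    filter_upwards [hU.orth] with q hq
    rw [hVdef]
    show (inner ℝ (∑ j, c j • U j q) (∑ j, c j • U j q) : ℝ) = 1
    rw [hq.inner_sum]
    simpa [sq] using hc1
  have hw : mfderiv 𝓘(ℝ, E) 𝓘(ℝ, E') f p (cov V p x) = 0 := by
    rw [hVdef, Umb_cov_comb hU.sm]
    exact hc0
  -- the second fundamental form of the fibres
  have hmean : ∀ᶠ q in 𝓝 p, ∀ V1 V2 : Π x : M, TangentSpace 𝓘(ℝ, E) x, SmoothNear V1 q →
      SmoothNear V2 q → (∀ᶠ r in 𝓝 q, mfderiv 𝓘(ℝ, E) 𝓘(ℝ, E') f r (V1 r) = 0) →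
      (∀ᶠ r in 𝓝 q, mfderiv 𝓘(ℝ, E) 𝓘(ℝ, E') f r (V2 r) = 0) →
      ∀ y : TangentSpace 𝓘(ℝ, E) q, Horiz (E' := E') f q y →
      (inner ℝ (cov V2 q (V1 q)) y : ℝ) = inner ℝ (V1 q) (V2 q) *
        (inner ℝ (N q) y / ((Module.finrank ℝ E - Module.finrank ℝ E' : ℕ) : ℝ)) := by
    filter_upwards [hU.ev] with q hq V1 V2 h1 h2 v1 v2 y hy
    obtain ⟨η, hη⟩ := hu q
    rw [hη V1 V2 h1 h2 v1 v2 y hy]
    congr 1
    have e1 := hN.eq q U hq y hy
    have e2 : ∀ j, (inner ℝ (cov (U j) q (U j q)) y : ℝ) = inner ℝ η y := by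
      intro j
      rw [hη (U j) (U j) (hq.sm j) (hq.sm j) (hq.vert.mono fun r hr => hr j)
        (hq.vert.mono fun r hr => hr j) y hy, real_inner_self_eq_norm_sq,
        hq.orth.self_of_nhds.1 j]
      ring
    rw [e1, Finset.sum_congr rfl fun j _ => e2 j]
    simp only [Finset.sum_const, Finset.card_univ, Fintype.card_fin, nsmul_eq_mul]
    field_simp
  have hmp := hmean.self_of_nhds
  have hXh : Horiz (E' := E') f p (X p) := hX.hor.self_of_nhds
  have hVp : mfderiv 𝓘(ℝ, E) 𝓘(ℝ, E') f p (V p) = 0 := hVv.self_of_nhds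
  have hVV : (inner ℝ (V p) (V p) : ℝ) = 1 := hV1.self_of_nhds
  obtain ⟨κ, hκ⟩ : ∃ κ : ℝ, κ = ((Module.finrank ℝ E - Module.finrank ℝ E' : ℕ) : ℝ) := ⟨_, rfl⟩
  rw [← hκ] at hk
  simp only [← hκ] at hmean hmp
  have hid := curv_identity hf hc hX.sm hV hX.hor hVv
  -- first term
  have hN' : SmoothNear (fun q => (κ⁻¹ : ℝ) • N q) p := SmoothNear.smul (SmFn.const _ p) (hN.sm p)
  have t1 : mvfderiv 𝓘(ℝ, E) (fun q => (inner ℝ (cov V q (V q)) (X q) : ℝ)) p (X p) =
      κ⁻¹ * inner ℝ (N p) (cov X p (X p)) := by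
    have e : (fun q => (inner ℝ (cov V q (V q)) (X q) : ℝ)) =ᶠ[𝓝 p]
        fun q => (inner ℝ ((κ⁻¹ : ℝ) • N q) (X q) : ℝ) := by
      filter_upwards [hmean, hV1, hV.ev, hVv.eventually_nhds, hX.hor] with q h1 h2 h3 h4 h5
      rw [h1 V V h3 h3 h4 h4 (X q) h5, h2, real_inner_smul_left]
      ring
    rw [mvfderiv_congr e, hc.metric (X p) hN'.mdiff hX.sm.mdiff,
      cov_smul cov (SmFn.const κ⁻¹ p) (hN.sm p), Umb_mvfderiv_const, zero_smul, add_zero,
      real_inner_smul_left, real_inner_smul_left, hXp, hNx]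
    ring
  -- second term
  have t2 : (inner ℝ (cov V p (V p)) (cov X p (X p)) : ℝ) =
      κ⁻¹ * inner ℝ (N p) (cov X p (X p)) := by
    rw [hmp V V hV hV hVv hVv _ (horiz_cov_self hf hc hX.sm hX.hor), hVV]
    ring
  -- extension of vertical vectors
  have hwx : mfderiv 𝓘(ℝ, E) 𝓘(ℝ, E') f p (cov V p (X p)) = 0 := by rw [hXp]; exact hw
  obtain ⟨W, hW, hWv, hWp⟩ := exists_vert_ext hf hwx
  have hVw : (inner ℝ (V p) (cov V p (X p)) : ℝ) = 0 := by
    have h1 := hc.metric (X p) hV.mdiff hV.mdiff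
    have e : (fun q => (inner ℝ (V q) (V q) : ℝ)) =ᶠ[𝓝 p] fun _ => (1 : ℝ) := hV1
    rw [mvfderiv_congr e, Umb_mvfderiv_const, real_inner_comm (V p) (cov V p (X p))] at h1
    linarith
  -- third term
  have t3 : (inner ℝ (cov V p (X p)) (cov X p (V p)) : ℝ) = 0 := by
    have h1 := inner_cov_vert (E' := E') (f := f) hc hW hX.sm hWv hX.hor (V p)
    rw [hWp] at h1
    have h2 := hmp V W hV hW hVv hWv (X p) hXh
    rw [h1, hWp, hVw] at h2
    linarith
  -- fourth term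
  have t4 : (inner ℝ (cov V p (cov V p (X p))) (X p) : ℝ) = 0 := by
    have h2 := hmp W V hW hV hWv hVv (X p) hXh
    rw [hWp, real_inner_comm (V p) (cov V p (X p)), hVw] at h2
    linarith
  -- fifth term
  obtain ⟨ν, hν⟩ : ∃ ν : ℝ, ν = inner ℝ (N p) (X p) / κ := ⟨_, rfl⟩
  have t5 : (inner ℝ (cov V p (cov X p (V p))) (X p) : ℝ) = -(ν ^ 2) := by
    obtain ⟨zh, zv, hzh, hzv, hz⟩ := exists_decomp (E := E) (E' := E') (hf.submersion p)
      (cov X p (V p))
    obtain ⟨Z, hZ, hZv, hZp⟩ := exists_vert_ext hf hzv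
    have h1 : (inner ℝ (cov V p zh) (X p) : ℝ) = 0 := by
      rw [bundle_like' hf hc hV hVv hzh hXh, real_inner_comm zh (cov V p (X p)), hzh _ hwx]
      ring
    have h2 := hmp Z V hZ hV hZv hVv (X p) hXh
    have h3 : (inner ℝ (V p) (cov X p (V p)) : ℝ) = -ν := by
      have h4 := inner_cov_vert (E' := E') (f := f) hc hV hX.sm hVv hX.hor (V p)
      have h5 := hmp V V hV hV hVv hVv (X p) hXh
      rw [h4, hVV, ← hν] at h5
      linarith
    have h6 : (inner ℝ zv (V p) : ℝ) = -ν := by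
      rw [hz, inner_add_right, real_inner_comm zh (V p), hzh _ hVp, zero_add] at h3
      rw [real_inner_comm (V p) zv]
      exact h3
    rw [hZp, h6, ← hν] at h2
    rw [hz, map_add, inner_add_left, h1, h2]
    ring
  rw [t1, t2, t3, t4, t5] at hid
  have hpos' := hpos p X V hX.sm hV ?_
  · rw [hid] at hpos'
    nlinarith [sq_nonneg ν]
  · rw [LinearIndependent.pair_iff]
    intro s t hst
    have hXV : (inner ℝ (X p) (V p) : ℝ) = 0 := hXh _ hVp
    have hXX : (inner ℝ (X p) (X p) : ℝ) = 1 := by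
      rw [hXp, real_inner_self_eq_norm_sq, hx1]
      norm_num
    constructor
    · have h7 : (inner ℝ (X p) (s • X p + t • V p) : ℝ) = 0 := by rw [hst, inner_zero_right]
      rw [inner_add_right, real_inner_smul_right, real_inner_smul_right, hXX, hXV] at h7
      linarith
    · have h7 : (inner ℝ (V p) (s • X p + t • V p) : ℝ) = 0 := by rw [hst, inner_zero_right]
      rw [inner_add_right, real_inner_smul_right, real_inner_smul_right, hVV,
        real_inner_comm (X p) (V p), hXV] at h7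
      linarith

end Pool.Agent.PW
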