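import Pool.Agent.Lib.MP_a61a4c_gt.VfA

/-!
Row pw-VfB: second fundamental form and vertical parts.
-/

set_option autoImplicit false

open Bundle Filter Function Topology
open scoped Manifold ContDiff Bundle

noncomputable section

namespace Pool.Agent.PW

variable {E : Type*} [NormedAddCommGroup E] [NormedSpace ℝ E] [FiniteDimensional ℝ E]
variable {M : Type*} [TopologicalSpace M] [ChartedSpace E M] [IsManifold 𝓘(ℝ, E) ∞ M]
variable {E' : Type*} [NormedAddCommGroup E'] [NormedSpace ℝ E'] [FiniteDimensional ℝ E']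
variable {B : Type*} [TopologicalSpace B] [ChartedSpace E' B] [IsManifold 𝓘(ℝ, E') ∞ B]
variable [RiemannianBundle (fun x : M => TangentSpace 𝓘(ℝ, E) x)]
  [IsContMDiffRiemannianBundle 𝓘(ℝ, E) ∞ E (fun x : M => TangentSpace 𝓘(ℝ, E) x)]
variable [RiemannianBundle (fun x : B => TangentSpace 𝓘(ℝ, E') x)]
  [IsContMDiffRiemannianBundle 𝓘(ℝ, E') ∞ E' (fun x : B => TangentSpace 𝓘(ℝ, E') x)]

variable {f : M → B} {p : M}
  {cov : CovariantDerivative 𝓘(ℝ, E) E (TangentSpace 𝓘(ℝ, E) : M → Type _)}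

/-- the second fundamental form is symmetric -/
theorem sff_symm (hf : IsRiemSub (E := E) (E' := E') f) (hc : IsLeviCivita cov)
    {U V : Π x : M, TangentSpace 𝓘(ℝ, E) x} (hU : SmoothNear U p) (hV : SmoothNear V p)
    (vU : ∀ᶠ q in 𝓝 p, mfderiv 𝓘(ℝ, E) 𝓘(ℝ, E') f q (U q) = 0)
    (vV : ∀ᶠ q in 𝓝 p, mfderiv 𝓘(ℝ, E) 𝓘(ℝ, E') f q (V q) = 0) {x : TangentSpace 𝓘(ℝ, E) p}
    (hx : Horiz (E' := E') f p x) :
    (inner ℝ (cov V p (U p)) x : ℝ) = inner ℝ (cov U p (V p)) x := by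
  have ht := hc.torsion (X := U) (Y := V) (x := p) hU.mdiff hV.mdiff
  have hb := bracket_vert hf hU hV vU vV
  have h0 := hx _ hb
  rw [← ht, inner_sub_right] at h0
  have c1 := real_inner_comm x (cov V p (U p))
  have c2 := real_inner_comm x (cov U p (V p))
  linarith

/-- the second fundamental form only depends on the values at the point -/
theorem sff_congr (hf : IsRiemSub (E := E) (E' := E') f) (hc : IsLeviCivita cov)
    {V W : Π x : M, TangentSpace 𝓘(ℝ, E) x} (hV : SmoothNear V p) (hW : SmoothNear W p)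
    (vV : ∀ᶠ q in 𝓝 p, mfderiv 𝓘(ℝ, E) 𝓘(ℝ, E') f q (V q) = 0)
    (vW : ∀ᶠ q in 𝓝 p, mfderiv 𝓘(ℝ, E) 𝓘(ℝ, E') f q (W q) = 0) (e : V p = W p)
    {u x : TangentSpace 𝓘(ℝ, E) p} (hu : mfderiv 𝓘(ℝ, E) 𝓘(ℝ, E') f p u = 0)
    (hx : Horiz (E' := E') f p x) : (inner ℝ (cov V p u) x : ℝ) = inner ℝ (cov W p u) x := by
  obtain ⟨U, hU, vU, hUp⟩ := exists_vert_ext hf hu
  have h1 := sff_symm hf hc hU hV vU vV hx
  have h2 := sff_symm hf hc hU hW vU vW hx
  rw [hUp] at h1 h2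
  rw [h1, h2, e]

/-- `⟨∇_v U, X⟩ = - ⟨U, ∇_v X⟩` for vertical `U` and horizontal `X` -/
theorem inner_cov_vert (hc : IsLeviCivita cov)
    {U X : Π x : M, TangentSpace 𝓘(ℝ, E) x} (hU : SmoothNear U p) (hX : SmoothNear X p)
    (vU : ∀ᶠ q in 𝓝 p, mfderiv 𝓘(ℝ, E) 𝓘(ℝ, E') f q (U q) = 0)
    (hX' : ∀ᶠ q in 𝓝 p, Horiz (E' := E') f q (X q)) (v : TangentSpace 𝓘(ℝ, E) p) :
    (inner ℝ (cov U p v) (X p) : ℝ) = - inner ℝ (U p) (cov X p v) := by
  have hm := hc.metric v hU.mdiff hX.mdiff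
  have h0 : mvfderiv 𝓘(ℝ, E) (fun y => (inner ℝ (U y) (X y) : ℝ)) p v = 0 := by
    have e : (fun y => (inner ℝ (U y) (X y) : ℝ)) =ᶠ[𝓝 p] fun _ => (0 : ℝ) := by
      filter_upwards [vU, hX'] with q h1 h2
      rw [real_inner_comm]
      exact h2 _ h1
    rw [mvfderiv_congr e]
    exact congrArg (fun l => l v) (mvfderiv_const (I := 𝓘(ℝ, E)) (x := p) (c := (0 : ℝ)))
  rw [h0] at hm
  linarith

/-- the vertical part of `∇_X Y` is antisymmetric for horizontal fields -/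
theorem vert_cov_antisymm (hf : IsRiemSub (E := E) (E' := E') f) (hc : IsLeviCivita cov)
    {X Y : Π x : M, TangentSpace 𝓘(ℝ, E) x} (hX : SmoothNear X p) (hY : SmoothNear Y p)
    (hX' : ∀ᶠ q in 𝓝 p, Horiz (E' := E') f q (X q))
    (hY' : ∀ᶠ q in 𝓝 p, Horiz (E' := E') f q (Y q)) {u : TangentSpace 𝓘(ℝ, E) p}
    (hu : mfderiv 𝓘(ℝ, E) 𝓘(ℝ, E') f p u = 0) :
    (inner ℝ (cov Y p (X p)) u : ℝ) = - inner ℝ (cov X p (Y p)) u := by
  obtain ⟨U, hU, vU, hUp⟩ := exists_vert_ext hf hu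
  have h1 := inner_cov_vert hc hU hY vU hY' (X p)
  have h2 := inner_cov_vert hc hU hX vU hX' (Y p)
  have h3 := bundle_like' hf hc hU vU hX'.self_of_nhds hY'.self_of_nhds
  rw [hUp] at h1 h2
  rw [real_inner_comm, real_inner_comm u (cov X p (Y p))]
  linarith

/-- `∇_X X` is horizontal for horizontal `X` -/
theorem horiz_cov_self (hf : IsRiemSub (E := E) (E' := E') f) (hc : IsLeviCivita cov)
    {X : Π x : M, TangentSpace 𝓘(ℝ, E) x} (hX : SmoothNear X p)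
    (hX' : ∀ᶠ q in 𝓝 p, Horiz (E' := E') f q (X q)) : Horiz (E' := E') f p (cov X p (X p)) := by
  intro u hu
  have h1 := vert_cov_antisymm hf hc hX hX hX' hX' hu
  linarith

end Pool.Agent.PW
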