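import Pool.Agent.Lib.MP_a61a4c_gt.LC
import Pool.Agent.Lib.MP_a61a4c_gt.Sub

/-!
Row pw-VfA: brackets with vertical fields; the fibres are equidistant.
-/

set_option autoImplicit false

open Bundle Filter Function Topology
open scoped Manifold ContDiff Bundle

noncomputable section

namespace Pool.Agent.PW

variable {E : Type*} [NormedAddCommGroup E] [NormedSpace ℝ E] [FiniteDimensional ℝ E]
variable {M : Type*} [TopologicalSpace M] [ChartedSpace E M] [IsManifold 𝓘(ℝ, E) ∞ M]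
variable {E' : Type*} [NormedAddCommGroup E'] [NormedSpace ℝ E'] [FiniteDimensional ℝ E']
variable {B : Type*} [TopologicalSpace B] [ChartedSpace E' B] [IsManifold 𝓘(ℝ, E') ∞ B]
variable [RiemannianBundle (fun x : M => TangentSpace 𝓘(ℝ, E) x)]
  [IsContMDiffRiemannianBundle 𝓘(ℝ, E) ∞ E (fun x : M => TangentSpace 𝓘(ℝ, E) x)]
variable [RiemannianBundle (fun x : B => TangentSpace 𝓘(ℝ, E') x)]
  [IsContMDiffRiemannianBundle 𝓘(ℝ, E') ∞ E' (fun x : B => TangentSpace 𝓘(ℝ, E') x)]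

variable {f : M → B} {p : M}
  {cov : CovariantDerivative 𝓘(ℝ, E) E (TangentSpace 𝓘(ℝ, E) : M → Type _)}

/-- the bracket of two vertical fields is vertical (`bracket_related` with `X' = Y' = 0`) -/
theorem bracket_vert (hf : IsRiemSub (E := E) (E' := E') f) {U V : Π x : M, TangentSpace 𝓘(ℝ, E) x}
    (hU : SmoothNear U p) (hV : SmoothNear V p)
    (vU : ∀ᶠ q in 𝓝 p, mfderiv 𝓘(ℝ, E) 𝓘(ℝ, E') f q (U q) = 0)
    (vV : ∀ᶠ q in 𝓝 p, mfderiv 𝓘(ℝ, E) 𝓘(ℝ, E') f q (V q) = 0) :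
    mfderiv 𝓘(ℝ, E) 𝓘(ℝ, E') f p (VectorField.mlieBracket 𝓘(ℝ, E) U V p) = 0 := by
  haveI : CompleteSpace E := FiniteDimensional.complete ℝ E
  haveI : CompleteSpace E' := FiniteDimensional.complete ℝ E'
  have h := bracket_related (X' := fun x : B => (0 : TangentSpace 𝓘(ℝ, E') x))
    (Y' := fun x : B => (0 : TangentSpace 𝓘(ℝ, E') x)) hf.smooth hU hV
    (SmoothNear.zero _) (SmoothNear.zero _) vU vV
  rw [h]
  exact congrFun (VectorField.mlieBracket_zero_left (I := 𝓘(ℝ, E'))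
    (W := fun x : B => (0 : TangentSpace 𝓘(ℝ, E') x))) (f p)

/-- the bracket of a vertical field and a lift is vertical (`bracket_related` with `X' = 0`) -/
theorem bracket_vert_lift (hf : IsRiemSub (E := E) (E' := E') f)
    {U X : Π x : M, TangentSpace 𝓘(ℝ, E) x} {X' : Π x : B, TangentSpace 𝓘(ℝ, E') x}
    (hU : SmoothNear U p) (vU : ∀ᶠ q in 𝓝 p, mfderiv 𝓘(ℝ, E) 𝓘(ℝ, E') f q (U q) = 0)
    (hX : IsLift f p X X') :
    mfderiv 𝓘(ℝ, E) 𝓘(ℝ, E') f p (VectorField.mlieBracket 𝓘(ℝ, E) U X p) = 0 := by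
  haveI : CompleteSpace E := FiniteDimensional.complete ℝ E
  haveI : CompleteSpace E' := FiniteDimensional.complete ℝ E'
  have h := bracket_related (X' := fun x : B => (0 : TangentSpace 𝓘(ℝ, E') x))
    (Y' := X') hf.smooth hU hX.sm
    (SmoothNear.zero _) hX.sm' vU hX.rel
  rw [h]
  exact congrFun (VectorField.mlieBracket_zero_left (I := 𝓘(ℝ, E'))
    (W := X')) (f p)

/-- `⟨∇_x U, x⟩ = 0` for vertical `U` and horizontal `x`: with a lift `X` through `x`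
(`exists_horiz_ext`), `∇_X U = ∇_U X + [X, U]`, `⟨∇_U X, X⟩ = U ⟨X, X⟩ / 2 = 0` because
`⟨X, X⟩ = ⟨X', X'⟩ ∘ f` (`IsLift.inner_eq`, `mvfderiv_comp_base`), and `[X, U]` is vertical. -/
theorem bundle_like (hf : IsRiemSub (E := E) (E' := E') f) (hc : IsLeviCivita cov)
    {U : Π x : M, TangentSpace 𝓘(ℝ, E) x} (hU : SmoothNear U p)
    (vU : ∀ᶠ q in 𝓝 p, mfderiv 𝓘(ℝ, E) 𝓘(ℝ, E') f q (U q) = 0) {x : TangentSpace 𝓘(ℝ, E) p}
    (hx : Horiz (E' := E') f p x) : (inner ℝ (cov U p x) x : ℝ) = 0 := by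
  obtain ⟨X, X', hX, rfl⟩ := exists_horiz_ext hf hx
  have t := hc.torsion hU.mdiff hX.sm.mdiff
  have b := bracket_vert_lift hf hU vU hX
  have h0 : (inner ℝ (X p) (VectorField.mlieBracket 𝓘(ℝ, E) U X p) : ℝ) = 0 := hx _ b
  have m := hc.metric (U p) hX.sm.mdiff hX.sm.mdiff
  have z : mvfderiv 𝓘(ℝ, E) (fun y => (inner ℝ (X y) (X y) : ℝ)) p (U p) = 0 := by
    have e1 := mvfderiv_congr (E := E) (hX.inner_eq hf hX) (U p)
    rw [e1]
    have e2 := mvfderiv_comp_base (g := fun b : B => (inner ℝ (X' b) (X' b) : ℝ)) hf.smooth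
      (hX.sm'.inner hX.sm') (U p)
    rw [e2, vU.self_of_nhds, map_zero]
  rw [z, real_inner_comm (cov X p (U p)) (X p)] at m
  have e : cov U p (X p) = cov X p (U p) - VectorField.mlieBracket 𝓘(ℝ, E) U X p := by
    rw [← t]; abel
  rw [e, inner_sub_left, real_inner_comm (X p) (VectorField.mlieBracket 𝓘(ℝ, E) U X p), h0]
  linarith

/-- polarised form -/
theorem bundle_like' (hf : IsRiemSub (E := E) (E' := E') f) (hc : IsLeviCivita cov)
    {U : Π x : M, TangentSpace 𝓘(ℝ, E) x} (hU : SmoothNear U p)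
    (vU : ∀ᶠ q in 𝓝 p, mfderiv 𝓘(ℝ, E) 𝓘(ℝ, E') f q (U q) = 0) {x y : TangentSpace 𝓘(ℝ, E) p}
    (hx : Horiz (E' := E') f p x) (hy : Horiz (E' := E') f p y) :
    (inner ℝ (cov U p x) y : ℝ) = - inner ℝ (cov U p y) x := by
  have h1 := bundle_like hf hc hU vU hx
  have h2 := bundle_like hf hc hU vU hy
  have h3 := bundle_like hf hc hU vU (horiz_add hx hy)
  rw [map_add, inner_add_left, inner_add_right, inner_add_right, h1, h2] at h3
  linarith

end Pool.Agent.PW
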